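import Pool.Agent.Run7.h821.Tri2

/-!
# Birational line bundles are in linearly general position
-/

open scoped WithZero
open WithZero
open Pool.Agent.Helper395.CS hiding genus map_mul map_inv
open Pool.Agent.Helper395.BC

set_option linter.unusedSectionVars false
set_option linter.unusedVariables false

namespace Run7.h821

variable {K : Type} [Field K] [Algebra ℂ K]

theorem two_le_of_gp (hK : IsCurve K) (hg : genus K ≠ 0) {M : LineBundle K} (hM : GP 2 M) :
    2 ≤ Module.finrank ℂ (H0 M) := by
  have hbir : {y | ¬ GG (lsub M y)}.Finite := hM.2
  haveI := infinite_points hK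
  obtain ⟨y, hy⟩ := hbir.infinite_compl.nonempty
  have hy' : GG (lsub M y) := by
    by_contra h
    exact hy h
  obtain ⟨p⟩ := point_nonempty hK
  have h1 := finrank_lsub hK hg hM.1 y
  have h2 := finrank_lsub hK hg hy' p
  omega

theorem gp_of_two (hK : IsCurve K) (hg : genus K ≠ 0) (r : ℕ) : ∀ M : LineBundle K, GP 2 M →
    Module.finrank ℂ (H0 M) = r + 1 → GP r M := by
  induction r with
  | zero =>
    intro M hM h
    trivial
  | succ r ih =>
    intro M hM h
    match r, ih, h with
    | 0, _, _ => exact hM.1
    | 1, _, _ => exact hM
    | r + 2, ih, h =>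
      refine ⟨hM.1, (trisecant hK hg (M := M) (by omega) hM).subset fun y hy => ?_⟩
      intro hcon
      apply hy
      refine ih _ hcon ?_
      have h1 := finrank_lsub hK hg hM.1 y
      omega

/-- a base point free line bundle which separates general points is in linearly general position -/
theorem lgp_of_two (hK : IsCurve K) (hg : genus K ≠ 0) {M : LineBundle K} (hM : GP 2 M) : LGP M := by
  have h2 := two_le_of_gp hK hg hM
  refine lgp_of_gp hK hg h2 (gp_of_two hK hg _ M hM (by omega))

end Run7.h821
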