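import Pool.Agent.Run7.h821.Gal
import Pool.Agent.N147.BN.Drop

/-!
# The fibres of a function and the embeddings into the Galois closure
-/

open scoped WithZero IntermediateField
open WithZero
open Pool.Agent.Helper395.CS hiding genus
open Pool.Agent.Helper395.BC
open Pool.Agent.R858.QD (LiesOver existsUnique_image)

set_option linter.unusedSectionVars false
set_option linter.unusedVariables false

namespace Run7.h821

variable {K : Type} [Field K] [Algebra ℂ K]

theorem gg_iff (hK : IsCurve K) (hg : genus K ≠ 0) (L : LineBundle K) :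
    GG L ↔ ∀ v, Module.finrank ℂ (H0 (lsub L v)) < Module.finrank ℂ (H0 L) := by
  have hfd := (lHasChi hK hg L).1
  constructor
  · intro h v
    apply Submodule.finrank_lt_finrank_of_lt
    refine lt_of_le_of_ne ?_ ?_
    · intro f hf
      exact ((Pool.Agent.N147.BN.mem_H0_lsub L v f).1 hf).1
    · intro heq
      obtain ⟨w, hw, hwv⟩ := h v
      rw [← heq] at hw
      have := ((Pool.Agent.N147.BN.mem_H0_lsub L v w).1 hw).2
      rw [hwv] at this
      exact lt_irrefl _ this
  · intro h v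
    exact exists_generator L v (h v)

theorem gg_of_degree (hK : IsCurve K) (hg : genus K ≠ 0) (L : LineBundle K)
    (h : 2 * (genus K : ℤ) ≤ L.degree) : GG L := by
  rw [gg_iff hK hg]
  intro v
  obtain ⟨h1, h2, h3⟩ := lHasChi hK hg L
  obtain ⟨h4, h5, h6⟩ := lHasChi hK hg (lsub L v)
  rw [om1_eq_bot hK hg (by omega), finrank_bot] at h3
  rw [om1_eq_bot hK hg (by rw [lsub_degree]; omega), finrank_bot, lsub_degree] at h6
  omega

theorem exists_gen (hK : IsCurve K) (hg : genus K ≠ 0) {L : LineBundle K} (h : GG L)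
    (T : Finset (Point K)) : ∃ s ∈ H0 L, ∀ v ∈ T, v.val s = v.val (L.frame v : K) :=
  Pool.Agent.N147.BN.exists_gen_finite L ((gg_iff hK hg L).1 h) T.finite_toSet

theorem frame_lsub_self (L : LineBundle K) (v : Point K) :
    v.val ((lsub L v).frame v : K) = v.val (L.frame v : K) * exp (-1) := by
  rw [lsub, Pool.Agent.N147.BN.val_lmul, Pool.Agent.N147.BN.val_linv, lpt_frame_self, val_unif_inv,
    exp_neg]

theorem frame_lsub_ne (L : LineBundle K) {v w : Point K} (h : w ≠ v) :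
    w.val ((lsub L v).frame w : K) = w.val (L.frame w : K) := by
  rw [lsub, Pool.Agent.N147.BN.val_lmul, Pool.Agent.N147.BN.val_linv, lpt_frame_ne h, Units.val_one,
    map_one, inv_one, mul_one]

/-- a function which separates a point from finitely many others -/
theorem exists_sep (hK : IsCurve K) (hg : genus K ≠ 0) (z : Point K) (T : Finset (Point K)) :
    ∃ h : K, z.val h < 1 ∧ h ≠ 0 ∧ ∀ v ∈ T, v ≠ z → v.val h = 1 := by
  classical
  obtain ⟨L, hL⟩ := exists_large hK (2 * (genus K : ℤ) + 1)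
  obtain ⟨s, hs, hs'⟩ := exists_gen hK hg (gg_of_degree hK hg L (by omega)) (insert z T)
  obtain ⟨u, hu, hu'⟩ := exists_gen hK hg (gg_of_degree hK hg (lsub L z) (by rw [lsub_degree]; omega))
    (insert z T)
  have hs0 : s ≠ 0 := by
    intro h0
    have := hs' z (Finset.mem_insert_self z T)
    rw [h0, map_zero] at this
    exact (frame_pos L z).ne this
  have hu0 : u ≠ 0 := by
    intro h0
    have := hu' z (Finset.mem_insert_self z T)
    rw [h0, map_zero] at this
    exact (frame_pos (lsub L z) z).ne this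
  refine ⟨u / s, ?_, div_ne_zero hu0 hs0, ?_⟩
  · rw [map_div₀, hs' z (Finset.mem_insert_self z T), hu' z (Finset.mem_insert_self z T),
      frame_lsub_self, mul_div_assoc, mul_comm, div_mul_cancel₀ _ (frame_pos L z).ne']
    exact exp_lt_one
  · intro v hv hvz
    rw [map_div₀, hs' v (Finset.mem_insert_of_mem hv), hu' v (Finset.mem_insert_of_mem hv),
      frame_lsub_ne L hvz, div_self (frame_pos L v).ne']

section lies

variable {E : Type} [Field E] [Algebra ℂ E] {τ : K →ₐ[ℂ] E} {w : Point E} {z : Point K}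
  (h : LiesOver τ w z)
include h

theorem LiesOver.lt_iff (x : K) : w.val (τ x) < 1 ↔ z.val x < 1 := by
  rcases eq_or_ne x 0 with rfl | hx
  · simp
  have hx' : τ x ≠ 0 := (map_ne_zero τ).2 hx
  have h1 := h x⁻¹
  rw [map_inv₀, map_inv₀, map_inv₀, inv_le_one₀ (zero_lt_iff.2 (w.val_ne_zero hx')),
    inv_le_one₀ (zero_lt_iff.2 (z.val_ne_zero hx))] at h1
  rw [← not_le, ← not_le, h1]

theorem LiesOver.eq_iff (x : K) : w.val (τ x) = 1 ↔ z.val x = 1 := by
  have h1 := h x
  have h2 := LiesOver.lt_iff h x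
  constructor
  · intro h3
    rw [h3] at h1 h2
    exact le_antisymm (h1.1 le_rfl) (not_lt.1 fun h4 => lt_irrefl _ (h2.2 h4))
  · intro h3
    rw [h3] at h1 h2
    exact le_antisymm (h1.2 le_rfl) (not_lt.1 fun h4 => lt_irrefl _ (h2.1 h4))

end lies

theorem card_fibre (hK : IsCurve K) {t : K} (ht : Transcendental ℂ t) (a : ℂ) {Z : Finset (Point K)}
    (hZ : ∀ v, v ∈ Z ↔ v.val (t - algebraMap ℂ K a) < 1)
    (hZ' : ∀ v ∈ Z, v.val (t - algebraMap ℂ K a) = exp (-1)) : Z.card = Module.finrank ℂ⟮t⟯ K := by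
  have ha : Transcendental ℂ (t - algebraMap ℂ K a) := by
    intro h
    apply ht
    have := h.add (isAlgebraic_algebraMap (A := K) a)
    rwa [sub_add_cancel] at this
  have h0 : t - algebraMap ℂ K a ≠ 0 := ne_zero_of_transcendental ha
  have h1 := degZ_eq hK ha
  have h2 : (ℂ⟮t - algebraMap ℂ K a⟯ : IntermediateField ℂ K) = ℂ⟮t⟯ := by
    apply le_antisymm
    · rw [IntermediateField.adjoin_simple_le_iff]
      exact sub_mem (IntermediateField.mem_adjoin_simple_self ℂ t) (algebraMap_mem _ a)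
    · rw [IntermediateField.adjoin_simple_le_iff]
      have h3 : t = (t - algebraMap ℂ K a) + algebraMap ℂ K a := by ring
      nth_rewrite 2 [h3]
      exact add_mem (IntermediateField.mem_adjoin_simple_self ℂ _) (algebraMap_mem _ a)
  rw [h2] at h1
  have h4 : degZ (t - algebraMap ℂ K a) = Z.card := by
    rw [degZ, finsum_eq_sum_of_support_subset (s := Z)]
    · have h5 : ∀ v ∈ Z, max (v.ord (t - algebraMap ℂ K a)) 0 = 1 := by
        intro v hv
        rw [Point.ord, hZ' v hv, log_exp]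
        norm_num
      rw [Finset.sum_congr rfl h5]
      simp
    · intro v hv
      rw [Function.mem_support] at hv
      by_contra hvZ
      apply hv
      have h6 : ¬ v.val (t - algebraMap ℂ K a) < 1 := fun h => hvZ ((hZ v).2 h)
      rw [v.val_lt_one_iff h0] at h6
      rw [max_eq_right (by omega)]
  rw [h4] at h1
  exact_mod_cast h1

theorem fibre (hK : IsCurve K) (hg : genus K ≠ 0) {t : K} (ht : Transcendental ℂ t) {a : ℂ}
    {Z : Finset (Point K)} (hZ : ∀ v, v ∈ Z ↔ v.val (t - algebraMap ℂ K a) < 1)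
    (hZ' : ∀ v ∈ Z, v.val (t - algebraMap ℂ K a) = exp (-1))
    {E : Type} [Field E] [Algebra ℂ E] (hE : IsCurve E) {ι : Type} [Fintype ι] (τ : ι → K →ₐ[ℂ] E)
    (hcard : Fintype.card ι = Module.finrank ℂ⟮t⟯ K) (hτ : ∀ i j, ∀ x ∈ ℂ⟮t⟯, τ i x = τ j x)
    (hnorm : ∀ h : K, ∀ j, τ j (Algebra.norm ℂ⟮t⟯ h : ℂ⟮t⟯) = ∏ i, τ i h) {w : Point E}
    (hw : ∀ i, w.val (τ i (t - algebraMap ℂ K a)) < 1) {z : ι → Point K}
    (hz : ∀ i, LiesOver (τ i) w (z i)) :
    Function.Injective z ∧ (∀ i, z i ∈ Z) ∧ ∀ v ∈ Z, ∃ i, z i = v := by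
  classical
  have hfd := hK.finiteDimensional ht
  have hF := isCurve_adjoin hK ht
  have hZc := card_fibre hK ht a hZ hZ'
  have hN : 0 < Module.finrank ℂ⟮t⟯ K := Module.finrank_pos
  have h0 : t - algebraMap ℂ K a ≠ 0 := by
    intro h
    apply ht
    rw [sub_eq_zero.1 h]
    exact isAlgebraic_algebraMap a
  obtain ⟨j⟩ : Nonempty ι := Fintype.card_pos_iff.1 (hcard ▸ hN)
  have hzZ : ∀ i, z i ∈ Z := fun i => (hZ _).2 ((LiesOver.lt_iff (hz i) _).1 (hw i))
  -- the point of the line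
  obtain ⟨p, hp, -⟩ := existsUnique_image hF hE ((τ j).comp (ℂ⟮t⟯ : IntermediateField ℂ K).val) w
  obtain ⟨T, hT, -⟩ := Pool.Agent.R858.Nm.exists_fib (K := K) p
  have hmem : t - algebraMap ℂ K a ∈ ℂ⟮t⟯ :=
    sub_mem (IntermediateField.mem_adjoin_simple_self ℂ t) (algebraMap_mem _ a)
  set u : ℂ⟮t⟯ := ⟨t - algebraMap ℂ K a, hmem⟩ with hu
  have hu0 : u ≠ 0 := fun h => h0 (congrArg Subtype.val h)
  have hpu : p.val u < 1 := (LiesOver.lt_iff hp u).1 (hw j)
  have hTZ : T ⊆ Z := by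
    intro v hv
    rw [hZ]
    have h1 := (hT v).1 hv
    have h2 := h1 u⁻¹
    rw [map_inv₀, map_inv₀, map_inv₀] at h2
    change (v.val (t - algebraMap ℂ K a))⁻¹ ≤ 1 ↔ _ at h2
    rw [inv_le_one₀ (zero_lt_iff.2 (v.val_ne_zero h0)), inv_le_one₀ (zero_lt_iff.2 (p.val_ne_zero hu0))]
      at h2
    rw [← not_le, h2, not_le]
    exact hpu
  have hTeq : T = Z := by
    apply Finset.eq_of_subset_of_card_le hTZ
    have h1 := Pool.Agent.R858.Nm.norm_ord hF p h0 T hT
    have h2 : (Algebra.norm ℂ⟮t⟯ (t - algebraMap ℂ K a)) = u ^ Module.finrank ℂ⟮t⟯ K :=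
      Algebra.norm_algebraMap u
    rw [h2, p.ord_pow] at h1
    have h3 : ∑ v ∈ T, v.ord (t - algebraMap ℂ K a) = T.card := by
      have : ∀ v ∈ T, v.ord (t - algebraMap ℂ K a) = 1 := by
        intro v hv
        rw [Point.ord, hZ' v (hTZ hv), log_exp]
        norm_num
      rw [Finset.sum_congr rfl this]
      simp
    rw [h3] at h1
    have h4 : 0 < p.ord u := (p.val_lt_one_iff hu0).1 hpu
    rw [hZc]
    have h5 : (Module.finrank ℂ⟮t⟯ K : ℤ) * 1 ≤ Module.finrank ℂ⟮t⟯ K * p.ord u :=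
      mul_le_mul_of_nonneg_left (by omega) (by positivity)
    rw [h1] at h5
    omega
  have hsurj : ∀ v ∈ Z, ∃ i, z i = v := by
    intro v hv
    by_contra hcon
    push Not at hcon
    obtain ⟨h, hh1, hh0, hh2⟩ := exists_sep hK hg v Z
    have h1 := Pool.Agent.R858.Nm.norm_ord hF p hh0 T hT
    rw [hTeq, Finset.sum_eq_single v] at h1
    · have h2 : 0 < p.ord (Algebra.norm ℂ⟮t⟯ h) := by
        rw [h1]
        exact (v.val_lt_one_iff hh0).1 hh1
      have hn0 : Algebra.norm ℂ⟮t⟯ h ≠ 0 := Algebra.norm_ne_zero_iff.2 hh0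
      have h3 : p.val (Algebra.norm ℂ⟮t⟯ h) < 1 := (p.val_lt_one_iff hn0).2 h2
      have h4 : w.val (τ j (Algebra.norm ℂ⟮t⟯ h : ℂ⟮t⟯)) < 1 := (LiesOver.lt_iff hp _).2 h3
      rw [hnorm, map_prod] at h4
      rw [Finset.prod_eq_one] at h4
      · exact lt_irrefl _ h4
      · intro i _
        rw [LiesOver.eq_iff (hz i)]
        exact hh2 _ (hzZ i) (hcon i)
    · intro u hu huv
      have h2 := hh2 u hu huv
      rw [u.val_eq_one_iff hh0] at h2
      exact h2
    · intro h2
      exact absurd hv h2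
  refine ⟨?_, hzZ, hsurj⟩
  let f : ι → Z := fun i => ⟨z i, hzZ i⟩
  have hf : Function.Surjective f := fun v => by
    obtain ⟨i, hi⟩ := hsurj v.1 v.2
    exact ⟨i, Subtype.ext hi⟩
  have hf' : Function.Bijective f := (Fintype.bijective_iff_surjective_and_card f).2
    ⟨hf, by rw [hcard, Fintype.card_coe, hZc]⟩
  intro i i' hii
  exact hf'.1 (Subtype.ext hii)

end Run7.h821
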