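import Pool.Agent.N145.PC.Dual
import Pool.Agent.W619.TW.NDefs
import Pool.Agent.W602.GT.Defs

/-!
Curves on which all regular differentials are proportional: the numerical dimension is zero.
-/

set_option autoImplicit false
set_option linter.overlappingInstances false
set_option linter.unusedSectionVars false

open FF Module IntermediateField Pool.Agent.W619.PQ Pool.Agent.W603.LV
open Pool.Agent.W619.TW (NumLe IsSec HasIndep Dom)

namespace Run7.h821

variable {Λ F : Type} [Field Λ] [IsAlgClosed Λ] [CharZero Λ] [Field F] [Algebra Λ F] [IsFF Λ F]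

/-- On a curve which is not rational and on which all regular differentials are proportional to
`g`, the differential `g` has no zeros. -/
theorem ord_eq_of_prop (hrat : ¬ ∃ s : F, Λ⟮s⟯ = ⊤) {D : Derivation Λ F F} (hD0 : D ≠ 0)
    {g : F} (hg0 : g ≠ 0) (hg : ∀ Q : Place Λ F, vo Q D ≤ Q.ord g)
    (hprop : ∀ f : F, f ≠ 0 → (∀ Q : Place Λ F, vo Q D ≤ Q.ord f) → ∃ c : Λ, f = c • g)
    (P : Place Λ F) : P.ord g = vo P D := by
  classical
  by_contra hne
  have hlt : vo P D < P.ord g := lt_of_le_of_ne (hg P) (Ne.symm hne)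
  obtain ⟨π, hπ0, hπ⟩ := P.surj
  have hπt : Transcendental Λ π := P.transcendental_of_ord_ne (by omega)
  have hDπ : D π ≠ 0 := der_pi_ne_zero hD0 P hπ
  obtain ⟨D', hD'⟩ : ∃ D' : Derivation Λ F F, D' = (D π)⁻¹ • D := ⟨_, rfl⟩
  have hD'1 : D' π = 1 := by
    rw [hD', Derivation.smul_apply, smul_eq_mul, inv_mul_cancel₀ hDπ]
  have hvo : ∀ Q : Place Λ F, vo Q D = vo Q D' + Q.ord (D π) := by
    intro Q
    rw [hD', vo_smul Q hD0 (inv_ne_zero hDπ), Q.ord_inv]
    ring
  obtain ⟨b, hb1, hb2⟩ := Pool.Agent.N145.PC.dual (k := Λ) (F := F) (x := π) hπt (D := D') hD'1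
    {P} (fun _ => 0) (fun Q hQ => by
      rw [Finset.mem_singleton.1 hQ, map_zero, sub_zero]
      exact hπ) (fun _ => 1) (by
      intro f hf hf0 v hv
      rw [Finset.sum_singleton, one_mul]
      have h1 : ∀ Q : Place Λ F, vo Q D ≤ Q.ord (f * D π) := by
        intro Q
        rw [hvo Q, Q.ord_mul hf0 hDπ]
        have := hf Q
        linarith
      obtain ⟨c, hc⟩ := hprop _ (mul_ne_zero hf0 hDπ) h1
      have hc0 : c ≠ 0 := by
        rintro rfl
        rw [zero_smul] at hc
        exact mul_ne_zero hf0 hDπ hc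
      have h2 : P.ord f + P.ord (D π) = P.ord g := by
        rw [← P.ord_mul hf0 hDπ, hc, Algebra.smul_def, P.ord_mul (by simpa using hc0) hg0,
          P.ord_const hc0, zero_add]
      have h3 : P.ord (D π) = vo P D := vo_eq P hπ hD0
      have h4 : Ge P 1 f := Or.inr (by omega)
      have h5 := h4.sub (hv P (Finset.mem_singleton_self P))
      rw [sub_sub_cancel] at h5
      exact Pool.Agent.N145.PC.const_eq_zero P h5)
  have hbP : P.ord b = -1 := hb1 P (Finset.mem_singleton_self P) one_ne_zero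
  have hb0 : b ≠ 0 := by
    rintro rfl
    rw [P.ord_zero] at hbP
    omega
  have h3 : ∀ Q : Place Λ F, Q ≠ P → 0 ≤ Q.ord b := fun Q hQ =>
    (hb2 Q (by rw [Finset.mem_singleton]; exact hQ)).resolve_left hb0
  have hbt : Transcendental Λ b := P.transcendental_of_ord_ne (by omega)
  obtain ⟨T, hT, hT2⟩ := poles (k := Λ) (K := F) hbt
  have hTP : T = {P} := by
    ext Q
    rw [hT, Finset.mem_singleton]
    constructor
    · intro h
      by_contra hne
      have := h3 Q hne
      omega
    · rintro rfl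
      omega
  rw [hTP, Finset.sum_singleton, hbP, deg_one] at hT2
  refine hrat ⟨b, ?_⟩
  rw [← IntermediateField.finrank_eq_one_iff_eq_top, ← hT2]
  rfl

/-- A differential without zeros and poles: the numerical dimension is at most zero. -/
theorem numLe_of_ord {ξ : F} {D : Derivation Λ F F} (hD : D ξ = 1) {g : F}
    (hg0 : g ≠ 0) (hg : ∀ Q : Place Λ F, Q.ord g = vo Q D)
    (hder : ∀ G : Derivation Λ F F, G = G ξ • D) :
    NumLe Λ F 1 (fun _ => False) 0 := by
  classical
  have hD0 : D ≠ 0 := by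
    intro h
    rw [h] at hD
    exact zero_ne_one hD
  intro S
  obtain ⟨A, hA⟩ : ∃ A : Place Λ F →₀ ℤ, A = ∑ s ∈ S, polar (k := Λ) s := ⟨_, rfl⟩
  have hAs : ∀ s ∈ S, ∀ Q : Place Λ F, -A Q ≤ Q.ord s := by
    intro s hs Q
    have h1 : polar (k := Λ) s Q ≤ A Q := by
      rw [hA, Finsupp.finsetSum_apply]
      exact Finset.single_le_sum (f := fun s : F => polar (k := Λ) s Q)
        (fun i _ => polar_nonneg (k := Λ) i Q) hs
    rw [polar_apply] at h1
    have h2 := le_max_left (-Q.ord s) 0
    omega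
  refine ⟨finrank Λ (LL A), fun m N _ hind => ?_⟩
  obtain ⟨ω, hlin, hsec⟩ := hind
  rw [pow_zero, mul_one]
  obtain ⟨v, hv⟩ : ∃ v : Fin N → F, v = fun l => ω l (fun _ => D) / g ^ m := ⟨_, rfl⟩
  have hgm : g ^ m ≠ 0 := pow_ne_zero _ hg0
  have hval : ∀ l (c : F), ω l (fun _ => c • D) = c ^ m * ω l (fun _ => D) := by
    intro l c
    have h1 := (hsec l).1 (Matrix.of fun _ _ => c) (fun _ => D)
    rw [Matrix.det_unique] at h1
    simp only [Matrix.of_apply, Fin.sum_univ_one] at h1
    exact h1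
  have hvind : LinearIndependent Λ v := by
    rw [Fintype.linearIndependent_iff] at hlin ⊢
    intro a ha
    apply hlin a
    have h0 : ∑ l, a l • ω l (fun _ => D) = 0 := by
      have h1 : (∑ l, a l • ω l (fun _ => D)) / g ^ m = 0 := by
        rw [Finset.sum_div, ← ha, hv]
        refine Finset.sum_congr rfl fun l _ => ?_
        rw [Algebra.smul_def, Algebra.smul_def, mul_div_assoc]
      exact (div_eq_zero_iff.1 h1).resolve_right hgm
    funext G
    have hG : G = fun _ => (G 0 ξ) • D := by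
      funext i
      rw [Subsingleton.elim i 0]
      exact hder (G 0)
    rw [Finset.sum_apply, Pi.zero_apply]
    have h2 : ∀ l, (a l • ω l) G = (G 0 ξ) ^ m * (a l • ω l (fun _ => D)) := by
      intro l
      rw [Pi.smul_apply]
      conv_lhs => rw [hG]
      rw [hval, mul_smul_comm]
    rw [Finset.sum_congr rfl fun l _ => h2 l, ← Finset.mul_sum, h0, mul_zero]
  have hmem : ∀ l, v l ∈ LL A := by
    intro l
    rw [mem_LL]
    by_cases h0 : v l = 0
    · exact Or.inl h0
    right
    intro Q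
    have hω0 : ω l (fun _ => D) ≠ 0 := by
      intro h
      apply h0
      rw [hv]
      change ω l (fun _ => D) / g ^ m = 0
      rw [h, zero_div]
    obtain ⟨s, hs0, hs⟩ := Q.surj
    obtain ⟨c, hc⟩ : ∃ c : F, c = s ^ (-(vo Q D)) := ⟨_, rfl⟩
    have hc0 : c ≠ 0 := by
      rw [hc]
      exact zpow_ne_zero _ hs0
    have hcord : Q.ord c = -(vo Q D) := by
      rw [hc, Q.ord_zpow, hs, mul_one]
    have hpres : ∀ f, Q.Reg f → Q.Reg ((c • D) f) := by
      intro f hf
      change Q.Reg (c * D f)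
      obtain ⟨g', hg', hg''⟩ := der_mul Q hs hD0 (f := f) hf
      rw [hg'', ← mul_assoc]
      refine Q.reg_mul (Or.inr ?_) hg'
      have hDs : D s ≠ 0 := der_pi_ne_zero hD0 Q hs
      rw [Q.ord_mul hc0 hDs, hcord, vo_eq Q hs hD0]
      simp
    have hdiv : IsDivisorial Q 1 := by
      have : IsEmpty (Fin (1 - 1)) := inferInstanceAs (IsEmpty (Fin 0))
      refine ⟨Fin.elim0, fun p hp => ?_⟩
      have h3 : p = MvPolynomial.C (MvPolynomial.coeff 0 p) := MvPolynomial.eq_C_of_isEmpty p
      have h4 : MvPolynomial.coeff 0 p ≠ 0 := by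
        intro h5
        rw [h5, map_zero] at h3
        exact hp h3
      rw [h3, MvPolynomial.aeval_C]
      exact ⟨(_root_.map_ne_zero _).2 h4, Q.ord_const h4⟩
    have h1 := (hsec l).2.1 Q hdiv (fun h => h) (fun _ => c • D) (fun _ => hpres)
    rw [hval] at h1
    rcases h1 with h1 | ⟨s', hs', hs'0, h1⟩
    · exact absurd h1 (mul_ne_zero (pow_ne_zero _ hc0) hω0)
    · rw [Q.ord_mul (pow_ne_zero _ hc0) hω0, Q.ord_pow, hcord, Nat.cast_one, one_mul] at h1
      have h2 : Q.ord (v l) = Q.ord (ω l (fun _ => D)) - m * vo Q D := by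
        rw [hv]
        change Q.ord (ω l (fun _ => D) / g ^ m) = _
        rw [Q.ord_div hω0 hgm, Q.ord_pow, hg]
      have h3 := hAs s' hs' Q
      rw [h2]
      linarith
  have h1 : LinearIndependent Λ fun l => (⟨v l, hmem l⟩ : LL A) := by
    refine LinearIndependent.of_comp (LL A).subtype ?_
    exact hvind
  have h2 := h1.fintype_card_le_finrank
  rwa [Fintype.card_fin] at h2

end Run7.h821
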