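import Pool.Agent.R882.TCore

/-!
Algebraically independent ratios of the traces of several forms (after `Pool/Agent/R882/TRat.lean`,
which is for one form).
-/

set_option autoImplicit false
set_option linter.unusedSectionVars false
set_option linter.overlappingInstances false

open FF Module Pool.Agent.W602.GT Pool.Agent.W603.LV Pool.Agent.W619.PQ Pool.Agent.Y172
open Pool.Agent.Y184.NT Pool.Agent.R882.LT

namespace Run7.h821

open Pool.Agent.Y954.NT (exists_lift trace_der rel2)

/-- vector fields which respect the ratios of the traces of several forms kill the coordinates and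
the ratios of the forms -/
theorem sep_multi {L K : Type} [Field L] [Field K] [Algebra ℂ L] [Algebra ℂ K]
    [Algebra L K] [IsScalarTower ℂ L K] [FiniteDimensional L K] {N m r : ℕ}
    {x : Fin N → K} {j0 : Fin N} (hj0 : x j0 = 1)
    (hgenL : IntermediateField.adjoin L (Set.range x) = ⊤)
    (hfin : 2 * Module.finrank L K ≤ m + 1)
    {h : Fin r → K} {i0 : Fin r} (hh : h i0 ≠ 0) {T : Fin r × (Fin m → Fin N) → L}
    (hT : ∀ p, T p = Algebra.trace L K ((∏ k, x (p.2 k)) * h p.1)) (D : Derivation ℂ L L)
    (hTD : ∀ f g, T f * D (T g) = T g * D (T f)) (D' : Derivation ℂ K K)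
    (hD' : ∀ f, D' (algebraMap L K f) = algebraMap L K (D f)) :
    (∀ j, D' (x j) = 0) ∧ ∀ i, D' (h i / h i0) = 0 := by
  classical
  have hchar : CharZero L := charZero_of_injective_algebraMap (algebraMap ℂ L).injective
  have hpos : 0 < finrank L K := finrank_pos
  have hx : ∀ j, D' (x j) = 0 := fun j =>
    sep_coord Pool.Agent.Y141.NT.stCB2 hj0 hgenL hfin hh (T := fun f => T (i0, f))
      (fun f => hT (i0, f)) D (fun f g => hTD _ _) D' hD' j
  refine ⟨hx, ?_⟩
  -- a nonzero trace
  obtain ⟨g, hg⟩ : ∃ g, T g ≠ 0 := by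
    by_contra hcon
    push Not at hcon
    have h1 := (Pool.Agent.Y614.NT.stLine Pool.Agent.Y153.NT.stCB L K N m x j0 hj0 hgenL (h i0) hh
      (fun f => by rw [← hT (i0, f), hcon]) (by omega)).1
    omega
  obtain ⟨lam, hlam⟩ : ∃ lam : L, ∀ f, D (T f) = lam * T f := by
    refine ⟨D (T g) / T g, fun f => ?_⟩
    have h1 := hTD f g
    rw [div_mul_eq_mul_div, eq_div_iff hg]
    linear_combination -h1
  have hprod : ∀ (f : Fin m → Fin N) (s : Finset (Fin m)), D' (∏ k ∈ s, x (f k)) = 0 := by
    intro f s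
    induction s using Finset.induction_on with
    | empty => simp [D'.map_one_eq_zero]
    | insert i s hi ih =>
      rw [Finset.prod_insert hi, D'.leibniz, ih, hx, smul_zero, smul_zero, add_zero]
  have key : ∀ i, D' (h i) = algebraMap L K lam * h i := by
    intro i
    by_contra hne
    have hne' : D' (h i) - algebraMap L K lam * h i ≠ 0 := sub_ne_zero.2 hne
    have h1 := (Pool.Agent.Y614.NT.stLine Pool.Agent.Y153.NT.stCB L K N m x j0 hj0 hgenL _ hne'
      (fun f => by
        have h2 := trace_der hD' ((∏ k, x (f k)) * h i)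
        rw [← hT (i, f), hlam, D'.leibniz, hprod, smul_zero, add_zero, smul_eq_mul] at h2
        have h3 : (∏ k, x (f k)) * (D' (h i) - algebraMap L K lam * h i) =
            (∏ k, x (f k)) * D' (h i) - lam • ((∏ k, x (f k)) * h i) := by
          rw [Algebra.smul_def]
          ring
        rw [h3, map_sub, map_smul, h2, ← hT (i, f), smul_eq_mul, sub_self]) (by omega)).1
    omega
  intro i
  rw [Derivation.leibniz_div, key, key]
  simp only [smul_eq_mul]
  have h1 : h i0 * (algebraMap L K lam * h i) - h i * (algebraMap L K lam * h i0) = 0 := by ring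
  rw [h1, mul_zero]

section

variable {L K : Type} [Field L] [Field K] [Algebra ℂ L] [Algebra ℂ K] [Algebra L K]
  [IsScalarTower ℂ L K] [FiniteDimensional L K] [Algebra.EssFiniteType ℂ L]
  [Algebra.EssFiniteType ℂ K] {n N m d r : ℕ}

/-- **Canonical forms from the traces of several forms.** -/
theorem canon_multi (hL : Algebra.trdeg ℂ L = n) {BK : Place ℂ K → Prop}
    {BL : Place ℂ L → Prop}
    (hB : ∀ (P : Place ℂ L) (Q : Place ℂ K) (e : ℕ), Over Q P e → BK Q → BL P)
    {x : Fin N → K} {j0 : Fin N} (hj0 : x j0 = 1)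
    {ω : Fin r → (Fin n → Derivation ℂ K K) → K} (hω : ∀ i, IsPluri 1 (ω i))
    (hreg : ∀ (i : Fin r) (f : Fin m → Fin N) (P : Place ℂ K), Divisorial n P →
      SecAt BK P (fun D => (∏ k, x (f k)) * ω i D))
    {y : Fin n → L} {E : Fin n → Derivation ℂ L L} (hy : IsTranscendenceBasis ℂ y)
    (hE : ∀ i j, E i (y j) = if i = j then 1 else 0) {E' : Fin n → Derivation ℂ K K}
    (hE' : ∀ i f, E' i (algebraMap L K f) = algebraMap L K (E i f))
    (hdeg : 2 * Module.finrank L (IntermediateField.adjoin L (Set.range x)) ≤ m + 1)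
    {x' : Fin N → IntermediateField.adjoin L (Set.range x)} (hx' : ∀ j, (x' j : K) = x j)
    {h : Fin r → IntermediateField.adjoin L (Set.range x)}
    (hh : ∀ i, h i = Algebra.trace (IntermediateField.adjoin L (Set.range x)) K (ω i E'))
    {i0 : Fin r} (hne : h i0 ≠ 0)
    (hd : Algebra.trdeg ℂ (IntermediateField.adjoin ℂ
      (Set.range (Fin.append x' fun i => h i / h i0))) = d) :
    ∃ η : Fin (d + 1) → (Fin n → Derivation ℂ L L) → L, (∀ l, IsPluri 1 (η l)) ∧
      (∀ l (P : Place ℂ L), Divisorial n P → SecAt BL P (η l)) ∧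
      ∃ D, (∀ l, η l D ≠ 0) ∧
        AlgebraicIndependent ℂ (fun l : Fin d => η l.succ D / η 0 D) := by
  classical
  have hcL : CharZero L := charZero_of_injective_algebraMap (algebraMap ℂ L).injective
  obtain ⟨W, hWdef⟩ : ∃ W : Fin r × (Fin m → Fin N) → (Fin n → Derivation ℂ K K) → K,
    W = fun p D => (∏ k, x (p.2 k)) * ω p.1 D := ⟨_, rfl⟩
  have hWp : ∀ f, IsPluri 1 (W f) := by
    intro f A D
    rw [hWdef]
    change (∏ k, x (f.2 k)) * ω f.1 (fun i => ∑ j, A i j • D j) = _
    rw [hω f.1 A D]
    ring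
  have hWr : ∀ f (P : Place ℂ K), Divisorial n P → SecAt BK P (W f) := by
    intro f P hP
    rw [hWdef]
    exact hreg f.1 f.2 P hP
  obtain ⟨T, hTdef⟩ : ∃ T : Fin r × (Fin m → Fin N) → L, ∀ f, T f = Algebra.trace L K (W f E') :=
    ⟨_, fun _ => rfl⟩
  have hT : ∀ f, T f = Algebra.trace L (IntermediateField.adjoin L (Set.range x))
      ((∏ k, x' (f.2 k)) * h f.1) := by
    intro f
    have h2 : W f E' = (∏ k, x' (f.2 k)) • ω f.1 E' := by
      rw [hWdef, Algebra.smul_def]
      change (∏ k, x (f.2 k)) * ω f.1 E' = _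
      congr 1
      rw [map_prod]
      exact Finset.prod_congr rfl fun k _ => (hx' _).symm
    rw [hTdef, h2, ← Algebra.trace_trace (S := IntermediateField.adjoin L (Set.range x)),
      map_smul, smul_eq_mul, hh]
  have hθE : ∀ t, trForm y t E = t := by
    intro t
    have h1 : (Matrix.of fun i j => E i (y j) : Matrix (Fin n) (Fin n) L) = 1 := by
      ext i j
      rw [Matrix.of_apply, hE, Matrix.one_apply]
    rw [trForm, h1, Matrix.det_one, one_mul]
  have hθr : ∀ f (P : Place ℂ L), Divisorial n P → SecAt BL P (trForm y (T f)) := by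
    intro f P hP
    rw [hTdef]
    exact trForm_sec hL hy hE hE' (W f) (hWp f) hB (hWr f) P hP
  have hj0' : x' j0 = 1 := by
    apply Subtype.ext
    rw [hx', hj0]
    rfl
  have hsep := sep_multi (L := L)
    (K := IntermediateField.adjoin L (Set.range x)) (x := x') (j0 := j0) hj0'
    (Pool.Agent.R882.WR.gen_self x' hx') hdeg hne hT
  have hT0 : ∃ f, T f ≠ 0 := by
    by_contra hcon
    push Not at hcon
    have h1 := (Pool.Agent.Y614.NT.stLine Pool.Agent.Y153.NT.stCB L
      (IntermediateField.adjoin L (Set.range x)) N m x' j0 hj0'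
      (Pool.Agent.R882.WR.gen_self x' hx') _ hne
      (fun f => by rw [← hT (i0, f), hcon]) (by omega)).1
    have h2 : 0 < Module.finrank L (IntermediateField.adjoin L (Set.range x)) :=
      Module.finrank_pos
    omega
  obtain ⟨s, hs0, hs⟩ := exists_ratios_d (d := d) hL hd T hT0 fun D h1 D' h2 j => by
    have h3 := hsep D h1 D' h2
    refine Fin.addCases (fun j => ?_) (fun j => ?_) j
    · rw [Fin.append_left]
      exact h3.1 j
    · rw [Fin.append_right]
      exact h3.2 j
  refine ⟨fun j => trForm y (T (s j)), fun l => trForm_pluri y _, fun l P hP => hθr _ P hP,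
    E, ?_, ?_⟩
  · intro l
    change trForm y (T (s l)) E ≠ 0
    rw [hθE]
    refine Fin.cases hs0 (fun i => ?_) l
    intro h0
    have h3 := hs.ne_zero i
    rw [h0, zero_div] at h3
    exact h3 rfl
  · simp only [hθE]
    exact hs

end

end Run7.h821
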