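import Pool.Agent.Run7.h821.FibA
import Pool.Agent.W619.Y.Unir
import Pool.Agent.W619.PQ.Norm

/-!
The geometric genus of function fields.
-/

set_option autoImplicit false
set_option linter.overlappingInstances false
set_option linter.unusedSectionVars false

open FF Module IntermediateField Pool.Agent.W619.PQ Pool.Agent.W603.LV
open Pool.Agent.W602.GT (Divisorial RegAt IsPluri DerReg)
open Pool.Agent.W619.TW (NumLe NumNeg IsSec HasIndep Dom)

namespace Run7.h821

/-- The geometric genus of the varieties of dimension `w` over `k` with the function field `K` is at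
most `g`: any `g + 1` canonical forms which are regular at all prime divisors are linearly
dependent over `k`. -/
def GenusLe (k K : Type) [Field k] [Field K] [Algebra k K] (w g : ℕ) : Prop :=
  ∀ ω : Fin (g + 1) → (Fin w → Derivation k K K) → K, (∀ j, IsPluri 1 (ω j)) →
    (∀ j (P : Place k K), Divisorial w P → RegAt P (ω j)) →
    ∃ c : Fin (g + 1) → k, c ≠ 0 ∧ ∀ D, ∑ j, algebraMap k K (c j) * ω j D = 0

section

variable {Λ F : Type} [Field Λ] [IsAlgClosed Λ] [CharZero Λ] [Field F] [Algebra Λ F] [IsFF Λ F]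

theorem der_eq_smul {ξ : F} (hξ : Transcendental Λ ξ) {D : Derivation Λ F F} (hD : D ξ = 1)
    (G : Derivation Λ F F) : G = G ξ • D := by
  have h1 : ∀ z, G z = (G ξ • D) z := by
    refine der_ext hξ ?_
    rw [Derivation.smul_apply, smul_eq_mul, hD, mul_one]
  exact Derivation.ext h1

theorem divisorial_one (Q : Place Λ F) : Divisorial 1 Q := by
  have : IsEmpty (Fin (1 - 1)) := inferInstanceAs (IsEmpty (Fin 0))
  refine ⟨Fin.elim0, fun p hp => ?_⟩
  have h3 : p = MvPolynomial.C (MvPolynomial.coeff 0 p) := MvPolynomial.eq_C_of_isEmpty p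
  have h4 : MvPolynomial.coeff 0 p ≠ 0 := by
    intro h5
    rw [h5, map_zero] at h3
    exact hp h3
  rw [h3, MvPolynomial.aeval_C]
  exact ⟨(_root_.map_ne_zero _).2 h4, Q.ord_const h4⟩

/-- the values of regular differentials -/
theorem regAt_iff {ξ : F} (hξ : Transcendental Λ ξ) {D : Derivation Λ F F} (hD : D ξ = 1)
    {ω : (Fin 1 → Derivation Λ F F) → F} (hω : IsPluri 1 ω) (Q : Place Λ F) :
    RegAt Q ω ↔ (ω (fun _ => D) = 0 ∨ vo Q D ≤ Q.ord (ω fun _ => D)) := by
  have hD0 : D ≠ 0 := by
    intro h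
    rw [h] at hD
    exact zero_ne_one hD
  have hval : ∀ c : F, ω (fun _ => c • D) = c * ω (fun _ => D) := by
    intro c
    have h1 := hω (Matrix.of fun _ _ => c) (fun _ => D)
    rw [Matrix.det_unique, pow_one] at h1
    simp only [Matrix.of_apply, Fin.sum_univ_one] at h1
    exact h1
  obtain ⟨s, hs0, hs⟩ := Q.surj
  have hDs : D s ≠ 0 := der_pi_ne_zero hD0 Q hs
  constructor
  · intro h
    by_cases h0 : ω (fun _ => D) = 0
    · exact Or.inl h0
    right
    obtain ⟨c, hc⟩ : ∃ c : F, c = s ^ (-(vo Q D)) := ⟨_, rfl⟩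
    have hc0 : c ≠ 0 := by
      rw [hc]
      exact zpow_ne_zero _ hs0
    have hcord : Q.ord c = -(vo Q D) := by
      rw [hc, Q.ord_zpow, hs, mul_one]
    have h1 := h (fun _ => c • D) (fun _ f hf => by
      change Q.Reg (c * D f)
      obtain ⟨g', hg', hg''⟩ := der_mul Q hs hD0 (f := f) hf
      rw [hg'', ← mul_assoc]
      refine Q.reg_mul (Or.inr ?_) hg'
      rw [Q.ord_mul hc0 hDs, hcord, vo_eq Q hs hD0]
      simp)
    rw [hval] at h1
    have h2 := h1.resolve_left (mul_ne_zero hc0 h0)
    rw [Q.ord_mul hc0 h0, hcord] at h2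
    linarith
  · intro h G hG
    have hG' : G = fun _ => (G 0 ξ) • D := by
      funext i
      rw [Subsingleton.elim i 0]
      exact der_eq_smul hξ hD (G 0)
    rw [hG', hval]
    by_cases h1 : G 0 ξ * ω (fun _ => D) = 0
    · exact Or.inl h1
    right
    have hGξ : G 0 ξ ≠ 0 := left_ne_zero_of_mul h1
    have hω0 : ω (fun _ => D) ≠ 0 := right_ne_zero_of_mul h1
    have h2 := hG 0 s (Or.inr (by rw [hs]; norm_num))
    rw [der_eq_smul hξ hD (G 0), Derivation.smul_apply, smul_eq_mul] at h2
    have h3 := h2.resolve_left (mul_ne_zero hGξ hDs)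
    rw [Q.ord_mul hGξ hDs, vo_eq Q hs hD0] at h3
    rw [Q.ord_mul hGξ hω0]
    have := h.resolve_left hω0
    linarith

/-- the genus through the values of the regular differentials -/
theorem genusLe_iff {ξ : F} (hξ : Transcendental Λ ξ) {D : Derivation Λ F F} (hD : D ξ = 1)
    {g : ℕ} : GenusLe Λ F 1 g ↔ ∀ f : Fin (g + 1) → F,
      (∀ j (Q : Place Λ F), f j = 0 ∨ vo Q D ≤ Q.ord (f j)) →
      ∃ c : Fin (g + 1) → Λ, c ≠ 0 ∧ ∑ j, algebraMap Λ F (c j) * f j = 0 := by
  constructor
  · intro h f hf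
    have hp : ∀ j, IsPluri 1 (fun (G : Fin 1 → Derivation Λ F F) => G 0 ξ * f j) := by
      intro j A G
      change (∑ l, A 0 l • G l) ξ * f j = A.det ^ 1 * (G 0 ξ * f j)
      rw [Matrix.det_unique, Fin.sum_univ_one, Derivation.smul_apply, smul_eq_mul, pow_one]
      have h6 : A (default : Fin 1) (default : Fin 1) = A 0 0 := rfl
      rw [h6]
      ring
    obtain ⟨c, hc0, hc⟩ := h (fun j G => G 0 ξ * f j) hp (fun j Q _ => by
      rw [regAt_iff hξ hD (hp j)]
      beta_reduce
      rw [hD, one_mul]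
      exact hf j Q)
    refine ⟨c, hc0, ?_⟩
    have h1 := hc (fun _ => D)
    beta_reduce at h1
    simpa only [hD, one_mul] using h1
  · intro h ω hω hreg
    obtain ⟨c, hc0, hc⟩ := h (fun j => ω j fun _ => D) (fun j Q =>
      (regAt_iff hξ hD (hω j) Q).1 (hreg j Q (divisorial_one Q)))
    refine ⟨c, hc0, fun G => ?_⟩
    have hG' : G = fun _ => (G 0 ξ) • D := by
      funext i
      rw [Subsingleton.elim i 0]
      exact der_eq_smul hξ hD (G 0)
    have hval : ∀ j, ω j G = G 0 ξ * ω j (fun _ => D) := by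
      intro j
      conv_lhs => rw [hG']
      have h1 := hω j (Matrix.of fun _ _ => G 0 ξ) (fun _ => D)
      rw [Matrix.det_unique, pow_one] at h1
      simp only [Matrix.of_apply, Fin.sum_univ_one] at h1
      exact h1
    have h1 : ∑ j, algebraMap Λ F (c j) * ω j G =
        G 0 ξ * ∑ j, algebraMap Λ F (c j) * ω j (fun _ => D) := by
      rw [Finset.mul_sum]
      refine Finset.sum_congr rfl fun j _ => ?_
      rw [hval]
      ring
    rw [h1, hc, mul_zero]

/-- rational curves have genus zero -/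
theorem genusLe_of_rational (h : ∃ s : F, Λ⟮s⟯ = ⊤) : GenusLe Λ F 1 0 := by
  obtain ⟨s, hs⟩ := h
  have hst : Transcendental Λ s := by
    intro h1
    obtain ⟨x, hx⟩ := IsFF.exists_transcendental (k := Λ) (K := F)
    apply hx
    have h2 : Algebra.IsAlgebraic Λ (IntermediateField.adjoin Λ {s}) :=
      IntermediateField.isAlgebraic_adjoin_simple h1.isIntegral
    have h4 : x ∈ IntermediateField.adjoin Λ {s} := by
      rw [hs]
      trivial
    have h5 := h2.isAlgebraic ⟨_, h4⟩
    exact (isAlgebraic_algebraMap_iff (R := Λ)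
      (algebraMap (IntermediateField.adjoin Λ {s}) F).injective).2 h5
  have htr : Algebra.trdeg Λ F = (1 : ℕ) := by
    rw [IsFF.trdeg (k := Λ) (K := F)]
    simp
  have hun : IsUniruled Λ F 1 := by
    refine ⟨Λ, inferInstance, inferInstance, inferInstance, ?_, ?_⟩
    · have h1 : Algebra.trdeg Λ Λ = 0 := trdeg_eq_zero
      rw [h1, zero_add]
      simp
    · let e1 : RatFunc Λ ≃ₐ[Λ] IntermediateField.adjoin Λ {s} :=
        RatFunc.algEquivOfTranscendental s hst
      let e2 : IntermediateField.adjoin Λ {s} ≃ₐ[Λ] F :=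
        (IntermediateField.equivOfEq hs).trans IntermediateField.topEquiv
      exact ⟨(e1.trans e2).symm.toAlgHom⟩
  have hess : Algebra.EssFiniteType Λ F := IsFF.ess
  have hneg := (Pool.Agent.W619.Y.uniruled_neg (k := Λ) (K := F) 1 htr hun).2
  have hd0 := der_ne (k := Λ) (K := F)
  have hd1 := der_ne_zero hd0 hst
  obtain ⟨D, hDd⟩ : ∃ D : Derivation Λ F F, D = (der Λ F s)⁻¹ • der Λ F := ⟨_, rfl⟩
  have hD : D s = 1 := by
    rw [hDd, Derivation.smul_apply, smul_eq_mul, inv_mul_cancel₀ hd1]
  intro ω hω hreg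
  obtain ⟨m0, hm0⟩ := hneg {1}
  have h0 : ω 0 (fun _ => D) = 0 := by
    by_contra hne
    refine hm0 m0 le_rfl ⟨fun _ G => ω 0 G ^ m0, ?_, fun l => ⟨?_, ?_, fun v _ h => h.elim⟩⟩
    · refine LinearIndependent.of_subsingleton (0 : Fin 1) fun h => ?_
      have h1 := congrFun h (fun _ => D)
      exact pow_ne_zero _ hne h1
    · intro A G
      beta_reduce
      rw [hω 0 A G, pow_one, mul_pow]
    · intro Q _ _ G hG
      have h1 : Q.Reg (ω 0 G) := hreg 0 Q (divisorial_one Q) G fun i => hG i
      have h2 : Q.Reg (ω 0 G ^ m0) := pow_mem (show ω 0 G ∈ Q.O from h1) _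
      rcases h2 with h | h
      · exact Or.inl h
      · refine Or.inr ⟨1, Finset.mem_singleton_self _, one_ne_zero, ?_⟩
        rw [Q.ord_one, mul_zero]
        exact h
  refine ⟨fun _ => 1, fun h => one_ne_zero (congrFun h 0), fun G => ?_⟩
  have hG' : G = fun _ => (G 0 s) • D := by
    funext i
    rw [Subsingleton.elim i 0]
    exact der_eq_smul hst hD (G 0)
  have h1 := hω 0 (Matrix.of fun _ _ => G 0 s) (fun _ => D)
  rw [Matrix.det_unique, pow_one] at h1
  simp only [Matrix.of_apply, Fin.sum_univ_one] at h1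
  rw [Fin.sum_univ_one, map_one, one_mul, hG', h1, h0, mul_zero]

/-- **Genus one.** If the regular differentials are proportional, and there is one, then the
numerical dimension is at most zero. -/
theorem numLe_of_genus (h1 : GenusLe Λ F 1 1) (h0 : ¬ GenusLe Λ F 1 0) :
    NumLe Λ F 1 (fun _ => False) 0 := by
  have hrat : ¬ ∃ s : F, Λ⟮s⟯ = ⊤ := fun h => h0 (genusLe_of_rational h)
  obtain ⟨ξ, hξ⟩ := IsFF.exists_transcendental (k := Λ) (K := F)
  have hd0 := der_ne (k := Λ) (K := F)
  have hd1 := der_ne_zero hd0 hξ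
  obtain ⟨D, hDd⟩ : ∃ D : Derivation Λ F F, D = (der Λ F ξ)⁻¹ • der Λ F := ⟨_, rfl⟩
  have hD : D ξ = 1 := by
    rw [hDd, Derivation.smul_apply, smul_eq_mul, inv_mul_cancel₀ hd1]
  have hD0 : D ≠ 0 := by
    intro h
    rw [h] at hD
    exact zero_ne_one hD
  obtain ⟨g, hg0, hg⟩ := exists_regular (k := Λ) (F := F) hrat hD0
  refine numLe_of_ord hD hg0 (ord_eq_of_prop hrat hD0 hg0 hg fun f hf0 hf => ?_)
    (der_eq_smul hξ hD)
  obtain ⟨c, hc0, hc⟩ := (genusLe_iff hξ hD).1 h1 ![g, f] (by
    intro j Q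
    fin_cases j
    · exact Or.inr (hg Q)
    · exact Or.inr (hf Q))
  rw [Fin.sum_univ_two] at hc
  simp only [Matrix.cons_val_zero, Matrix.cons_val_one] at hc
  have hc1 : c 1 ≠ 0 := by
    intro h
    rw [h, map_zero, zero_mul, add_zero] at hc
    have h2 : c 0 = 0 := by
      have h3 := (mul_eq_zero.1 hc).resolve_right hg0
      exact (map_eq_zero _).1 h3
    apply hc0
    funext j
    fin_cases j
    · exact h2
    · exact h
  refine ⟨-(c 0) / c 1, ?_⟩
  have hc1' : algebraMap Λ F (c 1) ≠ 0 := (_root_.map_ne_zero _).2 hc1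
  rw [Algebra.smul_def, map_div₀, map_neg]
  field_simp
  linear_combination hc

end

section

variable {k K K' : Type} [Field k] [Field K] [Field K'] [Algebra k K] [Algebra k K']

theorem sum_der' {ι : Type} (s : Finset ι) (c : ι → K) (D : ι → Derivation k K K) (f : K) :
    (∑ i ∈ s, c i • D i) f = ∑ i ∈ s, c i * D i f := by
  classical
  induction s using Finset.induction_on with
  | empty => simp
  | insert i s hi ih =>
    rw [Finset.sum_insert hi, Finset.sum_insert hi, Derivation.add_apply, ih,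
      Derivation.smul_apply, smul_eq_mul]

/-- transport of derivations -/
def conjDer (e : K ≃ₐ[k] K') (D : Derivation k K K) : Derivation k K' K' where
  toFun z := e (D (e.symm z))
  map_add' a b := by rw [map_add, map_add, map_add]
  map_smul' c a := by rw [map_smul, Derivation.map_smul, map_smul, RingHom.id_apply]
  map_one_eq_zero' := by
    change e (D (e.symm 1)) = 0
    rw [map_one, D.map_one_eq_zero, map_zero]
  leibniz' a b := by
    change e (D (e.symm (a * b))) = a • e (D (e.symm b)) + b • e (D (e.symm a))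
    rw [map_mul, D.leibniz, map_add, smul_eq_mul, smul_eq_mul, map_mul, map_mul,
      AlgEquiv.apply_symm_apply, AlgEquiv.apply_symm_apply, smul_eq_mul, smul_eq_mul]

@[simp] theorem conjDer_apply (e : K ≃ₐ[k] K') (D : Derivation k K K) (z : K') :
    conjDer e D z = e (D (e.symm z)) := rfl

/-- transport of places -/
def conjPlace (e : K ≃ₐ[k] K') (P : Place k K) : Place k K' where
  ord z := P.ord (e.symm z)
  ord_zero := by rw [map_zero, P.ord_zero]
  ord_mul {f g} hf hg := by
    rw [map_mul]
    exact P.ord_mul (by simpa using hf) (by simpa using hg)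
  ord_add {f g} hf hg hfg := by
    rw [map_add]
    exact P.ord_add (by simpa using hf) (by simpa using hg) (by
      rw [← map_add]
      exact (map_ne_zero_iff _ e.symm.injective).2 hfg)
  ord_const {c} hc := by
    rw [AlgEquiv.commutes]
    exact P.ord_const hc
  surj := by
    obtain ⟨t, ht0, ht⟩ := P.surj
    exact ⟨e t, by simpa using ht0, by rw [AlgEquiv.symm_apply_apply]; exact ht⟩

theorem conjPlace_reg (e : K ≃ₐ[k] K') (P : Place k K) (z : K') :
    (conjPlace e P).Reg z ↔ P.Reg (e.symm z) := by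
  change (z = 0 ∨ 0 ≤ P.ord (e.symm z)) ↔ (e.symm z = 0 ∨ 0 ≤ P.ord (e.symm z))
  rw [map_eq_zero_iff _ e.symm.injective]

/-- **The genus is invariant under isomorphisms.** -/
theorem genusLe_congr (e : K ≃ₐ[k] K') {w g : ℕ} (h : GenusLe k K w g) : GenusLe k K' w g := by
  intro ω hω hreg
  obtain ⟨c, hc0, hc⟩ := h (fun j D => e.symm (ω j fun i => conjDer e (D i))) (by
    intro j A D
    beta_reduce
    have h1 : (fun i => conjDer e (∑ l, A i l • D l)) =
        fun i => ∑ l, (A.map e) i l • conjDer e (D l) := by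
      funext i
      ext z
      rw [conjDer_apply, sum_der', sum_der', map_sum]
      refine Finset.sum_congr rfl fun l _ => ?_
      rw [map_mul]
      rfl
    rw [h1, hω j, map_mul, map_pow]
    congr 2
    have h2 : (A.map e).det = e A.det := by
      rw [AlgEquiv.map_det]
      rfl
    rw [h2, AlgEquiv.symm_apply_apply]) (by
    intro j P hP D hD
    have hP' : Divisorial w (conjPlace e P) := by
      obtain ⟨u, hu⟩ := hP
      refine ⟨fun i => e (u i), fun p hp => ?_⟩
      have h1 : MvPolynomial.aeval (fun i => e (u i)) p = e (MvPolynomial.aeval u p) := by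
        have h2 := MvPolynomial.comp_aeval_apply (f := u) (e : K →ₐ[k] K') p
        exact h2.symm
      obtain ⟨h3, h4⟩ := hu p hp
      rw [h1]
      refine ⟨by simpa using h3, ?_⟩
      change P.ord (e.symm (e _)) = 0
      rw [AlgEquiv.symm_apply_apply]
      exact h4
    have h1 := hreg j (conjPlace e P) hP' (fun i => conjDer e (D i)) (by
      intro i f hf
      rw [conjPlace_reg] at hf ⊢
      rw [conjDer_apply, AlgEquiv.symm_apply_apply]
      exact hD i _ hf)
    exact (conjPlace_reg e P _).1 h1)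
  refine ⟨c, hc0, fun D => ?_⟩
  have h1 := hc fun i => conjDer e.symm (D i)
  have h2 : (fun i => conjDer e (conjDer e.symm (D i))) = D := by
    funext i
    ext z
    simp
  beta_reduce at h1
  rw [h2] at h1
  have h3 := congrArg e h1
  rw [map_sum, map_zero] at h3
  rw [← h3]
  refine Finset.sum_congr rfl fun j _ => ?_
  rw [map_mul, AlgEquiv.apply_symm_apply, AlgEquiv.commutes]

end

end Run7.h821
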