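import Pool.Agent.R882.GLc
import Pool.Agent.Run7.h821.FibG

/-!
The geometric generic fibre of a fibration by curves, and its images (after
`Pool/Agent/R882/GLb.lean` and `Pool/Agent/R882/GLc.lean`).
-/

set_option autoImplicit false
set_option linter.overlappingInstances false
set_option linter.unusedSectionVars false
set_option maxHeartbeats 4000000
set_option synthInstance.maxHeartbeats 400000

open IntermediateField Module FF Pool.Agent.W619.PQ Pool.Agent.W603.LV
open Pool.Agent.W602.GT (Divisorial RegAt IsPluri)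
open Pool.Agent.W619.TW (NumLe)
open Pool.Agent.R882.LT (TraceNe)
open Pool.Agent.R882.GL (trace_fib reg_res uniruled_geo)

namespace Run7.h821

section

variable {B K Λ F : Type} [Field B] [Field K] [Field Λ] [Field F] [Algebra B K] [Algebra B Λ]
  [Algebra Λ F] [Algebra K F] [Algebra B F] [IsScalarTower B Λ F] [IsScalarTower B K F]
  [CharZero B] [Algebra.IsAlgebraic B Λ] [IsAlgClosed Λ]

/-- **The traces generate the regular differentials of the image.** -/
theorem span_image (hF : IsFF Λ F)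
    (hcl : ∀ x : K, IsIntegral B x → ∃ y : B, algebraMap B K y = x)
    (hgenF : IntermediateField.adjoin Λ (Set.range (algebraMap K F)) = ⊤)
    (E : IntermediateField B K) [FiniteDimensional E K] (FE : IntermediateField Λ F)
    (hFE : FE = IntermediateField.adjoin Λ (algebraMap K F '' E)) {ξ : K} (hξE : ξ ∈ E)
    (hξ : Transcendental Λ (algebraMap K F ξ)) {D : Derivation Λ F F}
    (hD : D (algebraMap K F ξ) = 1) {J : Type} [Finite J] (g : J → K)
    (hspan : ∀ f : F, f ≠ 0 → (∀ Q : Place Λ F, vo Q D ≤ Q.ord f) →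
      f ∈ Submodule.span Λ (Set.range fun j => algebraMap K F (g j))) :
    IsFF Λ FE ∧ ∃ (ξE : FE) (DE : Derivation Λ FE FE), Transcendental Λ ξE ∧ DE ξE = 1 ∧
      ∀ f : FE, f ≠ 0 → (∀ q : Place Λ FE, vo q DE ≤ q.ord f) → (f : F) ∈ Submodule.span Λ
        (Set.range fun j => algebraMap K F ((Algebra.trace E K (g j) : E) : K)) := by
  classical
  have hΛ0 : CharZero Λ := charZero_of_injective_algebraMap (algebraMap B Λ).injective
  obtain ⟨hfin, htrace⟩ := trace_fib (F := F) hcl hgenF E FE hFE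
  have hess : Algebra.EssFiniteType Λ F := hF.ess
  have hessE : Algebra.EssFiniteType Λ FE := Pool.Agent.TH466.QG.ess_below (K := F)
  have htrE : Algebra.trdeg Λ FE = 1 := by
    have h1 := trdeg_add_eq Λ FE (A := F)
    have h2 : Algebra.trdeg FE F = 0 := trdeg_eq_zero
    rw [h2, add_zero, hF.trdeg] at h1
    exact h1
  have hFFE : IsFF Λ FE := ⟨hessE, htrE⟩
  have hξF : algebraMap K F ξ ∈ FE := by
    rw [hFE]
    exact IntermediateField.subset_adjoin _ _ ⟨ξ, hξE, rfl⟩
  have hξ' : Transcendental Λ (⟨algebraMap K F ξ, hξF⟩ : FE) := by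
    intro h
    apply hξ
    exact (isAlgebraic_algebraMap_iff (algebraMap FE F).injective).2 h
  have hd0 := der_ne (k := Λ) (K := FE)
  have hd1 := der_ne_zero hd0 hξ'
  obtain ⟨DE, hDE⟩ : ∃ DE : Derivation Λ FE FE,
      DE = (der Λ FE ⟨algebraMap K F ξ, hξF⟩)⁻¹ • der Λ FE := ⟨_, rfl⟩
  have hDE1 : DE ⟨algebraMap K F ξ, hξF⟩ = 1 := by
    rw [hDE, Derivation.smul_apply, smul_eq_mul, inv_mul_cancel₀ hd1]
  have hDE0 : DE ≠ 0 := by
    intro h
    rw [h] at hDE1
    exact zero_ne_one hDE1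
  have hD0 : D ≠ 0 := by
    intro h
    rw [h] at hD
    exact zero_ne_one hD
  obtain ⟨D2, hD2, hext2⟩ := exists_ext (E := F) DE hDE0
  have hDD : ∀ z : F, D2 z = D z := by
    refine der_ext hξ ?_
    have h1 := hext2 ⟨algebraMap K F ξ, hξF⟩
    rw [hDE1, map_one] at h1
    rw [hD]
    exact h1
  have hext : ∀ z : FE, D (algebraMap FE F z) = algebraMap FE F (DE z) := fun z => by
    rw [← hDD, hext2]
  refine ⟨hFFE, ⟨algebraMap K F ξ, hξF⟩, DE, hξ', hDE1, fun f hf0 hf => ?_⟩
  have hf0' : algebraMap FE F f ≠ 0 := (_root_.map_ne_zero _).2 hf0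
  have hfreg : ∀ Q : Place Λ F, vo Q D ≤ Q.ord (algebraMap FE F f) := by
    intro Q
    obtain ⟨q, e, hq⟩ := Pool.Agent.Y172.exists_below (K := FE) Q
    have h1 := vo_over hq hDE0 hD0 hext
    have h2 := hf q
    have h3 : Q.ord (algebraMap FE F f) = e * q.ord f := hq.2 f
    have h4 : (1 : ℤ) ≤ e := by exact_mod_cast hq.1
    rw [h1, h3]
    have h5 := mul_le_mul_of_nonneg_left h2 (by omega : (0 : ℤ) ≤ e)
    linarith
  have hmem := hspan _ hf0' hfreg
  obtain ⟨τ, hτ⟩ : ∃ τ : F →ₗ[Λ] F, τ = (Algebra.linearMap FE F).restrictScalars Λ ∘ₗ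
    (Algebra.trace FE F).restrictScalars Λ := ⟨_, rfl⟩
  have hτa : ∀ z, τ z = ((Algebra.trace FE F z : FE) : F) := by
    intro z
    rw [hτ]
    rfl
  have h1 : τ (algebraMap FE F f) ∈ (Submodule.span Λ
      (Set.range fun j => algebraMap K F (g j))).map τ := Submodule.mem_map_of_mem hmem
  rw [Submodule.map_span, ← Set.range_comp] at h1
  have h2 : (τ ∘ fun j => algebraMap K F (g j)) =
      fun j => algebraMap K F ((Algebra.trace E K (g j) : E) : K) := by
    funext j
    rw [Function.comp_apply, hτa, htrace]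
  rw [h2, hτa, Algebra.trace_algebraMap, nsmul_eq_mul] at h1
  have h3 : 0 < Module.finrank FE F := Module.finrank_pos
  have h4 : ((Module.finrank FE F : ℕ) : Λ) ≠ 0 := by exact_mod_cast h3.ne'
  have h5 : (((((Module.finrank FE F : ℕ) : FE) * f : FE)) : F) =
      ((Module.finrank FE F : ℕ) : Λ) • (f : F) := by
    rw [Algebra.smul_def, map_natCast]
    push_cast
    rfl
  rw [h5] at h1
  exact (Submodule.smul_mem_iff _ h4).1 h1

end

variable {K : Type} [Field K] [Algebra ℂ K] {n : ℕ}

section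

variable {B Λ F : Type} [Field B] [Field Λ] [Field F] [Algebra ℂ B] [Algebra B K]
  [IsScalarTower ℂ B K] [Algebra B Λ] [Algebra Λ F] [Algebra K F] [Algebra B F]
  [IsScalarTower B Λ F] [IsScalarTower B K F] [Algebra ℂ Λ] [Algebra ℂ F] [IsScalarTower ℂ Λ F]
  [IsScalarTower ℂ K F] [IsScalarTower ℂ B Λ] [Algebra.IsAlgebraic B Λ] [IsAlgClosed Λ]

/-- Coordinates and frames. -/
theorem fib_setup [hess : Algebra.EssFiniteType ℂ K] (hK : Algebra.trdeg ℂ K = (n + 1 : ℕ))
    (hB : Algebra.trdeg ℂ B = n)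
    (hgenF : IntermediateField.adjoin Λ (Set.range (algebraMap K F)) = ⊤)
    (E' : IntermediateField B K) [FiniteDimensional E' K] :
    ∃ (tB : Fin n → B) (ξ : K)
      (D0 : Fin (n + 1) → Derivation ℂ (E'.restrictScalars ℂ : IntermediateField ℂ K)
        (E'.restrictScalars ℂ : IntermediateField ℂ K))
      (Ef : Fin (n + 1) → Derivation ℂ K K) (D : Derivation Λ F F),
      IsTranscendenceBasis ℂ tB ∧ ξ ∈ E' ∧ IsTranscendenceBasis B (fun _ : Fin (0 + 1) => ξ) ∧
      IsTranscendenceBasis ℂ (Fin.append (algebraMap B K ∘ tB) (fun _ : Fin (0 + 1) => ξ)) ∧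
      (∀ i f, Ef i (algebraMap (E'.restrictScalars ℂ : IntermediateField ℂ K) K f) =
        algebraMap (E'.restrictScalars ℂ : IntermediateField ℂ K) K (D0 i f)) ∧
      (∀ i j, Ef i (Fin.append (algebraMap B K ∘ tB) (fun _ : Fin (0 + 1) => ξ) j) =
        if i = j then 1 else 0) ∧
      IsFF Λ F ∧ Algebra.IsAlgebraic K F ∧ Transcendental Λ (algebraMap K F ξ) ∧
      D (algebraMap K F ξ) = 1 := by
  classical
  have hB0 : CharZero B := charZero_of_injective_algebraMap (algebraMap ℂ B).injective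
  have hΛ0 : CharZero Λ := charZero_of_injective_algebraMap (algebraMap B Λ).injective
  -- the coordinates
  obtain ⟨tB, htB⟩ := Pool.Agent.W636.PG.exists_basis ℂ B n hB
  have hLK : Algebra.trdeg B K = (1 : ℕ) :=
    Pool.Agent.Y174.trdeg_LK (r := 1) hB hK
  obtain ⟨ξ, hξE, hξ⟩ : ∃ ξ : K, ξ ∈ E' ∧ ¬ IsAlgebraic B ξ := by
    by_contra hcon
    push Not at hcon
    have h1 : Algebra.IsAlgebraic B E' := ⟨fun z => by
      have h2 := hcon (z : K) z.2
      exact (isAlgebraic_algebraMap_iff (R := B) (algebraMap E' K).injective).1 h2⟩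
    have h2 : Algebra.IsAlgebraic B K := Algebra.IsAlgebraic.trans B E' K
    have h3 : Algebra.trdeg B K = 0 := trdeg_eq_zero
    rw [h3] at hLK
    have h4 : (0 : ℕ) = 1 := by exact_mod_cast hLK
    exact zero_ne_one h4
  have hxB : IsTranscendenceBasis B (fun _ : Fin (0 + 1) => ξ) := by
    have h1 : AlgebraicIndependent B (fun _ : Fin (0 + 1) => ξ) := by
      have : Unique (Fin (0 + 1)) := inferInstanceAs (Unique (Fin 1))
      rw [algebraicIndependent_unique_type_iff]
      exact hξ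
    refine h1.isTranscendenceBasis_of_lift_trdeg_le_of_finite ?_
    rw [hLK]
    simp
  have hZ := Pool.Agent.Y174.basis_append htB hxB
  -- the frame, lifted from `E'`
  obtain ⟨EE, hEE⟩ : ∃ EE : IntermediateField ℂ K, EE = E'.restrictScalars ℂ := ⟨_, rfl⟩
  have hfinE : FiniteDimensional EE K := by
    rw [hEE]
    exact inferInstanceAs (FiniteDimensional E' K)
  have hEtr : Algebra.trdeg ℂ EE = (n + 1 : ℕ) :=
    Pool.Agent.Y184.NT.trdeg_below (K := K) hK
  have hmemE : ∀ i, Fin.append (algebraMap B K ∘ tB) (fun _ : Fin (0 + 1) => ξ) i ∈ EE := by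
    intro i
    rw [hEE]
    refine Fin.addCases (fun i => ?_) (fun i => ?_) i
    · rw [Fin.append_left]
      exact E'.algebraMap_mem (tB i)
    · rw [Fin.append_right]
      exact hξE
  obtain ⟨zE, hzE⟩ : ∃ zE : Fin (n + 1) → EE, ∀ i, (zE i : K) =
    Fin.append (algebraMap B K ∘ tB) (fun _ : Fin (0 + 1) => ξ) i :=
      ⟨fun i => ⟨_, hmemE i⟩, fun _ => rfl⟩
  have hzEb : IsTranscendenceBasis ℂ zE := by
    have h1 : AlgebraicIndependent ℂ zE := by
      refine AlgebraicIndependent.of_comp EE.val ?_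
      have h2 : (EE.val ∘ zE) = Fin.append (algebraMap B K ∘ tB) (fun _ : Fin (0 + 1) => ξ) :=
        funext hzE
      rw [h2]
      exact hZ.1
    refine h1.isTranscendenceBasis_of_lift_trdeg_le_of_finite ?_
    rw [hEtr]
    simp
  obtain ⟨D0, hD0⟩ := Pool.Agent.W636.PG.exists_duals ℂ EE (n + 1) zE hzEb
  choose Ef hEf using fun i => Pool.Agent.Y172.exists_lift (k := ℂ) (K := EE) (L := K) hEtr (D0 i)
  have hEd : ∀ i j, Ef i (Fin.append (algebraMap B K ∘ tB) (fun _ : Fin (0 + 1) => ξ) j) =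
      if i = j then 1 else 0 := by
    intro i j
    rw [← hzE j]
    have h1 := hEf i (zE j)
    rw [hD0] at h1
    refine h1.trans ?_
    by_cases h : i = j
    · rw [if_pos h, if_pos h, map_one]
    · rw [if_neg h, if_neg h, map_zero]
  -- the fibre
  have htrF : Algebra.trdeg Λ F = (1 : ℕ) :=
    Pool.Agent.Y174.trdeg_F (L := B) (K := K) hLK hgenF
  have hessF : Algebra.EssFiniteType Λ F := Pool.Agent.Y174.ess_F (k := ℂ) (K := K) hess hgenF
  have hFF : IsFF Λ F := ⟨hessF, by rw [htrF]; simp⟩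
  have hKFalg : Algebra.IsAlgebraic K F := Pool.Agent.Y174.alg_KF (L := B) hgenF
  have hξF : Transcendental Λ (algebraMap K F ξ) := by
    intro h
    apply hξ
    have h1 : IsAlgebraic B (algebraMap K F ξ) := h.restrictScalars B
    exact (isAlgebraic_algebraMap_iff (R := B) (algebraMap K F).injective).1 h1
  have hd0 := der_ne (k := Λ) (K := F)
  have hd1 := der_ne_zero hd0 hξF
  obtain ⟨D, hDd⟩ : ∃ D : Derivation Λ F F, D = (der Λ F (algebraMap K F ξ))⁻¹ • der Λ F :=
    ⟨_, rfl⟩
  have hD1 : D (algebraMap K F ξ) = 1 := by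
    rw [hDd, Derivation.smul_apply, smul_eq_mul, inv_mul_cancel₀ hd1]
  subst hEE
  exact ⟨tB, ξ, D0, Ef, D, htB, hξE, hxB, hZ, hEf, hEd, hFF, hKFalg, hξF, hD1⟩

/-- **Genus and independent forms.** If `r` is at least the genus of the geometric generic fibre,
then the restrictions of `r` independent regular forms generate the regular differentials. -/
theorem span_of_genus [hess : Algebra.EssFiniteType ℂ K] (hK : Algebra.trdeg ℂ K = (n + 1 : ℕ))
    (hcl : ∀ x : K, IsIntegral B x → ∃ y : B, algebraMap B K y = x)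
    [Algebra.IsAlgebraic K F] (hFF : IsFF Λ F) {tB : Fin n → B} (htB : IsTranscendenceBasis ℂ tB)
    {ξ : K} (hxB : IsTranscendenceBasis B (fun _ : Fin (0 + 1) => ξ))
    (hZ : IsTranscendenceBasis ℂ (Fin.append (algebraMap B K ∘ tB) (fun _ : Fin (0 + 1) => ξ)))
    {Ef : Fin (n + 1) → Derivation ℂ K K}
    (hEd : ∀ i j, Ef i (Fin.append (algebraMap B K ∘ tB) (fun _ : Fin (0 + 1) => ξ) j) =
      if i = j then 1 else 0) {D : Derivation Λ F F} (hξ : Transcendental Λ (algebraMap K F ξ))
    (hD1 : D (algebraMap K F ξ) = 1) {r : ℕ} (hg : GenusLe Λ F 1 r)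
    (ω : Fin r → (Fin (n + 1) → Derivation ℂ K K) → K) (hω : ∀ j, IsPluri 1 (ω j))
    (hreg : ∀ j (P : Place ℂ K), Divisorial (n + 1) P → RegAt P (ω j))
    (hind : ∀ b : Fin r → B, (∀ G, ∑ j, algebraMap B K (b j) * ω j G = 0) → b = 0)
    {f : F} (hf : ∀ Q : Place Λ F, vo Q D ≤ Q.ord f) :
    f ∈ Submodule.span Λ (Set.range fun j => algebraMap K F (ω j Ef)) := by
  classical
  have hB0 : CharZero B := charZero_of_injective_algebraMap (algebraMap ℂ B).injective
  have hΛ0 : CharZero Λ := charZero_of_injective_algebraMap (algebraMap B Λ).injective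
  -- independence over `B`
  have hlinB : LinearIndependent B fun j => ω j Ef := by
    rw [Fintype.linearIndependent_iff]
    intro b hb
    have h1 := hind b fun G => by
      have h2 : ∀ j, ω j G = (Matrix.of fun a c => G a
          (Fin.append (algebraMap B K ∘ tB) (fun _ : Fin (0 + 1) => ξ) c)).det ^ 1 * ω j Ef :=
        fun j => Pool.Agent.Y172.pluri_coord hZ hEd (hω j) G
      have h3 : ∑ j, algebraMap B K (b j) * ω j G = (Matrix.of fun a c => G a
          (Fin.append (algebraMap B K ∘ tB) (fun _ : Fin (0 + 1) => ξ) c)).det ^ 1 *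
            ∑ j, b j • ω j Ef := by
        rw [Finset.mul_sum]
        refine Finset.sum_congr rfl fun j _ => ?_
        rw [h2 j, Algebra.smul_def]
        ring
      rw [h3, hb, mul_zero]
    exact fun j => congrFun h1 j
  have hlin := Pool.Agent.Y174.lin_disj (Λ := Λ) (F := F) hcl hlinB
  obtain ⟨c, hc0, hc⟩ := (genusLe_iff hξ hD1).1 hg
    (Fin.cons f fun j => algebraMap K F (ω j Ef)) (by
      intro j Q
      refine Fin.cases ?_ (fun j => ?_) j
      · rw [Fin.cons_zero]
        exact Or.inr (hf Q)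
      · rw [Fin.cons_succ]
        exact reg_res (Λ := Λ) hK hFF htB hxB hEd hD1 (hω j) (hreg j) Q)
  rw [Fin.sum_univ_succ, Fin.cons_zero] at hc
  simp only [Fin.cons_succ] at hc
  have hc0' : c 0 ≠ 0 := by
    intro h
    rw [h, map_zero, zero_mul, zero_add] at hc
    have h1 := (Fintype.linearIndependent_iff.1 hlin) (fun j => c j.succ) (by
      rw [← hc]
      exact Finset.sum_congr rfl fun j _ => by rw [Algebra.smul_def])
    apply hc0
    funext j
    refine Fin.cases h (fun j => ?_) j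
    exact h1 j
  have h1 : c 0 • f ∈ Submodule.span Λ (Set.range fun j => algebraMap K F (ω j Ef)) := by
    have h2 : c 0 • f = -∑ j : Fin r, c j.succ • algebraMap K F (ω j Ef) := by
      rw [eq_neg_iff_add_eq_zero, ← hc, Algebra.smul_def]
      congr 1
      exact Finset.sum_congr rfl fun j _ => by rw [Algebra.smul_def]
    rw [h2]
    exact neg_mem (Submodule.sum_mem _ fun j _ =>
      Submodule.smul_mem _ _ (Submodule.subset_span ⟨j, rfl⟩))
  exact (Submodule.smul_mem_iff _ hc0').1 h1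

end

end Run7.h821
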