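import Pool.Agent.Run7.h821.FibC

/-!
The images of a fibration by curves: rational images of the fibres, images of genus one, and images
of larger genus.
-/

set_option autoImplicit false
set_option linter.overlappingInstances false
set_option linter.unusedSectionVars false
set_option maxHeartbeats 4000000
set_option synthInstance.maxHeartbeats 400000

open IntermediateField Module FF Pool.Agent.W619.PQ Pool.Agent.W603.LV
open Pool.Agent.W602.GT (Divisorial RegAt IsPluri)
open Pool.Agent.W619.TW (NumLe)
open Pool.Agent.R882.LT (TraceNe)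
open Pool.Agent.R882.GL (trace_fib reg_res uniruled_geo)

namespace Run7.h821

variable {K : Type} [Field K] [Algebra ℂ K] {n : ℕ}

/-- The ratio of the traces of two of the forms `ω j` on the field `F0` is not in `B`. -/
def RatioNe (B : Type) [Field B] [Algebra B K] {r : ℕ}
    (ω : Fin r → (Fin n → Derivation ℂ K K) → K) (F0 : IntermediateField ℂ K) : Prop :=
  ∃ (D : Fin n → Derivation ℂ F0 F0) (D' : Fin n → Derivation ℂ K K),
    (∀ i f, D' i (algebraMap F0 K f) = algebraMap F0 K (D i f)) ∧
    ∃ i0 i1, Algebra.trace F0 K (ω i0 D') ≠ 0 ∧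
      ∀ b : B, ((Algebra.trace F0 K (ω i1 D') : F0) : K) ≠
        algebraMap B K b * ((Algebra.trace F0 K (ω i0 D') : F0) : K)

section

variable {B Λ F : Type} [Field B] [Field Λ] [Field F] [Algebra ℂ B] [Algebra B K]
  [IsScalarTower ℂ B K] [Algebra B Λ] [Algebra Λ F] [Algebra K F] [Algebra B F]
  [IsScalarTower B Λ F] [IsScalarTower B K F] [Algebra ℂ Λ] [Algebra ℂ F] [IsScalarTower ℂ Λ F]
  [IsScalarTower ℂ K F] [IsScalarTower ℂ B Λ] [Algebra.IsAlgebraic B Λ] [IsAlgClosed Λ]

/-- **Images of fibrations by curves.** -/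
theorem fib_main [hess : Algebra.EssFiniteType ℂ K] (hK : Algebra.trdeg ℂ K = (n + 1 : ℕ))
    (hessB : Algebra.EssFiniteType ℂ B) (hB : Algebra.trdeg ℂ B = n)
    (hcl : ∀ x : K, IsIntegral B x → ∃ y : B, algebraMap B K y = x)
    (hgenF : IntermediateField.adjoin Λ (Set.range (algebraMap K F)) = ⊤)
    (E' : IntermediateField B K) [FiniteDimensional E' K] {r : ℕ} (hg : GenusLe Λ F 1 r)
    (ω : Fin r → (Fin (n + 1) → Derivation ℂ K K) → K) (hω : ∀ j, IsPluri 1 (ω j))
    (hreg : ∀ j (P : Place ℂ K), Divisorial (n + 1) P → RegAt P (ω j))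
    (hind : ∀ b : Fin r → B, (∀ G, ∑ j, algebraMap B K (b j) * ω j G = 0) → b = 0)
    (FE : IntermediateField Λ F)
    (hFE : FE = IntermediateField.adjoin Λ (algebraMap K F '' E')) :
    (GenusLe Λ FE 1 0 → IsUniruled ℂ (E'.restrictScalars ℂ) (n + 1)) ∧
    ((∀ j, ¬ TraceNe (ω j) (E'.restrictScalars ℂ)) → GenusLe Λ FE 1 0) ∧
    (GenusLe Λ FE 1 1 → ¬ GenusLe Λ FE 1 0 →
      NumLe ℂ (E'.restrictScalars ℂ : IntermediateField ℂ K) (n + 1) (fun _ => False) n) ∧
    (¬ GenusLe Λ FE 1 1 → RatioNe B ω (E'.restrictScalars ℂ)) := by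
  classical
  have hB0 : CharZero B := charZero_of_injective_algebraMap (algebraMap ℂ B).injective
  have hΛ0 : CharZero Λ := charZero_of_injective_algebraMap (algebraMap B Λ).injective
  obtain ⟨tB, ξ, D0, Ef, D, htB, hξE, hxB, hZ, hEf, hEd, hFF, hKFalg, hξF, hD1⟩ :=
    fib_setup (Λ := Λ) (F := F) hK hB hgenF E'
  have hspanF : ∀ f : F, f ≠ 0 → (∀ Q : Place Λ F, vo Q D ≤ Q.ord f) →
      f ∈ Submodule.span Λ (Set.range fun j => algebraMap K F (ω j Ef)) := fun f _ hf =>
    span_of_genus hK hcl hFF htB hxB hZ hEd hξF hD1 hg ω hω hreg hind hf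
  obtain ⟨hFFE, ξE, DE, hξE', hDE1, hspan⟩ := span_image hFF hcl hgenF E' FE hFE hξE hξF hD1
    (fun j => ω j Ef) hspanF
  have hDE0 : DE ≠ 0 := by
    intro h
    rw [h] at hDE1
    exact zero_ne_one hDE1
  have hmemFE : ∀ e : K, e ∈ E' → algebraMap K F e ∈ FE := by
    intro e he
    rw [hFE]
    exact IntermediateField.subset_adjoin _ _ ⟨e, he, rfl⟩
  -- the traces
  have htrE : ∀ z : K, ((Algebra.trace E' K z : E') : K) =
      ((Algebra.trace (E'.restrictScalars ℂ : IntermediateField ℂ K) K z :
        (E'.restrictScalars ℂ : IntermediateField ℂ K)) : K) := fun z => rfl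
  have hessE : Algebra.EssFiniteType ℂ (E'.restrictScalars ℂ : IntermediateField ℂ K) := by
    have h1 : FiniteDimensional (E'.restrictScalars ℂ : IntermediateField ℂ K) K :=
      inferInstanceAs (FiniteDimensional E' K)
    exact Pool.Agent.TH466.QG.ess_below (K := K)
  have hEtr' : Algebra.trdeg ℂ (E'.restrictScalars ℂ : IntermediateField ℂ K) = (n + 1 : ℕ) := by
    have h1 : FiniteDimensional (E'.restrictScalars ℂ : IntermediateField ℂ K) K :=
      inferInstanceAs (FiniteDimensional E' K)
    exact Pool.Agent.Y184.NT.trdeg_below (K := K) hK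
  refine ⟨fun h0 => ?_, fun htr => ?_, fun h1 h0 => ?_, fun h1 => ?_⟩
  · -- genus zero
    have hrat : ∃ s : FE, IntermediateField.adjoin Λ {s} = ⊤ := by
      by_contra hrat
      obtain ⟨f, hf0, hf⟩ := exists_regular (k := Λ) (F := FE) hrat hDE0
      obtain ⟨c, hc0, hc⟩ := (genusLe_iff hξE' hDE1).1 h0 (fun _ => f) fun _ Q => Or.inr (hf Q)
      rw [Fin.sum_univ_one] at hc
      have h2 := (mul_eq_zero.1 hc).resolve_right hf0
      apply hc0
      funext j
      have hj : j = (0 : Fin 1) := Subsingleton.elim (α := Fin 1) j 0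
      rw [hj]
      exact (map_eq_zero _).1 h2
    obtain ⟨s, hs⟩ := hrat
    have hΛtr : Algebra.trdeg ℂ Λ = (n : ℕ) := by
      have h1 := trdeg_add_eq ℂ B (A := Λ)
      have h2 : Algebra.trdeg B Λ = 0 := trdeg_eq_zero
      rw [h2, add_zero, hB] at h1
      exact h1.symm
    have hsF : Transcendental Λ ((s : FE) : F) := by
      intro h
      have h1 : IsAlgebraic Λ s :=
        (isAlgebraic_algebraMap_iff (R := Λ) (algebraMap FE F).injective).1 h
      have h2 : Algebra.IsAlgebraic Λ (IntermediateField.adjoin Λ {s}) :=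
        IntermediateField.isAlgebraic_adjoin_simple h1.isIntegral
      have h3 : IsAlgebraic Λ (⟨algebraMap K F ξ, hmemFE ξ hξE⟩ : FE) := by
        have h4 : (⟨algebraMap K F ξ, hmemFE ξ hξE⟩ : FE) ∈ IntermediateField.adjoin Λ {s} := by
          rw [hs]
          trivial
        have h5 := h2.isAlgebraic ⟨_, h4⟩
        exact (isAlgebraic_algebraMap_iff (R := Λ)
          (algebraMap (IntermediateField.adjoin Λ {s}) FE).injective).2 h5
      exact hξF ((isAlgebraic_algebraMap_iff (R := Λ) (algebraMap FE F).injective).2 h3)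
    refine uniruled_geo (E := (E'.restrictScalars ℂ : IntermediateField ℂ K)) (Λ := Λ) (F := F)
      hEtr' hΛtr rfl ((IsScalarTower.toAlgHom ℂ K F).comp
        (E'.restrictScalars ℂ : IntermediateField ℂ K).val) ((s : FE) : F) hsF fun e => ?_
    have h1 : (⟨algebraMap K F (e : K), hmemFE _ e.2⟩ : FE) ∈
        IntermediateField.adjoin Λ {s} := by
      rw [hs]
      trivial
    have h2 : (IntermediateField.adjoin Λ {s}).map FE.val =
        IntermediateField.adjoin Λ {((s : FE) : F)} := by
      rw [IntermediateField.adjoin_map, Set.image_singleton]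
      rfl
    rw [← h2]
    exact ⟨_, h1, rfl⟩
  · -- all traces are zero
    have h0 : ∀ j, ((Algebra.trace E' K (ω j Ef) : E') : K) = 0 := by
      intro j
      by_contra h
      refine htr j ⟨D0, Ef, hEf, fun h2 => h ?_⟩
      rw [htrE, h2]
      rfl
    rw [genusLe_iff hξE' hDE1]
    intro f hf
    by_cases hf0 : f 0 = 0
    · exact ⟨fun _ => 1, fun h => one_ne_zero (congrFun h 0), by
        rw [Fin.sum_univ_one, hf0, mul_zero]⟩
    exfalso
    have h2 := hspan (f 0) hf0 fun Q => (hf 0 Q).resolve_left hf0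
    have h3 : (Set.range fun j => algebraMap K F ((Algebra.trace E' K (ω j Ef) : E') : K)) ⊆
        {0} := by
      rintro _ ⟨j, rfl⟩
      beta_reduce
      rw [Set.mem_singleton_iff, h0, map_zero]
    have h4 := Submodule.span_mono (R := Λ) h3 h2
    rw [Submodule.span_zero_singleton, Submodule.mem_bot] at h4
    exact hf0 (Subtype.ext h4)
  · -- genus one
    have hnum := numLe_of_genus h1 h0
    let iA : Algebra E' FE := RingHom.toAlgebra
      (((algebraMap K F).comp (algebraMap E' K)).codRestrict FE.toSubring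
        fun e => hmemFE e e.2)
    have hEF : ∀ e : E', ((algebraMap E' FE e : FE) : F) = algebraMap K F (e : K) := fun e => rfl
    let iB : Algebra B FE := RingHom.toAlgebra ((algebraMap E' FE).comp (algebraMap B E'))
    have hT1 : IsScalarTower B E' FE := IsScalarTower.of_algebraMap_eq fun z => rfl
    have hT2 : IsScalarTower B Λ FE := IsScalarTower.of_algebraMap_eq fun z => by
      apply Subtype.ext
      change algebraMap K F (algebraMap B K z) = algebraMap Λ F (algebraMap B Λ z)
      rw [← IsScalarTower.algebraMap_apply, ← IsScalarTower.algebraMap_apply]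
    have hT3 : IsScalarTower ℂ B E' := IsScalarTower.of_algebraMap_eq fun z => by
      apply Subtype.ext
      change algebraMap ℂ K z = algebraMap B K (algebraMap ℂ B z)
      rw [← IsScalarTower.algebraMap_apply]
    have hT4 : IsScalarTower ℂ Λ FE := inferInstance
    have hT5 : IsScalarTower ℂ E' FE := IsScalarTower.of_algebraMap_eq fun z => by
      apply Subtype.ext
      change algebraMap ℂ F z = algebraMap K F (algebraMap ℂ K z)
      rw [← IsScalarTower.algebraMap_apply]
    have hgenE : IntermediateField.adjoin Λ (Set.range (algebraMap E' FE)) = ⊤ := by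
      have h1 : (IntermediateField.adjoin Λ (Set.range (algebraMap E' FE))).map FE.val =
          (⊤ : IntermediateField Λ FE).map FE.val := by
        rw [IntermediateField.adjoin_map, ← AlgHom.fieldRange_eq_map,
          IntermediateField.fieldRange_val]
        refine Eq.trans ?_ hFE.symm
        congr 1
        ext z
        simp only [Set.mem_image, Set.mem_range]
        constructor
        · rintro ⟨_, ⟨y, rfl⟩, rfl⟩
          exact ⟨y, y.2, rfl⟩
        · rintro ⟨y, hy, rfl⟩
          exact ⟨_, ⟨⟨y, hy⟩, rfl⟩, rfl⟩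
      exact IntermediateField.map_injective _ h1
    have hclE : ∀ x : E', IsIntegral B x → ∃ y : B, algebraMap B E' y = x := by
      intro x hx
      obtain ⟨y, hy⟩ := hcl (x : K) (hx.map (IsScalarTower.toAlgHom B E' K))
      exact ⟨y, Subtype.ext hy⟩
    have hessE' : Algebra.EssFiniteType ℂ E' := hessE
    have hEtr : Algebra.trdeg ℂ E' = (n + (0 + 1) : ℕ) := hEtr'
    have h2 := Pool.Agent.Y174.easy_add (k := ℂ) (L := B) (K := E') (Λ := Λ) (F := FE) hessB
      hessE' hgenE hclE hB hEtr (h := 0) hnum
    exact h2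
  · -- genus at least two
    by_contra hcon
    apply h1
    have hrat : ∀ i0 i1, ((Algebra.trace E' K (ω i0 Ef) : E') : K) ≠ 0 → ∃ b : B,
        ((Algebra.trace E' K (ω i1 Ef) : E') : K) =
          algebraMap B K b * ((Algebra.trace E' K (ω i0 Ef) : E') : K) := by
      intro i0 i1 hi0
      by_contra hb
      push Not at hb
      refine hcon ⟨D0, Ef, hEf, i0, i1, fun h => hi0 ?_, fun b => ?_⟩
      · rw [htrE, h]
        rfl
      · rw [← htrE, ← htrE]
        exact hb b
    rw [genusLe_iff hξE' hDE1]
    intro f hf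
    by_cases hall : ∀ i0, ((Algebra.trace E' K (ω i0 Ef) : E') : K) = 0
    · -- no regular differential
      have h3 : (Set.range fun j => algebraMap K F ((Algebra.trace E' K (ω j Ef) : E') : K)) ⊆
          {0} := by
        rintro _ ⟨j, rfl⟩
        beta_reduce
        rw [Set.mem_singleton_iff, hall, map_zero]
      have h4 : f 0 = 0 := by
        by_contra hf0
        have h2 := hspan (f 0) hf0 fun Q => (hf 0 Q).resolve_left hf0
        have h4 := Submodule.span_mono (R := Λ) h3 h2
        rw [Submodule.span_zero_singleton, Submodule.mem_bot] at h4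
        exact hf0 (Subtype.ext h4)
      refine ⟨![1, 0], fun h => one_ne_zero (congrFun h 0), ?_⟩
      rw [Fin.sum_univ_two]
      simp [h4]
    · push Not at hall
      obtain ⟨i0, hi0⟩ := hall
      obtain ⟨w, hw⟩ : ∃ w : F, w = algebraMap K F ((Algebra.trace E' K (ω i0 Ef) : E') : K) :=
        ⟨_, rfl⟩
      have hw0 : w ≠ 0 := by
        rw [hw]
        exact (_root_.map_ne_zero _).2 hi0
      have h3 : (Set.range fun j => algebraMap K F ((Algebra.trace E' K (ω j Ef) : E') : K)) ⊆
          (Submodule.span Λ {w} : Submodule Λ F) := by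
        rintro _ ⟨j, rfl⟩
        obtain ⟨b, hb⟩ := hrat i0 j hi0
        beta_reduce
        rw [hb, map_mul, ← hw, ← IsScalarTower.algebraMap_apply,
          IsScalarTower.algebraMap_apply B Λ F, ← Algebra.smul_def]
        exact Submodule.smul_mem _ _ (Submodule.mem_span_singleton_self w)
      have h4 : ∀ j, ∃ a : Λ, (f j : F) = a • w := by
        intro j
        by_cases hf0 : f j = 0
        · exact ⟨0, by rw [hf0, zero_smul]; rfl⟩
        have h2 := hspan (f j) hf0 fun Q => (hf j Q).resolve_left hf0
        have h5 := Submodule.span_le.2 h3 h2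
        obtain ⟨a, ha⟩ := Submodule.mem_span_singleton.1 h5
        exact ⟨a, ha.symm⟩
      choose a ha using h4
      by_cases ha0 : a 0 = 0
      · refine ⟨![1, 0], fun h => one_ne_zero (congrFun h 0), ?_⟩
        have h5 : f 0 = 0 := by
          apply Subtype.ext
          rw [ha 0, ha0, zero_smul]
          rfl
        rw [Fin.sum_univ_two]
        simp [h5]
      · refine ⟨![a 1, -a 0], fun h => ha0 ?_, ?_⟩
        · have h5 := congrFun h 1
          simpa using h5
        · apply Subtype.ext
          rw [Fin.sum_univ_two]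
          change algebraMap Λ F (a 1) * (f 0 : F) + algebraMap Λ F (-a 0) * (f 1 : F) = 0
          rw [ha 0, ha 1, Algebra.smul_def, Algebra.smul_def, map_neg]
          ring

end

end Run7.h821
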