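import Pool.Agent.Run7.h821.FibB
import Pool.Agent.Run7.h821.FibD
import Pool.Agent.R882.TFin
import Pool.Agent.R885.Cv
import Pool.Agent.R885.Top
import Pool.Agent.W824.PG.Many

/-!
Images of fibrations by curves: the conclusion.
-/

set_option autoImplicit false
set_option linter.overlappingInstances false
set_option linter.unusedSectionVars false
set_option maxHeartbeats 4000000
set_option synthInstance.maxHeartbeats 400000

open IntermediateField Module FF Pool.Agent.W619.PQ Pool.Agent.W603.LV
open Pool.Agent.W602.GT (Divisorial RegAt IsPluri)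
open Pool.Agent.W619.TW (NumLe)
open Pool.Agent.R882.LT (TraceNe IsTwisted)

namespace Run7.h821

variable {K : Type} [Field K] [Algebra ℂ K] {n : ℕ}

/-- The function field of the geometric generic fibre over the variety with the function field `B`
of the variety with the function field `E`: the field generated by `E` over the algebraic closure
of `B`. -/
noncomputable def GeoFibre (B E : IntermediateField ℂ K) :
    IntermediateField (algebraicClosure B (AlgebraicClosure K)) (AlgebraicClosure K) :=
  IntermediateField.adjoin (algebraicClosure B (AlgebraicClosure K))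
    (algebraMap K (AlgebraicClosure K) '' E)

/-- The geometric generic fibre over the variety with the function field `B` of the variety with the
function field `E` has genus at most `g`. -/
def FibreGenusLe (B E : IntermediateField ℂ K) (g : ℕ) : Prop :=
  GenusLe (algebraicClosure B (AlgebraicClosure K)) (GeoFibre B E) 1 g

/-- **Images of fibrations by curves**, the geometric generic fibre. -/
theorem fib_geo [hess : Algebra.EssFiniteType ℂ K] (hK : Algebra.trdeg ℂ K = (n + 1 : ℕ))
    (B : IntermediateField ℂ K) (hessB : Algebra.EssFiniteType ℂ B)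
    (hB : Algebra.trdeg ℂ B = n)
    (hcl : ∀ z : K, IsAlgebraic B z → z ∈ B) (E' : IntermediateField B K)
    [FiniteDimensional E' K] {r : ℕ} (hg : FibreGenusLe B ⊤ r)
    (ω : Fin r → (Fin (n + 1) → Derivation ℂ K K) → K) (hω : ∀ j, IsPluri 1 (ω j))
    (hreg : ∀ j (P : Place ℂ K), Divisorial (n + 1) P → RegAt P (ω j))
    (hind : ∀ b : Fin r → B, (∀ G, ∑ j, (b j : K) * ω j G = 0) → b = 0) :
    (FibreGenusLe B (E'.restrictScalars ℂ) 0 → IsUniruled ℂ (E'.restrictScalars ℂ) (n + 1)) ∧
    ((∀ j, ¬ TraceNe (ω j) (E'.restrictScalars ℂ)) →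
      FibreGenusLe B (E'.restrictScalars ℂ) 0) ∧
    (FibreGenusLe B (E'.restrictScalars ℂ) 1 → ¬ FibreGenusLe B (E'.restrictScalars ℂ) 0 →
      NumLe ℂ (E'.restrictScalars ℂ : IntermediateField ℂ K) (n + 1) (fun _ => False) n) ∧
    (¬ FibreGenusLe B (E'.restrictScalars ℂ) 1 → RatioNe B ω (E'.restrictScalars ℂ)) := by
  classical
  have hcl' : ∀ z : K, IsIntegral B z → ∃ y : B, algebraMap B K y = z := fun z hz =>
    ⟨⟨z, hcl z hz.isAlgebraic⟩, rfl⟩
  let Ω := AlgebraicClosure K
  let Λ : IntermediateField B Ω := algebraicClosure B Ω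
  have hΛ : IsAlgClosed Λ := (algebraicClosure.isAlgClosure B Ω).isAlgClosed
  have hΛalg : Algebra.IsAlgebraic B Λ := inferInstance
  let F : IntermediateField Λ Ω := IntermediateField.adjoin Λ (Set.range (algebraMap K Ω))
  have hTL : IsScalarTower ℂ B Ω := IsScalarTower.of_algebraMap_eq fun z => by
    rw [IsScalarTower.algebraMap_apply ℂ K Ω]
    rfl
  have hTΛ : IsScalarTower ℂ Λ Ω := IsScalarTower.of_algebraMap_eq fun z => by
    rw [IsScalarTower.algebraMap_apply ℂ B Ω]
    rfl
  let φ0 : K →+* F :=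
    { toFun := fun z => ⟨algebraMap K Ω z, IntermediateField.subset_adjoin _ _ ⟨z, rfl⟩⟩
      map_one' := Subtype.ext (map_one _)
      map_mul' := fun a b => Subtype.ext (map_mul _ _ _)
      map_zero' := Subtype.ext (map_zero _)
      map_add' := fun a b => Subtype.ext (map_add _ _ _) }
  let iKF : Algebra K F := φ0.toAlgebra
  have hKF : ∀ z : K, ((algebraMap K F z : F) : Ω) = algebraMap K Ω z := fun z => rfl
  have hT1 : IsScalarTower B K F := IsScalarTower.of_algebraMap_eq fun z => Subtype.ext rfl
  have hT2 : IsScalarTower ℂ K F := IsScalarTower.of_algebraMap_eq fun z => by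
    apply Subtype.ext
    rw [hKF, ← IsScalarTower.algebraMap_apply ℂ K Ω]
    rfl
  have hT3 : IsScalarTower ℂ B Λ := inferInstance
  have hT4 : IsScalarTower B Λ F := IsScalarTower.of_algebraMap_eq fun z => Subtype.ext rfl
  have hT5 : IsScalarTower ℂ Λ F := inferInstance
  have hgenF : IntermediateField.adjoin Λ (Set.range (algebraMap K F)) = ⊤ := by
    have h1 : (IntermediateField.adjoin Λ (Set.range (algebraMap K F))).map F.val =
        (⊤ : IntermediateField Λ F).map F.val := by
      rw [IntermediateField.adjoin_map, ← AlgHom.fieldRange_eq_map,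
        IntermediateField.fieldRange_val]
      congr 1
      ext z
      simp only [Set.mem_image, Set.mem_range]
      constructor
      · rintro ⟨_, ⟨y, rfl⟩, rfl⟩
        exact ⟨y, rfl⟩
      · rintro ⟨y, rfl⟩
        exact ⟨_, ⟨y, rfl⟩, rfl⟩
    exact IntermediateField.map_injective _ h1
  obtain ⟨FE, hFE⟩ : ∃ FE : IntermediateField Λ F,
    FE = IntermediateField.adjoin Λ (algebraMap K F '' E') := ⟨_, rfl⟩
  -- the isomorphisms
  have hFtop : GeoFibre B ⊤ = F := by
    unfold GeoFibre
    rw [IntermediateField.coe_top, Set.image_univ]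
  have hgF : GenusLe Λ F 1 r := genusLe_congr (IntermediateField.equivOfEq hFtop) hg
  have hmap : FE.map F.val = GeoFibre B (E'.restrictScalars ℂ) := by
    unfold GeoFibre
    rw [hFE, IntermediateField.adjoin_map]
    congr 1
    ext z
    simp only [Set.mem_image]
    constructor
    · rintro ⟨_, ⟨y, hy, rfl⟩, rfl⟩
      exact ⟨y, hy, rfl⟩
    · rintro ⟨y, hy, rfl⟩
      exact ⟨_, ⟨y, hy, rfl⟩, rfl⟩
  let e : FE ≃ₐ[Λ] GeoFibre B (E'.restrictScalars ℂ) :=
    (IntermediateField.equivMap FE F.val).trans (IntermediateField.equivOfEq hmap)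
  have hiff : ∀ g, FibreGenusLe B (E'.restrictScalars ℂ) g ↔ GenusLe Λ FE 1 g := fun g =>
    ⟨fun h => genusLe_congr e.symm h, fun h => genusLe_congr e h⟩
  obtain ⟨h1, h2, h3, h4⟩ := fib_main (Λ := Λ) (F := F) hK hessB hB hcl' hgenF E' hgF ω hω hreg
    hind FE hFE
  rw [hiff, hiff]
  exact ⟨h1, h2, h3, h4⟩

/-- the transcendence degree of the field generated by the coordinates and a transcendental ratio -/
theorem trdeg_ratio (hK : Algebra.trdeg ℂ K = (n + 1 : ℕ)) {B : IntermediateField ℂ K}
    (hB : Algebra.trdeg ℂ B = n) (hcl : ∀ z : K, IsAlgebraic B z → z ∈ B)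
    {A : Type} [Field A] [Algebra ℂ A] (φ : A →ₐ[ℂ] K) {Y : Set A}
    (hBY : B ≤ (IntermediateField.adjoin ℂ Y).map φ) {ρ : A} (hρY : ρ ∈ Y) (hρ : φ ρ ∉ B) :
    Algebra.trdeg ℂ (IntermediateField.adjoin ℂ Y) = (n + 1 : ℕ) := by
  classical
  obtain ⟨C, hC⟩ : ∃ C : IntermediateField ℂ A, C = IntermediateField.adjoin ℂ Y := ⟨_, rfl⟩
  rw [← hC] at hBY ⊢
  have hB0 : CharZero B := charZero_of_injective_algebraMap (algebraMap ℂ B).injective
  obtain ⟨tB, htB⟩ := Pool.Agent.W636.PG.exists_basis ℂ B n hB
  have hLK : Algebra.trdeg B K = (1 : ℕ) := Pool.Agent.Y174.trdeg_LK (r := 1) hB hK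
  have hxB : IsTranscendenceBasis B (fun _ : Fin 1 => φ ρ) := by
    have h1 : AlgebraicIndependent B (fun _ : Fin 1 => φ ρ) := by
      rw [algebraicIndependent_unique_type_iff]
      exact fun h => hρ (hcl _ h)
    refine h1.isTranscendenceBasis_of_lift_trdeg_le_of_finite ?_
    rw [hLK]
    simp
  have hZ := Pool.Agent.Y174.basis_append htB hxB
  have hmem : ∀ i, ∃ c : C, φ (c : A) =
      Fin.append (algebraMap B K ∘ tB) (fun _ : Fin 1 => φ ρ) i := by
    intro i
    refine Fin.addCases (fun i => ?_) (fun i => ?_) i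
    · rw [Fin.append_left]
      obtain ⟨c, hc, hc'⟩ := hBY (tB i).2
      exact ⟨⟨c, hc⟩, hc'⟩
    · rw [Fin.append_right]
      exact ⟨⟨ρ, by
        rw [hC]
        exact IntermediateField.subset_adjoin _ _ hρY⟩, rfl⟩
  choose c hc using hmem
  have hcind : AlgebraicIndependent ℂ c := by
    refine AlgebraicIndependent.of_comp (φ.comp C.val) ?_
    have h2 : ((φ.comp C.val) ∘ c) = Fin.append (algebraMap B K ∘ tB) (fun _ : Fin 1 => φ ρ) :=
      funext hc
    rw [h2]
    exact hZ.1
  apply le_antisymm
  · rw [← hK]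
    exact trdeg_le_of_injective (φ.comp C.val) (φ.comp C.val).toRingHom.injective
  · have h1 := hcind.cardinalMk_le_trdeg
    rwa [Cardinal.mk_fin] at h1

/-- The canonical map of the variety of dimension `n` with the function field `L` has an image of
dimension at least `d`: there are `d + 1` canonical forms, regular at all prime divisors, with
algebraically independent ratios. -/
def CanonicalImage (L : Type) [Field L] [Algebra ℂ L] (n d : ℕ) : Prop :=
  ∃ η : Fin (d + 1) → (Fin n → Derivation ℂ L L) → L,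
    (∀ l, IsPluri 1 (η l) ∧ ∀ P : Place ℂ L, Divisorial n P → RegAt P (η l)) ∧
    ∃ D, (∀ l, η l D ≠ 0) ∧ AlgebraicIndependent ℂ (fun l : Fin d => η l.succ D / η 0 D)

theorem CanonicalImage.kod {L : Type} [Field L] [Algebra ℂ L] [Algebra.EssFiniteType ℂ L]
    {n d : ℕ}
    (h : CanonicalImage L n d) : Pool.Agent.W619.Y.KodTrB ℂ L n (fun _ => False) d := by
  obtain ⟨η, hη, D, hD, hind⟩ := h
  exact ⟨1, le_rfl, η, fun l => Pool.Agent.R882.LT.isSec_of (hη l).1 fun P hP =>
    Pool.Agent.R882.LT.secAt_of ((hη l).2 P hP), D, hD, hind⟩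

/-- **Canonical forms on images.** -/
theorem canon_img [hess : Algebra.EssFiniteType ℂ K] (hK : Algebra.trdeg ℂ K = (n : ℕ))
    {N m r d : ℕ} {x : Fin N → K} {j0 : Fin N} (hj0 : x j0 = 1)
    {ω : Fin r → (Fin n → Derivation ℂ K K) → K} (hω : ∀ i, IsPluri 1 (ω i))
    (hreg : ∀ (i : Fin r) (f : Fin m → Fin N) (P : Place ℂ K), Divisorial n P →
      RegAt P (fun D => (∏ k, x (f k)) * ω i D))
    {L : Type} [Field L] [Algebra ℂ L] [Algebra L K] [IsScalarTower ℂ L K]
    [FiniteDimensional L K]
    (hdeg : 2 * Module.finrank L (IntermediateField.adjoin L (Set.range x)) ≤ m + 1)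
    {F0 : IntermediateField ℂ K}
    (hF0 : F0 = (IntermediateField.adjoin L (Set.range x)).restrictScalars ℂ)
    {D : Fin n → Derivation ℂ F0 F0} {D' : Fin n → Derivation ℂ K K}
    (hDD' : ∀ i f, D' i (algebraMap F0 K f) = algebraMap F0 K (D i f))
    {i0 : Fin r} (hi0 : Algebra.trace F0 K (ω i0 D') ≠ 0)
    (hd : Algebra.trdeg ℂ (IntermediateField.adjoin ℂ (Set.range x ∪ Set.range fun i =>
      ((Algebra.trace F0 K (ω i D') : F0) : K) / ((Algebra.trace F0 K (ω i0 D') : F0) : K))) =
        (d : ℕ)) :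
    CanonicalImage L n d := by
  classical
  have hessL : Algebra.EssFiniteType ℂ L := Pool.Agent.TH466.QG.ess_below (K := K)
  have hL : Algebra.trdeg ℂ L = (n : ℕ) := Pool.Agent.Y184.NT.trdeg_below (K := K) hK
  obtain ⟨z, E, hz, hE⟩ := Pool.Agent.Y172.exists_crd (k := ℂ) (K := L) hL
  choose E' hE' using fun i => Pool.Agent.Y172.exists_lift (k := ℂ) (K := L) (L := K) hL (E i)
  have hzK : IsTranscendenceBasis ℂ (fun j => algebraMap L K (z j)) := hz.algebraMap_comp
  have hE'd := Pool.Agent.Y172.lift_dual hE hE'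
  have hLF : ∀ f : L, algebraMap L K f ∈ F0 := by
    intro f
    rw [hF0]
    exact (IntermediateField.adjoin L (Set.range x)).algebraMap_mem f
  -- change of frames
  obtain ⟨δ, hδ⟩ : ∃ δ : F0, δ = (Matrix.of fun i j => D i ⟨algebraMap L K (z j), hLF _⟩ :
    Matrix (Fin n) (Fin n) F0).det := ⟨_, rfl⟩
  have hωδ : ∀ i, ω i D' = δ • ω i E' := by
    intro i
    rw [Pool.Agent.Y172.pluri_coord hzK hE'd (hω i) D', pow_one, Algebra.smul_def, hδ,
      RingHom.map_det]
    congr 1
    congr 1
    ext i j
    rw [RingHom.mapMatrix_apply, Matrix.map_apply, Matrix.of_apply, Matrix.of_apply]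
    exact hDD' i ⟨algebraMap L K (z j), hLF _⟩
  have htrδ : ∀ i, Algebra.trace F0 K (ω i D') = δ * Algebra.trace F0 K (ω i E') := by
    intro i
    rw [hωδ, map_smul, smul_eq_mul]
  obtain ⟨h, hh⟩ : ∃ h : Fin r → IntermediateField.adjoin L (Set.range x), ∀ i,
    h i = Algebra.trace (IntermediateField.adjoin L (Set.range x)) K (ω i E') :=
    ⟨_, fun _ => rfl⟩
  have hhF : ∀ i, ((h i : IntermediateField.adjoin L (Set.range x)) : K) =
      ((Algebra.trace F0 K (ω i E') : F0) : K) := by
    intro i
    rw [hh]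
    subst hF0
    rfl
  have hδ0 : (δ : K) ≠ 0 := by
    intro h0
    apply hi0
    rw [htrδ, Subtype.ext (show (δ : K) = ((0 : F0) : K) from h0), zero_mul]
  have hhi0 : h i0 ≠ 0 := by
    intro h0
    apply hi0
    rw [htrδ]
    apply Subtype.ext
    change (δ : K) * ((Algebra.trace F0 K (ω i0 E') : F0) : K) = 0
    rw [← hhF, h0]
    change (δ : K) * 0 = 0
    rw [mul_zero]
  have hhi0' : ((h i0 : IntermediateField.adjoin L (Set.range x)) : K) ≠ 0 := by
    intro h0
    exact hhi0 (Subtype.ext h0)
  have hρ : ∀ i, ((h i / h i0 : IntermediateField.adjoin L (Set.range x)) : K) =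
      ((Algebra.trace F0 K (ω i D') : F0) : K) /
        ((Algebra.trace F0 K (ω i0 D') : F0) : K) := by
    intro i
    rw [htrδ, htrδ]
    change ((h i : IntermediateField.adjoin L (Set.range x)) : K) /
        ((h i0 : IntermediateField.adjoin L (Set.range x)) : K) =
      ((δ : K) * ((Algebra.trace F0 K (ω i E') : F0) : K)) /
        ((δ : K) * ((Algebra.trace F0 K (ω i0 E') : F0) : K))
    rw [← hhF, ← hhF, mul_div_mul_left _ _ hδ0]
  obtain ⟨x', hx'⟩ : ∃ x' : Fin N → IntermediateField.adjoin L (Set.range x),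
    ∀ j, (x' j : K) = x j :=
    ⟨fun j => ⟨x j, IntermediateField.subset_adjoin L _ ⟨j, rfl⟩⟩, fun _ => rfl⟩
  have htw : IsScalarTower ℂ (IntermediateField.adjoin L (Set.range x)) K :=
    IsScalarTower.of_algebraMap_eq fun r => rfl
  have hd2 : Algebra.trdeg ℂ (IntermediateField.adjoin ℂ
      (Set.range (Fin.append x' fun i => h i / h i0))) = (d : ℕ) := by
    rw [← hd]
    let φ : IntermediateField.adjoin L (Set.range x) →ₐ[ℂ] K :=
      IsScalarTower.toAlgHom ℂ (IntermediateField.adjoin L (Set.range x)) K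
    have h1 : (IntermediateField.adjoin ℂ
        (Set.range (Fin.append x' fun i => h i / h i0))).map φ =
        IntermediateField.adjoin ℂ (Set.range x ∪ Set.range fun i =>
          ((Algebra.trace F0 K (ω i D') : F0) : K) /
            ((Algebra.trace F0 K (ω i0 D') : F0) : K)) := by
      rw [IntermediateField.adjoin_map]
      congr 1
      ext z
      constructor
      · rintro ⟨_, ⟨j, rfl⟩, rfl⟩
        refine Fin.addCases (fun j => ?_) (fun j => ?_) j
        · rw [Fin.append_left]
          exact Or.inl ⟨j, (hx' j).symm⟩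
        · rw [Fin.append_right]
          exact Or.inr ⟨j, (hρ j).symm⟩
      · rintro (⟨j, rfl⟩ | ⟨j, rfl⟩)
        · exact ⟨x' j, ⟨Fin.castAdd r j, by rw [Fin.append_left]⟩, hx' j⟩
        · exact ⟨h j / h i0, ⟨Fin.natAdd N j, by rw [Fin.append_right]⟩, hρ j⟩
    have h2 := (IntermediateField.equivMap (IntermediateField.adjoin ℂ
      (Set.range (Fin.append x' fun i => h i / h i0))) φ)
    rw [h1] at h2
    exact h2.trdeg_eq
  obtain ⟨η, hη, hηr, D2, hD2, hind⟩ := canon_multi (BK := fun _ => False)
    (BL := fun _ => False) hL (fun _ _ _ _ h => h) hj0 hω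
    (fun i f P hP => Pool.Agent.R882.LT.secAt_of (hreg i f P hP)) hz hE hE' hdeg hx' hh hhi0 hd2
  exact ⟨η, fun l => ⟨hη l, fun P hP => (hηr l P hP).2 fun h => h⟩, D2, hD2, hind⟩

/-- **Images of fibrations by curves**: canonical forms. -/
theorem canon_fib [hess : Algebra.EssFiniteType ℂ K] (hK : Algebra.trdeg ℂ K = (n + 1 : ℕ))
    {N M r : ℕ} {t : Fin N → K}
    (hd : Algebra.trdeg ℂ (IntermediateField.adjoin ℂ (Set.range t)) = (n : ℕ))
    (hcl : ∀ z : K, IsAlgebraic (IntermediateField.adjoin ℂ (Set.range t)) z →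
      z ∈ IntermediateField.adjoin ℂ (Set.range t))
    {ω : Fin r → (Fin (n + 1) → Derivation ℂ K K) → K}
    (hω : ∀ j, IsTwisted (n + 1) M t (ω j))
    {L : Type} [Field L] [Algebra ℂ L] [Algebra L K] [IsScalarTower ℂ L K]
    [FiniteDimensional L K]
    (hdeg : 2 * Module.finrank L (IntermediateField.adjoin L (Set.range t)) ≤ M + 1) :
    ((∃ j, TraceNe (ω j) ((IntermediateField.adjoin L (Set.range t)).restrictScalars ℂ)) →
      CanonicalImage L (n + 1) n) ∧
    (RatioNe (IntermediateField.adjoin ℂ (Set.range t)) ω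
      ((IntermediateField.adjoin L (Set.range t)).restrictScalars ℂ) →
      CanonicalImage L (n + 1) (n + 1)) := by
  classical
  obtain ⟨x, hx⟩ : ∃ x : Fin (N + 1) → K, x = Fin.cons 1 t := ⟨_, rfl⟩
  have hx0 : x 0 = 1 := by rw [hx, Fin.cons_zero]
  have hrange : Set.range x = insert 1 (Set.range t) := by
    rw [hx, Fin.range_cons]
  have hadj : IntermediateField.adjoin L (Set.range x) =
      IntermediateField.adjoin L (Set.range t) := by
    rw [hrange]
    apply le_antisymm
    · rw [IntermediateField.adjoin_le_iff]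
      rintro y (rfl | hy)
      · exact one_mem _
      · exact IntermediateField.subset_adjoin _ _ hy
    · exact IntermediateField.adjoin.mono _ _ _ (Set.subset_insert _ _)
  have hreg : ∀ (i : Fin r) (g : Fin M → Fin (N + 1)) (P : Place ℂ K), Divisorial (n + 1) P →
      RegAt P (fun D => (∏ k, x (g k)) * ω i D) := by
    intro i g P hP
    rw [hx]
    exact (hω i).reg g P hP
  rw [← hadj] at hdeg ⊢
  refine ⟨fun ⟨j, D, D', hDD', hj⟩ => ?_, fun ⟨D, D', hDD', i0, i1, hi0, hi1⟩ => ?_⟩
  · refine canon_img (r := 1) (i0 := 0) (ω := fun _ => ω j) hK hx0 (fun _ => (hω j).1)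
      (fun _ => hreg j) hdeg rfl hDD' hj ?_
    rw [← hd]
    have h1 : IntermediateField.adjoin ℂ (Set.range x ∪ Set.range fun _ : Fin 1 =>
        ((Algebra.trace ((IntermediateField.adjoin L (Set.range x)).restrictScalars ℂ :
          IntermediateField ℂ K) K (ω j D') :
          ((IntermediateField.adjoin L (Set.range x)).restrictScalars ℂ :
            IntermediateField ℂ K)) : K) /
        ((Algebra.trace ((IntermediateField.adjoin L (Set.range x)).restrictScalars ℂ :
          IntermediateField ℂ K) K (ω j D') :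
          ((IntermediateField.adjoin L (Set.range x)).restrictScalars ℂ :
            IntermediateField ℂ K)) : K)) = IntermediateField.adjoin ℂ (Set.range t) := by
      apply le_antisymm
      · rw [IntermediateField.adjoin_le_iff]
        rintro y (hy | ⟨_, rfl⟩)
        · rw [hrange] at hy
          rcases hy with rfl | hy
          · exact one_mem _
          · exact IntermediateField.subset_adjoin _ _ hy
        · beta_reduce
          rw [div_self]
          · exact one_mem _
          · intro h0
            exact hj (Subtype.ext h0)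
      · apply IntermediateField.adjoin.mono
        rw [hrange]
        exact (Set.subset_insert _ _).trans Set.subset_union_left
    rw [h1]
  · refine canon_img hK hx0 (fun i => (hω i).1) hreg hdeg rfl hDD' hi0 ?_
    refine trdeg_ratio (φ := AlgHom.id ℂ K) hK hd hcl ?_ (Or.inr ⟨i1, rfl⟩) ?_
    · rw [IntermediateField.adjoin_map, AlgHom.coe_id, Set.image_id]
      apply IntermediateField.adjoin.mono
      rw [hrange]
      exact (Set.subset_insert _ _).trans Set.subset_union_left
    · intro hb
      refine hi1 ⟨_, hb⟩ ?_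
      change _ = ((Algebra.trace _ K (ω i1 D') : ((IntermediateField.adjoin L
        (Set.range x)).restrictScalars ℂ : IntermediateField ℂ K)) : K) / _ * _
      rw [div_mul_cancel₀]
      intro h0
      exact hi0 (Subtype.ext h0)

/-- the numerical dimension of intermediate varieties -/
theorem numLe_down_mid [hess : Algebra.EssFiniteType ℂ K] {m d : ℕ}
    (hK : Algebra.trdeg ℂ K = (m : ℕ)) {L : Type} [Field L] [Algebra ℂ L] [Algebra L K]
    [IsScalarTower ℂ L K] [FiniteDimensional L K] (A : IntermediateField L K)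
    (h : NumLe ℂ (A.restrictScalars ℂ : IntermediateField ℂ K) m (fun _ => False) d) :
    NumLe ℂ L m (fun _ => False) d := by
  have hfin : FiniteDimensional (A.restrictScalars ℂ : IntermediateField ℂ K) K :=
    inferInstanceAs (FiniteDimensional A K)
  have hA : Algebra.trdeg ℂ (A.restrictScalars ℂ : IntermediateField ℂ K) = (m : ℕ) :=
    Pool.Agent.Y184.NT.trdeg_below (K := K) hK
  have hessA : Algebra.EssFiniteType ℂ (A.restrictScalars ℂ : IntermediateField ℂ K) :=
    Pool.Agent.TH466.QG.ess_below (K := K)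
  let iA : Algebra L (A.restrictScalars ℂ : IntermediateField ℂ K) :=
    inferInstanceAs (Algebra L A)
  have hT : IsScalarTower ℂ L (A.restrictScalars ℂ : IntermediateField ℂ K) :=
    IsScalarTower.of_algebraMap_eq fun c => by
      apply Subtype.ext
      change algebraMap ℂ K c = algebraMap L K (algebraMap ℂ L c)
      rw [← IsScalarTower.algebraMap_apply]
  have hfinL : FiniteDimensional L (A.restrictScalars ℂ : IntermediateField ℂ K) :=
    inferInstanceAs (FiniteDimensional L A)
  exact Pool.Agent.R882.LT.numLe_down (K := (A.restrictScalars ℂ : IntermediateField ℂ K)) hA h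

open Pool.Agent.Y172 Pool.Agent.Y191 Pool.Agent.W602.GT in
/-- varieties with canonical singularities and `ν = -∞` -/
theorem dims_neg {L : Type} [Field L] [Algebra ℂ L] {n : ℕ} (htr : Algebra.trdeg ℂ L = (n : ℕ))
    (h : Pool.Agent.W619.TW.NumNeg ℂ L n (fun _ => False)) :
    ∀ (N : ℕ) (y : Fin (N + 1) → L), NormalModel y → Canonical y n →
      kodairaDim y n 0 = ⊥ ∧ ∀ A, Effective y A → Integral y A → numericalDim y n 0 A = ⊥ := by
  classical
  intro N y hy hcan
  obtain ⟨x, E, hx, hE⟩ := exists_crd htr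
  have hfr : IsFrame E := fun G =>
    ⟨fun j => G (x j), (Pool.Agent.W73.PG.PULL.expand x hx E hE G).symm⟩
  have key : ∀ A, Effective y A → kodairaDim y n 0 = ⊥ ∧ numericalDim y n 0 A = ⊥ := by
    intro A hA
    refine not_psef hA fun hcon => ?_
    choose s hs hs0 hsQ using fun j => can_bound hy hcan hA hfr j
    obtain ⟨m0, hm0⟩ := h (Finset.univ.image fun j => (s j)⁻¹)
    obtain ⟨m', hm', s', hs', hne⟩ := hcon (m0 + 1)
    refine hm0 m' (by omega) ⟨fun _ => s', ?_, fun l => ⟨hs'.1, ?_, fun v _ h => h.elim⟩⟩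
    · exact LinearIndependent.of_subsingleton (0 : Fin 1) hne
    · intro Q hQ _ E' hE'
      obtain ⟨j, hj⟩ := exists_centred hy Q
      have h4 : IsSection y n m' A s' := by
        have h5 := hs'
        rw [smul_zero, zero_add] at h5
        exact h5
      rcases hsQ j Q hQ hj m' (by omega) s' h4 E' hE' with h5 | h5
      · exact Or.inl h5
      · right
        refine ⟨(s j)⁻¹, Finset.mem_image_of_mem _ (Finset.mem_univ j), inv_ne_zero (hs0 j), ?_⟩
        rw [Q.ord_inv, Nat.cast_one, one_mul]
        exact_mod_cast h5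
  exact ⟨(key 0 ⟨fun _ _ => le_rfl, by simp⟩).1, fun A hA _ => (key A hA).2⟩

end Run7.h821
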