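import Pool.Agent.Run7.h821.Main
import Pool.Agent.R858.Nm4

/-!
# The Galois closure of a function field
-/

open scoped WithZero IntermediateField
open WithZero
open Pool.Agent.Helper395.CS hiding genus
open Pool.Agent.Helper395.BC

set_option linter.unusedSectionVars false
set_option linter.unusedVariables false

namespace Run7.h821

section

variable {F K : Type} [Field F] [Algebra ℂ F] [Field K] [Algebra ℂ K] [Algebra F K] [IsScalarTower ℂ F K]

theorem isCurve_up (hF : IsCurve F) [FiniteDimensional F K] : IsCurve K := by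
  constructor
  · have h1 : Algebra.EssFiniteType ℂ F := (Algebra.EssFiniteType.iff_of_algEquiv
      (IntermediateField.topEquiv (F := ℂ) (E := F))).1 (IntermediateField.essFiniteType_iff.2 hF.fg)
    have h3 : Algebra.EssFiniteType ℂ K := Algebra.EssFiniteType.comp ℂ F K
    exact IntermediateField.fg_top ℂ K
  · have h1 := trdeg_add_eq ℂ F (A := K)
    have h2 : Algebra.trdeg F K = 0 := trdeg_eq_zero_iff.2 inferInstance
    rw [h2, add_zero, hF.trdeg] at h1
    exact h1.symm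

end

section

variable {K : Type} [Field K] [Algebra ℂ K]

theorem isCurve_adjoin (hK : IsCurve K) {t : K} (ht : Transcendental ℂ t) : IsCurve ℂ⟮t⟯ := by
  have := hK.finiteDimensional ht
  constructor
  · have h1 : (ℂ⟮t⟯ : IntermediateField ℂ K).FG := ⟨{t}, by simp⟩
    have h2 : Algebra.EssFiniteType ℂ ℂ⟮t⟯ := IntermediateField.essFiniteType_iff.2 h1
    exact IntermediateField.fg_top ℂ _
  · have h1 := trdeg_add_eq ℂ ℂ⟮t⟯ (A := K)
    have h2 : Algebra.trdeg ℂ⟮t⟯ K = 0 := trdeg_eq_zero_iff.2 inferInstance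
    rw [h2, add_zero, hK.trdeg] at h1
    exact h1

open IntermediateField in
/-- the embeddings of a function field into its Galois closure -/
theorem galois (hK : IsCurve K) {t : K} (ht : Transcendental ℂ t) :
    ∃ (E : Type) (_ : Field E) (_ : Algebra ℂ E) (_ : IsCurve E) (ι : Type) (_ : Fintype ι)
      (τ : ι → K →ₐ[ℂ] E), Fintype.card ι = Module.finrank ℂ⟮t⟯ K ∧
      (∀ i j, ∀ x ∈ ℂ⟮t⟯, τ i x = τ j x) ∧
      ∀ h : K, ∀ j, τ j (Algebra.norm ℂ⟮t⟯ h : ℂ⟮t⟯) = ∏ i, τ i h := by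
  classical
  have := hK.finiteDimensional ht
  have hF := isCurve_adjoin hK ht
  let Ω := AlgebraicClosure K
  let E := normalClosure ℂ⟮t⟯ K Ω
  have hE : IsCurve E := isCurve_up hF (K := E)
  have hfin : Fintype (K →ₐ[ℂ⟮t⟯] E) := Fintype.ofEquiv _ (normalClosure.algHomEquiv ℂ⟮t⟯ K Ω).symm
  refine ⟨E, inferInstance, inferInstance, hE, K →ₐ[ℂ⟮t⟯] E, hfin,
    fun i => i.restrictScalars ℂ, ?_, ?_, ?_⟩
  · rw [Fintype.card_congr (normalClosure.algHomEquiv ℂ⟮t⟯ K Ω)]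
    exact AlgHom.card ℂ⟮t⟯ K Ω
  · intro i j x hx
    change i x = j x
    have h1 : x = algebraMap ℂ⟮t⟯ K ⟨x, hx⟩ := rfl
    rw [h1, i.commutes, j.commutes]
  · intro h j
    apply Subtype.ext
    have h1 := Algebra.norm_eq_prod_embeddings ℂ⟮t⟯ Ω h
    have h2 : ((j.restrictScalars ℂ) ((Algebra.norm ℂ⟮t⟯ h : ℂ⟮t⟯) : K) : E) =
        algebraMap ℂ⟮t⟯ E (Algebra.norm ℂ⟮t⟯ h) := j.commutes _
    rw [h2]
    change algebraMap ℂ⟮t⟯ Ω (Algebra.norm ℂ⟮t⟯ h) = _
    rw [h1]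
    have h3 : ((∏ i : K →ₐ[ℂ⟮t⟯] E, (i.restrictScalars ℂ) h : E) : Ω) =
        ∏ i : K →ₐ[ℂ⟮t⟯] E, ((i h : E) : Ω) := map_prod E.val _ _
    rw [h3]
    symm
    exact Fintype.prod_equiv (normalClosure.algHomEquiv ℂ⟮t⟯ K Ω) _ _ fun i => rfl

end

end Run7.h821
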