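import Mathlib

/-!
Points below the points of a variety, and independent conditions on linear systems.
-/

set_option autoImplicit false
set_option linter.overlappingInstances false
set_option linter.unusedSectionVars false

open Module IntermediateField

namespace Run7.h821

section

variable {K : Type} [Field K] [Algebra ℂ K] {L : Type} [Field L] [Algebra ℂ L]
  [Algebra L K] [IsScalarTower ℂ L K]

/-- the points of the variety with the function field `E` below the point `α` of the variety with the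
function field `M` -/
def Below (M : IntermediateField L K) (E : IntermediateField ℂ K) {Ω : Type} [Field Ω]
    [Algebra ℂ Ω] (α : M →ₐ[ℂ] Ω) : Set (E →ₐ[ℂ] Ω) :=
  {σ | ∃ τ : K →ₐ[ℂ] Ω, (∀ z : M, τ z = α z) ∧ ∀ z : E, τ z = σ z}

/-- the points below one point impose independent conditions on `H` -/
def One (M : IntermediateField L K) (E : IntermediateField ℂ K) (H : Set E) : Prop :=
  ∀ (Ω : Type) [Field Ω] [Algebra ℂ Ω] [IsAlgClosed Ω] (α : M →ₐ[ℂ] Ω)
    (A : Finset (E →ₐ[ℂ] Ω)), (∀ σ ∈ A, σ ∈ Below M E α) →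
    ∀ c : (E →ₐ[ℂ] Ω) → Ω, (∀ f ∈ H, ∑ σ ∈ A, c σ * σ f = 0) → ∀ σ ∈ A, c σ = 0

/-- the points below two points impose independent conditions on `H` -/
def Two (M : IntermediateField L K) (E : IntermediateField ℂ K) (H : Set E) : Prop :=
  ∀ (Ω : Type) [Field Ω] [Algebra ℂ Ω] [IsAlgClosed Ω] (α β : M →ₐ[ℂ] Ω)
    (A : Finset (E →ₐ[ℂ] Ω)), (∀ σ ∈ A, σ ∈ Below M E α ∨ σ ∈ Below M E β) →
    ∀ c : (E →ₐ[ℂ] Ω) → Ω, (∀ f ∈ H, ∑ σ ∈ A, c σ * σ f = 0) → ∀ σ ∈ A, c σ = 0

theorem Two.one {M : IntermediateField L K} {E : IntermediateField ℂ K} {H : Set E}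
    (h : Two M E H) : One M E H := by
  intro Ω _ _ _ α A hA
  exact h Ω α α A fun σ hσ => Or.inl (hA σ hσ)

end

end Run7.h821
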