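import Pool.Agent.Run7.h562.MM.Core
import Pool.Agent.Run7.h821.GfDef

/-!
Fibrations over subvarieties of products: the relation between the points of one fibre and of two
fibres, for arbitrary linear systems on the factors (after `Pool.Agent.N145.SX.Chain` and
`Pool.Agent.Run7.h562.MM.Core`).
-/

set_option autoImplicit false
set_option linter.overlappingInstances false
set_option linter.unusedSectionVars false
set_option linter.unusedVariables false
set_option maxHeartbeats 4000000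
set_option synthInstance.maxHeartbeats 400000

open FF IntermediateField Module

namespace Run7.h821

open Pool.Agent Pool.Agent.W603.LV Pool.Agent.W619.PQ Pool.Agent.N145.PC Pool.Agent.N145.SX
open Pool.Agent.W602.GT (Divisorial RegAt IsPluri)
open Pool.Agent.Y184.NT (trForm)

section abs

variable {Ω : Type} [Field Ω] {T : Type} [Fintype T] {ι : Type} [Fintype ι] [DecidableEq ι]
  {S X : ι → Type} [∀ i, DecidableEq (S i)] {p : ∀ i, T → S i} {e : ∀ i, X i → S i → Ω} {H : ∀ i, Set (X i)} {c : T → Ω} {τ0 : T}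

/-- the points `A` impose independent conditions on the functions in `H` -/
def IndOn {S X : Type} (e : X → S → Ω) (H : Set X) (A : Finset S) : Prop :=
  ∀ c : S → Ω, (∀ f ∈ H, ∑ σ ∈ A, c σ * e f σ = 0) → ∀ σ ∈ A, c σ = 0

theorem rl_step {J : Finset ι} (hQ : Rl p e H c τ0 J) {l : ι} (hl : l ∉ J)
    (hsep : IndOn (e l) (H l) ((SJ p τ0 J).image (p l))) :
    Rl p e H c τ0 (insert l J) := by
  classical
  intro f hf
  have h1 := hsep (fun σ => ∑ τ ∈ (SJ p τ0 J).filter (fun τ => p l τ = σ),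
    c τ * ∏ i ∈ (insert l J)ᶜ, e i (f i) (p i τ)) (by
    intro g hgH
    have h2 := hQ (Function.update f l g) (by
      intro i hi
      by_cases h : i = l
      · subst h
        rw [Function.update_self]
        exact hgH
      · rw [Function.update_of_ne h]
        exact hf i (by
          rw [Finset.mem_insert, not_or]
          exact ⟨h, hi⟩))
    rw [← Finset.sum_fiberwise_of_maps_to (s := SJ p τ0 J) (t := (SJ p τ0 J).image (p l))
      (g := p l) (fun τ hτ => Finset.mem_image_of_mem _ hτ)] at h2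
    rw [← h2]
    refine Finset.sum_congr rfl fun σ _ => ?_
    rw [Finset.sum_mul]
    refine Finset.sum_congr rfl fun τ hτ => ?_
    have h3 : Jᶜ = insert l (insert l J)ᶜ := by
      ext i
      simp only [Finset.mem_compl, Finset.mem_insert]
      by_cases h : i = l
      · subst h
        simp [hl]
      · simp [h]
    rw [h3, Finset.prod_insert (by simp), Function.update_self, (Finset.mem_filter.1 hτ).2]
    have h4 : ∏ i ∈ (insert l J)ᶜ, e i (Function.update f l g i) (p i τ) =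
        ∏ i ∈ (insert l J)ᶜ, e i (f i) (p i τ) := by
      refine Finset.prod_congr rfl fun i hi => ?_
      have : i ≠ l := by
        rintro rfl
        simp at hi
      rw [Function.update_of_ne this]
    rw [h4]
    ring) (p l τ0) (Finset.mem_image_of_mem _ (self_SJ J))
  have h5 : SJ p τ0 (insert l J) = (SJ p τ0 J).filter (fun τ => p l τ = p l τ0) := by
    ext τ
    rw [Finset.mem_filter, mem_SJ, mem_SJ]
    constructor
    · intro h
      exact ⟨fun i hi => h i (Finset.mem_insert_of_mem hi), h l (Finset.mem_insert_self _ _)⟩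
    · rintro ⟨h, h'⟩ i hi
      rcases Finset.mem_insert.1 hi with rfl | hi
      · exact h'
      · exact h i hi
  rw [h5]
  exact h1

end abs

open scoped Classical

theorem js_univ (k : ℕ) : Js k k = Finset.univ := by
  ext l
  simp [mem_Js, l.2]

theorem rl_chain {Ω T : Type} [Field Ω] [Fintype T] {n : ℕ} {S X : Fin n → Type}
    {p : ∀ i, T → S i} {e : ∀ i, X i → S i → Ω} {H : ∀ i, Set (X i)} {c : T → Ω} {τ0 : T}
    (h0 : Rl p e H c τ0 ∅)
    (hs : ∀ l : Fin n, IndOn (e l) (H l) ((SJ p τ0 (Js n l)).image (p l))) :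
    Rl p e H c τ0 Finset.univ := by
  have key : ∀ s : ℕ, Rl p e H c τ0 (Js n s) := by
    intro s
    induction s with
    | zero =>
      have : Js n 0 = ∅ := by
        ext l
        simp [mem_Js]
      rw [this]
      exact h0
    | succ s ih =>
      by_cases hsn : s < n
      · have h2 : Js n (s + 1) = insert ⟨s, hsn⟩ (Js n s) := by
          ext l
          rw [Finset.mem_insert, mem_Js, mem_Js, Fin.ext_iff]
          change l.val < s + 1 ↔ l.val = s ∨ l.val < s
          omega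
        rw [h2]
        exact rl_step ih (l := ⟨s, hsn⟩) (by rw [mem_Js]; exact lt_irrefl _) (hs ⟨s, hsn⟩)
      · have h2 : Js n (s + 1) = Js n s := by
          ext l
          rw [mem_Js, mem_Js]
          have := l.2
          omega
        rw [h2]
        exact ih
  have h := key n
  rwa [js_univ] at h

section

variable {K : Type} [Field K] [Algebra ℂ K] {k : ℕ} {F : Fin k → IntermediateField ℂ K}
  {L Ω : Type} [Field L] [Field Ω] [Algebra ℂ L] [Algebra ℂ Ω]
  [Algebra L K] [IsScalarTower ℂ L K] [Algebra L Ω] [IsScalarTower ℂ L Ω]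
  [FiniteDimensional L K] [IsAlgClosed Ω]

/-- the restriction of a point to an intermediate field -/
noncomputable def rs (M : IntermediateField L K) {Ω : Type} [Field Ω] [Algebra ℂ Ω]
    (τ : K →ₐ[ℂ] Ω) : M →ₐ[ℂ] Ω where
  toRingHom := (τ : K →+* Ω).comp (algebraMap M K)
  commutes' := fun c => τ.commutes c

theorem rs_apply (M : IntermediateField L K) {Ω : Type} [Field Ω] [Algebra ℂ Ω]
    (τ : K →ₐ[ℂ] Ω) (z : M) : rs M τ z = τ (z : K) := rfl

/-- one fibre: the trace relation -/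
theorem one_trace {H : ∀ i, Set (F i)} {h : K} {τ0 : K →ₐ[L] Ω}
    (h1 : Rl (fun i => res (K := K) (L := L) (Ω := Ω) (F i)) (ev Ω F) H (fun τ => τ h) τ0
      Finset.univ) : Algebra.trace (MF F L Finset.univ) K h = 0 := by
  have h2 := sum_trace (MF F L Finset.univ) τ0 _ (mem_iff τ0 Finset.univ) h
  have h3 := h1 (fun _ => 0) fun i hi => absurd (Finset.mem_univ i) hi
  rw [Finset.compl_univ] at h3
  simp only [Finset.prod_empty, mul_one] at h3
  rw [h3] at h2
  have h6 := h2.symm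
  rw [map_eq_zero, map_eq_zero] at h6
  exact h6

/-- one fibre: independent conditions -/
theorem one_ind {H : ∀ i, Set (F i)} (τ0 : K →ₐ[L] Ω) (l : Fin k)
    (hH : One (MF F L (Js k l)) (F l) (H l)) :
    IndOn (ev Ω F l) (H l)
      ((SJ (fun i => res (K := K) (L := L) (Ω := Ω) (F i)) τ0 (Js k l)).image (res (F l))) := by
  intro c hc
  refine hH Ω (rs (MF F L (Js k l)) (τ0.restrictScalars ℂ)) _ (fun σ hσ => ?_) c hc
  obtain ⟨τ, hτ, rfl⟩ := Finset.mem_image.1 hσ
  refine ⟨τ.restrictScalars ℂ, fun z => ?_, fun z => rfl⟩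
  exact (mem_iff τ0 _ τ).1 hτ z z.2

variable {Ω' : Type} [Field Ω'] [Algebra ℂ Ω'] (ι θ : Ω →ₐ[ℂ] Ω')

/-- two fibres: independent conditions -/
theorem two_ind [IsAlgClosed Ω'] {H : ∀ i, Set (F i)} (τ0 : K →ₐ[L] Ω) (l : Fin k)
    (hH : Two (MF F L (Js k l)) (F l) (H l)) :
    IndOn (ev Ω' F l) (H l)
      ((SJ (P2 ι θ F L) (Sum.inl τ0) (Js k l)).image (P2 ι θ F L l)) := by
  intro c hc
  obtain ⟨S1, h1, -, h2⟩ := Ch.exists_parts ι θ (F := F) τ0 (Js k l)
  obtain ⟨r, hr⟩ : ∃ r : (K →ₐ[L] Ω) → (MF F L (Js k l) →ₐ[ℂ] Ω), ∀ τ z, r τ z = τ (z : K) :=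
    ⟨fun τ => rs (MF F L (Js k l)) (τ.restrictScalars ℂ), fun _ _ => rfl⟩
  obtain ⟨τ1, hτ1⟩ : ∃ τ1, ∀ τ ∈ S1, τ ∈ SJ (fun i => res (K := K) (L := L) (Ω := Ω) (F i)) τ1
      (Js k l) := by
    rcases h1 with rfl | ⟨τ1, rfl⟩
    · exact ⟨τ0, fun τ hτ => absurd hτ (Finset.notMem_empty _)⟩
    · exact ⟨τ1, fun τ hτ => hτ⟩
  refine hH Ω' (ι.comp (r τ0)) (θ.comp (r τ1)) _ (fun σ hσ => ?_) c hc
  obtain ⟨ρ, hρ, rfl⟩ := Finset.mem_image.1 hσ
  rw [h2] at hρ
  rcases ρ with τ | τ
  · rw [Finset.inl_mem_disjSum] at hρ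
    refine Or.inl ⟨ι.comp (τ.restrictScalars ℂ), fun z => ?_, fun z => rfl⟩
    change ι (τ z) = ι (r τ0 z)
    rw [hr]
    congr 1
    exact (mem_iff τ0 _ τ).1 hρ z z.2
  · rw [Finset.inr_mem_disjSum] at hρ
    refine Or.inr ⟨θ.comp (τ.restrictScalars ℂ), fun z => ?_, fun z => rfl⟩
    change θ (τ z) = θ (r τ1 z)
    rw [hr]
    congr 1
    exact (mem_iff τ1 _ τ).1 (hτ1 τ hρ) z z.2

/-- two fibres: the traces vanish, or there is a point of the second fibre with the same
coordinates and proportional traces -/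
theorem two_trace {H : ∀ i, Set (F i)} {A : Set K} {h : K} {lam : Ω'} (hlam : lam ≠ 0)
    {τ0 : K →ₐ[L] Ω}
    (h1 : ∀ a ∈ A, Rl (P2 ι θ F L) (ev Ω' F) H (C2 ι θ (h * a) lam) (Sum.inl τ0) Finset.univ) :
    (∀ a ∈ A, Algebra.trace (MF F L Finset.univ) K (h * a) = 0) ∨
    ∃ τ1 : K →ₐ[L] Ω, (∀ i, ∀ z : F i, θ (τ1 z) = ι (τ0 z)) ∧
      ∀ a ∈ A, θ (τ1 ((Algebra.trace (MF F L Finset.univ) K (h * a) :
        MF F L Finset.univ) : K)) =
        lam * ι (τ0 ((Algebra.trace (MF F L Finset.univ) K (h * a) :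
        MF F L Finset.univ) : K)) := by
  obtain ⟨S1, h2, h3, h4⟩ := Ch.exists_parts ι θ (F := F) τ0 Finset.univ
  have key : ∀ a ∈ A, -(lam * ι (τ0 ((Algebra.trace (MF F L Finset.univ) K
      (h * a) : MF F L Finset.univ) : K))) + ∑ τ ∈ S1, θ (τ (h * a)) = 0 := by
    intro a ha
    have h6 := h1 a ha (fun _ => 0) fun i hi => absurd (Finset.mem_univ i) hi
    rw [h4, Finset.compl_univ, Finset.sum_disjSum] at h6
    simp only [Finset.prod_empty, mul_one] at h6
    have h9 := sum_trace (MF F L Finset.univ) τ0 _ (mem_iff τ0 Finset.univ) (h * a)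
    have h11 : ∀ τ : K →ₐ[L] Ω, C2 ι θ (h * a) lam (Sum.inl τ) = (-lam) * ι (τ (h * a)) := by
      intro τ
      rw [neg_mul]
      rfl
    have h12 : ∀ τ : K →ₐ[L] Ω, C2 ι θ (h * a) lam (Sum.inr τ) = θ (τ (h * a)) := fun τ => rfl
    rw [Finset.sum_congr rfl fun τ _ => h11 τ, Finset.sum_congr rfl fun τ _ => h12 τ,
      ← Finset.mul_sum, ← map_sum, h9] at h6
    rw [← h6]
    ring_nf
    rfl
  rcases h2 with rfl | ⟨τ1, rfl⟩
  · left
    intro a ha
    have h5 := key a ha
    rw [Finset.sum_empty, add_zero, neg_eq_zero] at h5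
    have h6 := (mul_eq_zero.1 h5).resolve_left hlam
    rw [map_eq_zero_iff ι ι.injective, map_eq_zero] at h6
    exact Subtype.ext h6
  · right
    refine ⟨τ1, ?_, ?_⟩
    · have h6 := (h3 τ1).2 (self_SJ _)
      rw [mem_SJ] at h6
      exact fun i z => DFunLike.congr_fun (h6 i (Finset.mem_univ i)) z
    · intro a ha
      have h5 := key a ha
      have h9 := sum_trace (MF F L Finset.univ) τ1 _ (mem_iff τ1 Finset.univ) (h * a)
      rw [← map_sum, h9] at h5
      rw [neg_add_eq_zero] at h5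
      exact h5.symm

end

section

variable {K : Type} [Field K] [Algebra ℂ K] {k : ℕ} {F : Fin k → IntermediateField ℂ K}
  {L : Type} [Field L] [Algebra ℂ L] [Algebra L K] [IsScalarTower ℂ L K] [FiniteDimensional L K]

/-- **Nonvanishing of the traces.** -/
theorem one_core {H : ∀ i, Set (F i)} (hH : ∀ i : Fin k, One (MF F L (Js k i)) (F i) (H i))
    {b : K} (hb : Algebra.trace (MF F L Finset.univ) K b ≠ 0) :
    ∃ f : ∀ i, F i, (∀ i, f i ∈ H i) ∧
      Algebra.trace L K (b * ∏ i, algebraMap (F i) K (f i)) ≠ 0 := by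
  by_contra hcon
  push Not at hcon
  obtain ⟨τ0⟩ : Nonempty (K →ₐ[L] AlgebraicClosure L) :=
    ⟨IsAlgClosed.lift (R := L) (M := AlgebraicClosure L) (S := K)⟩
  have hT' : IsScalarTower ℂ L (AlgebraicClosure L) := inferInstance
  exact hb (one_trace (rl_chain (Ch.rel_zero (F := F) (H := H) (h := b) hcon τ0)
    fun l => one_ind τ0 l (hH l)))

/-- **The field of the ratios of the traces.** -/
theorem two_core {H : ∀ i, Set (F i)} (hH : ∀ i : Fin k, Two (MF F L (Js k i)) (F i) (H i))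
    {N : ℕ} {yL : Fin N → L} {A : Set K} {h : K}
    (hreg : ∀ f : ∀ i, F i, (∀ i, f i ∈ H i) → ∀ a ∈ A, ∀ P : Place ℂ L, Divisorial N P →
      RegAt P (trForm yL (Algebra.trace L K (h * a * ∏ i, algebraMap (F i) K (f i)))))
    {a0 : K} (ha0 : a0 ∈ A) (hne : Algebra.trace (MF F L Finset.univ) K (h * a0) ≠ 0) :
    ∃ (ι : Type) (T : ι → L), (∃ f, T f ≠ 0) ∧
      (∀ f, ∀ P : Place ℂ L, Divisorial N P → RegAt P (trForm yL (T f))) ∧
      (∀ (i : Fin k) (v : F i), IsAlgebraic (Rt T) (v : K)) ∧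
      ∀ a ∈ A, ∀ a' ∈ A, Algebra.trace (MF F L Finset.univ) K (h * a') ≠ 0 →
        IsAlgebraic (Rt T) (((Algebra.trace (MF F L Finset.univ) K
          (h * a) : MF F L Finset.univ) : K) /
          ((Algebra.trace (MF F L Finset.univ) K (h * a') : MF F L Finset.univ) : K)) := by
  obtain ⟨τ0⟩ : Nonempty (K →ₐ[L] AlgebraicClosure L) :=
    ⟨IsAlgClosed.lift (R := L) (M := AlgebraicClosure L) (S := K)⟩
  have hT' : IsScalarTower ℂ L (AlgebraicClosure L) := inferInstance
  let I := A × {f : ∀ i, F i // ∀ i, f i ∈ H i}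
  obtain ⟨T, hT⟩ : ∃ T : I → L, ∀ f, T f =
    Algebra.trace L K (h * (f.1 : K) * ∏ i, algebraMap (F i) K (f.2.1 i)) := ⟨_, fun _ => rfl⟩
  obtain ⟨f1, hf1, hf1'⟩ := one_core (fun i => (hH i).one) hne
  have hT1 : T (⟨a0, ha0⟩, ⟨f1, hf1⟩) ≠ 0 := by
    rw [hT]
    exact hf1'
  obtain ⟨Ω', iF, iA, iC, i1, i2, lam, hlam, hlamT, hpts⟩ := exists_pts T hT1
  have h0 : ∀ a ∈ A, Rl (P2 i1 i2 F L) (ev Ω' F) H (C2 i1 i2 (h * a) lam) (Sum.inl τ0) ∅ := by
    intro a ha
    refine Ch.rel2_zero i1 i2 (fun f hf => ?_) _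
    have := hlamT (⟨a, ha⟩, ⟨f, hf⟩)
    rw [hT] at this
    exact this
  have h1 : ∀ a ∈ A, Rl (P2 i1 i2 F L) (ev Ω' F) H (C2 i1 i2 (h * a) lam) (Sum.inl τ0)
      Finset.univ := fun a ha =>
    rl_chain (h0 a ha) fun l => two_ind i1 i2 τ0 l (hH l)
  rcases two_trace i1 i2 hlam h1 with h3 | ⟨τ1, hτ1, hτ2⟩
  · exact absurd (h3 a0 ha0) hne
  refine ⟨I, T, ⟨_, hT1⟩, fun f P hP => ?_, fun i v => ?_, fun a ha a' ha' hne' => ?_⟩
  · rw [hT]
    exact hreg f.2.1 f.2.2 f.1 f.1.2 P hP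
  · exact alg_back τ0 (hpts _ _ (hτ1 i v).symm)
  · refine alg_back τ0 (hpts _ (τ1 (((Algebra.trace (MF F L Finset.univ) K (h * a) :
      MF F L Finset.univ) : K) / ((Algebra.trace (MF F L Finset.univ) K (h * a') :
      MF F L Finset.univ) : K))) ?_)
    have hne2 : ((Algebra.trace (MF F L Finset.univ) K (h * a') :
        MF F L Finset.univ) : K) ≠ 0 := fun h5 => hne' (Subtype.ext h5)
    rw [map_div₀, map_div₀, map_div₀, map_div₀, hτ2 a ha, hτ2 a' ha',
      mul_div_mul_left _ _ hlam]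

end

end Run7.h821
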