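import Pool.Agent.Run7.h562.MM.Main3
import Pool.Agent.Run7.h821.GfA

/-!
The dimension of the canonical image of the varieties dominated by a fibration (after
`Pool.Agent.Run7.h562.MM.Main`, where the fibration is a product).
-/

set_option autoImplicit false
set_option linter.overlappingInstances false
set_option linter.unusedSectionVars false
set_option linter.unusedVariables false
set_option maxHeartbeats 4000000
set_option synthInstance.maxHeartbeats 400000

open FF IntermediateField Module

namespace Run7.h821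

open Pool.Agent Pool.Agent.W603.LV Pool.Agent.W619.PQ Pool.Agent.N145.PC Pool.Agent.N145.SX
open Pool.Agent.W602.GT (Divisorial RegAt IsPluri DerReg KodGe)
open Pool.Agent.Y184.NT (trForm trForm_pluri)
open Pool.Agent.Run7.h562.MM (exists_tr FibGe indep_append)

open scoped Classical

section

variable {K : Type} [Field K] [Algebra ℂ K] {k : ℕ}

/-- the products of the form `ω` with sections of the linear systems are regular -/
def IsTw {F : Fin k → IntermediateField ℂ K} (H : ∀ i, Set (F i)) (N : ℕ)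
    (ω : (Fin N → Derivation ℂ K K) → K) : Prop :=
  IsPluri 1 ω ∧ ∀ f : ∀ i, F i, (∀ i, f i ∈ H i) → ∀ P : Place ℂ K, Divisorial N P →
    RegAt P (fun D => (∏ i, (f i : K)) * ω D)

/-- the twisted forms generate the canonical forms of the generic fibre -/
def Gen {F : Fin k → IntermediateField ℂ K} (H : ∀ i, Set (F i)) (B : IntermediateField ℂ K)
    (N : ℕ) : Prop :=
  ∀ ω : (Fin N → Derivation ℂ K K) → K, IsPluri 1 ω →
    (∀ P : Place ℂ K, Divisorial N P → (∀ f : B, P.ord (f : K) = 0) → RegAt P ω) →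
    ∃ (n : ℕ) (c : Fin n → B) (θ : Fin n → (Fin N → Derivation ℂ K K) → K),
      (∀ j, IsTw H N (θ j)) ∧ ∀ D, ω D = ∑ j, (c j : K) * θ j D

variable {L : Type} [Field L] [Algebra ℂ L] [Algebra L K] [IsScalarTower ℂ L K]
  [FiniteDimensional L K]

/-- the traces generate the canonical forms of the generic fibre of the image -/
theorem prep [Algebra.EssFiniteType ℂ K] {N : ℕ} (hK : Algebra.trdeg ℂ K = (N : ℕ))
    {F : Fin k → IntermediateField ℂ K} {H : ∀ i, Set (F i)} {B : IntermediateField ℂ K}
    (hgen : Gen H B N) {M : IntermediateField L K} (hBM : ∀ v ∈ B, v ∈ M) :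
    ∃ (yL : Fin N → L) (G : Fin N → Derivation ℂ L L) (h : K) (A : Set K),
      (∀ i j, G i (yL j) = if i = j then 1 else 0) ∧
      (∀ f : ∀ i, F i, (∀ i, f i ∈ H i) → ∀ a ∈ A, ∀ P : Place ℂ L, Divisorial N P →
        RegAt P (trForm yL (Algebra.trace L K (h * a * ∏ i, algebraMap (F i) K (f i))))) ∧
      ∃ u : (Fin N → Derivation ℂ M M) → K, ∀ ω : (Fin N → Derivation ℂ M M) → M,
        IsPluri 1 ω → (∀ P : Place ℂ M, Divisorial N P →
          (∀ f : M, (f : K) ∈ B → P.ord f = 0) → RegAt P ω) →
        ∀ D, ∃ w ∈ Submodule.span B ((fun a : K => ((Algebra.trace M K (h * a) : M) : K)) '' A),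
          ((ω D : M) : K) = u D * w := by
  obtain ⟨z, Z, hz, hZ⟩ := Pool.Agent.Y172.exists_crd hK
  have hL : Algebra.trdeg ℂ L = (N : ℕ) := Pool.Agent.Y184.NT.trdeg_below (K := K) hK
  have hessL : Algebra.EssFiniteType ℂ L := Pool.Agent.TH466.QG.ess_below (K := K)
  obtain ⟨yL, G, h, G', hyL, hG, hG', hGz, hh, hreg, hpull, hval⟩ := exists_tr (L := L) hK hz
  have hcK : CharZero K := charZero_of_injective_algebraMap (algebraMap ℂ K).injective
  have hTow : IsScalarTower ℂ M K := IsScalarTower.of_algebraMap_eq fun c => rfl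
  have hMtr : Algebra.trdeg ℂ M = (N : ℕ) := Pool.Agent.Y184.NT.trdeg_below (K := K) hK
  obtain ⟨yM, GM, hMM, GM', hyM, hGM, hGM', hGMz, hhM, -, hpullM, -⟩ :=
    exists_tr (L := M) hK hz
  obtain ⟨c, hc⟩ := hval M GM GM' hGM'
  have hc' : ∀ g, hMM * g = (c : K) * (h * g) := fun g => by
    rw [← hGMz, hc]
    rfl
  obtain ⟨A, hA⟩ : ∃ A : Set K, A = {a | ∃ θ, IsTw H N θ ∧ θ Z = a} := ⟨_, rfl⟩
  refine ⟨yL, G, h, A, hG, ?_, fun D => ((Matrix.of fun i j => D i (yM j)).det : M) * (c : K),
    fun ω hω hωr D => ?_⟩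
  · intro f hf a ha P hP
    rw [hA] at ha
    obtain ⟨θ, hθ, rfl⟩ := ha
    rw [mul_assoc]
    refine hreg _ (fun Q hQ => ?_) P hP
    have h1 : trForm z (θ Z * ∏ i, algebraMap (F i) K (f i)) =
        fun D => (∏ i, (f i : K)) * θ D := by
      funext D
      have h2 := congrFun (form_coord hz hZ hθ.1) D
      rw [← h2, trForm, trForm]
      change _ = (∏ i, algebraMap (F i) K (f i)) * _
      ring
    rw [h1]
    exact hθ.2 f hf Q hQ
  · obtain ⟨t, ht⟩ : ∃ t : M, t = ω GM := ⟨_, rfl⟩
    have hcoord : trForm yM t = ω := by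
      rw [ht]
      exact form_coord hyM hGM hω
    have hrat : ω D = (Matrix.of fun i j => D i (yM j)).det * t := by
      have h1 := Pool.Agent.Y172.pluri_coord hyM hGM hω D
      rw [pow_one] at h1
      rw [ht]
      exact h1
    -- the pull-back
    have hk : (t : K) / hMM ∈ Submodule.span B A := by
      obtain ⟨n, b, θ, hθ, hsum⟩ := hgen (trForm z ((t : K) / hMM)) (trForm_pluri _ _)
        fun Q hQ hQB => by
          refine hpullM t Q hQ fun P a hP => ?_
          rw [hcoord]
          refine hωr P (Pool.Agent.Y71.NT.t_abh M K N N hMtr hK Q P a hP hQ) fun f hf => ?_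
          have h1 := hQB ⟨(f : K), hf⟩
          have h2 : Q.ord (algebraMap M K f) = a * P.ord f := hP.2 f
          have h3 : Q.ord (algebraMap M K f) = 0 := h1
          rw [h3] at h2
          have h4 : (a : ℤ) ≠ 0 := by
            have := hP.1
            omega
          exact (mul_eq_zero.1 h2.symm).resolve_left h4
      have h1 := hsum Z
      have h2 : trForm z ((t : K) / hMM) Z = (t : K) / hMM := by
        have h3 : (Matrix.of fun i j => Z i (z j) : Matrix (Fin N) (Fin N) K) = 1 := by
          ext i j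
          rw [Matrix.of_apply, hZ, Matrix.one_apply]
        rw [trForm, h3, Matrix.det_one, one_mul]
      rw [h2] at h1
      rw [h1]
      refine Submodule.sum_mem _ fun j _ => ?_
      have h3 : (b j : K) * θ j Z = b j • θ j Z := by
        rw [Algebra.smul_def]
        rfl
      rw [h3]
      refine Submodule.smul_mem _ _ (Submodule.subset_span ?_)
      rw [hA]
      exact ⟨θ j, hθ j, rfl⟩
    -- the traces
    obtain ⟨τ, hτ⟩ : ∃ τ : K → K, ∀ g, τ g = ((Algebra.trace M K (h * g) : M) : K) :=
      ⟨_, fun _ => rfl⟩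
    have hspan : ∀ w ∈ Submodule.span B A, τ w ∈ Submodule.span B
        ((fun a : K => ((Algebra.trace M K (h * a) : M) : K)) '' A) := by
      intro w hw
      induction hw using Submodule.span_induction with
      | mem w hw => exact Submodule.subset_span ⟨w, hw, (hτ w).symm⟩
      | zero =>
        rw [hτ, mul_zero, map_zero]
        exact Submodule.zero_mem _
      | add p q _ _ hp hq =>
        have h1 : τ (p + q) = τ p + τ q := by
          rw [hτ, hτ, hτ, mul_add, map_add]
          rfl
        rw [h1]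
        exact Submodule.add_mem _ hp hq
      | smul a w _ hw =>
        have h1 : τ (a • w) = a • τ w := by
          rw [hτ, hτ]
          have h2 : h * (a • w) = (⟨(a : K), hBM _ a.2⟩ : M) • (h * w) := by
            rw [Algebra.smul_def, Algebra.smul_def]
            change h * ((a : K) * w) = (a : K) * (h * w)
            ring
          rw [h2, map_smul, smul_eq_mul, Algebra.smul_def]
          rfl
        rw [h1]
        exact Submodule.smul_mem _ _ hw
    have h5 : (finrank M K : K) ≠ 0 := by
      rw [Nat.cast_ne_zero]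
      exact finrank_pos.ne'
    refine ⟨((finrank M K : B)⁻¹ : B) • τ ((t : K) / hMM), Submodule.smul_mem _ _ (hspan _ hk), ?_⟩
    have h6 : (c : K) * τ ((t : K) / hMM) = (finrank M K : K) * (t : K) := by
      have h7 : (c : K) * τ ((t : K) / hMM) =
          ((Algebra.trace M K (c • (h * ((t : K) / hMM))) : M) : K) := by
        rw [hτ, map_smul, smul_eq_mul]
        rfl
      have h8 : c • (h * ((t : K) / hMM)) = algebraMap M K t := by
        rw [Algebra.smul_def]
        change (c : K) * (h * ((t : K) / hMM)) = (t : K)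
        rw [← hc', mul_div_cancel₀ _ hhM]
      rw [h7, h8, Algebra.trace_algebraMap]
      change ((finrank M K • t : M) : K) = _
      rw [nsmul_eq_mul]
      push_cast
      rfl
    have h9 : ((finrank M K : B)⁻¹ : B) • τ ((t : K) / hMM) =
        (finrank M K : K)⁻¹ * τ ((t : K) / hMM) := by
      rw [Algebra.smul_def]
      have h10 : algebraMap B K ((finrank M K : B)⁻¹) = (finrank M K : K)⁻¹ := by
        rw [map_inv₀, map_natCast]
      rw [h10]
    rw [h9, hrat]
    change ((Matrix.of fun i j => D i (yM j)).det : M) * (t : K) = _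
    have h11 : ((Matrix.of fun i j => D i (yM j)).det : M) * (c : K) *
        ((finrank M K : K)⁻¹ * τ ((t : K) / hMM)) =
        ((Matrix.of fun i j => D i (yM j)).det : M) *
          ((finrank M K : K)⁻¹ * ((c : K) * τ ((t : K) / hMM))) := by ring
    rw [h11, h6, ← mul_assoc (finrank M K : K)⁻¹, inv_mul_cancel₀ h5, one_mul]

/-- the function field of the image in the product -/
theorem mf_univ {F : Fin k → IntermediateField ℂ K} {B : IntermediateField ℂ K}
    (hB : B = ⨆ i : Fin k, F i) : ∀ v ∈ B, v ∈ MF F L Finset.univ := by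
  have h1 : B ≤ (MF F L Finset.univ).restrictScalars ℂ := by
    rw [hB]
    refine iSup_le fun i v hv => ?_
    rw [mem_restrictScalars]
    exact mem_MJ (E := fun i => F i) _ (Finset.mem_univ _) (⟨v, hv⟩ : F i)
  exact fun z hz => h1 hz

/-- some trace is not zero -/
theorem trace_ne {B : IntermediateField ℂ K} {M : IntermediateField L K} {h : K} {A : Set K} {w : K}
    (hw : w ∈ Submodule.span B ((fun a : K => ((Algebra.trace M K (h * a) : M) : K)) '' A))
    (hw0 : w ≠ 0) : ∃ a ∈ A, Algebra.trace M K (h * a) ≠ 0 := by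
  by_contra hcon
  push Not at hcon
  have h1 : Submodule.span B ((fun a : K => ((Algebra.trace M K (h * a) : M) : K)) '' A) = ⊥ := by
    rw [Submodule.span_eq_bot]
    rintro _ ⟨a, ha, rfl⟩
    beta_reduce
    rw [hcon a ha]
    rfl
  rw [h1, Submodule.mem_bot] at hw
  exact hw0 hw

/-- **The geometric genus.** -/
theorem can_one [Algebra.EssFiniteType ℂ K] {N : ℕ} (hK : Algebra.trdeg ℂ K = (N : ℕ))
    {F : Fin k → IntermediateField ℂ K} {H : ∀ i, Set (F i)} {B : IntermediateField ℂ K}
    (hB : B = ⨆ i : Fin k, F i) (hgen : Gen H B N)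
    (hH : ∀ i : Fin k, One (MF F L (Js k i)) (F i) (H i))
    (hf : FibGe (MF F L Finset.univ) B N 0) : CanGe L N 0 := by
  obtain ⟨yL, G, h, A, hG, hreg, u, hu⟩ := prep (L := L) hK hgen (mf_univ (L := L) hB)
  obtain ⟨ω, hω, D, hD0, -⟩ := hf
  obtain ⟨w, hw, hw'⟩ := hu (ω 0) (hω 0).1 (hω 0).2 D
  have hw0 : w ≠ 0 := by
    rintro rfl
    rw [mul_zero] at hw'
    exact hD0 (Subtype.ext hw')
  obtain ⟨a, ha, hne⟩ := trace_ne hw hw0
  obtain ⟨f, hf, hne'⟩ := one_core (F := F) hH hne
  refine ⟨fun _ => trForm yL (Algebra.trace L K (h * a * ∏ i, algebraMap (F i) K (f i))),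
    fun _ => ⟨trForm_pluri _ _, fun P hP => hreg f hf a ha P hP⟩, G, ?_, ?_⟩
  · have h1 : (Matrix.of fun i j => G i (yL j) : Matrix (Fin N) (Fin N) L) = 1 := by
      ext i j
      rw [Matrix.of_apply, hG, Matrix.one_apply]
    change trForm yL _ G ≠ 0
    rw [trForm, h1, Matrix.det_one, one_mul]
    exact hne'
  · exact algebraicIndependent_empty_type

/-- **The canonical dimension.** -/
theorem can_two [Algebra.EssFiniteType ℂ K] {N b s : ℕ} (hK : Algebra.trdeg ℂ K = (N : ℕ))
    {F : Fin k → IntermediateField ℂ K} {H : ∀ i, Set (F i)} {B : IntermediateField ℂ K}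
    (hB : B = ⨆ i : Fin k, F i) (hb : Algebra.trdeg ℂ B = (b : ℕ)) (hgen : Gen H B N)
    (hH : ∀ i : Fin k, Two (MF F L (Js k i)) (F i) (H i))
    (hf : FibGe (MF F L Finset.univ) B N s) : CanGe L N (b + s) := by
  have hL : Algebra.trdeg ℂ L = (N : ℕ) := Pool.Agent.Y184.NT.trdeg_below (K := K) hK
  have hessL : Algebra.EssFiniteType ℂ L := Pool.Agent.TH466.QG.ess_below (K := K)
  obtain ⟨yL, G, h, A, hG, hreg, u, hu⟩ := prep (L := L) hK hgen (mf_univ (L := L) hB)
  obtain ⟨ω, hω, D, hD0, hDi⟩ := hf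
  choose w hw hw' using fun j => hu (ω j) (hω j).1 (hω j).2 D
  have hu0 : u D ≠ 0 := by
    intro h0
    have h1 := hw' 0
    rw [h0, zero_mul] at h1
    exact hD0 (Subtype.ext h1)
  have hw0 : w 0 ≠ 0 := by
    intro h0
    have h1 := hw' 0
    rw [h0, mul_zero] at h1
    exact hD0 (Subtype.ext h1)
  obtain ⟨a0, ha0, hne⟩ := trace_ne (hw 0) hw0
  obtain ⟨ι, T, hT0, hTreg, hTx, hTr⟩ := two_core (F := F) hH hreg ha0 hne
  -- the algebraic closure of the field of the ratios
  obtain ⟨C, hC⟩ : ∃ C : IntermediateField ℂ K, C =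
    (algebraicClosure (Rt T) K).restrictScalars ℂ := ⟨_, rfl⟩
  have hmem : ∀ z, z ∈ C ↔ IsAlgebraic (Rt T) z := fun z => by
    rw [hC, mem_restrictScalars, mem_algebraicClosure_iff]
  have hBC : B ≤ C := by
    rw [hB]
    refine iSup_le fun i v hv => ?_
    exact (hmem _).2 (hTx i ⟨v, hv⟩)
  obtain ⟨r0, hr0⟩ : ∃ r0 : K, r0 = ((Algebra.trace (MF F L Finset.univ) K (h * a0) :
    MF F L Finset.univ) : K) := ⟨_, rfl⟩
  have hr0' : r0 ≠ 0 := by
    rw [hr0]
    exact fun h5 => hne (Subtype.ext h5)
  have hspC : ∀ v ∈ Submodule.span B ((fun a : K => ((Algebra.trace (MF F L Finset.univ) K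
      (h * a) : MF F L Finset.univ) : K)) '' A), v / r0 ∈ C := by
    intro v hv
    induction hv using Submodule.span_induction with
    | mem v hv =>
      obtain ⟨a, ha, rfl⟩ := hv
      beta_reduce
      rw [hr0, hmem]
      exact hTr a ha a0 ha0 hne
    | zero =>
      rw [zero_div]
      exact C.zero_mem
    | add p q _ _ hp hq =>
      rw [add_div]
      exact C.add_mem hp hq
    | smul a v _ hv =>
      rw [Algebra.smul_def, mul_div_assoc]
      exact C.mul_mem (hBC a.2) hv
  have hratC : ∀ i : Fin s, ((ω i.succ D / ω 0 D : MF F L Finset.univ) : K) ∈ C := by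
    intro i
    have h1 := C.div_mem (hspC _ (hw i.succ)) (hspC _ (hw 0))
    rw [div_div_div_cancel_right₀ hr0'] at h1
    have h2 : ((ω i.succ D / ω 0 D : MF F L Finset.univ) : K) = w i.succ / w 0 := by
      have h3 : ((ω i.succ D / ω 0 D : MF F L Finset.univ) : K) =
          ((ω i.succ D : MF F L Finset.univ) : K) / ((ω 0 D : MF F L Finset.univ) : K) := rfl
      rw [h3, hw' i.succ, hw' 0, mul_div_mul_left _ _ hu0]
    rw [h2]
    exact h1
  obtain ⟨xB, EB, hxB, -⟩ := Pool.Agent.Y172.exists_crd hb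
  have hall := indep_append hxB.1 hDi
  refine canGe_of_alg hL hG T hT0 hTreg (trdeg_adj hall) fun j => ?_
  refine (hmem _).1 ?_
  refine Fin.addCases (fun l => ?_) (fun i => ?_) j
  · rw [Fin.append_left]
    exact hBC (xB l).2
  · rw [Fin.append_right]
    exact hratC i

end

end Run7.h821
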