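import Pool.Agent.Run7.h821.GfDef

/-!
Criteria for independent conditions: linear systems which separate points, and forms of a degree
which is large compared with the regularity index of the fibres.
-/

set_option autoImplicit false
set_option linter.overlappingInstances false
set_option linter.unusedSectionVars false
set_option maxHeartbeats 4000000
set_option synthInstance.maxHeartbeats 400000

open Module IntermediateField MvPolynomial

namespace Run7.h821

open scoped Classical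

theorem td_map {R S σ : Type} [CommSemiring R] [CommSemiring S] (f : R →+* S)
    (p : MvPolynomial σ R) : (MvPolynomial.map f p).totalDegree ≤ p.totalDegree :=
  Finset.sup_mono (MvPolynomial.support_map_subset f p)

section

variable {K : Type} [Field K] [Algebra ℂ K] {L : Type} [Field L] [Algebra ℂ L]
  [Algebra L K] [IsScalarTower ℂ L K] {M : IntermediateField L K} {E : IntermediateField ℂ K}
  {Ω : Type} [Field Ω] [Algebra ℂ Ω] {m : ℕ} {t : Fin m → E}

/-- the values of polynomials at the points below a point -/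
theorem below_eval {α : M →ₐ[ℂ] Ω} {σ : E →ₐ[ℂ] Ω} {τ : K →ₐ[ℂ] Ω} (h1 : ∀ z : M, τ z = α z)
    (h2 : ∀ z : E, τ z = σ z) (p : MvPolynomial (Fin m) M) :
    τ (aeval (fun j => (t j : K)) p) = eval₂Hom (α : M →+* Ω) (fun j => σ (t j)) p := by
  have h3 : (τ : K →+* Ω).comp (aeval (fun j => (t j : K)) : MvPolynomial (Fin m) M →ₐ[M] K) =
      eval₂Hom (α : M →+* Ω) (fun j => σ (t j)) := by
    refine MvPolynomial.ringHom_ext (fun a => ?_) fun j => ?_
    · rw [eval₂Hom_C]
      change τ (aeval (fun j => (t j : K)) (C a)) = α a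
      rw [aeval_C]
      exact h1 a
    · rw [eval₂Hom_X']
      change τ (aeval (fun j => (t j : K)) (X j)) = σ (t j)
      rw [aeval_X]
      exact h2 (t j)
  exact DFunLike.congr_fun h3 p

theorem eval_map_eq {α : M →ₐ[ℂ] Ω} {x : Fin m → Ω} (p : MvPolynomial (Fin m) M) :
    eval x (MvPolynomial.map (α : M →+* Ω) p) = eval₂Hom (α : M →+* Ω) x p := by
  rw [eval_map]
  rfl

/-- relations for monomials are relations for polynomials -/
theorem rel_poly {H : Set E} {D : ℕ}
    (hH : ∀ a : Fin m → ℕ, ∑ j, a j ≤ D → ∏ j, t j ^ a j ∈ H) {A : Finset (E →ₐ[ℂ] Ω)}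
    {c : (E →ₐ[ℂ] Ω) → Ω} (hc : ∀ f ∈ H, ∑ σ ∈ A, c σ * σ f = 0) (P : MvPolynomial (Fin m) Ω)
    (hP : P.totalDegree ≤ D) : ∑ σ ∈ A, c σ * eval (fun j => σ (t j)) P = 0 := by
  have h1 : ∀ σ : E →ₐ[ℂ] Ω, c σ * eval (fun j => σ (t j)) P =
      ∑ d ∈ P.support, P.coeff d * (c σ * σ (∏ j, t j ^ d j)) := by
    intro σ
    rw [eval_eq', Finset.mul_sum]
    refine Finset.sum_congr rfl fun d _ => ?_
    rw [map_prod]
    simp only [map_pow]
    ring
  rw [Finset.sum_congr rfl fun σ _ => h1 σ, Finset.sum_comm]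
  refine Finset.sum_eq_zero fun d hd => ?_
  rw [← Finset.mul_sum, hc _ (hH _ ?_), mul_zero]
  have h2 := le_totalDegree hd
  rw [Finsupp.sum_fintype _ _ fun _ => rfl] at h2
  exact h2.trans hP

/-- the functions on the fibre are polynomials of degree at most `ρ` -/
def Reg (M : IntermediateField L K) (E : IntermediateField ℂ K) {m : ℕ} (t : Fin m → E) (ρ : ℕ) :
    Prop :=
  ∀ z ∈ IntermediateField.adjoin M (E : Set K), ∃ p : MvPolynomial (Fin m) M,
    p.totalDegree ≤ ρ ∧ aeval (fun j => (t j : K)) p = z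

theorem mem_N (z : E) : (z : K) ∈ IntermediateField.adjoin M (E : Set K) :=
  IntermediateField.subset_adjoin _ _ z.2

/-- independent conditions on polynomials of degree at most `ρ` -/
theorem one_reg {ρ : ℕ} (hreg : Reg M E t ρ) {α : M →ₐ[ℂ] Ω} {A : Finset (E →ₐ[ℂ] Ω)}
    (hA : ∀ σ ∈ A, σ ∈ Below M E α) {c : (E →ₐ[ℂ] Ω) → Ω}
    (hc : ∀ P : MvPolynomial (Fin m) Ω, P.totalDegree ≤ ρ →
      ∑ σ ∈ A, c σ * eval (fun j => σ (t j)) P = 0) : ∀ σ ∈ A, c σ = 0 := by
  obtain ⟨N, hN⟩ : ∃ N, N = IntermediateField.adjoin M (E : Set K) := ⟨_, rfl⟩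
  choose τ h1 h2 using fun σ : A => hA σ σ.2
  let φ : A → (N →* Ω) := fun σ => ((τ σ : K →+* Ω).comp (algebraMap N K) : N →+* Ω)
  have hφ : ∀ (σ : A) (z : N), φ σ z = τ σ (z : K) := fun σ z => rfl
  have hinj : Function.Injective φ := by
    intro σ σ' h
    apply Subtype.ext
    apply AlgHom.ext
    intro z
    rw [← h2 σ, ← h2 σ']
    have h3 := DFunLike.congr_fun h (⟨z, by rw [hN]; exact mem_N z⟩ : N)
    exact h3
  have h3 := (linearIndependent_monoidHom N Ω).comp φ hinj
  rw [Fintype.linearIndependent_iff] at h3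
  have h4 := h3 (fun σ => c σ) (by
    funext z
    rw [Finset.sum_apply]
    obtain ⟨p, hp, hpz⟩ := hreg z (by rw [← hN]; exact z.2)
    have h5 : ∀ σ : A, c σ * τ σ (z : K) =
        c σ * eval (fun j => (σ : E →ₐ[ℂ] Ω) (t j)) (MvPolynomial.map (α : M →+* Ω) p) := by
      intro σ
      rw [eval_map_eq, ← below_eval (h1 σ) (h2 σ), hpz]
    have h6 := hc (MvPolynomial.map (α : M →+* Ω) p) (by
      refine le_trans ?_ hp
      exact td_map _ _)
    rw [← Finset.sum_coe_sort] at h6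
    change ∑ σ : A, c σ * τ σ (z : K) = 0
    rw [← h6]
    exact Finset.sum_congr rfl fun σ _ => h5 σ)
  exact fun σ hσ => h4 ⟨σ, hσ⟩

/-- **Equations of the fibre in degree `ρ + 1`.** A point which is not below `β` is not a zero of
some equation of degree at most `ρ + 1` of the points below `β`. -/
theorem exists_rel [IsAlgClosed Ω] [FiniteDimensional L K] {ρ : ℕ} (hreg : Reg M E t ρ)
    (hE : IntermediateField.adjoin ℂ (Set.range t) = ⊤) {β : M →ₐ[ℂ] Ω} {σ0 : E →ₐ[ℂ] Ω}
    (h : σ0 ∉ Below M E β) : ∃ p : MvPolynomial (Fin m) M, p.totalDegree ≤ ρ + 1 ∧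
      aeval (fun j => (t j : K)) p = 0 ∧
      eval₂Hom (β : M →+* Ω) (fun j => σ0 (t j)) p ≠ 0 := by
  by_contra hcon
  push Not at hcon
  apply h
  obtain ⟨N, hN⟩ : ∃ N, N = IntermediateField.adjoin M (E : Set K) := ⟨_, rfl⟩
  have htN : ∀ j, (t j : K) ∈ N := fun j => by
    rw [hN]
    exact mem_N (t j)
  obtain ⟨φ, hφ⟩ : ∃ φ : MvPolynomial (Fin m) M →ₐ[M] N,
    φ = aeval (fun j => (⟨t j, htN j⟩ : N)) := ⟨_, rfl⟩
  have hφK : ∀ p, ((φ p : N) : K) = aeval (fun j => (t j : K)) p := by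
    intro p
    have h1 : N.val.comp φ = aeval (fun j => (t j : K)) := by
      refine MvPolynomial.algHom_ext fun j => ?_
      rw [hφ, AlgHom.comp_apply, aeval_X, aeval_X]
      rfl
    exact DFunLike.congr_fun h1 p
  obtain ⟨ψ, hψ⟩ : ∃ ψ : MvPolynomial (Fin m) M →+* Ω,
    ψ = eval₂Hom (β : M →+* Ω) (fun j => σ0 (t j)) := ⟨_, rfl⟩
  have hrep : ∀ z : N, ∃ p : MvPolynomial (Fin m) M, p.totalDegree ≤ ρ ∧ φ p = z := by
    intro z
    obtain ⟨p, hp, hpz⟩ := hreg z (by rw [← hN]; exact z.2)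
    exact ⟨p, hp, Subtype.ext (by rw [hφK, hpz])⟩
  choose rep hrep1 hrep2 using hrep
  have wd : ∀ p q : MvPolynomial (Fin m) M, p.totalDegree ≤ ρ + 1 → q.totalDegree ≤ ρ + 1 →
      φ p = φ q → ψ p = ψ q := by
    intro p q hp hq hpq
    have h1 := hcon (p - q) ((totalDegree_sub _ _).trans (max_le hp hq)) (by
      rw [← hφK, map_sub, hpq, sub_self]
      rfl)
    rw [← hψ, map_sub] at h1
    exact sub_eq_zero.1 h1
  have key : ∀ p, ψ p = ψ (rep (φ p)) := by
    intro p
    induction p using MvPolynomial.induction_on with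
    | C a =>
      exact wd _ _ (by rw [totalDegree_C]; omega) ((hrep1 _).trans (by omega)) (hrep2 _).symm
    | add p q hp hq =>
      rw [map_add, hp, hq, ← map_add]
      refine wd _ _ ((totalDegree_add _ _).trans (max_le ((hrep1 _).trans (by omega))
        ((hrep1 _).trans (by omega)))) ((hrep1 _).trans (by omega)) ?_
      rw [map_add, hrep2, hrep2, hrep2, map_add]
    | mul_X p j hp =>
      rw [map_mul, hp, ← map_mul]
      refine wd _ _ ((totalDegree_mul _ _).trans ?_) ((hrep1 _).trans (by omega)) ?_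
      · rw [totalDegree_X]
        exact Nat.add_le_add_right (hrep1 _) 1
      · rw [map_mul, hrep2, hrep2, map_mul]
  have hsurj : Function.Surjective (φ : MvPolynomial (Fin m) M →+* N) := fun z =>
    ⟨rep z, hrep2 z⟩
  have hker : RingHom.ker (φ : MvPolynomial (Fin m) M →+* N) ≤ RingHom.ker ψ := by
    intro p hp
    rw [RingHom.mem_ker] at hp ⊢
    have h1 : φ p = φ 0 := by
      rw [map_zero]
      exact hp
    rw [key p, h1, ← key 0, map_zero]
  obtain ⟨χ, hχ⟩ : ∃ χ : N →+* Ω, ∀ p, χ (φ p) = ψ p :=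
    ⟨RingHom.liftOfSurjective (φ : MvPolynomial (Fin m) M →+* N) hsurj ⟨ψ, hker⟩, fun p =>
      RingHom.liftOfSurjective_comp_apply _ _ _ _⟩
  have hχM : ∀ a : M, χ (algebraMap M N a) = β a := by
    intro a
    have h1 := hχ (C a)
    rw [hφ, aeval_C] at h1
    rw [h1, hψ, eval₂Hom_C]
    rfl
  have hχt : ∀ j, χ ⟨t j, htN j⟩ = σ0 (t j) := by
    intro j
    have h1 := hχ (X j)
    rw [hφ, aeval_X] at h1
    rw [h1, hψ, eval₂Hom_X']
  let iA : Algebra N Ω := χ.toAlgebra
  have hfin : FiniteDimensional N K := inferInstance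
  have halg : Algebra.IsAlgebraic N K := inferInstance
  obtain ⟨τ⟩ : Nonempty (K →ₐ[N] Ω) := ⟨IsAlgClosed.lift⟩
  have hτN : ∀ z : N, τ (z : K) = χ z := fun z => τ.commutes z
  have hτM : ∀ z : M, τ (z : K) = β z := by
    intro z
    rw [← hχM z, ← hτN]
    rfl
  let τ' : K →ₐ[ℂ] Ω := { (τ : K →+* Ω) with
    commutes' := fun a => by
      have h1 : algebraMap ℂ K a = ((algebraMap ℂ M a : M) : K) := rfl
      change τ (algebraMap ℂ K a) = algebraMap ℂ Ω a
      rw [h1, hτM, β.commutes] }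
  refine ⟨τ', hτM, ?_⟩
  have h5 : ∀ z ∈ IntermediateField.adjoin ℂ (Set.range t), τ' ((z : E) : K) = σ0 z := by
    intro z hz
    induction hz using IntermediateField.adjoin_induction with
    | mem z hz =>
      obtain ⟨j, rfl⟩ := hz
      rw [← hχt j, ← hτN]
      rfl
    | algebraMap a =>
      rw [σ0.commutes]
      exact τ'.commutes a
    | add x y _ _ hx hy =>
      rw [map_add, ← hx, ← hy, ← map_add]
      rfl
    | inv x _ hx =>
      rw [map_inv₀, ← hx, ← map_inv₀]
      rfl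
    | mul x y _ _ hx hy =>
      rw [map_mul, ← hx, ← hy, ← map_mul]
      rfl
  intro z
  exact h5 z (by rw [hE]; trivial)

/-- **Regularity.** If the functions on the fibres are polynomials of degree at most `ρ`, then one
fibre imposes independent conditions on polynomials of degree `ρ`. -/
theorem one_of_reg {ρ : ℕ} (hreg : Reg M E t ρ) {H : Set E}
    (hH : ∀ a : Fin m → ℕ, ∑ j, a j ≤ ρ → ∏ j, t j ^ a j ∈ H) : One M E H := by
  intro Ω _ _ _ α A hA c hc
  exact one_reg hreg hA fun P hP => rel_poly hH hc P hP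

/-- **Regularity.** Two fibres impose independent conditions on polynomials of degree
`2 ρ + 1`. -/
theorem two_of_reg [FiniteDimensional L K] {ρ : ℕ} (hreg : Reg M E t ρ)
    (hE : IntermediateField.adjoin ℂ (Set.range t) = ⊤) {H : Set E}
    (hH : ∀ a : Fin m → ℕ, ∑ j, a j ≤ 2 * ρ + 1 → ∏ j, t j ^ a j ∈ H) : Two M E H := by
  intro Ω _ _ _
  have step : ∀ (α β : M →ₐ[ℂ] Ω) (A : Finset (E →ₐ[ℂ] Ω)),
      (∀ σ ∈ A, σ ∈ Below M E α ∨ σ ∈ Below M E β) → ∀ c : (E →ₐ[ℂ] Ω) → Ω,
      (∀ f ∈ H, ∑ σ ∈ A, c σ * σ f = 0) → ∀ σ ∈ A, σ ∉ Below M E β → c σ = 0 := by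
    intro α β A hA c hc σ0 hσ0 hβ
    obtain ⟨q, hq, hq0, hqne⟩ := exists_rel hreg hE hβ
    have hvan : ∀ σ ∈ Below M E β, eval₂Hom (β : M →+* Ω) (fun j => σ (t j)) q = 0 := by
      rintro σ ⟨τ, h1, h2⟩
      rw [← below_eval h1 h2, hq0, map_zero]
    have h1 := one_reg (α := α) (c := fun σ => c σ * eval₂Hom (β : M →+* Ω)
      (fun j => σ (t j)) q) hreg (A := A.filter fun σ => σ ∉ Below M E β) (by
        intro σ hσ
        rw [Finset.mem_filter] at hσ
        exact (hA σ hσ.1).resolve_right hσ.2) (by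
        intro P hP
        have h2 := rel_poly hH hc (MvPolynomial.map (β : M →+* Ω) q * P) (by
          refine (totalDegree_mul _ _).trans ?_
          have h3 : (MvPolynomial.map (β : M →+* Ω) q).totalDegree ≤ ρ + 1 :=
            le_trans (td_map _ _) hq
          omega)
        rw [← h2]
        refine Eq.trans (Finset.sum_subset (Finset.filter_subset _ _) ?_) ?_
        · intro σ hσ hσ'
          have h3 : σ ∈ Below M E β := by
            by_contra h4
            exact hσ' (Finset.mem_filter.2 ⟨hσ, h4⟩)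
          rw [hvan σ h3, mul_zero, zero_mul]
        · refine Finset.sum_congr rfl fun σ _ => ?_
          rw [map_mul, eval_map_eq, mul_assoc]) σ0 (Finset.mem_filter.2 ⟨hσ0, hβ⟩)
    exact (mul_eq_zero.1 h1).resolve_right hqne
  intro α β A hA c hc σ0 hσ0
  by_cases hα : σ0 ∈ Below M E α
  swap
  · exact step β α A (fun σ hσ => (hA σ hσ).symm) c hc σ0 hσ0 hα
  refine one_reg (α := α) hreg (A := A.filter fun σ => σ ∈ Below M E α) (fun σ hσ =>
    (Finset.mem_filter.1 hσ).2) (fun P hP => ?_) σ0 (Finset.mem_filter.2 ⟨hσ0, hα⟩)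
  have h2 := rel_poly hH hc P (hP.trans (by omega))
  rw [← h2]
  refine Finset.sum_subset (Finset.filter_subset _ _) ?_
  intro σ hσ hσ'
  have h3 : σ ∉ Below M E α := fun h4 => hσ' (Finset.mem_filter.2 ⟨hσ, h4⟩)
  rw [step β α A (fun σ hσ => (hA σ hσ).symm) c hc σ hσ h3, zero_mul]

/-- the number of points below a point -/
theorem card_below [FiniteDimensional L K] [IsAlgClosed Ω] {α : M →ₐ[ℂ] Ω}
    {A : Finset (E →ₐ[ℂ] Ω)} (hA : ∀ σ ∈ A, σ ∈ Below M E α) :
    A.card ≤ finrank M (IntermediateField.adjoin M (E : Set K)) := by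
  have hL0 : CharZero L := charZero_of_injective_algebraMap (algebraMap ℂ L).injective
  have hM0 : CharZero M := charZero_of_injective_algebraMap (algebraMap L M).injective
  obtain ⟨N, hN⟩ : ∃ N, N = IntermediateField.adjoin M (E : Set K) := ⟨_, rfl⟩
  rw [← hN]
  let iA : Algebra M Ω := (α : M →+* Ω).toAlgebra
  have hfin : FiniteDimensional M N := inferInstance
  rw [← AlgHom.card M N Ω]
  choose τ h1 h2 using fun σ : A => hA σ σ.2
  let φ : A → (N →ₐ[M] Ω) := fun σ =>
    { ((τ σ : K →+* Ω).comp (algebraMap N K) : N →+* Ω) with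
      commutes' := fun z => h1 σ z }
  have hφ : ∀ (σ : A) (z : N), φ σ z = τ σ (z : K) := fun σ z => rfl
  rw [← Fintype.card_coe]
  refine Fintype.card_le_of_injective φ fun σ σ' h => Subtype.ext (AlgHom.ext fun z => ?_)
  rw [← h2 σ, ← h2 σ']
  exact DFunLike.congr_fun h (⟨z, by rw [hN]; exact mem_N z⟩ : N)

/-- **Separation of points.** -/
theorem one_of_sep [FiniteDimensional L K] {H : Set E} {r : ℕ}
    (hr : finrank M (IntermediateField.adjoin M (E : Set K)) ≤ r)
    (hsep : ∀ (Ω : Type) [Field Ω] [Algebra ℂ Ω] [IsAlgClosed Ω] (A : Finset (E →ₐ[ℂ] Ω)),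
      A.card ≤ r → ∀ c : (E →ₐ[ℂ] Ω) → Ω, (∀ f ∈ H, ∑ σ ∈ A, c σ * σ f = 0) →
        ∀ σ ∈ A, c σ = 0) : One M E H := by
  intro Ω _ _ _ α A hA
  exact hsep Ω A ((card_below hA).trans hr)

/-- **Separation of points.** -/
theorem two_of_sep [FiniteDimensional L K] {H : Set E} {r : ℕ}
    (hr : 2 * finrank M (IntermediateField.adjoin M (E : Set K)) ≤ r)
    (hsep : ∀ (Ω : Type) [Field Ω] [Algebra ℂ Ω] [IsAlgClosed Ω] (A : Finset (E →ₐ[ℂ] Ω)),
      A.card ≤ r → ∀ c : (E →ₐ[ℂ] Ω) → Ω, (∀ f ∈ H, ∑ σ ∈ A, c σ * σ f = 0) →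
        ∀ σ ∈ A, c σ = 0) : Two M E H := by
  intro Ω _ _ _ α β A hA
  refine hsep Ω A (le_trans ?_ hr)
  have h1 : A = (A.filter fun σ => σ ∈ Below M E α) ∪ (A.filter fun σ => σ ∈ Below M E β) := by
    ext σ
    rw [Finset.mem_union, Finset.mem_filter, Finset.mem_filter]
    constructor
    · intro h
      rcases hA σ h with h2 | h2
      · exact Or.inl ⟨h, h2⟩
      · exact Or.inr ⟨h, h2⟩
    · rintro (h | h)
      · exact h.1
      · exact h.1
  have h2 := card_below (M := M) (E := E) (α := α)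
    (A := A.filter fun σ => σ ∈ Below M E α) fun σ hσ => (Finset.mem_filter.1 hσ).2
  have h3 := card_below (M := M) (E := E) (α := β)
    (A := A.filter fun σ => σ ∈ Below M E β) fun σ hσ => (Finset.mem_filter.1 hσ).2
  have h4 := Finset.card_union_le (A.filter fun σ => σ ∈ Below M E α)
    (A.filter fun σ => σ ∈ Below M E β)
  rw [← h1] at h4
  omega

end

end Run7.h821
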