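import Pool.Agent.Run7.h821.GfB
import Pool.Agent.Run7.h821.GfC
import Pool.Agent.Run7.h821.FibE

/-!
The numerical dimension of the images of fibrations.
-/

set_option autoImplicit false
set_option linter.overlappingInstances false
set_option linter.unusedSectionVars false
set_option maxHeartbeats 4000000
set_option synthInstance.maxHeartbeats 400000

open IntermediateField Module FF
open Pool.Agent.W602.GT (Divisorial RegAt IsPluri)
open Pool.Agent.W619.TW (NumLe)

namespace Run7.h821

variable {K : Type} [Field K] [Algebra ℂ K]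

/-- **Easy addition for the numerical dimension**, in terms of the geometric generic fibre. -/
theorem num_geo [hess : Algebra.EssFiniteType ℂ K] {b f s : ℕ}
    (hK : Algebra.trdeg ℂ K = (b + (f + 1) : ℕ))
    (B : IntermediateField ℂ K) (hessB : Algebra.EssFiniteType ℂ B)
    (hB : Algebra.trdeg ℂ B = b)
    (hcl : ∀ z : K, IsAlgebraic B z → z ∈ B) (E' : IntermediateField B K)
    [FiniteDimensional E' K]
    (h : NumLe (algebraicClosure B (AlgebraicClosure K)) (GeoFibre B (E'.restrictScalars ℂ))
      (f + 1) (fun _ => False) s) :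
    NumLe ℂ (E'.restrictScalars ℂ : IntermediateField ℂ K) (b + (f + 1)) (fun _ => False)
      (b + s) := by
  classical
  let Ω := AlgebraicClosure K
  let Λ : IntermediateField B Ω := algebraicClosure B Ω
  have hΛ : IsAlgClosed Λ := (algebraicClosure.isAlgClosure B Ω).isAlgClosed
  have hΛalg : Algebra.IsAlgebraic B Λ := inferInstance
  let F : IntermediateField Λ Ω := GeoFibre B (E'.restrictScalars ℂ)
  have hTL : IsScalarTower ℂ B Ω := IsScalarTower.of_algebraMap_eq fun z => by
    rw [IsScalarTower.algebraMap_apply ℂ K Ω]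
    rfl
  have hTΛ : IsScalarTower ℂ Λ Ω := IsScalarTower.of_algebraMap_eq fun z => by
    rw [IsScalarTower.algebraMap_apply ℂ B Ω]
    rfl
  let φ0 : E' →+* F :=
    { toFun := fun z => ⟨algebraMap K Ω z,
        IntermediateField.subset_adjoin _ _ ⟨(z : K), z.2, rfl⟩⟩
      map_one' := Subtype.ext (map_one _)
      map_mul' := fun a b => Subtype.ext (map_mul (algebraMap K Ω) _ _)
      map_zero' := Subtype.ext (map_zero _)
      map_add' := fun a b => Subtype.ext (map_add (algebraMap K Ω) _ _) }
  let iKF : Algebra E' F := φ0.toAlgebra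
  have hKF : ∀ z : E', ((algebraMap E' F z : F) : Ω) = algebraMap K Ω z := fun z => rfl
  have hT0 : IsScalarTower ℂ B E' := IsScalarTower.of_algebraMap_eq fun z => by
    apply Subtype.ext
    change algebraMap ℂ K z = algebraMap B K (algebraMap ℂ B z)
    rw [← IsScalarTower.algebraMap_apply]
  have hT1 : IsScalarTower B E' F := IsScalarTower.of_algebraMap_eq fun z => Subtype.ext rfl
  have hT2 : IsScalarTower ℂ E' F := IsScalarTower.of_algebraMap_eq fun z => by
    apply Subtype.ext
    rw [hKF]
    change _ = algebraMap K Ω (algebraMap ℂ K z)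
    rw [← IsScalarTower.algebraMap_apply ℂ K Ω]
    rfl
  have hT3 : IsScalarTower ℂ B Λ := inferInstance
  have hT4 : IsScalarTower B Λ F := IsScalarTower.of_algebraMap_eq fun z => Subtype.ext rfl
  have hT5 : IsScalarTower ℂ Λ F := inferInstance
  have hgenF : IntermediateField.adjoin Λ (Set.range (algebraMap E' F)) = ⊤ := by
    have h1 : (IntermediateField.adjoin Λ (Set.range (algebraMap E' F))).map F.val =
        (⊤ : IntermediateField Λ F).map F.val := by
      rw [IntermediateField.adjoin_map, ← AlgHom.fieldRange_eq_map,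
        IntermediateField.fieldRange_val]
      change _ = IntermediateField.adjoin Λ (algebraMap K Ω '' (E'.restrictScalars ℂ))
      congr 1
      ext z
      simp only [Set.mem_image, Set.mem_range]
      constructor
      · rintro ⟨_, ⟨y, rfl⟩, rfl⟩
        exact ⟨y, y.2, rfl⟩
      · rintro ⟨y, hy, rfl⟩
        exact ⟨_, ⟨⟨y, hy⟩, rfl⟩, rfl⟩
    exact IntermediateField.map_injective _ h1
  have hclE : ∀ x : E', IsIntegral B x → ∃ y : B, algebraMap B E' y = x := by
    intro x hx
    have h1 := hcl (x : K) (hx.map (IsScalarTower.toAlgHom B E' K)).isAlgebraic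
    exact ⟨⟨_, h1⟩, Subtype.ext rfl⟩
  have hessE' : Algebra.EssFiniteType ℂ E' := by
    have h1 : FiniteDimensional (E'.restrictScalars ℂ : IntermediateField ℂ K) K :=
      inferInstanceAs (FiniteDimensional E' K)
    have h2 : Algebra.EssFiniteType ℂ (E'.restrictScalars ℂ : IntermediateField ℂ K) :=
      Pool.Agent.TH466.QG.ess_below (K := K)
    exact h2
  have hEtr : Algebra.trdeg ℂ E' = (b + (f + 1) : ℕ) := by
    have h1 : FiniteDimensional (E'.restrictScalars ℂ : IntermediateField ℂ K) K :=
      inferInstanceAs (FiniteDimensional E' K)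
    have h2 : Algebra.trdeg ℂ (E'.restrictScalars ℂ : IntermediateField ℂ K) =
      (b + (f + 1) : ℕ) := Pool.Agent.Y184.NT.trdeg_below (K := K) hK
    exact h2
  exact Pool.Agent.Y174.easy_add (k := ℂ) (L := B) (K := E') (Λ := Λ) (F := F) hessB
    hessE' hgenF hclE hB hEtr h

end Run7.h821
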