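import Pool.Agent.Run7.h821.GfT
import Pool.Agent.Run7.h821.GfE
import Pool.Agent.Run7.h72.Iit

/-!
Fibrations of the images of fibrations by curves: Iitaka's inequality.
-/

set_option autoImplicit false
set_option linter.overlappingInstances false
set_option linter.unusedSectionVars false
set_option linter.unusedVariables false
set_option maxHeartbeats 4000000
set_option synthInstance.maxHeartbeats 400000

open IntermediateField Module FF
open Pool.Agent.W603.LV
open Pool.Agent.W602.GT (Divisorial RegAt IsPluri KodGe)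
open Pool.Agent.W619.TW (NumLe)
open Pool.Agent.N145.SX (GLO)

namespace Run7.h821

section

variable {Λ F : Type} [Field Λ] [IsAlgClosed Λ] [CharZero Λ] [Field F] [Algebra Λ F] [IsFF Λ F]

/-- curves of genus at most one -/
theorem glo_of_genus (h1 : GenusLe Λ F 1 1) : GLO Λ F := by
  intro D hD0 f hf g hg
  obtain ⟨ξ, hξ⟩ := IsFF.exists_transcendental (k := Λ) (K := F)
  have hd0 := der_ne (k := Λ) (K := F)
  have hd1 := der_ne_zero hd0 hξ
  obtain ⟨D1, hDd⟩ : ∃ D1 : Derivation Λ F F, D1 = (der Λ F ξ)⁻¹ • der Λ F := ⟨_, rfl⟩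
  have hD1 : D1 ξ = 1 := by
    rw [hDd, Derivation.smul_apply, smul_eq_mul, inv_mul_cancel₀ hd1]
  have hD10 : D1 ≠ 0 := by
    intro h
    rw [h] at hD1
    exact zero_ne_one hD1
  have hs : D = D ξ • D1 := der_eq_smul hξ hD1 D
  have hc0 : D ξ ≠ 0 := by
    intro h
    apply hD0
    rw [hs, h, zero_smul]
  have hvo : ∀ Q : Place Λ F, vo Q D = Q.ord (D ξ) + vo Q D1 := by
    intro Q
    conv_lhs => rw [hs]
    exact vo_smul Q hD10 hc0
  have key : ∀ u ∈ Pool.Agent.N145.PL.HL D (∅ : Set (Place Λ F)), ∀ Q : Place Λ F,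
      u / D ξ = 0 ∨ vo Q D1 ≤ Q.ord (u / D ξ) := by
    intro u hu Q
    by_cases hu0 : u = 0
    · left
      rw [hu0, zero_div]
    right
    have h2 := (hu Q).resolve_left hu0
    have h3 : Pool.Agent.N145.PL.bd (∅ : Set (Place Λ F)) Q = 0 := by
      unfold Pool.Agent.N145.PL.bd
      rw [if_neg (Set.notMem_empty Q)]
    rw [h3, sub_zero, hvo] at h2
    have h4 : Q.ord (u / D ξ) = Q.ord u - Q.ord (D ξ) := by
      rw [div_eq_mul_inv, Q.ord_mul hu0 (inv_ne_zero hc0), Q.ord_inv]
      ring
    rw [h4]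
    linarith
  obtain ⟨c, hcne, hc⟩ := (genusLe_iff hξ hD1).1 h1 ![f / D ξ, g / D ξ] (by
    intro j Q
    fin_cases j
    · exact key f hf Q
    · exact key g hg Q)
  rw [Fin.sum_univ_two] at hc
  simp only [Matrix.cons_val_zero, Matrix.cons_val_one] at hc
  refine ⟨c 0, -(c 1), ?_, ?_⟩
  · by_contra hcon
    push Not at hcon
    apply hcne
    funext j
    fin_cases j
    · exact hcon.1
    · exact neg_eq_zero.1 hcon.2
  · rw [map_neg]
    have h5 : (algebraMap Λ F (c 0) * (f / D ξ) + algebraMap Λ F (c 1) * (g / D ξ)) * D ξ = 0 := by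
      rw [hc, zero_mul]
    have h6 : (algebraMap Λ F (c 0) * (f / D ξ) + algebraMap Λ F (c 1) * (g / D ξ)) * D ξ =
        algebraMap Λ F (c 0) * f + algebraMap Λ F (c 1) * g := by
      field_simp
    rw [h6] at h5
    linear_combination h5

end

variable {K : Type} [Field K] [Algebra ℂ K] {L : Type} [Field L] [Algebra ℂ L]
  [Algebra L K] [IsScalarTower ℂ L K] [FiniteDimensional L K]

/-- **Fibrations of general type.** If a finite cover of the variety has a fibration in curves of
genus at most one, then there is no fibration over a variety of general type whose fibres are of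
general type. -/
theorem no_gt [hess : Algebra.EssFiniteType ℂ K] {n : ℕ}
    (hK : Algebra.trdeg ℂ K = (n + 1 : ℕ)) {B : IntermediateField ℂ K}
    (hb : Algebra.trdeg ℂ B = (n : ℕ)) (hcl : ∀ z : K, IsAlgebraic B z → z ∈ B)
    (M : IntermediateField L K) (hle : B ≤ M.restrictScalars ℂ)
    (h1 : FibreGenusLe B (M.restrictScalars ℂ) 1)
    (Y : IntermediateField ℂ L) [hessY : Algebra.EssFiniteType ℂ Y] {d f : ℕ}
    (hd : Algebra.trdeg ℂ Y = d) (hf : Algebra.trdeg Y L = f)
    (hY : KodGe ℂ Y d (fun _ => False) d) (hF : KodGe Y L f (fun _ => False) f) : False := by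
  classical
  have hL : Algebra.trdeg ℂ L = (n + 1 : ℕ) := Pool.Agent.Y184.NT.trdeg_below (K := K) hK
  have hessL : Algebra.EssFiniteType ℂ L := Pool.Agent.TH466.QG.ess_below (K := K)
  have hessB : Algebra.EssFiniteType ℂ B := Pool.Agent.N999.SX.ess_any B
  have hfinM : FiniteDimensional (M.restrictScalars ℂ : IntermediateField ℂ K) K :=
    inferInstanceAs (FiniteDimensional M K)
  have hessM : Algebra.EssFiniteType ℂ M := by
    have h2 : Algebra.EssFiniteType ℂ (M.restrictScalars ℂ : IntermediateField ℂ K) :=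
      Pool.Agent.TH466.QG.ess_below (K := K)
    exact h2
  have hM : Algebra.trdeg ℂ M = (n + 1 : ℕ) := by
    have h2 : Algebra.trdeg ℂ (M.restrictScalars ℂ : IntermediateField ℂ K) = (n + 1 : ℕ) :=
      Pool.Agent.Y184.NT.trdeg_below (K := K) hK
    exact h2
  let Ω := AlgebraicClosure K
  let Λ : IntermediateField B Ω := algebraicClosure B Ω
  have hΛ : IsAlgClosed Λ := (algebraicClosure.isAlgClosure B Ω).isAlgClosed
  have hΛalg : Algebra.IsAlgebraic B Λ := inferInstance
  let F : IntermediateField Λ Ω := GeoFibre B (M.restrictScalars ℂ)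
  have hTL : IsScalarTower ℂ B Ω := IsScalarTower.of_algebraMap_eq fun z => by
    rw [IsScalarTower.algebraMap_apply ℂ K Ω]
    rfl
  have hTΛ : IsScalarTower ℂ Λ Ω := IsScalarTower.of_algebraMap_eq fun z => by
    rw [IsScalarTower.algebraMap_apply ℂ B Ω]
    rfl
  let iBM : Algebra B M := RingHom.toAlgebra
    { toFun := fun z => ⟨(z : K), hle z.2⟩
      map_one' := rfl
      map_mul' := fun a b => rfl
      map_zero' := rfl
      map_add' := fun a b => rfl }
  have hBM : ∀ z : B, ((algebraMap B M z : M) : K) = z := fun _ => rfl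
  let φ0 : M →+* F :=
    { toFun := fun z => ⟨algebraMap K Ω z,
        IntermediateField.subset_adjoin _ _ ⟨(z : K), z.2, rfl⟩⟩
      map_one' := Subtype.ext (map_one _)
      map_mul' := fun a b => Subtype.ext (map_mul (algebraMap K Ω) _ _)
      map_zero' := Subtype.ext (map_zero _)
      map_add' := fun a b => Subtype.ext (map_add (algebraMap K Ω) _ _) }
  let iMF : Algebra M F := φ0.toAlgebra
  have hMF : ∀ z : M, ((algebraMap M F z : F) : Ω) = algebraMap K Ω z := fun z => rfl
  have hTℂM : ∀ c : ℂ, ((algebraMap ℂ M c : M) : K) = algebraMap ℂ K c := fun c => rfl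
  have hT0 : IsScalarTower ℂ B M := IsScalarTower.of_algebraMap_eq fun z => by
    apply Subtype.ext
    rw [hTℂM, hBM]
    rfl
  have hT1 : IsScalarTower B M F := IsScalarTower.of_algebraMap_eq fun z => Subtype.ext rfl
  have hT2 : IsScalarTower ℂ M F := IsScalarTower.of_algebraMap_eq fun z => by
    apply Subtype.ext
    rw [hMF, hTℂM, ← IsScalarTower.algebraMap_apply ℂ K Ω]
    rfl
  have hT3 : IsScalarTower ℂ B Λ := inferInstance
  have hT4 : IsScalarTower B Λ F := IsScalarTower.of_algebraMap_eq fun z => Subtype.ext rfl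
  have hT5 : IsScalarTower ℂ Λ F := inferInstance
  have hgenF : IntermediateField.adjoin Λ (Set.range (algebraMap M F)) = ⊤ := by
    have h1 : (IntermediateField.adjoin Λ (Set.range (algebraMap M F))).map F.val =
        (⊤ : IntermediateField Λ F).map F.val := by
      rw [IntermediateField.adjoin_map, ← AlgHom.fieldRange_eq_map,
        IntermediateField.fieldRange_val]
      change _ = IntermediateField.adjoin Λ (algebraMap K Ω '' (M.restrictScalars ℂ))
      congr 1
      ext z
      simp only [Set.mem_image, Set.mem_range]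
      constructor
      · rintro ⟨_, ⟨y, rfl⟩, rfl⟩
        exact ⟨y, y.2, rfl⟩
      · rintro ⟨y, hy, rfl⟩
        exact ⟨_, ⟨⟨y, hy⟩, rfl⟩, rfl⟩
    exact IntermediateField.map_injective _ h1
  have hclM : ∀ x : M, IsIntegral B x → ∃ y : B, algebraMap B M y = x := by
    intro x hx
    have h2 : IsIntegral B (x : K) := by
      obtain ⟨p, hp, hp0⟩ := hx
      refine ⟨p, hp, ?_⟩
      have h3 := congrArg (algebraMap M K) hp0
      rw [map_zero, Polynomial.hom_eval₂] at h3
      exact h3
    exact ⟨⟨_, hcl (x : K) h2.isAlgebraic⟩, Subtype.ext rfl⟩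
  have hBM1 : Algebra.trdeg B M = (1 : ℕ) := Pool.Agent.Y174.trdeg_LK (r := 1) hb hM
  have htrF : Algebra.trdeg Λ F = (1 : ℕ) :=
    Pool.Agent.Y174.trdeg_F (L := B) (K := M) hBM1 hgenF
  have hessF : Algebra.EssFiniteType Λ F := Pool.Agent.Y174.ess_F (k := ℂ) (K := M) hessM hgenF
  have hFF : IsFF Λ F := ⟨hessF, by rw [htrF]; simp⟩
  have hB0 : CharZero B := charZero_of_injective_algebraMap (algebraMap ℂ B).injective
  have hΛ0 : CharZero Λ := charZero_of_injective_algebraMap (algebraMap B Λ).injective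
  have hglo : GLO Λ F := glo_of_genus h1
  -- the base of the second fibration
  let iYF : Algebra Y F :=
    ((algebraMap M F).comp ((algebraMap L M).comp (algebraMap Y L))).toAlgebra
  have hYF : ∀ z : Y, ((algebraMap Y F z : F) : Ω) = algebraMap K Ω (algebraMap L K (z : L)) :=
    fun z => rfl
  have tY : IsScalarTower ℂ Y F := IsScalarTower.of_algebraMap_eq fun c => by
    apply Subtype.ext
    rw [hYF]
    change algebraMap ℂ Ω c = algebraMap K Ω (algebraMap L K (algebraMap ℂ L c))
    rw [← IsScalarTower.algebraMap_apply ℂ L K, ← IsScalarTower.algebraMap_apply ℂ K Ω]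
  have hΛtr : Algebra.trdeg ℂ Λ = (n : ℕ) := by
    rw [← trdeg_add_eq ℂ B (A := Λ), trdeg_eq_zero (R := B) (A := Λ), hb, add_zero]
  have hYB : ∀ z : Y, algebraMap L K (z : L) ∈ B := by
    intro z
    obtain ⟨c, hc⟩ := Run7.h72.const_gt (E := Y) (Λ := Λ) (F := F) hd hΛtr hY hglo z
    apply hcl
    have h2 : IsAlgebraic B c := Algebra.IsAlgebraic.isAlgebraic c
    have h3 : IsAlgebraic B (algebraMap Λ F c) := h2.algebraMap
    rw [hc] at h3
    have h4 : IsAlgebraic B ((algebraMap Y F z : F) : Ω) :=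
      (isAlgebraic_algHom_iff (F.val.restrictScalars B)
        (F.val.restrictScalars B).toRingHom.injective).2 h3
    rw [hYF] at h4
    exact (isAlgebraic_algebraMap_iff (R := B) (algebraMap K Ω).injective).1 h4
  let iYB : Algebra Y B := RingHom.toAlgebra
    { toFun := fun z => ⟨algebraMap L K (z : L), hYB z⟩
      map_one' := Subtype.ext (map_one (algebraMap L K))
      map_mul' := fun a b => Subtype.ext (map_mul (algebraMap L K) _ _)
      map_zero' := Subtype.ext (map_zero (algebraMap L K))
      map_add' := fun a b => Subtype.ext (map_add (algebraMap L K) _ _) }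
  have s1 : IsScalarTower Y B M := IsScalarTower.of_algebraMap_eq fun z => rfl
  have s2 : IsScalarTower Y L M := IsScalarTower.of_algebraMap_eq fun z => rfl
  have s3 : IsScalarTower ℂ Y B := IsScalarTower.of_algebraMap_eq fun c => by
    apply Subtype.ext
    change algebraMap ℂ K c = algebraMap L K (algebraMap ℂ L c)
    rw [← IsScalarTower.algebraMap_apply]
  have s5 : IsScalarTower ℂ L M := inferInstance
  have s4 : IsScalarTower ℂ Y M := IsScalarTower.of_algebraMap_eq fun c => by
    rw [IsScalarTower.algebraMap_apply ℂ L M]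
    rfl
  have hdf : d + f = n + 1 := by
    have h3 := trdeg_add_eq ℂ Y (A := L)
    rw [hd, hf, hL] at h3
    exact_mod_cast h3
  have hYB' : Algebra.trdeg ℂ Y ≤ Algebra.trdeg ℂ B :=
    trdeg_le_of_injective (IsScalarTower.toAlgHom ℂ Y B) (algebraMap Y B).injective
  have hle2 : d ≤ n := by
    rw [hd, hb] at hYB'
    exact_mod_cast hYB'
  obtain ⟨r, hr⟩ : ∃ r, f = r + 1 := ⟨f - 1, by omega⟩
  subst hr
  have hEB : Algebra.trdeg Y B = (r : ℕ) := by
    have h3 := trdeg_add_eq ℂ Y (A := B)
    rw [hd, hb] at h3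
    have h4 : Algebra.trdeg Y B < Cardinal.aleph0 := by
      refine lt_of_le_of_lt (self_le_add_left _ (d : Cardinal)) ?_
      rw [h3]
      exact Cardinal.natCast_lt_aleph0
    obtain ⟨e, he⟩ := Cardinal.lt_aleph0.1 h4
    rw [he] at h3 ⊢
    have h5 : d + e = n := by exact_mod_cast h3
    have h6 : e = r := by omega
    rw [h6]
  have hYM : Algebra.trdeg Y M = (r + 1 : ℕ) := by
    rw [← trdeg_add_eq Y L (A := M), trdeg_eq_zero (R := L) (A := M), add_zero, hf]
  have hY0 : CharZero Y := charZero_of_injective_algebraMap (algebraMap ℂ Y).injective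
  have e1 : Algebra.EssFiniteType Y B := Algebra.EssFiniteType.of_comp ℂ Y B
  have e2 : Algebra.EssFiniteType Y M := Algebra.EssFiniteType.of_comp ℂ Y M
  have e3 : Algebra.EssFiniteType Y L := Algebra.EssFiniteType.of_comp ℂ Y L
  have h2 : NumLe Y M (r + 1) (fun _ => False) r :=
    Run7.h72.num_aux' (k := Y) (N := B) (L := M) (Λ := Λ) (F := F) e1 e2
      (IsScalarTower.toAlgHom B M F) hgenF hglo hclM hYM hEB
  -- descent
  have h3 : NumLe Y L (r + 1) (fun _ => False) r := by
    have h4 := (Pool.Agent.Y174.pTRANS Y L M (r + 1) hf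
      (fun y hy => Pool.Agent.W824.PG.fin_adj e3 y hy) (fun _ => False)).2.2 r
    rw [Pool.Agent.W824.PG.bdUp_false] at h4
    exact h4 h2
  have h4 := Run7.h72.kod_le_num hF h3
  omega

end Run7.h821
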