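import Pool.Agent.Run7.h821.GfI

/-!
Fibrations of the images of fibrations by curves: the conclusion.
-/

set_option autoImplicit false
set_option linter.overlappingInstances false
set_option linter.unusedSectionVars false
set_option linter.unusedVariables false
set_option maxHeartbeats 4000000
set_option synthInstance.maxHeartbeats 400000

open IntermediateField Module FF
open Pool.Agent.W602.GT (Divisorial RegAt IsPluri KodGe Psef psef_of_kodGe)
open Pool.Agent.W619.TW (NumLe)
open Pool.Agent.N145.PC (MF MJ Js)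
open Pool.Agent.N145.SX (CanGe kodGe_of_canGe)

namespace Run7.h821

variable {K : Type} [Field K] [Algebra ℂ K] {k : ℕ} {L : Type} [Field L] [Algebra ℂ L]
  [Algebra L K] [IsScalarTower ℂ L K] [FiniteDimensional L K]

/-- **Fibrations of the images of fibrations by curves.** -/
theorem curves_fib [hess : Algebra.EssFiniteType ℂ K] {n : ℕ}
    (hK : Algebra.trdeg ℂ K = (n + 1 : ℕ))
    {F : Fin k → IntermediateField ℂ K} {H : ∀ i, Set (F i)} {B : IntermediateField ℂ K}
    (hB : B = ⨆ i : Fin k, F i) (hb : Algebra.trdeg ℂ B = (n : ℕ))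
    (hcl : ∀ z : K, IsAlgebraic B z → z ∈ B) {r : ℕ} (hr : FibreGenusLe B ⊤ r)
    {ω : Fin r → (Fin (n + 1) → Derivation ℂ K K) → K} (hω : ∀ j, IsTw H (n + 1) (ω j))
    (hreg : ∀ j (P : Place ℂ K), Divisorial (n + 1) P → RegAt P (ω j))
    (hind : ∀ b : Fin r → B, (∀ D, ∑ j, (b j : K) * ω j D = 0) → b = 0)
    (Y : IntermediateField ℂ L) {d f : ℕ} (hd : Algebra.trdeg ℂ Y = d)
    (hf : Algebra.trdeg Y L = f) (hY : KodGe ℂ Y d (fun _ => False) 0) :
    ((∀ i : Fin k, One (MF F L (Js k i)) (F i) (H i)) → Psef Y L f (fun _ => False) →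
      CanGe L (n + 1) 0) ∧
    ((∀ i : Fin k, Two (MF F L (Js k i)) (F i) (H i)) →
      (Psef Y L f (fun _ => False) → CanGe L (n + 1) n) ∧
      ∀ q s : ℕ, KodGe Y L f (fun _ => False) q → KodGe ℂ Y d (fun _ => False) s →
        KodGe ℂ L (n + 1) (fun _ => False) (q + s)) := by
  classical
  have hL : Algebra.trdeg ℂ L = (n + 1 : ℕ) := Pool.Agent.Y184.NT.trdeg_below (K := K) hK
  have hessL : Algebra.EssFiniteType ℂ L := Pool.Agent.TH466.QG.ess_below (K := K)
  have hessY : Algebra.EssFiniteType ℂ Y := Pool.Agent.N999.SX.ess_any Y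
  obtain ⟨M, hM⟩ : ∃ M : IntermediateField L K, M = MF F L Finset.univ := ⟨_, rfl⟩
  have hle : B ≤ M.restrictScalars ℂ := by
    intro z hz
    rw [hM]
    exact mf_univ hB z hz
  obtain ⟨h1, h2, -, h4, h5⟩ := curves (L := L) hK hB hb hcl hr hω hreg hind
  rw [← hM] at h1 h2 h4 h5
  have hnu : Psef Y L f (fun _ => False) → ¬ FibreGenusLe B (M.restrictScalars ℂ) 0 :=
    fun hp h0 => Pool.Agent.R882.UA.fib_not hL (h1 h0) Y hd hf hY hp
  refine ⟨fun hO hp => h2 hO (hnu hp), fun hT => ⟨fun hp => h4 hT (hnu hp), fun q s hq hs => ?_⟩⟩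
  have hdf : d + f = n + 1 := by
    have h7 := trdeg_add_eq ℂ Y (A := L)
    rw [hd, hf, hL] at h7
    exact_mod_cast h7
  have hqf : q ≤ f := Pool.Agent.R882.UA.kod_le_dim hf hq
  have hrd : s ≤ d := Pool.Agent.R882.UA.kod_le_dim hd hs
  have h7 : KodGe ℂ L (n + 1) (fun _ => False) n :=
    kodGe_of_canGe (h4 hT (hnu (psef_of_kodGe (Run7.h72.kodGe_mono (Nat.zero_le q) hq))))
  by_cases hqr : q + s ≤ n
  · exact Run7.h72.kodGe_mono hqr h7
  have e1 : q = f := by omega
  have e2 : s = d := by omega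
  have e3 : q + s = n + 1 := by omega
  rw [e3]
  rw [e1] at hq
  rw [e2] at hs
  by_cases hg1 : FibreGenusLe B (M.restrictScalars ℂ) 1
  · exact (no_gt hK hb hcl M hle hg1 Y hd hf hs hq).elim
  · exact kodGe_of_canGe (h5 hT hg1)

end Run7.h821
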