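import Pool.Agent.Run7.h821.GfE

/-!
Fibrations by curves over subvarieties of products: canonical forms on the images.
-/

set_option autoImplicit false
set_option linter.overlappingInstances false
set_option linter.unusedSectionVars false
set_option linter.unusedVariables false
set_option maxHeartbeats 4000000
set_option synthInstance.maxHeartbeats 400000

open IntermediateField Module FF
open Pool.Agent.W602.GT (Divisorial RegAt IsPluri)
open Pool.Agent.W619.TW (NumLe)
open Pool.Agent.W619.PQ (IsUniruled)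
open Pool.Agent.R882.LT (TraceNe)
open Pool.Agent.N145.PC (MF MJ Js mem_Js Rt mem_MJ trdeg_adj)
open Pool.Agent.N145.SX (CanGe form_coord canGe_of_alg)
open Pool.Agent.Y184.NT (trForm trForm_pluri)
open Pool.Agent.Run7.h562.MM (exists_tr)

namespace Run7.h821

open scoped Classical

section

variable {K : Type} [Field K] [Algebra ℂ K] {k : ℕ} {L : Type} [Field L] [Algebra ℂ L]
  [Algebra L K] [IsScalarTower ℂ L K] [FiniteDimensional L K]

/-- **Traces of twisted forms.** -/
theorem tw_setup [Algebra.EssFiniteType ℂ K] {N : ℕ} (hK : Algebra.trdeg ℂ K = (N : ℕ))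
    {F : Fin k → IntermediateField ℂ K} {H : ∀ i, Set (F i)} {r : ℕ}
    {ω : Fin r → (Fin N → Derivation ℂ K K) → K} (hω : ∀ j, IsTw H N (ω j))
    (M : IntermediateField L K) {F0 : IntermediateField ℂ K} (hF0 : F0 = M.restrictScalars ℂ) :
    ∃ (yL : Fin N → L) (G : Fin N → Derivation ℂ L L) (h : K) (a : Fin r → K),
      (∀ i j, G i (yL j) = if i = j then 1 else 0) ∧
      (∀ f : ∀ i, F i, (∀ i, f i ∈ H i) → ∀ j, ∀ P : Place ℂ L, Divisorial N P →
        RegAt P (trForm yL (Algebra.trace L K (h * a j * ∏ i, algebraMap (F i) K (f i))))) ∧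
      ∀ (D : Fin N → Derivation ℂ F0 F0) (D' : Fin N → Derivation ℂ K K),
        (∀ i v, D' i (algebraMap F0 K v) = algebraMap F0 K (D i v)) →
        ∃ c : K, ∀ j, ((Algebra.trace F0 K (ω j D') : F0) : K) =
          c * ((Algebra.trace M K (h * a j) : M) : K) := by
  obtain ⟨z, Z, hz, hZ⟩ := Pool.Agent.Y172.exists_crd hK
  have hL : Algebra.trdeg ℂ L = (N : ℕ) := Pool.Agent.Y184.NT.trdeg_below (K := K) hK
  obtain ⟨yL, G, h, G', hyL, hG, hG', hGz, hh, hreg, -, -⟩ := exists_tr (L := L) hK hz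
  have hzK : IsTranscendenceBasis ℂ (fun j => algebraMap L K (yL j)) := hyL.algebraMap_comp
  have hG'd := Pool.Agent.Y172.lift_dual hG hG'
  have hLF : ∀ f : L, algebraMap L K f ∈ F0 := by
    intro f
    rw [hF0]
    exact M.algebraMap_mem f
  have hval : ∀ j, ω j G' = h * ω j Z := by
    intro j
    rw [← hGz, form_coord hz hZ (hω j).1]
  refine ⟨yL, G, h, fun j => ω j Z, hG, ?_, fun D D' hD => ?_⟩
  · intro f hf j P hP
    rw [mul_assoc]
    refine hreg _ (fun Q hQ => ?_) P hP
    have h1 : trForm z (ω j Z * ∏ i, algebraMap (F i) K (f i)) =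
        fun D => (∏ i, (f i : K)) * ω j D := by
      funext D
      have h2 := congrFun (form_coord hz hZ (hω j).1) D
      rw [← h2, trForm, trForm]
      change _ = (∏ i, algebraMap (F i) K (f i)) * _
      ring
    rw [h1]
    exact (hω j).2 f hf Q hQ
  · obtain ⟨δ, hδ⟩ : ∃ δ : F0, δ = (Matrix.of fun i j => D i ⟨algebraMap L K (yL j), hLF _⟩ :
      Matrix (Fin N) (Fin N) F0).det := ⟨_, rfl⟩
    refine ⟨δ, fun j => ?_⟩
    have h1 : ω j D' = δ • (h * ω j Z) := by
      rw [← hval, Pool.Agent.Y172.pluri_coord hzK hG'd (hω j).1 D', pow_one, Algebra.smul_def, hδ,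
        RingHom.map_det]
      congr 1
      congr 1
      ext i j
      rw [RingHom.mapMatrix_apply, Matrix.map_apply, Matrix.of_apply, Matrix.of_apply]
      exact hD i ⟨algebraMap L K (yL j), hLF _⟩
    rw [h1, map_smul, smul_eq_mul]
    change (δ : K) * ((Algebra.trace F0 K (h * ω j Z) : F0) : K) = _
    congr 1
    subst hF0
    rfl

/-- some twisted form has a nonzero trace on the image in the product: canonical forms -/
theorem tw_one [Algebra.EssFiniteType ℂ K] {N : ℕ} (hK : Algebra.trdeg ℂ K = (N : ℕ))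
    {F : Fin k → IntermediateField ℂ K} {H : ∀ i, Set (F i)} {r : ℕ}
    {ω : Fin r → (Fin N → Derivation ℂ K K) → K} (hω : ∀ j, IsTw H N (ω j))
    (hH : ∀ i : Fin k, One (MF F L (Js k i)) (F i) (H i)) {j : Fin r}
    (hj : TraceNe (ω j) ((MF F L Finset.univ).restrictScalars ℂ)) : CanGe L N 0 := by
  obtain ⟨yL, G, h, a, hG, hreg, hval⟩ := tw_setup (L := L) hK hω (MF F L Finset.univ) rfl
  obtain ⟨D, D', hD, hne⟩ := hj
  obtain ⟨c, hc⟩ := hval D D' hD
  have hne1 : Algebra.trace (MF F L Finset.univ) K (h * a j) ≠ 0 := by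
    intro h0
    apply hne
    apply Subtype.ext
    rw [hc j, h0]
    exact mul_zero c
  obtain ⟨f, hf, hne'⟩ := one_core (F := F) hH hne1
  refine ⟨fun _ => trForm yL (Algebra.trace L K (h * a j * ∏ i, algebraMap (F i) K (f i))),
    fun _ => ⟨trForm_pluri _ _, fun P hP => hreg f hf j P hP⟩, G, ?_, ?_⟩
  · have h1 : (Matrix.of fun i j => G i (yL j) : Matrix (Fin N) (Fin N) L) = 1 := by
      ext i j
      rw [Matrix.of_apply, hG, Matrix.one_apply]
    change trForm yL _ G ≠ 0
    rw [trForm, h1, Matrix.det_one, one_mul]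
    exact hne'
  · exact algebraicIndependent_empty_type

/-- the functions which are algebraic over the field of the canonical map -/
theorem tw_two [Algebra.EssFiniteType ℂ K] {N : ℕ} (hK : Algebra.trdeg ℂ K = (N : ℕ))
    {F : Fin k → IntermediateField ℂ K} {H : ∀ i, Set (F i)} {r : ℕ}
    {ω : Fin r → (Fin N → Derivation ℂ K K) → K} (hω : ∀ j, IsTw H N (ω j))
    (hH : ∀ i : Fin k, Two (MF F L (Js k i)) (F i) (H i))
    {D : Fin N → Derivation ℂ ((MF F L Finset.univ).restrictScalars ℂ : IntermediateField ℂ K)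
      ((MF F L Finset.univ).restrictScalars ℂ : IntermediateField ℂ K)}
    {D' : Fin N → Derivation ℂ K K}
    (hD : ∀ i v, D' i (algebraMap ((MF F L Finset.univ).restrictScalars ℂ :
      IntermediateField ℂ K) K v) = algebraMap ((MF F L Finset.univ).restrictScalars ℂ :
      IntermediateField ℂ K) K (D i v)) {i0 : Fin r}
    (hi0 : Algebra.trace ((MF F L Finset.univ).restrictScalars ℂ : IntermediateField ℂ K) K
      (ω i0 D') ≠ 0) {d : ℕ} {y : Fin d → K} (hy : AlgebraicIndependent ℂ y)
    (hyC : ∀ C : IntermediateField ℂ K, (∀ i, F i ≤ C) →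
      (∀ i, ((Algebra.trace ((MF F L Finset.univ).restrictScalars ℂ : IntermediateField ℂ K) K
        (ω i D') : ((MF F L Finset.univ).restrictScalars ℂ : IntermediateField ℂ K)) : K) /
        ((Algebra.trace ((MF F L Finset.univ).restrictScalars ℂ : IntermediateField ℂ K) K
        (ω i0 D') : ((MF F L Finset.univ).restrictScalars ℂ : IntermediateField ℂ K)) : K) ∈ C) →
      ∀ l, y l ∈ C) : CanGe L N d := by
  have hL : Algebra.trdeg ℂ L = (N : ℕ) := Pool.Agent.Y184.NT.trdeg_below (K := K) hK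
  have hessL : Algebra.EssFiniteType ℂ L := Pool.Agent.TH466.QG.ess_below (K := K)
  obtain ⟨yL, G, h, a, hG, hreg, hval⟩ := tw_setup (L := L) hK hω (MF F L Finset.univ) rfl
  obtain ⟨c, hc⟩ := hval D D' hD
  have hne0 : ((Algebra.trace ((MF F L Finset.univ).restrictScalars ℂ : IntermediateField ℂ K) K
      (ω i0 D') : ((MF F L Finset.univ).restrictScalars ℂ : IntermediateField ℂ K)) : K) ≠ 0 :=
    fun h0 => hi0 (Subtype.ext h0)
  have hc0 : c ≠ 0 := by
    rintro rfl
    apply hne0
    rw [hc i0, zero_mul]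
  have hne1 : Algebra.trace (MF F L Finset.univ) K (h * a i0) ≠ 0 := by
    intro h0
    apply hne0
    rw [hc i0, h0]
    exact mul_zero c
  obtain ⟨ι, T, hT0, hTreg, hTx, hTr⟩ := two_core (F := F) hH (yL := yL) (N := N)
    (A := Set.range a) (h := h) (fun f hf b hb P hP => by
      obtain ⟨j, rfl⟩ := hb
      exact hreg f hf j P hP) ⟨i0, rfl⟩ hne1
  -- the algebraic closure of the field of the ratios
  obtain ⟨C, hC⟩ : ∃ C : IntermediateField ℂ K, C =
    (algebraicClosure (Rt T) K).restrictScalars ℂ := ⟨_, rfl⟩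
  have hmem : ∀ z, z ∈ C ↔ IsAlgebraic (Rt T) z := fun z => by
    rw [hC, mem_restrictScalars, mem_algebraicClosure_iff]
  refine canGe_of_alg hL hG T hT0 hTreg (trdeg_adj hy) fun l => ?_
  refine (hmem _).1 (hyC C (fun i v hv => (hmem _).2 (hTx i ⟨v, hv⟩)) (fun i => ?_) l)
  have h1 := hTr (a i) ⟨i, rfl⟩ (a i0) ⟨i0, rfl⟩ hne1
  rw [hmem, hc i, hc i0, mul_div_mul_left _ _ hc0]
  exact h1

end

end Run7.h821
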