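import Pool.Agent.Run7.h821.GfK
import Pool.Agent.N999.SX.FG

/-!
Fibrations by curves over subvarieties of products: the images are uniruled, or have Kodaira and
numerical dimension `dim - 1`, or are of general type.
-/

set_option autoImplicit false
set_option linter.overlappingInstances false
set_option linter.unusedSectionVars false
set_option linter.unusedVariables false
set_option maxHeartbeats 4000000
set_option synthInstance.maxHeartbeats 400000

open IntermediateField Module FF
open Pool.Agent.W602.GT (Divisorial RegAt IsPluri)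
open Pool.Agent.W619.TW (NumLe)
open Pool.Agent.W619.PQ (IsUniruled)
open Pool.Agent.R882.LT (TraceNe)
open Pool.Agent.N145.PC (MF MJ Js mem_Js Rt mem_MJ)
open Pool.Agent.N145.SX (CanGe)

namespace Run7.h821

open scoped Classical

variable {K : Type} [Field K] [Algebra ℂ K] {k : ℕ} {L : Type} [Field L] [Algebra ℂ L]
  [Algebra L K] [IsScalarTower ℂ L K] [FiniteDimensional L K]

/-- **Images of fibrations by curves over subvarieties of products.** -/
theorem curves [hess : Algebra.EssFiniteType ℂ K] {n : ℕ}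
    (hK : Algebra.trdeg ℂ K = (n + 1 : ℕ))
    {F : Fin k → IntermediateField ℂ K} {H : ∀ i, Set (F i)} {B : IntermediateField ℂ K}
    (hB : B = ⨆ i : Fin k, F i) (hb : Algebra.trdeg ℂ B = (n : ℕ))
    (hcl : ∀ z : K, IsAlgebraic B z → z ∈ B) {r : ℕ} (hr : FibreGenusLe B ⊤ r)
    {ω : Fin r → (Fin (n + 1) → Derivation ℂ K K) → K} (hω : ∀ j, IsTw H (n + 1) (ω j))
    (hreg : ∀ j (P : Place ℂ K), Divisorial (n + 1) P → RegAt P (ω j))
    (hind : ∀ b : Fin r → B, (∀ D, ∑ j, (b j : K) * ω j D = 0) → b = 0) :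
    (FibreGenusLe B ((MF F L Finset.univ).restrictScalars ℂ) 0 → IsUniruled ℂ L (n + 1)) ∧
    ((∀ i : Fin k, One (MF F L (Js k i)) (F i) (H i)) →
      ¬ FibreGenusLe B ((MF F L Finset.univ).restrictScalars ℂ) 0 → CanGe L (n + 1) 0) ∧
    (FibreGenusLe B ((MF F L Finset.univ).restrictScalars ℂ) 1 →
      ¬ FibreGenusLe B ((MF F L Finset.univ).restrictScalars ℂ) 0 →
      NumLe ℂ L (n + 1) (fun _ => False) n) ∧
    ((∀ i : Fin k, Two (MF F L (Js k i)) (F i) (H i)) →
      ¬ FibreGenusLe B ((MF F L Finset.univ).restrictScalars ℂ) 0 → CanGe L (n + 1) n) ∧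
    ((∀ i : Fin k, Two (MF F L (Js k i)) (F i) (H i)) →
      ¬ FibreGenusLe B ((MF F L Finset.univ).restrictScalars ℂ) 1 → CanGe L (n + 1) (n + 1)) := by
  have hL : Algebra.trdeg ℂ L = (n + 1 : ℕ) := Pool.Agent.Y184.NT.trdeg_below (K := K) hK
  have hessL : Algebra.EssFiniteType ℂ L := Pool.Agent.TH466.QG.ess_below (K := K)
  have hessB : Algebra.EssFiniteType ℂ B := Pool.Agent.N999.SX.ess_any B
  obtain ⟨M, hM⟩ : ∃ M : IntermediateField L K, M = MF F L Finset.univ := ⟨_, rfl⟩
  have hle : B ≤ M.restrictScalars ℂ := by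
    intro z hz
    rw [hM]
    exact mf_univ hB z hz
  obtain ⟨E', hE'⟩ : ∃ E' : IntermediateField B K,
      E' = IntermediateField.extendScalars hle := ⟨_, rfl⟩
  have hE'r : E'.restrictScalars ℂ = M.restrictScalars ℂ := by
    rw [hE']
    exact IntermediateField.extendScalars_restrictScalars hle
  have hfinE : FiniteDimensional E' K := by
    have h1 : FiniteDimensional M K := inferInstance
    rw [hE']
    exact h1
  obtain ⟨h1, h2, h3, h4⟩ := fib_geo hK B hessB hb hcl E' hr ω (fun j => (hω j).1) hreg hind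
  rw [hE'r] at h1 h2 h3 h4
  let φ : L →ₐ[ℂ] (M.restrictScalars ℂ : IntermediateField ℂ K) :=
    { toFun := fun g => ⟨algebraMap L K g, M.algebraMap_mem g⟩
      map_one' := Subtype.ext (map_one _)
      map_mul' := fun a b => Subtype.ext (map_mul _ _ _)
      map_zero' := Subtype.ext (map_zero _)
      map_add' := fun a b => Subtype.ext (map_add _ _ _)
      commutes' := fun c => Subtype.ext (IsScalarTower.algebraMap_apply ℂ L K c).symm }
  have huni : FibreGenusLe B (M.restrictScalars ℂ) 0 → IsUniruled ℂ L (n + 1) := by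
    intro h
    obtain ⟨C, i1, i2, hC, htr, ⟨ψ⟩⟩ := h1 h
    exact ⟨C, i1, i2, hC, htr, ⟨ψ.comp φ⟩⟩
  have hnum : FibreGenusLe B (M.restrictScalars ℂ) 1 → ¬ FibreGenusLe B (M.restrictScalars ℂ) 0 →
      NumLe ℂ L (n + 1) (fun _ => False) n := fun h1 h0 => numLe_down_mid hK M (h3 h1 h0)
  have htr : ¬ FibreGenusLe B (M.restrictScalars ℂ) 0 →
      ∃ j, TraceNe (ω j) (M.restrictScalars ℂ) := by
    intro h0
    by_contra hcon
    push Not at hcon
    exact h0 (h2 hcon)
  obtain ⟨xB, EB, hxB, -⟩ := Pool.Agent.Y172.exists_crd hb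
  have hxBK : AlgebraicIndependent ℂ fun i => (xB i : K) := hxB.1.map' (f := B.val)
    B.val.injective
  have hBC : ∀ C : IntermediateField ℂ K, (∀ i, F i ≤ C) → B ≤ C := fun C hC => by
    rw [hB]
    exact iSup_le hC
  subst hM
  refine ⟨huni, fun hO h0 => ?_, hnum, fun hT h0 => ?_, fun hT h1 => ?_⟩
  · obtain ⟨j, hj⟩ := htr h0
    exact tw_one hK hω hO hj
  · obtain ⟨j, D, D', hD, hne⟩ := htr h0
    exact tw_two hK hω hT hD hne hxBK fun C hC _ l => hBC C hC (xB l).2
  · obtain ⟨D, D', hD, i0, i1, hi0, hi1⟩ := h4 h1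
    obtain ⟨ρ, hρ⟩ : ∃ ρ : K, ρ = ((Algebra.trace ((MF F L Finset.univ).restrictScalars ℂ :
        IntermediateField ℂ K) K
        (ω i1 D') : ((MF F L Finset.univ).restrictScalars ℂ : IntermediateField ℂ K)) : K) /
        ((Algebra.trace ((MF F L Finset.univ).restrictScalars ℂ : IntermediateField ℂ K) K
        (ω i0 D') : ((MF F L Finset.univ).restrictScalars ℂ : IntermediateField ℂ K)) : K) :=
      ⟨_, rfl⟩
    have hρB : ρ ∉ B := by
      intro hb'
      apply hi1 ⟨ρ, hb'⟩
      change _ = ρ * _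
      rw [hρ, div_mul_cancel₀]
      exact fun h0 => hi0 (Subtype.ext h0)
    have hρi : AlgebraicIndependent B (fun _ : Fin 1 => ρ) := by
      rw [algebraicIndependent_unique_type_iff]
      exact fun h => hρB (hcl _ h)
    have hall := Pool.Agent.Run7.h562.MM.indep_append hxB.1 hρi
    refine tw_two hK hω hT hD hi0 hall fun C hC hC' l => ?_
    refine Fin.addCases (fun l => ?_) (fun l => ?_) l
    · rw [Fin.append_left]
      exact hBC C hC (xB l).2
    · rw [Fin.append_right, hρ]
      exact hC' i1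

end Run7.h821
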