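import Pool.Agent.Run7.h821.Pen

/-!
# Linearly general position
-/

open scoped WithZero IntermediateField
open WithZero
open Pool.Agent.Helper395.CS hiding genus map_mul map_inv
open Pool.Agent.Helper395.BC
open Pool.Agent.R858.QD (LiesOver existsUnique_image)

set_option linter.unusedSectionVars false
set_option linter.unusedVariables false

namespace Run7.h821

section det

variable {E : Type} [Field E] (w : Valuation E ℤᵐ⁰) {n : Type} [Fintype n] [DecidableEq n]

theorem prod_congr_val {s : Finset n} {a b : n → E} (ha : ∀ i ∈ s, w (a i) ≤ 1)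
    (hb : ∀ i ∈ s, w (b i) ≤ 1) (h : ∀ i ∈ s, w (a i - b i) < 1) :
    w (∏ i ∈ s, a i - ∏ i ∈ s, b i) < 1 := by
  induction s using Finset.induction_on with
  | empty => simp
  | insert x s hx ih =>
    rw [Finset.prod_insert hx, Finset.prod_insert hx]
    have h1 : a x * ∏ i ∈ s, a i - b x * ∏ i ∈ s, b i =
        a x * (∏ i ∈ s, a i - ∏ i ∈ s, b i) + (a x - b x) * ∏ i ∈ s, b i := by ring
    rw [h1]
    refine Valuation.map_add_lt _ ?_ ?_
    · rw [map_mul]
      exact (mul_le_of_le_one_left' (ha x (Finset.mem_insert_self x s))).trans_lt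
        (ih (fun i hi => ha i (Finset.mem_insert_of_mem hi))
          (fun i hi => hb i (Finset.mem_insert_of_mem hi))
          fun i hi => h i (Finset.mem_insert_of_mem hi))
    · rw [map_mul, map_prod]
      exact (mul_le_of_le_one_right' (Finset.prod_le_one' fun i hi =>
        hb i (Finset.mem_insert_of_mem hi))).trans_lt (h x (Finset.mem_insert_self x s))

theorem det_congr_val {A R : Matrix n n E} (hA : ∀ i j, w (A i j) ≤ 1) (hR : ∀ i j, w (R i j) ≤ 1)
    (h : ∀ i j, w (A i j - R i j) < 1) : w (A.det - R.det) < 1 := by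
  rw [Matrix.det_apply, Matrix.det_apply, ← Finset.sum_sub_distrib]
  refine Valuation.map_sum_lt _ one_ne_zero fun σ _ => ?_
  rw [← smul_sub, Units.smul_def, zsmul_eq_mul, map_mul]
  have h1 : w (((Equiv.Perm.sign σ : ℤ) : E)) ≤ 1 := by
    rcases Int.units_eq_one_or (Equiv.Perm.sign σ) with h | h
    · rw [h]; simp
    · rw [h]; simp
  refine (mul_le_of_le_one_left' h1).trans_lt ?_
  exact prod_congr_val w (fun i _ => hA _ _) (fun i _ => hR _ _) fun i _ => h _ _

theorem val_eq_of_congr {x y : E} (h : w (x - y) < 1) (hy : w y = 1) : w x = 1 := by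
  have h1 : x = y + (x - y) := by ring
  rw [h1, Valuation.map_add_eq_of_lt_left _ (by rwa [hy]), hy]

theorem det_val_of_diag {A : Matrix n n E} (hd : ∀ i, w (A i i) = 1)
    (ho : ∀ i j, i ≠ j → w (A i j) < 1) : w A.det = 1 := by
  have h1 : ∀ i j, w (A i j) ≤ 1 := by
    intro i j
    by_cases h : i = j
    · subst h; exact (hd i).le
    · exact (ho i j h).le
  apply val_eq_of_congr w (y := (Matrix.diagonal fun i => A i i).det)
  · apply det_congr_val w h1
    · intro i j
      by_cases h : i = j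
      · subst h
        rw [Matrix.diagonal_apply_eq]
        exact (hd i).le
      · rw [Matrix.diagonal_apply_ne _ h]
        simp
    · intro i j
      by_cases h : i = j
      · subst h
        rw [Matrix.diagonal_apply_eq, sub_self]
        simp
      · rw [Matrix.diagonal_apply_ne _ h, sub_zero]
        exact ho i j h
  · rw [Matrix.det_diagonal, map_prod]
    exact Finset.prod_eq_one fun i _ => hd i

end det

/-- the residues of a matrix with unit determinant form an invertible matrix -/
theorem det_res_ne {E : Type} [Field E] [Algebra ℂ E] (w : Point E) {n : Type} [Fintype n]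
    [DecidableEq n] {A : Matrix n n E} (hA : ∀ i j, w.val (A i j) ≤ 1) (hdet : w.val A.det = 1)
    {r : Matrix n n ℂ} (hr : ∀ i j, w.val (A i j - algebraMap ℂ E (r i j)) < 1) : r.det ≠ 0 := by
  intro h0
  have h1 : w.val (A.det - (r.map (algebraMap ℂ E)).det) < 1 := by
    apply det_congr_val w.val hA
    · intro i j
      exact w.const_le _
    · intro i j
      exact hr i j
  have h2 : (r.map (algebraMap ℂ E)).det = algebraMap ℂ E r.det := (RingHom.map_det _ _).symm
  rw [h2, h0, map_zero, sub_zero, hdet] at h1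
  exact lt_irrefl _ h1

variable {K : Type} [Field K] [Algebra ℂ K]

theorem exists_res' (hK : IsCurve K) (z : Point K) {f : K} (h : z.val f ≤ 1) :
    ∃ c : ℂ, z.val (f - algebraMap ℂ K c) < 1 := by
  obtain ⟨c, hc⟩ := exists_res hK z (f := f) (g := 1) one_ne_zero (by rwa [map_one])
  refine ⟨c, ?_⟩
  rwa [Algebra.smul_def, mul_one, map_one] at hc

/-- there is a point above -/
theorem exists_above (hK : IsCurve K) {E : Type} [Field E] [Algebra ℂ E] (hE : IsCurve E)
    (τ : K →ₐ[ℂ] E) (z : Point K) : ∃ w : Point E, LiesOver τ w z := by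
  obtain ⟨n, N, hn, hN0, hN, hp⟩ := Pool.Agent.R858.QD.push hK hE τ
  obtain ⟨T, hT, hsum⟩ := hp z
  have h1 := hsum (τ (unif z)) ((map_ne_zero τ).2 (unif_ne_zero z))
  rw [hN, z.ord_pow, ord_unif] at h1
  rcases Finset.eq_empty_or_nonempty T with h | ⟨w, hw⟩
  · rw [h, Finset.sum_empty] at h1
    omega
  · exact ⟨w, (hT w).1 hw⟩

/-- the bundle `M` minus `k` general points (for all smaller `k`) is generated by its sections -/
def GP : ℕ → LineBundle K → Prop
  | 0, _ => True
  | 1, M => GG M
  | k + 2, M => GG M ∧ {y | ¬ GP (k + 1) (lsub M y)}.Finite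

theorem GP.gg {k : ℕ} {M : LineBundle K} (h : GP (k + 1) M) : GG M := by
  cases k with
  | zero => exact h
  | succ k => exact h.1

theorem mem_van_single (M : LineBundle K) (y : Point K) (f : K) : f ∈ H0 (lsub M y) ↔ f ∈ van M {y} := by
  rw [Pool.Agent.N147.BN.mem_H0_lsub]
  constructor
  · rintro ⟨h1, h2⟩
    refine ⟨h1, fun z hz => ?_⟩
    rw [Finset.mem_singleton.1 hz]
    exact h2
  · rintro ⟨h1, h2⟩
    exact ⟨h1, h2 y (Finset.mem_singleton_self y)⟩

theorem finrank_lsub (hK : IsCurve K) (hg : genus K ≠ 0) {M : LineBundle K} (h : GG M) (y : Point K) :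
    Module.finrank ℂ (H0 (lsub M y)) + 1 = Module.finrank ℂ (H0 M) := by
  classical
  obtain ⟨f, hf, hfy⟩ := h y
  have h1 := van_insert hK hg (M := M) (Y := ∅) (z := y) (f := f) (by rw [van_empty]; exact hf) hfy
  rw [van_empty] at h1
  have h2 : H0 (lsub M y) = van M (insert y ∅) := by
    ext g
    exact mem_van_single M y g
  rw [h2, h1]

/-- a point and points which are independent for the sections vanishing there -/
theorem ind_insert [DecidableEq (Point K)] {M : LineBundle K} (hgg : GG M) {y : Point K} {B : Finset (Point K)}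
    (hK : IsCurve K) (hy : y ∉ B) (h : Ind (lsub M y) B) : Ind M (insert y B) := by
  have hB : ∀ z ∈ B, ∃ f ∈ H0 M, z.val f = z.val (M.frame z : K) ∧ (∀ z' ∈ B, z' ≠ z →
      z'.val f < z'.val (M.frame z' : K)) ∧ y.val f < y.val (M.frame y : K) := by
    intro z hz
    have hne : ∀ {u}, u ∈ B → u ≠ y := fun hu h => hy (h ▸ hu)
    obtain ⟨f, hf, h1, h2⟩ := h z hz
    rw [Pool.Agent.N147.BN.mem_H0_lsub] at hf
    refine ⟨f, hf.1, ?_, ?_, hf.2⟩
    · rwa [frame_lsub_ne M (hne hz)] at h1
    · intro z' hz' hzz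
      have := h2 z' hz' hzz
      rwa [frame_lsub_ne M (hne hz')] at this
  intro z hz
  rcases Finset.mem_insert.1 hz with rfl | hzB
  · -- the new point
    have hB' : ∀ x : B, ∃ f ∈ H0 M, x.1.val f = x.1.val (M.frame x.1 : K) ∧ (∀ z' ∈ B, z' ≠ x.1 →
      z'.val f < z'.val (M.frame z' : K)) ∧ z.val f < z.val (M.frame z : K) := fun x => hB x.1 x.2
    choose f hf hf1 hf2 hf3 using hB'
    obtain ⟨g, hg, hgz⟩ := hgg z
    have hc : ∀ x : B, ∃ c : ℂ, x.1.val (g - c • f x) < x.1.val (f x) := by
      intro x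
      apply exists_res hK x.1
      · intro h0
        have := hf1 x
        rw [h0, map_zero] at this
        exact (frame_pos M x.1).ne this
      · rw [hf1]
        exact hg x.1
    choose c hc using hc
    refine ⟨g - ∑ x, c x • f x, ?_, ?_, ?_⟩
    · exact sub_mem hg (Submodule.sum_mem _ fun x _ => Submodule.smul_mem _ _ (hf x))
    · rw [← hgz]
      apply Valuation.map_sub_eq_of_lt_left
      rw [hgz]
      refine Valuation.map_sum_lt _ (frame_pos M z).ne' fun x _ => ?_
      rw [Algebra.smul_def, map_mul]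
      exact (mul_le_of_le_one_left' (z.const_le _)).trans_lt (hf3 x)
    · intro z' hz' hne
      have hz'B : z' ∈ B := (Finset.mem_insert.1 hz').resolve_left hne
      have h6 : g - ∑ x, c x • f x = (g - c ⟨z', hz'B⟩ • f ⟨z', hz'B⟩) -
          ∑ x ∈ Finset.univ.erase (⟨z', hz'B⟩ : B), c x • f x := by
        rw [sub_sub, Finset.add_sum_erase _ (fun x => c x • f x) (Finset.mem_univ (⟨z', hz'B⟩ : B))]
      rw [h6]
      refine (Valuation.map_sub _ _ _).trans_lt (max_lt ?_ ?_)
      · have := hc ⟨z', hz'B⟩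
        rwa [hf1] at this
      · refine Valuation.map_sum_lt _ (frame_pos M z').ne' fun x hx => ?_
        rw [Algebra.smul_def, map_mul]
        refine (mul_le_of_le_one_left' (z'.const_le _)).trans_lt (hf2 x z' hz'B ?_)
        intro h
        exact (Finset.mem_erase.1 hx).1 (Subtype.ext h.symm)
  · obtain ⟨f, hf, h1, h2, h3⟩ := hB z hzB
    refine ⟨f, hf, h1, fun z' hz' hne => ?_⟩
    rcases Finset.mem_insert.1 hz' with rfl | hz'B
    · exact h3
    · exact h2 z' hz'B hne

section step

variable {E : Type} [Field E] [Algebra ℂ E] {ι : Type} [Fintype ι] [DecidableEq ι]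

/-- the minors at a special member -/
theorem minors (hK : IsCurve K) {M : LineBundle K} {s₁ : K} (hs₁0 : s₁ ≠ 0) (τ : ι → K →ₐ[ℂ] E) {w : Point E}
    {z : ι → Point K} (hz : ∀ i, LiesOver (τ i) w (z i)) (hinj : Function.Injective z)
    (hgen : ∀ i, (z i).val s₁ = (z i).val (M.frame (z i) : K)) [DecidableEq (Point K)] (I : Finset ι)
    (hI : Ind M (I.image z)) :
    ∃ g : ι → K, (∀ j, g j * s₁ ∈ H0 M) ∧ (Matrix.of fun i j : I => τ i (g j)).det ≠ 0 := by
  have h1 : ∀ j : I, ∃ f ∈ H0 M, (z j).val f = (z j).val (M.frame (z j) : K) ∧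
      ∀ i ∈ I, i ≠ j → (z i).val f < (z i).val (M.frame (z i) : K) := by
    intro j
    obtain ⟨f, hf, hf1, hf2⟩ := hI (z j) (Finset.mem_image_of_mem z j.2)
    exact ⟨f, hf, hf1, fun i hi hij => hf2 (z i) (Finset.mem_image_of_mem z hi) fun h => hij (hinj h)⟩
  choose f hf hf1 hf2 using h1
  refine ⟨fun j => if h : j ∈ I then f ⟨j, h⟩ / s₁ else 0, ?_, ?_⟩
  · intro j
    by_cases h : j ∈ I
    · simp only [dif_pos h]
      rw [div_mul_cancel₀ _ hs₁0]
      exact hf _
    · simp only [dif_neg h, zero_mul]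
      exact zero_mem _
  · have h2 : w.val (Matrix.of fun i j : I => τ i (if h : (j : ι) ∈ I then f ⟨j, h⟩ / s₁ else 0)).det = 1 := by
      apply det_val_of_diag
      · intro i
        rw [Matrix.of_apply, dif_pos i.2, LiesOver.eq_iff (hz i), map_div₀, hf1, hgen,
          div_self (frame_pos M _).ne']
      · intro i j hij
        rw [Matrix.of_apply, dif_pos j.2, LiesOver.lt_iff (hz i), map_div₀, hgen,
          div_lt_one₀ (frame_pos M _)]
        exact hf2 j i i.2 fun h => hij (Subtype.ext h)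
    intro h0
    rw [h0, map_zero] at h2
    exact zero_ne_one h2

/-- independence at the general member -/
theorem ind_of_minor (hK : IsCurve K) (hE : IsCurve E) {M : LineBundle K} {s₁ : K} (hs₁0 : s₁ ≠ 0)
    (τ : ι → K →ₐ[ℂ] E) {w : Point E}
    {z : ι → Point K} (hz : ∀ i, LiesOver (τ i) w (z i)) (hinj : Function.Injective z)
    (hgen : ∀ i, (z i).val s₁ = (z i).val (M.frame (z i) : K)) [DecidableEq (Point K)] (I : Finset ι)
    {g : ι → K} (hg : ∀ j, g j * s₁ ∈ H0 M)
    (hdet : w.val (Matrix.of fun i j : I => τ i (g j)).det = 1) : Ind M (I.image z) := by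
  have hle : ∀ i j, w.val (τ i (g j)) ≤ 1 := by
    intro i j
    rw [hz i]
    have h1 := hg j (z i)
    change (z i).val (g j * s₁) ≤ (z i).val (M.frame (z i) : K) at h1
    rw [map_mul, hgen] at h1
    exact (mul_le_iff_le_one_left (frame_pos M _)).1 h1
  have hr : ∀ i j, ∃ c : ℂ, w.val (τ i (g j) - algebraMap ℂ E c) < 1 := fun i j =>
    exists_res' hE w (hle i j)
  choose r hr using hr
  have hrdet : (Matrix.of fun i j : I => r i j).det ≠ 0 :=
    det_res_ne w (A := Matrix.of fun i j : I => τ i (g j)) (fun i j => hle i j) hdet fun i j => hr i j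
  intro x hx
  obtain ⟨i₀, hi₀, rfl⟩ := Finset.mem_image.1 hx
  -- a combination with prescribed residues
  obtain ⟨c, hc⟩ : ∃ c : I → ℂ, (Matrix.of fun i j : I => r i j).mulVec c =
      Pi.single (⟨i₀, hi₀⟩ : I) 1 := by
    refine ⟨(Matrix.of fun i j : I => r i j)⁻¹.mulVec (Pi.single (⟨i₀, hi₀⟩ : I) 1), ?_⟩
    rw [Matrix.mulVec_mulVec, Matrix.mul_nonsing_inv _ (isUnit_iff_ne_zero.2 hrdet), Matrix.one_mulVec]
  set F : K := ∑ j : I, c j • g j with hF
  have hres : ∀ i : I, (z i).val (F - algebraMap ℂ K ((Pi.single (⟨i₀, hi₀⟩ : I) 1 : I → ℂ) i)) < 1 := by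
    intro i
    rw [← hc]
    have h1 : F - algebraMap ℂ K ((Matrix.of fun i j : I => r i j).mulVec c i) =
        ∑ j : I, algebraMap ℂ K (c j) * (g j - algebraMap ℂ K (r i j)) := by
      rw [hF, Matrix.mulVec, dotProduct, map_sum, ← Finset.sum_sub_distrib]
      refine Finset.sum_congr rfl fun j _ => ?_
      rw [Algebra.smul_def, map_mul, Matrix.of_apply]
      ring
    rw [h1]
    refine Valuation.map_sum_lt _ one_ne_zero fun j _ => ?_
    rw [map_mul]
    refine (mul_le_of_le_one_left' ((z i).const_le _)).trans_lt ?_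
    rw [← LiesOver.lt_iff (hz i), map_sub, AlgHom.commutes]
    exact hr i j
  refine ⟨F * s₁, ?_, ?_, ?_⟩
  · rw [hF, Finset.sum_mul]
    refine Submodule.sum_mem _ fun j _ => ?_
    rw [smul_mul_assoc]
    exact Submodule.smul_mem _ _ (hg j)
  · have h1 := hres ⟨i₀, hi₀⟩
    rw [Pi.single_eq_same, map_one] at h1
    rw [map_mul, val_eq_of_congr (z i₀).val h1 (map_one _), one_mul, hgen]
  · intro z' hz' hne
    obtain ⟨i, hi, rfl⟩ := Finset.mem_image.1 hz'
    have h1 := hres ⟨i, hi⟩
    have h2 : (⟨i, hi⟩ : I) ≠ ⟨i₀, hi₀⟩ := fun h => hne (congrArg z (congrArg Subtype.val h))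
    rw [Pi.single_eq_of_ne h2, map_zero, sub_zero] at h1
    rw [map_mul, hgen]
    exact mul_lt_of_lt_one_left (frame_pos M _) h1

end step

end Run7.h821
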