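import Pool.Agent.Helper395.BC.Duality

/-!
# The Koszul complex of alternating forms
-/

open scoped WithZero

namespace Run7.h821

set_option linter.unusedSectionVars false

section alg

variable {V N : Type*} [AddCommGroup V] [Module ℂ V] [FiniteDimensional ℂ V] [AddCommGroup N]
  [Module ℂ N]

/-- the Koszul differential, for an action `μ` of `V` on `N` -/
noncomputable def dd (μ : V →ₗ[ℂ] N →ₗ[ℂ] N) {i : ℕ}
    (c : Module.Dual ℂ V [⋀^Fin (i + 1)]→ₗ[ℂ] N) : Module.Dual ℂ V [⋀^Fin i]→ₗ[ℂ] N :=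
  ∑ k, (μ (Module.finBasis ℂ V k)).compAlternatingMap
    (c.curryLeft ((Module.finBasis ℂ V).coord k))

theorem dd_apply (μ : V →ₗ[ℂ] N →ₗ[ℂ] N) {i : ℕ} (c : Module.Dual ℂ V [⋀^Fin (i + 1)]→ₗ[ℂ] N)
    (φ : Fin i → Module.Dual ℂ V) :
    dd μ c φ = ∑ k, μ (Module.finBasis ℂ V k) (c (Matrix.vecCons ((Module.finBasis ℂ V).coord k) φ)) := by
  have h : ∀ s : Finset (Fin (Module.finrank ℂ V)), (∑ k ∈ s, (μ (Module.finBasis ℂ V k)).compAlternatingMap
      (c.curryLeft ((Module.finBasis ℂ V).coord k))) φ = ∑ k ∈ s, μ (Module.finBasis ℂ V k)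
        (c (Matrix.vecCons ((Module.finBasis ℂ V).coord k) φ)) := by
    classical
    intro s
    induction s using Finset.induction_on with
    | empty => simp
    | insert a s ha ih =>
      rw [Finset.sum_insert ha, Finset.sum_insert ha, AlternatingMap.add_apply, ih]
      rfl
  exact h _

theorem sum_coord (w : V) : ∑ k, (Module.finBasis ℂ V).coord k w • Module.finBasis ℂ V k = w :=
  (Module.finBasis ℂ V).sum_repr w

theorem dd_add (μ : V →ₗ[ℂ] N →ₗ[ℂ] N) {i : ℕ} (c c' : Module.Dual ℂ V [⋀^Fin (i + 1)]→ₗ[ℂ] N) :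
    dd μ (c + c') = dd μ c + dd μ c' := by
  ext φ
  simp only [dd_apply, AlternatingMap.add_apply, map_add, Finset.sum_add_distrib]

theorem dd_sub (μ : V →ₗ[ℂ] N →ₗ[ℂ] N) {i : ℕ} (c c' : Module.Dual ℂ V [⋀^Fin (i + 1)]→ₗ[ℂ] N) :
    dd μ (c - c') = dd μ c - dd μ c' := by
  ext φ
  simp only [dd_apply, AlternatingMap.sub_apply, map_sub, Finset.sum_sub_distrib]

theorem dd_smul (μ : V →ₗ[ℂ] N →ₗ[ℂ] N) {i : ℕ} (a : ℂ)
    (c : Module.Dual ℂ V [⋀^Fin (i + 1)]→ₗ[ℂ] N) : dd μ (a • c) = a • dd μ c := by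
  ext φ
  simp only [dd_apply, AlternatingMap.smul_apply, map_smul, Finset.smul_sum]

theorem dd_dd (μ : V →ₗ[ℂ] N →ₗ[ℂ] N) (hμ : ∀ v w x, μ v (μ w x) = μ w (μ v x)) {i : ℕ}
    (c : Module.Dual ℂ V [⋀^Fin (i + 2)]→ₗ[ℂ] N) : dd μ (dd μ c) = 0 := by
  ext φ
  set b := Module.finBasis ℂ V with hb
  have h1 : dd μ (dd μ c) φ = ∑ k, ∑ l, μ (b k) (μ (b l)
      (c (Matrix.vecCons (b.coord l) (Matrix.vecCons (b.coord k) φ)))) := by
    rw [dd_apply]
    refine Finset.sum_congr rfl fun k _ => ?_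
    rw [dd_apply, map_sum]
  have h2 : ∀ x y : Module.Dual ℂ V, c (Matrix.vecCons x (Matrix.vecCons y φ)) =
      - c (Matrix.vecCons y (Matrix.vecCons x φ)) := by
    intro x y
    have h3 := c.map_swap (Matrix.vecCons x (Matrix.vecCons y φ)) (i := 0) (j := 1) (by simp)
    rw [← neg_eq_iff_eq_neg, ← h3]
    congr 1
    funext j
    refine Fin.cases ?_ (fun j => ?_) j
    · simp
    · refine Fin.cases ?_ (fun j => ?_) j
      · simp
      · simp only [Function.comp_apply]
        rw [Equiv.swap_apply_of_ne_of_ne]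
        · simp
        · exact Fin.succ_ne_zero _
        · intro h
          rw [← Fin.succ_zero_eq_one] at h
          exact Fin.succ_ne_zero _ (Fin.succ_injective _ h)
  have h4 : dd μ (dd μ c) φ = - dd μ (dd μ c) φ := by
    rw [h1, ← Finset.sum_neg_distrib]
    refine Finset.sum_comm.trans ?_
    refine Finset.sum_congr rfl fun k _ => ?_
    rw [← Finset.sum_neg_distrib]
    refine Finset.sum_congr rfl fun l _ => ?_
    rw [hμ, h2 (b.coord k), map_neg, map_neg]
  have h5 : (2 : ℂ) • dd μ (dd μ c) φ = 0 := by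
    rw [two_smul]
    nth_rewrite 1 [h4]
    exact neg_add_cancel _
  simpa using (smul_eq_zero.1 h5).resolve_left (by norm_num)

/-- the exterior product with `w` -/
noncomputable def wed (w : V) {i : ℕ} (c : Module.Dual ℂ V [⋀^Fin i]→ₗ[ℂ] N) :
    Module.Dual ℂ V [⋀^Fin (i + 1)]→ₗ[ℂ] N :=
  AlternatingMap.alternatizeUncurryFin ((Module.Dual.eval ℂ V w).smulRight c)

theorem wed_apply (w : V) {i : ℕ} (c : Module.Dual ℂ V [⋀^Fin i]→ₗ[ℂ] N)
    (φ : Fin (i + 1) → Module.Dual ℂ V) :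
    wed w c φ = ∑ j : Fin (i + 1), (-1) ^ (j : ℕ) • φ j w • c (j.removeNth φ) := by
  rw [wed, AlternatingMap.alternatizeUncurryFin_apply]
  rfl

theorem dd_wed_zero (μ : V →ₗ[ℂ] N →ₗ[ℂ] N) (w : V) (c : Module.Dual ℂ V [⋀^Fin 0]→ₗ[ℂ] N) :
    dd μ (wed w c) = (μ w).compAlternatingMap c := by
  ext φ
  rw [dd_apply]
  have h : ∀ k, wed w c (Matrix.vecCons ((Module.finBasis ℂ V).coord k) φ) =
      (Module.finBasis ℂ V).coord k w • c φ := by
    intro k
    rw [wed_apply, Fin.sum_univ_one]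
    simp only [Fin.val_zero, pow_zero, one_smul, Matrix.cons_val_zero]
    congr 2
  simp only [h, map_smul]
  change _ = μ w (c φ)
  conv_rhs => rw [← sum_coord w, map_sum, LinearMap.sum_apply]
  exact Finset.sum_congr rfl fun k _ => by rw [map_smul, LinearMap.smul_apply]

theorem dd_wed (μ : V →ₗ[ℂ] N →ₗ[ℂ] N) (w : V) {i : ℕ}
    (c : Module.Dual ℂ V [⋀^Fin (i + 1)]→ₗ[ℂ] N) :
    dd μ (wed w c) = (μ w).compAlternatingMap c - wed w (dd μ c) := by
  ext φ
  rw [AlternatingMap.sub_apply, dd_apply]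
  have h : ∀ k, wed w c (Matrix.vecCons ((Module.finBasis ℂ V).coord k) φ) =
      (Module.finBasis ℂ V).coord k w • c φ - ∑ j : Fin (i + 1), (-1) ^ (j : ℕ) • φ j w •
        c (Matrix.vecCons ((Module.finBasis ℂ V).coord k) (j.removeNth φ)) := by
    intro k
    rw [wed_apply, Fin.sum_univ_succ]
    simp only [Fin.val_zero, pow_zero, one_smul, Matrix.cons_val_zero]
    rw [sub_eq_add_neg, ← Finset.sum_neg_distrib]
    congr 1
    refine Finset.sum_congr rfl fun j _ => ?_
    rw [Fin.val_succ, pow_succ, Matrix.cons_val_succ, mul_neg_one, neg_smul]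
    have h1 : Fin.removeNth j.succ (Matrix.vecCons ((Module.finBasis ℂ V).coord k) φ) =
        Matrix.vecCons ((Module.finBasis ℂ V).coord k) (j.removeNth φ) := by
      funext l
      refine Fin.cases ?_ (fun l => ?_) l
      · simp [Fin.removeNth]
      · simp [Fin.removeNth]
    rw [h1]
  simp only [h, map_sub, Finset.sum_sub_distrib, map_smul]
  congr 1
  · change _ = μ w (c φ)
    conv_rhs => rw [← sum_coord w, map_sum, LinearMap.sum_apply]
    exact Finset.sum_congr rfl fun k _ => by rw [map_smul, LinearMap.smul_apply]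
  · rw [wed_apply]
    simp only [map_sum, dd_apply, Finset.smul_sum]
    rw [Finset.sum_comm]
    refine Finset.sum_congr rfl fun j _ => Finset.sum_congr rfl fun k _ => ?_
    rw [LinearMap.map_smul_of_tower, map_smul]

/-- the form `φ ↦ det (φ_a (v_b))` -/
noncomputable def dt {m : ℕ} (v : Fin m → V) : Module.Dual ℂ V [⋀^Fin m]→ₗ[ℂ] ℂ :=
  Matrix.detRowAlternating.compLinearMap (LinearMap.pi fun b => Module.Dual.eval ℂ V (v b))

theorem dt_apply {m : ℕ} (v : Fin m → V) (φ : Fin m → Module.Dual ℂ V) :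
    dt v φ = (Matrix.of fun a b => φ a (v b)).det := rfl

theorem dt_apply' {m : ℕ} (v : Fin m → V) (φ : Fin m → Module.Dual ℂ V) :
    dt v φ = Matrix.detRowAlternating.compLinearMap (LinearMap.pi φ) v := by
  rw [dt_apply, ← Matrix.det_transpose]
  rfl

/-- the form `φ ↦ det (φ_a (v_b)) x` -/
noncomputable def dtx {m : ℕ} (v : Fin m → V) (x : N) : Module.Dual ℂ V [⋀^Fin m]→ₗ[ℂ] N :=
  (LinearMap.toSpanSingleton ℂ N x).compAlternatingMap (dt v)

theorem dtx_apply {m : ℕ} (v : Fin m → V) (x : N) (φ : Fin m → Module.Dual ℂ V) :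
    dtx v x φ = dt v φ • x := rfl

theorem dt_cons {m : ℕ} (v : Fin (m + 1) → V) (ψ : Module.Dual ℂ V) (φ : Fin m → Module.Dual ℂ V) :
    dt v (Matrix.vecCons ψ φ) = ∑ l : Fin (m + 1), (-1) ^ (l : ℕ) * ψ (v l) * dt (l.removeNth v) φ := by
  rw [dt_apply, Matrix.det_succ_row_zero]
  refine Finset.sum_congr rfl fun l _ => ?_
  rfl

theorem dd_dtx (μ : V →ₗ[ℂ] N →ₗ[ℂ] N) {m : ℕ} (v : Fin (m + 1) → V) (x : N) :
    dd μ (dtx v x) = ∑ l : Fin (m + 1), (-1 : ℂ) ^ (l : ℕ) • dtx (l.removeNth v) (μ (v l) x) := by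
  have hs : ∀ (s : Finset (Fin (m + 1))) (F : Fin (m + 1) → Module.Dual ℂ V [⋀^Fin m]→ₗ[ℂ] N)
      (φ : Fin m → Module.Dual ℂ V), (∑ l ∈ s, F l) φ = ∑ l ∈ s, F l φ := by
    classical
    intro s F φ
    induction s using Finset.induction_on with
    | empty => simp
    | insert a s ha ih =>
      rw [Finset.sum_insert ha, Finset.sum_insert ha, AlternatingMap.add_apply, ih]
  ext φ
  rw [hs, dd_apply]
  have h1 : ∀ l : Fin (m + 1), ((-1 : ℂ) ^ (l : ℕ) • dtx (l.removeNth v) (μ (v l) x)) φ =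
      ∑ k, ((-1 : ℂ) ^ (l : ℕ) * (Module.finBasis ℂ V).coord k (v l) * dt (l.removeNth v) φ) •
        μ (Module.finBasis ℂ V k) x := by
    intro l
    rw [AlternatingMap.smul_apply, dtx_apply]
    conv_lhs => rw [← sum_coord (v l), map_sum, LinearMap.sum_apply, Finset.smul_sum, Finset.smul_sum]
    refine Finset.sum_congr rfl fun k _ => ?_
    rw [map_smul, LinearMap.smul_apply, smul_smul, smul_smul]
    congr 1
    ring
  simp only [h1]
  rw [Finset.sum_comm]
  refine Finset.sum_congr rfl fun k _ => ?_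
  rw [dtx_apply, map_smul, dt_cons, Finset.sum_smul]

/-- the functional `α(v)(x) = θ(det(φ_a(v_b)) x)` -/
noncomputable def toA {m : ℕ} (θ : (Module.Dual ℂ V [⋀^Fin m]→ₗ[ℂ] N) →ₗ[ℂ] ℂ) :
    V [⋀^Fin m]→ₗ[ℂ] Module.Dual ℂ N where
  toFun v :=
    { toFun := fun x => θ (dtx v x)
      map_add' := fun x y => by
        rw [← map_add]
        congr 1
        ext φ
        simp only [dtx_apply, AlternatingMap.add_apply, smul_add]
      map_smul' := fun c x => by
        rw [RingHom.id_apply, ← map_smul]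
        congr 1
        ext φ
        simp only [dtx_apply, AlternatingMap.smul_apply]
        rw [smul_comm] }
  map_update_add' := by
    intro _ v i x y
    ext r
    change θ (dtx (Function.update v i (x + y)) r) = θ (dtx (Function.update v i x) r) +
      θ (dtx (Function.update v i y) r)
    rw [← map_add]
    congr 1
    ext φ
    simp only [dtx_apply, AlternatingMap.add_apply, dt_apply', AlternatingMap.map_update_add, add_smul]
  map_update_smul' := by
    intro _ v i c x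
    ext r
    change θ (dtx (Function.update v i (c • x)) r) = c • θ (dtx (Function.update v i x) r)
    rw [← map_smul]
    congr 1
    ext φ
    simp only [dtx_apply, AlternatingMap.smul_apply, dt_apply', AlternatingMap.map_update_smul,
      smul_smul, smul_eq_mul]
  map_eq_zero_of_eq' := by
    intro v i j h hij
    ext r
    change θ (dtx v r) = 0
    have : dtx v r = 0 := by
      ext φ
      rw [dtx_apply, dt_apply', AlternatingMap.map_eq_zero_of_eq _ _ h hij, zero_smul]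
      rfl
    rw [this, map_zero]

theorem toA_apply {m : ℕ} (θ : (Module.Dual ℂ V [⋀^Fin m]→ₗ[ℂ] N) →ₗ[ℂ] ℂ) (v : Fin m → V) (x : N) :
    toA θ v x = θ (dtx v x) := rfl

theorem toA_cocycle (μ : V →ₗ[ℂ] N →ₗ[ℂ] N) {m : ℕ} (θ : (Module.Dual ℂ V [⋀^Fin m]→ₗ[ℂ] N) →ₗ[ℂ] ℂ)
    (hθ : ∀ g, θ (dd μ g) = 0) (v : Fin (m + 1) → V) (x : N) :
    ∑ l : Fin (m + 1), (-1 : ℂ) ^ (l : ℕ) * toA θ (l.removeNth v) (μ (v l) x) = 0 := by
  rw [← hθ (dtx v x), dd_dtx, map_sum]
  refine Finset.sum_congr rfl fun l _ => ?_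
  rw [map_smul, toA_apply, smul_eq_mul]

theorem expand {m : ℕ} (e : Module.Dual ℂ V [⋀^Fin m]→ₗ[ℂ] N) :
    (Nat.factorial m : ℂ) • e = ∑ r : Fin m → Fin (Module.finrank ℂ V),
      dtx (fun b => Module.finBasis ℂ V (r b)) (e fun a => (Module.finBasis ℂ V).coord (r a)) := by
  classical
  set b := Module.finBasis ℂ V with hb
  have hs : ∀ (s : Finset (Fin m → Fin (Module.finrank ℂ V)))
      (F : (Fin m → Fin (Module.finrank ℂ V)) → Module.Dual ℂ V [⋀^Fin m]→ₗ[ℂ] N)
      (φ : Fin m → Module.Dual ℂ V), (∑ l ∈ s, F l) φ = ∑ l ∈ s, F l φ := by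
    intro s F φ
    induction s using Finset.induction_on with
    | empty => simp
    | insert a s ha ih =>
      rw [Finset.sum_insert ha, Finset.sum_insert ha, AlternatingMap.add_apply, ih]
  have hψ : ∀ ψ : Module.Dual ℂ V, ψ = ∑ k, ψ (b k) • b.coord k := by
    intro ψ
    ext x
    conv_lhs => rw [← b.sum_repr x, map_sum]
    rw [LinearMap.sum_apply]
    refine Finset.sum_congr rfl fun k _ => ?_
    rw [map_smul, LinearMap.smul_apply, smul_eq_mul, smul_eq_mul, mul_comm]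
    rfl
  have hexp : ∀ ψ : Fin m → Module.Dual ℂ V, e ψ = ∑ r : Fin m → Fin (Module.finrank ℂ V),
      (∏ a, ψ a (b (r a))) • e fun a => b.coord (r a) := by
    intro ψ
    have h1 : ψ = fun a => ∑ k, ψ a (b k) • b.coord k := funext fun a => hψ (ψ a)
    conv_lhs => rw [h1]
    have h2 := e.toMultilinearMap.map_sum (fun a k => ψ a (b k) • b.coord k)
    refine Eq.trans h2 ?_
    refine Finset.sum_congr rfl fun r _ => ?_
    exact e.toMultilinearMap.map_smul_univ (fun a => ψ a (b (r a))) (fun a => b.coord (r a))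
  ext φ
  rw [hs]
  have h3 : ∀ r : Fin m → Fin (Module.finrank ℂ V),
      dtx (fun a => b (r a)) (e fun a => b.coord (r a)) φ =
      ∑ σ : Equiv.Perm (Fin m), ((Equiv.Perm.sign σ : ℤ) : ℂ) •
        ((∏ a, φ (σ a) (b (r a))) • e fun a => b.coord (r a)) := by
    intro r
    rw [dtx_apply, dt_apply, Matrix.det_apply, Finset.sum_smul]
    refine Finset.sum_congr rfl fun σ _ => ?_
    rw [smul_smul, Units.smul_def, zsmul_eq_mul]
    rfl
  simp only [h3]
  rw [Finset.sum_comm]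
  have h4 : ∀ σ : Equiv.Perm (Fin m), ∑ r : Fin m → Fin (Module.finrank ℂ V),
      ((Equiv.Perm.sign σ : ℤ) : ℂ) • ((∏ a, φ (σ a) (b (r a))) • e fun a => b.coord (r a)) = e φ := by
    intro σ
    have h5 : ∑ r : Fin m → Fin (Module.finrank ℂ V), (∏ a, φ (σ a) (b (r a))) •
        (e fun a => b.coord (r a)) = e (φ ∘ σ) := (hexp (φ ∘ σ)).symm
    rw [← Finset.smul_sum, h5, AlternatingMap.map_perm, Units.smul_def,
      ← Int.cast_smul_eq_zsmul ℂ, smul_smul, ← Int.cast_mul, ← Units.val_mul, Int.units_mul_self]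
    simp
  simp only [h4]
  rw [Finset.sum_const, Finset.card_univ, Fintype.card_perm, Fintype.card_fin,
    AlternatingMap.smul_apply, Nat.cast_smul_eq_nsmul]

theorem toA_eq_zero {m : ℕ} {θ : (Module.Dual ℂ V [⋀^Fin m]→ₗ[ℂ] N) →ₗ[ℂ] ℂ} (h : toA θ = 0) : θ = 0 := by
  ext e
  have h1 : θ ((Nat.factorial m : ℂ) • e) = 0 := by
    rw [expand, map_sum]
    refine Finset.sum_eq_zero fun r _ => ?_
    rw [← toA_apply, h]
    rfl
  rw [map_smul, smul_eq_mul] at h1
  exact (mul_eq_zero.1 h1).resolve_left (Nat.cast_ne_zero.2 (Nat.factorial_ne_zero m))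

end alg

end Run7.h821
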