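import Pool.Agent.Run7.h821.Pts

/-!
# Lagrange bases and the vanishing of cocycles
-/

open scoped WithZero
open WithZero
open Pool.Agent.Helper395.CS hiding genus
open Pool.Agent.Helper395.BC

set_option linter.unusedSectionVars false
set_option linter.unusedVariables false

namespace Run7.h821

variable {K : Type} [Field K] [Algebra ℂ K]

/-- the sections of `M` which vanish at the points of `B` -/
def van (M : LineBundle K) (B : Finset (Point K)) : Submodule ℂ K where
  carrier := {f | f ∈ H0 M ∧ ∀ z ∈ B, z.val f < z.val (M.frame z : K)}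
  add_mem' := fun ha hb => ⟨add_mem ha.1 hb.1, fun z hz => Valuation.map_add_lt _ (ha.2 z hz) (hb.2 z hz)⟩
  zero_mem' := ⟨zero_mem _, fun z hz => by rw [map_zero]; exact frame_pos M z⟩
  smul_mem' := fun c a ha => ⟨Submodule.smul_mem _ c ha.1, fun z hz => by
    rw [Algebra.smul_def, map_mul]
    exact (mul_le_of_le_one_left' (z.const_le c)).trans_lt (ha.2 z hz)⟩

/-- a Lagrange basis -/
theorem lagrange (hK : IsCurve K) {L : LineBundle K} {Z : Finset (Point K)} (hZ : van L Z = ⊥) :
    ∃ A ⊆ Z, ∃ b : Module.Basis A ℂ (H0 L), ∀ (a : A) (z : Point K), z ∈ A → z ≠ a →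
      z.val (b a).1 < z.val (L.frame z : K) := by
  classical
  obtain ⟨A, hAZ, hmin⟩ := exists_minimal_le_of_wellFoundedLT (fun A => van L A = ⊥) Z hZ
  have hA : van L A = ⊥ := hmin.prop
  have h1 : ∀ a : A, ∃ f : H0 L, (∀ z ∈ A, z ≠ a → z.val f.1 < z.val (L.frame z : K)) ∧
      a.1.val f.1 = a.1.val (L.frame a.1 : K) := by
    intro a
    have h2 : van L (A.erase a) ≠ ⊥ := by
      intro h
      exact hmin.not_prop_of_lt (Finset.erase_ssubset a.2) h
    obtain ⟨f, hf, hf0⟩ := Submodule.exists_mem_ne_zero_of_ne_bot h2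
    refine ⟨⟨f, hf.1⟩, fun z hz hza => hf.2 z (Finset.mem_erase.2 ⟨hza, hz⟩), ?_⟩
    by_contra hne
    apply hf0
    have h3 : f ∈ van L A := by
      refine ⟨hf.1, fun z hz => ?_⟩
      by_cases hza : z = a
      · subst hza
        exact lt_of_le_of_ne (hf.1 _) hne
      · exact hf.2 z (Finset.mem_erase.2 ⟨hza, hz⟩)
    rw [hA] at h3
    exact (Submodule.mem_bot ℂ).1 h3
  choose u hu1 hu2 using h1
  have hu0 : ∀ a, (u a).1 ≠ 0 := by
    intro a h0
    have := hu2 a
    rw [h0, map_zero] at this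
    exact a.1.val_ne_zero (L.frame a.1).ne_zero this.symm
  have hlt : ∀ (c : A → ℂ) (a : A) (s : Finset A), a ∉ s →
      a.1.val (∑ x ∈ s, c x • (u x).1) < a.1.val (L.frame a.1 : K) := by
    intro c a s ha
    refine Valuation.map_sum_lt _ (frame_pos L a.1).ne' fun x hx => ?_
    rw [Algebra.smul_def, map_mul]
    refine (mul_le_of_le_one_left' (a.1.const_le _)).trans_lt (hu1 x a.1 a.2 ?_)
    intro h
    apply ha
    rw [Subtype.ext h]
    exact hx
  have hli : LinearIndependent ℂ u := by
    rw [Fintype.linearIndependent_iff]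
    intro c hc a
    by_contra hca
    have h3 : ∑ x, c x • (u x).1 = 0 := by
      have := congrArg Subtype.val hc
      simpa using this
    rw [← Finset.add_sum_erase _ _ (Finset.mem_univ a)] at h3
    have h4 : c a • (u a).1 = -∑ x ∈ Finset.univ.erase a, c x • (u x).1 := eq_neg_of_add_eq_zero_left h3
    have h5 := hlt c a (Finset.univ.erase a) (Finset.notMem_erase _ _)
    rw [← Valuation.map_neg, ← h4, Algebra.smul_def, map_mul, a.1.const _ hca, one_mul, hu2] at h5
    exact lt_irrefl _ h5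
  have hsp : ⊤ ≤ Submodule.span ℂ (Set.range u) := by
    intro f _
    have h3 : ∀ a : A, ∃ c : ℂ, a.1.val (f.1 - c • (u a).1) < a.1.val (u a).1 := fun a =>
      exists_res hK a.1 (hu0 a) (by rw [hu2]; exact f.2 a.1)
    choose c hc using h3
    have h4 : f = ∑ a, c a • u a := by
      rw [← sub_eq_zero]
      apply Subtype.ext
      have h5 : (f - ∑ a, c a • u a : H0 L).1 ∈ van L A := by
        refine ⟨(f - ∑ a, c a • u a : H0 L).2, fun z hz => ?_⟩
        have h6 : (f - ∑ a, c a • u a : H0 L).1 = (f.1 - c ⟨z, hz⟩ • (u ⟨z, hz⟩).1) -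
            ∑ x ∈ Finset.univ.erase (⟨z, hz⟩ : A), c x • (u x).1 := by
          rw [sub_sub, Finset.add_sum_erase _ (fun x => c x • (u x).1) (Finset.mem_univ (⟨z, hz⟩ : A))]
          simp
        rw [h6]
        refine (Valuation.map_sub _ _ _).trans_lt (max_lt ?_ ?_)
        · have := hc ⟨z, hz⟩
          rwa [hu2] at this
        · exact hlt c ⟨z, hz⟩ _ (Finset.notMem_erase _ _)
      rw [hA] at h5
      exact (Submodule.mem_bot ℂ).1 h5
    rw [h4]
    exact Submodule.sum_mem _ fun a _ => Submodule.smul_mem _ _ (Submodule.subset_span ⟨a, rfl⟩)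
  refine ⟨A, hAZ, Module.Basis.mk hli hsp, ?_⟩
  intro a z hz hza
  rw [Module.Basis.mk_apply]
  exact hu1 a z hz hza

end Run7.h821
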