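import Pool.Agent.Run7.h821.Gp

/-!
# Sections with zeros in linearly general position
-/

open scoped WithZero IntermediateField
open WithZero
open Pool.Agent.Helper395.CS hiding genus map_mul map_inv
open Pool.Agent.Helper395.BC
open Pool.Agent.R858.QD (LiesOver existsUnique_image)

set_option linter.unusedSectionVars false
set_option linter.unusedVariables false

namespace Run7.h821

variable {K : Type} [Field K] [Algebra ℂ K]

theorem ne_of_gen {M : LineBundle K} {v : Point K} {s : K} (h : v.val s = v.val (M.frame v : K)) :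
    s ≠ 0 := by
  intro h0
  rw [h0, map_zero] at h
  exact (frame_pos M v).ne h

/-- the members of a pencil without common zeros: all but finitely many have simple zeros, away
from a given finite set -/
theorem pencil (hK : IsCurve K) {M : LineBundle K} {s₀ s₁ : K} (hs₀ : s₀ ∈ H0 M)
    (hs₁ : s₁ ∈ H0 M) (hs₁0 : s₁ ≠ 0)
    (hcom : ∀ v : Point K, v.val s₀ = v.val (M.frame v : K) ∨ v.val s₁ = v.val (M.frame v : K))
    (ht : Transcendental ℂ (s₀ / s₁)) (T : Finset (Point K)) :
    ∃ R : Set ℂ, R.Finite ∧ ∀ a, a ∉ R → ∃ Z : Finset (Point K),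
      (∀ v, v ∈ Z ↔ v.val (s₀ / s₁ - algebraMap ℂ K a) < 1) ∧
      (∀ v ∈ Z, v.val (s₀ / s₁ - algebraMap ℂ K a) = exp (-1)) ∧
      Zeros M (s₀ - algebraMap ℂ K a * s₁) Z ∧ (∀ v ∈ Z, v.val s₁ = v.val (M.frame v : K)) ∧
      Disjoint Z T := by
  refine ⟨_, (finite_nonsimple hK ht).union (finite_res T.finite_toSet (s₀ / s₁)), fun a ha => ?_⟩
  rw [Set.mem_union, not_or] at ha
  obtain ⟨ha1, ha2⟩ := ha
  have ha1' : ∀ v : Point K, v.val (s₀ / s₁ - algebraMap ℂ K a) < 1 →
      v.val (s₀ / s₁ - algebraMap ℂ K a) = exp (-1) := by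
    by_contra h
    exact ha1 h
  obtain ⟨Z, hZ⟩ := finite_pos hK ht a
  obtain ⟨h1, h2⟩ := pencil_zeros hK hs₀ hs₁ hs₁0 hcom hZ ha1'
  refine ⟨Z, hZ, fun v hv => ha1' v ((hZ v).1 hv), h1, h2, ?_⟩
  rw [Finset.disjoint_left]
  intro v hv hvT
  exact ha2 ⟨v, hvT, (hZ v).1 hv⟩

theorem base (hK : IsCurve K) (hg : genus K ≠ 0) {M : LineBundle K} (hgg : GG M)
    (h2 : 2 ≤ Module.finrank ℂ (H0 M)) (T : Finset (Point K)) :
    ∃ s Z, Zeros M s Z ∧ Disjoint Z T ∧ ∀ B ⊆ Z, B.card ≤ 1 → Ind M B := by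
  classical
  obtain ⟨p⟩ := point_nonempty hK
  have h3 := finrank_lsub hK hg hgg p
  have h4 : H0 (lsub M p) ≠ ⊥ := by
    intro h
    rw [h, finrank_bot] at h3
    omega
  obtain ⟨s₀, hs₀, hs₀0⟩ := Submodule.exists_mem_ne_zero_of_ne_bot h4
  rw [Pool.Agent.N147.BN.mem_H0_lsub] at hs₀
  obtain ⟨hs₀M, hs₀p⟩ := hs₀
  have hfin := Pool.Agent.N147.BN.finite_zeros hK M hs₀0
  obtain ⟨s₁, hs₁, hgen⟩ := exists_gen hK hg hgg hfin.toFinset
  have hp : p.val s₁ = p.val (M.frame p : K) := hgen p (hfin.mem_toFinset.2 hs₀p)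
  have hs₁0 := ne_of_gen hp
  have hcom : ∀ v : Point K, v.val s₀ = v.val (M.frame v : K) ∨ v.val s₁ = v.val (M.frame v : K) := by
    intro v
    by_cases h : v.val s₀ = v.val (M.frame v : K)
    · exact Or.inl h
    · exact Or.inr (hgen v (hfin.mem_toFinset.2 (lt_of_le_of_ne (hs₀M v) h)))
  have ht : Transcendental ℂ (s₀ / s₁) := by
    apply transc_of_lt (v := p) (div_ne_zero hs₀0 hs₁0)
    rw [map_div₀, hp, div_lt_one₀ (frame_pos M p)]
    exact hs₀p
  obtain ⟨R, hR, hpen⟩ := pencil hK hs₀M hs₁ hs₁0 hcom ht T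
  obtain ⟨a, ha⟩ := hR.exists_notMem
  obtain ⟨Z, -, -, hz, -, hdis⟩ := hpen a ha
  refine ⟨_, Z, hz, hdis, fun B hB hB1 => ?_⟩
  intro z hzB
  obtain ⟨f, hf, hfz⟩ := hgg z
  refine ⟨f, hf, hfz, fun z' hz' hne => ?_⟩
  exact absurd (Finset.card_le_one.1 hB1 z' hz' z hzB) hne

theorem gp_lgp (hK : IsCurve K) (hg : genus K ≠ 0) (k : ℕ) : ∀ (M : LineBundle K), GP (k + 1) M →
    k + 2 ≤ Module.finrank ℂ (H0 M) → ∀ T : Finset (Point K),
      ∃ s Z, Zeros M s Z ∧ Disjoint Z T ∧ ∀ B ⊆ Z, B.card ≤ k + 1 → Ind M B := by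
  classical
  induction k with
  | zero => exact fun M hM h2 T => base hK hg hM h2 T
  | succ k ih =>
    intro M hM h2 T
    have hgg : GG M := hM.1
    -- a general point
    have hinf := infinite_points hK
    obtain ⟨y, hy⟩ := ((hM.2.union T.finite_toSet).infinite_compl).nonempty
    rw [Set.mem_compl_iff, Set.mem_union, not_or] at hy
    obtain ⟨hy1, hyT⟩ := hy
    have hyGP : GP (k + 1) (lsub M y) := by
      by_contra h
      exact hy1 h
    have hfr := finrank_lsub hK hg hgg y
    obtain ⟨s₀, Z₀, hz₀, hdis₀, hind₀⟩ := ih (lsub M y) hyGP (by omega) (insert y T)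
    have hyZ₀ : y ∉ Z₀ := fun h => Finset.disjoint_left.1 hdis₀ h (Finset.mem_insert_self y T)
    have hs₀M : s₀ ∈ H0 M := ((Pool.Agent.N147.BN.mem_H0_lsub M y s₀).1 (hz₀.mem hK)).1
    have hs₀0 := hz₀.ne hK
    -- the zeros of `s₀` as a section of `M`
    have hz₀' : Zeros M s₀ (insert y Z₀) := by
      constructor
      · intro v hv
        rcases Finset.mem_insert.1 hv with rfl | hv
        · rw [hz₀.off v hyZ₀, frame_lsub_self]
        · have hvy : v ≠ y := fun h => hyZ₀ (h ▸ hv)
          rw [hz₀.simple v hv, frame_lsub_ne M hvy]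
      · intro v hv
        rw [Finset.mem_insert, not_or] at hv
        rw [hz₀.off v hv.2, frame_lsub_ne M hv.1]
    obtain ⟨s₁, hs₁, hgen⟩ := exists_gen hK hg hgg (insert y Z₀)
    have hyM : y.val s₁ = y.val (M.frame y : K) := hgen y (Finset.mem_insert_self y Z₀)
    have hs₁0 := ne_of_gen hyM
    have hcom : ∀ v : Point K, v.val s₀ = v.val (M.frame v : K) ∨
        v.val s₁ = v.val (M.frame v : K) := by
      intro v
      by_cases h : v ∈ insert y Z₀
      · exact Or.inr (hgen v h)
      · exact Or.inl (hz₀'.off v h)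
    set t := s₀ / s₁ with ht_def
    have hty : ∀ v ∈ insert y Z₀, v.val t = exp (-1) := by
      intro v hv
      rw [ht_def, map_div₀, hgen v hv, hz₀'.simple v hv, mul_div_assoc, mul_comm,
        div_mul_cancel₀ _ (frame_pos M v).ne']
    have ht : Transcendental ℂ t := by
      apply transc_of_lt (v := y) (div_ne_zero hs₀0 hs₁0)
      rw [hty y (Finset.mem_insert_self y Z₀)]
      exact exp_lt_one
    -- the special member
    have hZ₀ : ∀ v, v ∈ insert y Z₀ ↔ v.val (t - algebraMap ℂ K 0) < 1 := by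
      intro v
      rw [map_zero, sub_zero]
      constructor
      · intro hv
        rw [hty v hv]
        exact exp_lt_one
      · intro hv
        by_contra h
        have h1 := hz₀'.off v h
        rw [ht_def, map_div₀, h1, div_lt_one₀ (zero_lt_iff.2 (v.val_ne_zero hs₁0))] at hv
        exact absurd (hs₁ v) (not_le.2 hv)
    have hZ₀' : ∀ v ∈ insert y Z₀, v.val (t - algebraMap ℂ K 0) = exp (-1) := by
      intro v hv
      rw [map_zero, sub_zero]
      exact hty v hv
    obtain ⟨E, i1, i2, hE, ι, i3, τ, hcard, hτ, hnorm⟩ := galois hK ht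
    have himg : ∀ (w : Point E) (i : ι), ∃ z : Point K, LiesOver (τ i) w z := fun w i =>
      (existsUnique_image hK hE (τ i) w).exists
    choose img himg using himg
    -- the minors do not vanish
    have hmin : ∀ I : Finset ι, I.card ≤ k + 2 → ∃ g : ι → K, (∀ j, g j * s₁ ∈ H0 M) ∧
        (Matrix.of fun i j : I => τ i (g j)).det ≠ 0 := by
      intro I hI
      rcases Finset.eq_empty_or_nonempty I with rfl | ⟨i₁, hi₁⟩
      · refine ⟨fun _ => 0, fun j => by rw [zero_mul]; exact zero_mem _, ?_⟩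
        rw [Matrix.det_isEmpty]
        exact one_ne_zero
      obtain ⟨w, hw⟩ := exists_above hK hE (τ i₁) y
      have hwt : ∀ i, w.val (τ i (t - algebraMap ℂ K 0)) < 1 := by
        intro i
        rw [hτ i i₁ (t - algebraMap ℂ K 0) (sub_mem (IntermediateField.mem_adjoin_simple_self ℂ t)
          (algebraMap_mem _ 0)), LiesOver.lt_iff hw]
        exact (hZ₀ y).1 (Finset.mem_insert_self y Z₀)
      obtain ⟨hinj, hmem, hsurj⟩ := fibre hK hg ht hZ₀ hZ₀' hE τ hcard hτ hnorm hwt
        (fun i => himg w i)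
      have hi₁y : img w i₁ = y := Pool.Agent.R858.QD.LiesOver.unique (himg w i₁) hw
      apply minors hK hs₁0 τ (fun i => himg w i) hinj (fun i => hgen _ (hmem i)) I
      have h1 : I.image (img w) = insert y ((I.erase i₁).image (img w)) := by
        conv_lhs => rw [← Finset.insert_erase hi₁]
        rw [Finset.image_insert, hi₁y]
      have hyn : y ∉ (I.erase i₁).image (img w) := by
        intro h
        obtain ⟨i, hi, hiy⟩ := Finset.mem_image.1 h
        exact (Finset.mem_erase.1 hi).1 (hinj (hiy.trans hi₁y.symm))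
      rw [h1]
      apply ind_insert hgg hK hyn
      apply hind₀
      · intro v hv
        obtain ⟨i, hi, rfl⟩ := Finset.mem_image.1 hv
        refine (Finset.mem_insert.1 (hmem i)).resolve_left ?_
        intro h
        exact (Finset.mem_erase.1 hi).1 (hinj (h.trans hi₁y.symm))
      · refine Finset.card_image_le.trans ?_
        rw [Finset.card_erase_of_mem hi₁]
        omega
    choose g hgm hdet using hmin
    -- the bad points of the Galois closure
    set BadE : Set (Point E) := ⋃ (I : Finset ι), {w | ∃ h : I.card ≤ k + 2,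
      w.ord (Matrix.of fun i j : I => τ i (g I h j)).det ≠ 0} with hBadE
    have hBad : BadE.Finite := by
      rw [hBadE]
      refine Set.finite_iUnion fun I => ?_
      by_cases h : I.card ≤ k + 2
      · refine (finite_ord hE (Matrix.of fun i j : I => τ i (g I h j)).det).subset ?_
        rintro w ⟨_, hw⟩
        exact hw
      · refine Set.finite_empty.subset ?_
        rintro w ⟨h', _⟩
        exact absurd h' h
    have hN : 0 < Module.finrank ℂ⟮t⟯ K := by
      have := hK.finiteDimensional ht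
      exact Module.finrank_pos
    obtain ⟨j₀⟩ : Nonempty ι := Fintype.card_pos_iff.1 (hcard ▸ hN)
    obtain ⟨R, hR, hpen⟩ := pencil hK hs₀M hs₁ hs₁0 hcom ht T
    obtain ⟨a, ha⟩ := (hR.union (finite_res hBad (τ j₀ t))).exists_notMem
    rw [Set.mem_union, not_or] at ha
    obtain ⟨Z, hZ, hZ', hz, hgenZ, hdis⟩ := hpen a ha.1
    refine ⟨_, Z, hz, hdis, fun B hB hBc => ?_⟩
    obtain ⟨w, hw⟩ := exists_point hE (Pool.Agent.R858.QD.map_transc (τ j₀) ht) a
    have hwt : ∀ i, w.val (τ i (t - algebraMap ℂ K a)) < 1 := by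
      intro i
      rw [hτ i j₀ (t - algebraMap ℂ K a) (sub_mem (IntermediateField.mem_adjoin_simple_self ℂ t)
        (algebraMap_mem _ a)), map_sub, AlgHom.commutes]
      exact hw
    obtain ⟨hinj, hmem, hsurj⟩ := fibre hK hg ht hZ hZ' hE τ hcard hτ hnorm hwt (fun i => himg w i)
    set I : Finset ι := Finset.univ.filter fun i => img w i ∈ B with hI
    have hIB : I.image (img w) = B := by
      ext v
      rw [Finset.mem_image]
      constructor
      · rintro ⟨i, hi, rfl⟩
        exact (Finset.mem_filter.1 hi).2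
      · intro hv
        obtain ⟨i, rfl⟩ := hsurj v (hB hv)
        exact ⟨i, Finset.mem_filter.2 ⟨Finset.mem_univ i, hv⟩, rfl⟩
    have hIc : I.card ≤ k + 2 := by
      rw [← Finset.card_image_of_injective I hinj, hIB]
      exact hBc
    rw [← hIB]
    apply ind_of_minor hK hE hs₁0 τ (fun i => himg w i) hinj (fun i => hgenZ _ (hmem i)) I
      (hgm I hIc)
    rw [w.val_eq_one_iff (hdet I hIc)]
    by_contra h
    apply ha.2
    exact ⟨w, Set.mem_iUnion.2 ⟨I, hIc, h⟩, hw⟩

/-- line bundles in general position -/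
theorem lgp_of_gp (hK : IsCurve K) (hg : genus K ≠ 0) {M : LineBundle K}
    (h2 : 2 ≤ Module.finrank ℂ (H0 M)) (hM : GP (Module.finrank ℂ (H0 M) - 1) M) : LGP M := by
  intro T
  obtain ⟨k, hk⟩ : ∃ k, Module.finrank ℂ (H0 M) = k + 2 := ⟨Module.finrank ℂ (H0 M) - 2, by omega⟩
  rw [hk] at hM
  obtain ⟨s, Z, hz, hdis, hind⟩ := gp_lgp hK hg k M hM hk.ge T
  exact ⟨s, Z, hz, hdis, fun B hB hBc => (hind B hB (by omega)).finrank hK hg⟩

end Run7.h821
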