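import Pool.Agent.Run7.h821.Lag
import Pool.Agent.Helper395.CS.Hyp

/-!
# Vanishing of cocycles of differentials
-/

open scoped WithZero
open WithZero
open Pool.Agent.Helper395.CS hiding genus
open Pool.Agent.Helper395.BC

set_option linter.unusedSectionVars false
set_option linter.unusedVariables false

namespace Run7.h821

variable {K : Type} [Field K] [Algebra ℂ K]

theorem exp_lt_one : (exp (-1) : ℤᵐ⁰) < 1 := by
  rw [← exp_zero, exp_lt_exp]
  norm_num

theorem van_empty (M : LineBundle K) : van M ∅ = H0 M := by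
  ext f
  exact ⟨fun h => h.1, fun h => ⟨h, fun z hz => absurd hz (Finset.notMem_empty z)⟩⟩

/-- `s` is a section of `M` with simple zeros at the points of `Z` and no other zeros -/
structure Zeros (M : LineBundle K) (s : K) (Z : Finset (Point K)) : Prop where
  simple : ∀ v ∈ Z, v.val s = v.val (M.frame v : K) * exp (-1)
  off : ∀ v, v ∉ Z → v.val s = v.val (M.frame v : K)

section zeros

variable {M : LineBundle K} {s : K} {Z : Finset (Point K)} (h : Zeros M s Z)
include h

theorem Zeros.ne (hK : IsCurve K) : s ≠ 0 := by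
  obtain ⟨v⟩ := point_nonempty hK
  intro h0
  by_cases hv : v ∈ Z
  · have := h.simple v hv
    rw [h0, map_zero] at this
    have h1 := frame_pos M v
    have h2 : (0 : ℤᵐ⁰) < v.val (M.frame v : K) * exp (-1) := by
      apply mul_pos h1
      exact exp_pos
    exact h2.ne this
  · have := h.off v hv
    rw [h0, map_zero] at this
    exact (frame_pos M v).ne this

theorem Zeros.mem (hK : IsCurve K) : s ∈ H0 M := by
  intro v
  change v.val s ≤ v.val (M.frame v : K)
  by_cases hv : v ∈ Z
  · rw [h.simple v hv]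
    exact mul_le_of_le_one_right' exp_lt_one.le
  · rw [h.off v hv]

open Classical in
theorem Zeros.mem_iff (hK : IsCurve K) {Q : Finset (Point K)} (hQ : Q ⊆ Z) (f : K) :
    f ∈ H0 (lset Q) ↔ s * f ∈ van M (Z \ Q) := by
  have hloc : ∀ v : Point K, f ∈ (lset Q).stalk v ↔ v.val (s * f) ≤ v.val (M.frame v : K) ∧
      (v ∈ Z \ Q → v.val (s * f) < v.val (M.frame v : K)) := by
    intro v
    have hp := frame_pos M v
    rw [mem_lset]
    by_cases hvZ : v ∈ Z
    · by_cases hvQ : v ∈ Q
      · rw [if_pos hvQ, map_mul, h.simple v hvZ]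
        have h1 : v.val (M.frame v : K) * exp (-1) * v.val f ≤ v.val (M.frame v : K) ↔
            v.val f ≤ exp 1 := by
          rw [mul_assoc, mul_le_iff_le_one_right hp]
          constructor
          · intro h2
            calc v.val f = exp 1 * (exp (-1) * v.val f) := by
                  rw [← mul_assoc, ← exp_add]
                  simp
              _ ≤ exp 1 * 1 := mul_le_mul_right h2 _
              _ = exp 1 := mul_one _
          · intro h2
            calc exp (-1) * v.val f ≤ exp (-1) * exp 1 := mul_le_mul_right h2 _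
              _ = 1 := by
                  rw [← exp_add]
                  simp
        rw [h1]
        have h2 : v ∉ Z \ Q := by simp [hvQ]
        simp only [h2, false_implies, and_true]
      · rw [if_neg hvQ, map_mul, h.simple v hvZ]
        have h2 : v ∈ Z \ Q := by simp [hvQ, hvZ]
        simp only [h2, true_implies]
        have h3 : v.val (M.frame v : K) * exp (-1) * v.val f < v.val (M.frame v : K) ↔
            v.val f ≤ 1 := by
          rw [lt_iff_le_exp hp.ne', mul_assoc, mul_comm (exp (-1)), ← mul_assoc]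
          rw [mul_le_mul_iff_left₀ exp_pos, mul_le_iff_le_one_right hp]
        rw [← h3]
        exact ⟨fun h4 => ⟨h4.le, h4⟩, fun h4 => h4.2⟩
    · have hvQ : v ∉ Q := fun h' => hvZ (hQ h')
      rw [if_neg hvQ, map_mul, h.off v hvZ]
      have h2 : v ∉ Z \ Q := by simp [hvZ]
      simp only [h2, false_implies, and_true]
      rw [mul_le_iff_le_one_right hp]
  constructor
  · intro h1
    exact ⟨fun v => ((hloc v).1 (h1 v)).1, fun v hv => ((hloc v).1 (h1 v)).2 hv⟩
  · intro h1 v
    exact (hloc v).2 ⟨h1.1 v, h1.2 v⟩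

open Classical in
/-- multiplication by the section `s` -/
noncomputable def Zeros.equiv (hK : IsCurve K) {Q : Finset (Point K)} (hQ : Q ⊆ Z) :
    H0 (lset Q) ≃ₗ[ℂ] van M (Z \ Q) where
  toFun f := ⟨s * f.1, (h.mem_iff hK hQ f.1).1 f.2⟩
  invFun g := ⟨s⁻¹ * g.1, (h.mem_iff hK hQ _).2 (by
    rw [← mul_assoc, mul_inv_cancel₀ (h.ne hK), one_mul]
    exact g.2)⟩
  left_inv f := by
    apply Subtype.ext
    change s⁻¹ * (s * f.1) = f.1
    rw [← mul_assoc, inv_mul_cancel₀ (h.ne hK), one_mul]
  right_inv f := by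
    apply Subtype.ext
    change s * (s⁻¹ * f.1) = f.1
    rw [← mul_assoc, mul_inv_cancel₀ (h.ne hK), one_mul]
  map_add' f g := by
    apply Subtype.ext
    exact mul_add _ _ _
  map_smul' c f := by
    apply Subtype.ext
    exact mul_smul_comm _ _ _

theorem Zeros.degree (hK : IsCurve K) : (Z.card : ℤ) = M.degree := by
  classical
  have h1 : (lmul M (lprin hK (Units.mk0 s (h.ne hK))⁻¹)).degree = M.degree := by
    rw [lmul_degree, lprin_degree, add_zero]
  rw [← h1, ← lset_degree]
  rw [LineBundle.degree, LineBundle.degree]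
  refine finsum_congr fun v => ?_
  congr 1
  have h2 : v.val ((lset Z).frame v : K) = v.val ((lmul M (lprin hK (Units.mk0 s (h.ne hK))⁻¹)).frame v : K) := by
    change _ = v.val ((M.frame v * (Units.mk0 s (h.ne hK))⁻¹ : Kˣ) : K)
    rw [Units.val_mul, Units.val_inv_eq_inv_val, Units.val_mk0, map_mul, map_inv₀]
    change v.val ((if v ∈ Z then (Units.mk0 (unif v) (unif_ne_zero v))⁻¹ else 1 : Kˣ) : K) = _
    have hp := frame_pos M v
    split_ifs with hv
    · rw [Units.val_inv_eq_inv_val, Units.val_mk0, val_unif_inv, h.simple v hv, mul_inv,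
        ← mul_assoc, mul_inv_cancel₀ hp.ne', one_mul, ← exp_neg, neg_neg]
    · rw [Units.val_one, map_one, h.off v hv, mul_inv_cancel₀ hp.ne']
  rw [Point.ord, Point.ord, h2]

end zeros

open Classical in
theorem om1_eq (hK : IsCurve K) (hg : genus K ≠ 0) {M : LineBundle K} {s : K} {Z : Finset (Point K)}
    (h : Zeros M s Z) {Q : Finset (Point K)} (hQ : Q ⊆ Z)
    (hind : Module.finrank ℂ (van M (Z \ Q)) + (Z \ Q).card = Module.finrank ℂ (H0 M)) :
    Om1 (lset Q) = Om1 (lset Z) := by
  obtain ⟨a1, a2, a3⟩ := lHasChi hK hg (lset Q)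
  obtain ⟨b1, b2, b3⟩ := lHasChi hK hg (lset Z)
  have h1 := (h.equiv hK hQ).finrank_eq
  have h2 := (h.equiv hK (Finset.Subset.refl Z)).finrank_eq
  rw [Finset.sdiff_self, van_empty] at h2
  rw [lset_degree] at a3 b3
  have h3 : (Z \ Q).card + Q.card = Z.card := by
    rw [Finset.card_sdiff_add_card, Finset.union_eq_left.2 hQ]
  symm
  apply Submodule.eq_of_le_of_finrank_eq
  · apply om1_mono
    intro v f hf
    rw [mem_lset] at hf ⊢
    refine hf.trans ?_
    by_cases hv : v ∈ Q
    · rw [if_pos hv, if_pos (hQ hv)]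
    · rw [if_neg hv]
      split_ifs
      · rw [← exp_zero, exp_le_exp]
        norm_num
      · exact le_rfl
  · omega

theorem mem_of_van (hK : IsCurve K) {L M : LineBundle K} {s : K} {Z : Finset (Point K)}
    (h : Zeros M s Z) {f : K} (hf : f ∈ van L Z) : s⁻¹ * f ∈ H0 (lmul L (linv M)) := by
  intro v
  rw [mem_lmul_linv]
  change v.val (s⁻¹ * f * (M.frame v : K)) ≤ v.val (L.frame v : K)
  rw [map_mul, map_mul, map_inv₀]
  have hp := frame_pos M v
  have hl := frame_pos L v
  by_cases hv : v ∈ Z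
  · have h2 := (lt_iff_le_exp hl.ne').1 (hf.2 v hv)
    rw [h.simple v hv, mul_inv, ← exp_neg, neg_neg]
    calc (v.val (M.frame v : K))⁻¹ * exp 1 * v.val f * v.val (M.frame v : K)
        = ((v.val (M.frame v : K))⁻¹ * v.val (M.frame v : K)) * (exp 1 * v.val f) := by ac_rfl
      _ = exp 1 * v.val f := by rw [inv_mul_cancel₀ hp.ne', one_mul]
      _ ≤ exp 1 * (v.val (L.frame v : K) * exp (-1)) := mul_le_mul_right h2 _
      _ = v.val (L.frame v : K) * (exp 1 * exp (-1)) := by ac_rfl
      _ = v.val (L.frame v : K) := by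
          rw [← exp_add]
          simp
  · rw [h.off v hv]
    calc (v.val (M.frame v : K))⁻¹ * v.val f * v.val (M.frame v : K)
        = ((v.val (M.frame v : K))⁻¹ * v.val (M.frame v : K)) * v.val f := by ac_rfl
      _ = v.val f := by rw [inv_mul_cancel₀ hp.ne', one_mul]
      _ ≤ v.val (L.frame v : K) := hf.1 v

theorem finrank_van_le (hK : IsCurve K) (hg : genus K ≠ 0) {L M : LineBundle K} {s : K}
    {Z : Finset (Point K)} (h : Zeros M s Z) :
    Module.finrank ℂ (van L Z) ≤ Module.finrank ℂ (H0 (lmul L (linv M))) := by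
  have := (lHasChi hK hg (lmul L (linv M))).1
  let Φ : van L Z →ₗ[ℂ] H0 (lmul L (linv M)) :=
    { toFun := fun f => ⟨s⁻¹ * f.1, mem_of_van hK h f.2⟩
      map_add' := fun f g => Subtype.ext (mul_add _ _ _)
      map_smul' := fun c f => Subtype.ext (mul_smul_comm _ _ _) }
  apply LinearMap.finrank_le_finrank_of_injective (f := Φ)
  intro f g hfg
  have h1 : s⁻¹ * f.1 = s⁻¹ * g.1 := congrArg Subtype.val hfg
  exact Subtype.ext (mul_left_cancel₀ (inv_ne_zero (h.ne hK)) h1)

theorem van_mono (L : LineBundle K) {Y Y' : Finset (Point K)} (h : Y ⊆ Y') : van L Y' ≤ van L Y :=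
  fun _ hf => ⟨hf.1, fun z hz => hf.2 z (h hz)⟩

theorem infinite_points (hK : IsCurve K) : Infinite (Point K) := by
  obtain ⟨t, ht⟩ := exists_transc hK
  have h : ∀ a : ℂ, ∃ v : Point K, v.val (t - algebraMap ℂ K a) < 1 := fun a => exists_point hK ht a
  choose f hf using h
  refine Infinite.of_injective f fun a b hab => ?_
  have h1 := hf b
  rw [← hab] at h1
  exact point_injective (hf a) h1

open Classical in
/-- finitely many points kill the sections -/
theorem exists_kill (hK : IsCurve K) (hg : genus K ≠ 0) (L : LineBundle K) (n : ℕ) :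
    ∀ Y : Finset (Point K), Module.finrank ℂ (van L Y) ≤ n →
      ∃ P : Finset (Point K), P.card ≤ n ∧ van L (Y ∪ P) = ⊥ := by
  have hfd := (lHasChi hK hg L).1
  have hfd' : ∀ Y, FiniteDimensional ℂ (van L Y) := fun Y =>
    Submodule.finiteDimensional_of_le (fun _ hf => hf.1)
  induction n with
  | zero =>
    intro Y hY
    refine ⟨∅, le_rfl, ?_⟩
    rw [Finset.union_empty]
    have := hfd' Y
    exact Submodule.finrank_eq_zero.1 (Nat.le_zero.1 hY)
  | succ n ih =>
    intro Y hY
    by_cases hbot : van L Y = ⊥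
    · exact ⟨∅, Nat.zero_le _, by rw [Finset.union_empty, hbot]⟩
    · obtain ⟨f, hf, hf0⟩ := Submodule.exists_mem_ne_zero_of_ne_bot hbot
      have hfin : {v : Point K | v.val f < v.val (L.frame v : K)}.Finite := by
        refine ((finite_ord hK f).union L.finite).subset fun v hv => ?_
        by_contra hcon
        simp only [Set.mem_union, Set.mem_ofPred_eq, not_or, not_not] at hcon
        have h1 : v.val f = 1 := (v.val_eq_one_iff hf0).2 hcon.1
        have h2 : v.val f < v.val (L.frame v : K) := hv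
        rw [h1, hcon.2] at h2
        exact lt_irrefl _ h2
      have := infinite_points hK
      obtain ⟨z, hz⟩ := (hfin.infinite_compl).nonempty
      have hz' : ¬ z.val f < z.val (L.frame z : K) := hz
      have hlt : van L (insert z Y) < van L Y := by
        refine lt_of_le_of_ne (van_mono L (Finset.subset_insert z Y)) fun h => ?_
        rw [← h] at hf
        exact hz' (hf.2 z (Finset.mem_insert_self z Y))
      have := hfd' Y
      have h1 := Submodule.finrank_lt_finrank_of_lt hlt
      obtain ⟨P, hP, hPv⟩ := ih (insert z Y) (by omega)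
      refine ⟨insert z P, (Finset.card_insert_le _ _).trans (by omega), ?_⟩
      rwa [Finset.union_insert, ← Finset.insert_union]

/-- `M` has sections in linearly general position -/
def LGP (M : LineBundle K) : Prop :=
  ∀ T : Finset (Point K), ∃ s Z, Zeros M s Z ∧ Disjoint Z T ∧ ∀ B ⊆ Z,
    B.card < Module.finrank ℂ (H0 M) →
      Module.finrank ℂ (van M B) + B.card = Module.finrank ℂ (H0 M)

theorem finrank_eq_one (hK : IsCurve K) {M : LineBundle K} {s : K} (h : Zeros M s ∅) :
    Module.finrank ℂ (H0 M) = 1 := by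
  classical
  have h2 := (h.equiv hK (Finset.Subset.refl ∅)).finrank_eq
  rw [Finset.sdiff_self, van_empty] at h2
  rw [← h2, ← (H0_one hK).2]
  rw [H0_congr]
  intro v
  ext f
  rw [mem_lset, mem_one_stalk, if_neg (Finset.notMem_empty v)]

theorem cocycle_zero (hK : IsCurve K) (hg : genus K ≠ 0) {L M : LineBundle K} (hL1 : Om1 L = ⊥)
    (hgg : GG L) (hM : LGP M) {p : ℕ}
    (hdeg : 2 * (genus K : ℤ) + 1 + p - Module.finrank ℂ (Om1 M) +
      Module.finrank ℂ (H0 (lmul L (linv M))) ≤ L.degree) {m : ℕ} (hm : m ≤ p + 2)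
    (α : H0 L [⋀^Fin m]→ₗ[ℂ] Module.Dual ℂ (repartitions K))
    (hα : ∀ v, α v ∈ Om1 (one K))
    (hco : ∀ (v : Fin (m + 1) → H0 L) r, ∑ l : Fin (m + 1), (-1 : ℂ) ^ (l : ℕ) *
        α (l.removeNth v) (smulR hK (v l).1 r) = 0) : α = 0 := by
  classical
  by_contra hne
  obtain ⟨v, hv⟩ : ∃ v, α v ≠ 0 := by
    by_contra hcon
    push Not at hcon
    exact hne (AlternatingMap.ext hcon)
  have hfin := finite_vanAt hK hg (hα v) hv
  obtain ⟨s, Z, hs, hdis, hind⟩ := hM hfin.toFinset
  have hvan := finrank_van_le (L := L) hK hg hs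
  obtain ⟨P, hPc, hP⟩ := exists_kill hK hg L _ Z hvan
  obtain ⟨A, hAZ, b, hb⟩ := lagrange hK hP
  obtain ⟨l1, l2, l3⟩ := lHasChi hK hg L
  obtain ⟨m1, m2, m3⟩ := lHasChi hK hg M
  have hcard : Module.finrank ℂ (H0 L) = A.card := by
    rw [Module.finrank_eq_card_basis b, Fintype.card_coe]
  rw [hL1, finrank_bot] at l3
  have hZ := hs.degree hK
  have hAP : (A \ Z).card ≤ P.card := by
    apply Finset.card_le_card
    intro z hz
    rw [Finset.mem_sdiff] at hz
    exact (Finset.mem_union.1 (hAZ hz.1)).resolve_left hz.2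
  have hAZ' : (A \ Z).card + (A ∩ Z).card = A.card := Finset.card_sdiff_add_card_inter A Z
  -- the values on the basis
  have hval : ∀ σ : Fin m → A, Function.Injective σ → α (fun i => b (σ i)) ∈ Om1 (lset Z) := by
    intro σ hσ
    set R : Finset (Point K) := Finset.univ.image fun i => (σ i).1 with hR
    have hRc : R.card = m := by
      have hinj : Function.Injective fun i => (σ i).1 := Subtype.val_injective.comp hσ
      rw [hR, Finset.card_image_of_injective _ hinj, Finset.card_univ, Fintype.card_fin]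
    set Q := (A ∩ Z) \ R with hQ
    have hQZ : Q ⊆ Z := Finset.sdiff_subset.trans Finset.inter_subset_right
    have hQc : (A ∩ Z).card ≤ Q.card + m := by
      rw [← hRc, hQ]
      have := Finset.le_card_sdiff R (A ∩ Z)
      omega
    have hZQ : (Z \ Q).card + Q.card = Z.card := by
      rw [Finset.card_sdiff_add_card, Finset.union_eq_left.2 hQZ]
    have h1 : α (fun i => b (σ i)) ∈ Om1 (lset Q) := by
      apply mem_om1_lset (hα _)
      intro z hz
      apply vanish hK α hα hco (hgg z)
      intro i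
      apply hb (σ i) z (Finset.mem_inter.1 (Finset.mem_sdiff.1 hz).1).1
      intro h
      apply (Finset.mem_sdiff.1 hz).2
      rw [h]
      exact Finset.mem_image_of_mem _ (Finset.mem_univ i)
    rwa [om1_eq hK hg hs hQZ] at h1
    apply hind _ Finset.sdiff_subset
    omega
  -- all values
  have hall : ∀ u, α u ∈ Om1 (lset Z) := by
    set q := (Om1 (lset Z)).mkQ with hq
    have h1 : q.compAlternatingMap α = 0 := by
      apply Module.Basis.ext_alternating b
      intro σ hσ
      change q (α fun i => b (σ i)) = 0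
      rw [hq, Submodule.mkQ_apply, Submodule.Quotient.mk_eq_zero]
      exact hval σ hσ
    intro u
    have h2 := congrArg (fun f => f u) h1
    change q (α u) = 0 at h2
    rwa [hq, Submodule.mkQ_apply, Submodule.Quotient.mk_eq_zero] at h2
  -- the contradiction
  rcases Finset.eq_empty_or_nonempty Z with hZ0 | ⟨z, hz⟩
  · subst hZ0
    have h1 := finrank_eq_one hK hs
    rw [van_empty] at hvan
    rw [Finset.card_empty] at hZ
    omega
  · have h3 : VanAt (α v) z := vanAt_of_mem (hall v) hz
    exact (Finset.disjoint_left.1 hdis hz) (hfin.mem_toFinset.2 h3)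

/-- powers of nonspecial line bundles are nonspecial -/
theorem om1_npow (hK : IsCurve K) {L : LineBundle K} (hgg : GG L) (hL1 : Om1 L = ⊥) (j : ℕ) :
    Om1 (npow L (j + 1)) = ⊥ := by
  rw [eq_bot_iff]
  intro w hw
  obtain ⟨v₀⟩ := point_nonempty hK
  obtain ⟨x, hx, hx0⟩ := hgg v₀
  have hxne : x ≠ 0 := by
    intro h0
    rw [h0, map_zero] at hx0
    exact v₀.val_ne_zero (L.frame v₀).ne_zero hx0.symm
  have h1 : w ∘ₗ smulR hK (x ^ j) ∈ Om1 L := by
    apply smul_mem_Om1 hK (L := npow L (j + 1)) (M := L) (N := L) hw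
    intro v s hs
    rw [mem_npow, map_mul, map_pow, pow_succ]
    exact mul_le_mul' (pow_le_pow_left₀ zero_le (hx v) j) hs
  rw [hL1] at h1
  by_contra hw0
  have hw0' : w ≠ 0 := fun h => hw0 ((Submodule.mem_bot ℂ).2 h)
  exact pow_ne_zero j hxne (comp_eq_zero hK hw0' ((Submodule.mem_bot ℂ).1 h1))

/-- the property `N_p`, in terms of the Koszul complex -/
theorem np (hK : IsCurve K) (hg : genus K ≠ 0) {L M : LineBundle K} [FiniteDimensional ℂ (H0 L)]
    (hL1 : Om1 L = ⊥)
    (hgg : GG L) (hM : LGP M) {p : ℕ}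
    (hdeg : 2 * (genus K : ℤ) + 1 + p - Module.finrank ℂ (Om1 M) +
      Module.finrank ℂ (H0 (lmul L (linv M))) ≤ L.degree) {i j : ℕ} (hi : i ≤ p)
    (c : Module.Dual ℂ (H0 L) [⋀^Fin i]→ₗ[ℂ] K) (hc : Cyc L c)
    (hc' : ∀ φ, c φ ∈ H0 (npow L (j + 2))) :
    ∃ e : Module.Dual ℂ (H0 L) [⋀^Fin (i + 1)]→ₗ[ℂ] K, (∀ φ, e φ ∈ H0 (npow L (j + 1))) ∧
      dd (muK L) e = c := by
  apply reduction hK hgg _ c hc hc'
  intro α hα hco
  cases j with
  | zero =>
    apply cocycle_zero hK hg hL1 hgg hM hdeg (by omega) α _ hco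
    intro v
    have h1 := hα v
    refine om1_mono ?_ h1
    intro u s hs
    rw [mem_one_stalk] at hs
    rw [mem_npow, pow_zero]
    exact hs
  | succ j =>
    rw [om1_npow hK hgg hL1 j] at hα
    ext v r
    rw [(Submodule.mem_bot ℂ).1 (hα v)]
    rfl

end Run7.h821
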