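import Pool.Agent.Run7.h821.Fib

/-!
# Pencils
-/

open scoped WithZero IntermediateField
open WithZero
open Pool.Agent.Helper395.CS hiding genus map_mul map_inv
open Pool.Agent.Helper395.BC
open Pool.Agent.R858.QD (LiesOver existsUnique_image)

set_option linter.unusedSectionVars false
set_option linter.unusedVariables false

namespace Run7.h821

variable {K : Type} [Field K] [Algebra ℂ K]

/-- the points of `B` impose independent conditions on the sections of `M` -/
def Ind (M : LineBundle K) (B : Finset (Point K)) : Prop :=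
  ∀ z ∈ B, ∃ f ∈ H0 M, z.val f = z.val (M.frame z : K) ∧
    ∀ z' ∈ B, z' ≠ z → z'.val f < z'.val (M.frame z' : K)

theorem van_insert (hK : IsCurve K) (hg : genus K ≠ 0) {M : LineBundle K} {Y : Finset (Point K)}
    [DecidableEq (Point K)]
    {z : Point K} {f : K} (hf : f ∈ van M Y) (hz : z.val f = z.val (M.frame z : K)) :
    Module.finrank ℂ (van M (insert z Y)) + 1 = Module.finrank ℂ (van M Y) := by
  have hfd := (lHasChi hK hg M).1
  have hfd' : ∀ Y, FiniteDimensional ℂ (van M Y) := fun Y =>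
    Submodule.finiteDimensional_of_le (fun _ hf => hf.1)
  have h0 : f ≠ 0 := by
    intro h0
    rw [h0, map_zero] at hz
    exact (frame_pos M z).ne hz
  have h1 : van M Y = van M (insert z Y) ⊔ Submodule.span ℂ {f} := by
    apply le_antisymm
    · intro g hg'
      obtain ⟨c, hc⟩ := exists_res hK z h0 (by rw [hz]; exact hg'.1 z : z.val g ≤ z.val f)
      have h2 : g = (g - c • f) + c • f := by abel
      rw [h2]
      refine Submodule.add_mem_sup ?_ (Submodule.smul_mem _ c (Submodule.mem_span_singleton_self f))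
      have h3 : g - c • f ∈ van M Y := sub_mem hg' (Submodule.smul_mem _ c hf)
      refine ⟨h3.1, fun u hu => ?_⟩
      rcases Finset.mem_insert.1 hu with rfl | hu
      · rw [hz] at hc
        exact hc
      · exact h3.2 u hu
    · apply sup_le (van_mono M (Finset.subset_insert z Y))
      rw [Submodule.span_singleton_le_iff_mem]
      exact hf
  have h2 : van M (insert z Y) ⊓ Submodule.span ℂ {f} = ⊥ := by
    rw [eq_bot_iff]
    rintro g ⟨hg1, hg2⟩
    obtain ⟨c, rfl⟩ := Submodule.mem_span_singleton.1 hg2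
    rcases eq_or_ne c 0 with rfl | hc
    · rw [zero_smul]
      exact zero_mem _
    · exfalso
      have h3 := hg1.2 z (Finset.mem_insert_self z Y)
      rw [Algebra.smul_def, map_mul, z.const c hc, one_mul, hz] at h3
      exact lt_irrefl _ h3
  have h3 := Submodule.finrank_sup_add_finrank_inf_eq (van M (insert z Y)) (Submodule.span ℂ {f})
  rw [h2, finrank_bot, ← h1, finrank_span_singleton h0] at h3
  omega

theorem Ind.finrank (hK : IsCurve K) (hg : genus K ≠ 0) {M : LineBundle K} {B : Finset (Point K)}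
    (h : Ind M B) : Module.finrank ℂ (van M B) + B.card = Module.finrank ℂ (H0 M) := by
  classical
  have key : ∀ Y : Finset (Point K), Y ⊆ B →
      Module.finrank ℂ (van M Y) + Y.card = Module.finrank ℂ (H0 M) := by
    intro Y
    induction Y using Finset.induction_on with
    | empty =>
      intro _
      rw [van_empty, Finset.card_empty, add_zero]
    | insert z Y hzY ih =>
      intro hY
      have hYB : Y ⊆ B := (Finset.subset_insert z Y).trans hY
      obtain ⟨f, hf, hfz, hfz'⟩ := h z (hY (Finset.mem_insert_self z Y))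
      have h1 := van_insert hK hg (Y := Y) (z := z) (f := f)
        ⟨hf, fun u hu => hfz' u (hYB hu) fun h => hzY (h ▸ hu)⟩ hfz
      rw [Finset.card_insert_of_notMem hzY, ← ih hYB]
      omega
  exact key B (Finset.Subset.refl B)

theorem transc_of_lt {v : Point K} {t : K} (h0 : t ≠ 0) (h : v.val t < 1) : Transcendental ℂ t := by
  by_contra hcon
  obtain ⟨c, rfl⟩ := exists_const hcon
  rcases eq_or_ne c 0 with rfl | hc
  · exact h0 (map_zero _)
  · rw [v.const c hc] at h
    exact lt_irrefl _ h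

theorem finite_res {R : Set (Point K)} (hR : R.Finite) (t : K) :
    {a : ℂ | ∃ v ∈ R, v.val (t - algebraMap ℂ K a) < 1}.Finite := by
  classical
  have h1 : {a : ℂ | ∃ v ∈ R, v.val (t - algebraMap ℂ K a) < 1} ⊆
      (fun v : Point K => if h : ∃ c : ℂ, v.val (t - algebraMap ℂ K c) < 1 then h.choose else 0)
        '' R := by
    rintro c ⟨v, hv, hc⟩
    refine ⟨v, hv, ?_⟩
    have h : ∃ c : ℂ, v.val (t - algebraMap ℂ K c) < 1 := ⟨c, hc⟩
    simp only [dif_pos h]
    exact res_unique v h.choose_spec hc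
  exact (hR.image _).subset h1

theorem finite_pos (hK : IsCurve K) {t : K} (ht : Transcendental ℂ t) (a : ℂ) :
    ∃ Z : Finset (Point K), ∀ v, v ∈ Z ↔ v.val (t - algebraMap ℂ K a) < 1 := by
  have h0 : t - algebraMap ℂ K a ≠ 0 := by
    intro h
    apply ht
    rw [sub_eq_zero.1 h]
    exact isAlgebraic_algebraMap a
  refine ⟨(finite_ord_pos hK (t - algebraMap ℂ K a)).toFinset, fun v => ?_⟩
  rw [Set.Finite.mem_toFinset, v.val_lt_one_iff h0]
  rfl

/-- almost all members of a pencil have simple zeros -/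
theorem finite_nonsimple (hK : IsCurve K) {t : K} (ht : Transcendental ℂ t) :
    {a : ℂ | ¬ ∀ v : Point K, v.val (t - algebraMap ℂ K a) < 1 →
      v.val (t - algebraMap ℂ K a) = exp (-1)}.Finite := by
  refine (finite_res (Pool.Agent.N147.BN.finite_ramified hK ht) t).subset fun a ha => ?_
  have ha' : ¬ ∀ v : Point K, v.val (t - algebraMap ℂ K a) < 1 →
      v.val (t - algebraMap ℂ K a) = exp (-1) := ha
  push Not at ha'
  obtain ⟨v, hv1, hv2⟩ := ha'
  refine ⟨v, ⟨?_, a, ?_⟩, hv1⟩
  · have h1 : t = (t - algebraMap ℂ K a) + algebraMap ℂ K a := by ring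
    rw [h1]
    exact Valuation.map_add_le _ hv1.le (v.const_le a)
  · by_contra h
    exact hv2 (Pool.Agent.N147.BN.eq_of_lt_one hv1 h)

/-- the zeros of the members of a pencil -/
theorem pencil_zeros (hK : IsCurve K) {M : LineBundle K} {s₀ s₁ : K} (hs₀ : s₀ ∈ H0 M)
    (hs₁ : s₁ ∈ H0 M) (hs₁0 : s₁ ≠ 0)
    (hcom : ∀ v : Point K, v.val s₀ = v.val (M.frame v : K) ∨ v.val s₁ = v.val (M.frame v : K))
    {a : ℂ} {Z : Finset (Point K)} (hZ : ∀ v, v ∈ Z ↔ v.val (s₀ / s₁ - algebraMap ℂ K a) < 1)
    (hZ' : ∀ v : Point K, v.val (s₀ / s₁ - algebraMap ℂ K a) < 1 →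
      v.val (s₀ / s₁ - algebraMap ℂ K a) = exp (-1)) :
    Zeros M (s₀ - algebraMap ℂ K a * s₁) Z ∧ ∀ v ∈ Z, v.val s₁ = v.val (M.frame v : K) := by
  have hpos : ∀ v : Point K, 0 < v.val s₁ := fun v => zero_lt_iff.2 (v.val_ne_zero hs₁0)
  have hfac : s₀ - algebraMap ℂ K a * s₁ = (s₀ / s₁ - algebraMap ℂ K a) * s₁ := by
    rw [sub_mul, div_mul_cancel₀ _ hs₁0]
  have hbig : ∀ v : Point K, v.val s₁ < v.val (M.frame v : K) →
      v.val (s₀ - algebraMap ℂ K a * s₁) = v.val (M.frame v : K) ∧
      ¬ v.val (s₀ / s₁ - algebraMap ℂ K a) < 1 := by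
    intro v hv
    have h1 : v.val s₀ = v.val (M.frame v : K) := (hcom v).resolve_right hv.ne
    have h2 : v.val (s₀ - algebraMap ℂ K a * s₁) = v.val (M.frame v : K) := by
      rw [← h1]
      apply Valuation.map_sub_eq_of_lt_left
      rw [map_mul, h1]
      exact (mul_le_of_le_one_left' (v.const_le a)).trans_lt hv
    refine ⟨h2, fun h3 => ?_⟩
    rw [hfac, map_mul] at h2
    have h4 : v.val (s₀ / s₁ - algebraMap ℂ K a) * v.val s₁ < v.val (M.frame v : K) :=
      (mul_le_of_le_one_left' h3.le).trans_lt hv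
    exact h4.ne h2
  have hgen : ∀ v ∈ Z, v.val s₁ = v.val (M.frame v : K) := by
    intro v hv
    by_contra h
    exact (hbig v (lt_of_le_of_ne (hs₁ v) h)).2 ((hZ v).1 hv)
  refine ⟨⟨fun v hv => ?_, fun v hv => ?_⟩, hgen⟩
  · rw [hfac, map_mul, hZ' v ((hZ v).1 hv), hgen v hv, mul_comm]
  · by_cases h : v.val s₁ = v.val (M.frame v : K)
    · have h1 : ¬ v.val (s₀ / s₁ - algebraMap ℂ K a) < 1 := fun h' => hv ((hZ v).2 h')
      have h2 : v.val (s₀ / s₁ - algebraMap ℂ K a) ≤ 1 := by
        refine Valuation.map_sub_le _ ?_ (v.const_le a)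
        rw [map_div₀, h]
        exact div_le_one_of_le₀ (hs₀ v) zero_le
      rw [hfac, map_mul, le_antisymm h2 (not_lt.1 h1), one_mul, h]
    · exact (hbig v (lt_of_le_of_ne (hs₁ v) h)).1

end Run7.h821
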