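import Pool.Agent.Run7.h821.Red

/-!
# Cocycles of differentials and points
-/

open scoped WithZero
open WithZero
open Pool.Agent.Helper395.CS hiding genus
open Pool.Agent.Helper395.BC

set_option linter.unusedSectionVars false
set_option linter.unusedVariables false

namespace Run7.h821

variable {K : Type} [Field K] [Algebra ℂ K]

theorem lt_iff_le_exp {a b : ℤᵐ⁰} (hb : b ≠ 0) : a < b ↔ a ≤ b * exp (-1) := by
  have h : b = b * exp (-1) * exp 1 := by
    rw [mul_assoc, ← exp_add]
    simp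
  conv_lhs => rw [h]
  exact WithZero.lt_mul_exp_iff_le (by simpa using hb)

/-- the line bundle `O(Q)` of a finite set of points -/
noncomputable def lset (Q : Finset (Point K)) : LineBundle K :=
  lfin Q fun v => (Units.mk0 (unif v) (unif_ne_zero v))⁻¹

theorem val_unif_inv (v : Point K) : v.val (unif v)⁻¹ = exp 1 := by
  rw [v.val_eq_exp (inv_ne_zero (unif_ne_zero v)), v.ord_inv, ord_unif, neg_neg]

open Classical in
theorem mem_lset (Q : Finset (Point K)) (v : Point K) (f : K) :
    f ∈ (lset Q).stalk v ↔ v.val f ≤ if v ∈ Q then exp 1 else 1 := by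
  change v.val f ≤ v.val ((if v ∈ Q then (Units.mk0 (unif v) (unif_ne_zero v))⁻¹ else 1 : Kˣ) : K) ↔ _
  split_ifs with h
  · rw [Units.val_inv_eq_inv_val, Units.val_mk0, val_unif_inv]
  · rw [Units.val_one, map_one]

theorem lset_degree (Q : Finset (Point K)) : (lset Q).degree = Q.card := by
  rw [lset, lfin_degree]
  have : ∀ v ∈ Q, -v.ord ((Units.mk0 (unif v) (unif_ne_zero v))⁻¹ : Kˣ) = 1 := by
    intro v _
    rw [Units.val_inv_eq_inv_val, Units.val_mk0, v.ord_inv, ord_unif, neg_neg]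
  rw [Finset.sum_congr rfl this]
  simp

/-- the differential `w` vanishes at `z` -/
def VanAt (w : Module.Dual ℂ (repartitions K)) (z : Point K) : Prop :=
  ∀ f : K, z.val f ≤ exp 1 → w (delta z f) = 0

theorem mem_om1_lset {w : Module.Dual ℂ (repartitions K)} (hw : w ∈ Om1 (one K))
    {Q : Finset (Point K)} (h : ∀ z ∈ Q, VanAt w z) : w ∈ Om1 (lset Q) := by
  classical
  refine ⟨hw.1, fun r hr => ?_⟩
  have h1 : r = (r - ∑ v ∈ Q, delta v (r.1 v)) + ∑ v ∈ Q, delta v (r.1 v) := by abel
  rw [h1, map_add, map_sum]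
  have h2 : w (r - ∑ v ∈ Q, delta v (r.1 v)) = 0 := by
    refine hw.2 _ fun u => ?_
    rw [mem_one_stalk]
    have h3 : (r - ∑ v ∈ Q, delta v (r.1 v)).1 u = r.1 u - ∑ v ∈ Q, (delta v (r.1 v)).1 u := by
      have : ((∑ v ∈ Q, delta v (r.1 v) : repartitions K) : Point K → K) =
          ∑ v ∈ Q, ((delta v (r.1 v)).1 : Point K → K) := AddSubmonoidClass.coe_finsetSum _ _
      change r.1 u - ((∑ v ∈ Q, delta v (r.1 v) : repartitions K) : Point K → K) u = _
      rw [this, Finset.sum_apply]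
    rw [h3]
    by_cases hu : u ∈ Q
    · rw [Finset.sum_eq_single u, delta_self, sub_self]
      · simp
      · intro v _ hv
        exact delta_ne (Ne.symm hv) _
      · exact fun h => absurd hu h
    · rw [Finset.sum_eq_zero, sub_zero]
      · have := (mem_lset Q u _).1 (hr u)
        rwa [if_neg hu] at this
      · intro v hv
        refine delta_ne ?_ _
        rintro rfl
        exact hu hv
  rw [h2, zero_add]
  refine Finset.sum_eq_zero fun v hv => ?_
  apply h v hv
  have := (mem_lset Q v _).1 (hr v)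
  rwa [if_pos hv] at this

theorem vanAt_of_mem {w : Module.Dual ℂ (repartitions K)} {Q : Finset (Point K)}
    (h : w ∈ Om1 (lset Q)) {z : Point K} (hz : z ∈ Q) : VanAt w z := by
  classical
  intro f hf
  refine h.2 _ fun u => ?_
  rw [mem_lset]
  rcases eq_or_ne u z with rfl | hu
  · rw [delta_self, if_pos hz]
    exact hf
  · rw [delta_ne hu]
    simp

theorem om1_mono {L M : LineBundle K} (h : ∀ v s, s ∈ L.stalk v → s ∈ M.stalk v) : Om1 M ≤ Om1 L :=
  fun _ hw => ⟨hw.1, fun r hr => hw.2 r fun v => h v _ (hr v)⟩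

/-- no differentials with many zeros -/
theorem om1_eq_bot (hK : IsCurve K) (hg : genus K ≠ 0) {L : LineBundle K}
    (h : 2 * (genus K : ℤ) - 2 < L.degree) : Om1 L = ⊥ := by
  obtain ⟨h1, h2, h3⟩ := lHasChi hK hg L
  have h4 := (rrL hK hg L).2
  have h5 : H0 (lmul (can hK hg) (linv L)) = ⊥ := by
    apply H0_eq_bot hK
    rw [lmul_degree, linv_degree, can_degree]
    omega
  rw [h5, finrank_bot] at h4
  have h6 : Module.finrank ℂ (Om1 L) = 0 := by omega
  exact Submodule.finrank_eq_zero.1 h6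

theorem finite_vanAt (hK : IsCurve K) (hg : genus K ≠ 0) {w : Module.Dual ℂ (repartitions K)}
    (hw : w ∈ Om1 (one K)) (hw0 : w ≠ 0) : {z | VanAt w z}.Finite := by
  by_contra hinf
  obtain ⟨T, hT, hcard⟩ := Set.Infinite.exists_subset_card_eq hinf (2 * genus K)
  have h1 : w ∈ Om1 (lset T) := mem_om1_lset hw fun z hz => hT hz
  rw [om1_eq_bot hK hg (by rw [lset_degree, hcard]; push_cast; omega)] at h1
  exact hw0 ((Submodule.mem_bot ℂ).1 h1)

theorem smulR_delta (hK : IsCurve K) (g : K) (z : Point K) (f : K) :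
    smulR hK g (delta z f) = delta z (g * f) := by
  apply Subtype.ext
  funext u
  change g * (delta z f).1 u = (delta z (g * f)).1 u
  rcases eq_or_ne u z with rfl | hu
  · rw [delta_self, delta_self]
  · rw [delta_ne hu, delta_ne hu, mul_zero]

theorem vanish (hK : IsCurve K) {L : LineBundle K} {m : ℕ}
    (α : H0 L [⋀^Fin m]→ₗ[ℂ] Module.Dual ℂ (repartitions K)) (hα : ∀ v, α v ∈ Om1 (one K))
    (hco : ∀ (v : Fin (m + 1) → H0 L) r, ∑ l : Fin (m + 1), (-1 : ℂ) ^ (l : ℕ) *
        α (l.removeNth v) (smulR hK (v l).1 r) = 0) {z : Point K}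
    (hz : ∃ w ∈ H0 L, z.val w = z.val (L.frame z : K)) {v : Fin m → H0 L}
    (hv : ∀ a, z.val (v a).1 < z.val (L.frame z : K)) : VanAt (α v) z := by
  obtain ⟨w, hw, hwz⟩ := hz
  have hw0 : w ≠ 0 := by
    intro h0
    rw [h0, map_zero] at hwz
    exact z.val_ne_zero (L.frame z).ne_zero hwz.symm
  intro f hf
  have h1 := hco (Matrix.vecCons (⟨w, hw⟩ : H0 L) v) (delta z (w⁻¹ * f))
  rw [Fin.sum_univ_succ] at h1
  have h2 : ∀ a : Fin m, α (Fin.removeNth a.succ (Matrix.vecCons (⟨w, hw⟩ : H0 L) v))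
      (smulR hK (Matrix.vecCons (⟨w, hw⟩ : H0 L) v a.succ).1 (delta z (w⁻¹ * f))) = 0 := by
    intro a
    rw [Matrix.cons_val_succ, smulR_delta]
    refine (hα _).2 _ fun u => ?_
    rw [mem_one_stalk]
    rcases eq_or_ne u z with rfl | hu
    · rw [delta_self, map_mul, map_mul, map_inv₀, hwz]
      have h3 := (lt_iff_le_exp (frame_pos L u).ne').1 (hv a)
      have h4 := frame_pos L u
      calc u.val (v a).1 * ((u.val (L.frame u : K))⁻¹ * u.val f)
          ≤ (u.val (L.frame u : K) * exp (-1)) * ((u.val (L.frame u : K))⁻¹ * exp 1) :=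
            mul_le_mul' h3 (mul_le_mul_right hf _)
        _ = (u.val (L.frame u : K) * (u.val (L.frame u : K))⁻¹) * (exp (-1) * exp 1) := by
            ac_rfl
        _ = 1 := by
            rw [mul_inv_cancel₀ h4.ne', ← exp_add]
            simp
    · rw [delta_ne hu]
      simp
  rw [Finset.sum_eq_zero (fun a _ => by rw [h2 a, mul_zero]), add_zero] at h1
  simp only [Fin.val_zero, pow_zero, one_mul, Matrix.cons_val_zero] at h1
  rw [smulR_delta, ← mul_assoc, mul_inv_cancel₀ hw0, one_mul] at h1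
  exact h1

/-- residues -/
theorem exists_res (hK : IsCurve K) (z : Point K) {f g : K} (hg : g ≠ 0) (h : z.val f ≤ z.val g) :
    ∃ c : ℂ, z.val (f - c • g) < z.val g := by
  have hg' : 0 < z.val g := zero_lt_iff.2 (z.val_ne_zero hg)
  have h1 : z.val (f / g) ≤ 1 := by
    rw [map_div₀]
    exact div_le_one_of_le₀ h zero_le
  obtain ⟨c, hc⟩ : ∃ c : ℂ, z.val (f / g - algebraMap ℂ K c) < 1 := by
    by_cases ht : Transcendental ℂ (f / g)
    · exact exists_residue hK ht z h1
    · obtain ⟨c, hc⟩ := exists_const ht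
      exact ⟨c, by rw [hc, sub_self]; simp⟩
  refine ⟨c, ?_⟩
  have h2 : f - c • g = (f / g - algebraMap ℂ K c) * g := by
    rw [Algebra.smul_def]
    field_simp
  rw [h2, map_mul]
  exact mul_lt_of_lt_one_left hg' hc

end Run7.h821
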