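import Pool.Agent.Run7.h821.Kos

/-!
# Reduction of the property `N_p` to the vanishing of cocycles of differentials
-/

open scoped WithZero
open Pool.Agent.Helper395.CS Pool.Agent.Helper395.BC

set_option linter.unusedSectionVars false
set_option linter.unusedVariables false

namespace Run7.h821

variable {K : Type} [Field K] [Algebra ℂ K]

section nat

variable {V N N' : Type*} [AddCommGroup V] [Module ℂ V] [FiniteDimensional ℂ V] [AddCommGroup N]
  [Module ℂ N] [AddCommGroup N'] [Module ℂ N']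

theorem dd_comp (μ : V →ₗ[ℂ] N →ₗ[ℂ] N) (μ' : V →ₗ[ℂ] N' →ₗ[ℂ] N') (T : N →ₗ[ℂ] N')
    (hT : ∀ v x, T (μ v x) = μ' v (T x)) {i : ℕ} (c : Module.Dual ℂ V [⋀^Fin (i + 1)]→ₗ[ℂ] N) :
    dd μ' (T.compAlternatingMap c) = T.compAlternatingMap (dd μ c) := by
  ext φ
  rw [dd_apply]
  change _ = T (dd μ c φ)
  rw [dd_apply, map_sum]
  exact Finset.sum_congr rfl fun k _ => (hT _ _).symm

theorem exists_theta (m : ℕ) (S : Submodule ℂ (Module.Dual ℂ V [⋀^Fin m]→ₗ[ℂ] N)) (h : S < ⊤) :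
    ∃ f : (Module.Dual ℂ V [⋀^Fin m]→ₗ[ℂ] N) →ₗ[ℂ] ℂ, f ≠ 0 ∧ ∀ x ∈ S, f x = 0 := by
  obtain ⟨f, hf, hle⟩ := Submodule.exists_le_ker_of_lt_top (K := ℂ)
    (V := Module.Dual ℂ V [⋀^Fin m]→ₗ[ℂ] N) S h
  exact ⟨f, hf, fun x hx => hle hx⟩

end nat

/-- multiplication of functions by sections -/
noncomputable def muK (L : LineBundle K) : H0 L →ₗ[ℂ] K →ₗ[ℂ] K :=
  LinearMap.mul ℂ K ∘ₗ (H0 L).subtype

/-- multiplication of repartitions by sections -/
noncomputable def muR (hK : IsCurve K) (L : LineBundle K) :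
    H0 L →ₗ[ℂ] repartitions K →ₗ[ℂ] repartitions K where
  toFun v := smulR hK v.1
  map_add' x y := LinearMap.ext fun r => smulR_add hK _ _ _
  map_smul' c x := LinearMap.ext fun r => smulR_const hK _ _ _

theorem muK_apply (L : LineBundle K) (v : H0 L) (x : K) : muK L v x = v.1 * x := rfl

theorem muR_apply (hK : IsCurve K) (L : LineBundle K) (v : H0 L) (r : repartitions K) :
    muR hK L v r = smulR hK v.1 r := rfl

/-- the component at a point -/
def evP (v : Point K) : repartitions K →ₗ[ℂ] K where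
  toFun r := r.1 v
  map_add' _ _ := rfl
  map_smul' _ _ := rfl

/-- the powers of a line bundle -/
def npow (L : LineBundle K) (n : ℕ) : LineBundle K where
  frame v := L.frame v ^ n
  finite := by
    refine L.finite.subset fun v hv h => hv ?_
    rw [Units.val_pow_eq_pow_val, map_pow, h, one_pow]

theorem mem_npow (L : LineBundle K) (n : ℕ) (v : Point K) (s : K) :
    s ∈ (npow L n).stalk v ↔ v.val s ≤ v.val (L.frame v : K) ^ n := by
  change v.val s ≤ v.val ((L.frame v ^ n : Kˣ) : K) ↔ _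
  rw [Units.val_pow_eq_pow_val, map_pow]

theorem mem_H0_npow (L : LineBundle K) (n : ℕ) (s : K) :
    s ∈ H0 (npow L n) ↔ ∀ v : Point K, v.val s ≤ v.val (L.frame v : K) ^ n :=
  forall_congr' fun v => mem_npow L n v s

/-- `L` is generated by its global sections -/
def GG (L : LineBundle K) : Prop := ∀ v : Point K, ∃ w ∈ H0 L, v.val w = v.val (L.frame v : K)

section main

variable (L : LineBundle K) [FiniteDimensional ℂ (H0 L)]

/-- cycles of the Koszul complex -/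
def Cyc : ∀ {i : ℕ}, (Module.Dual ℂ (H0 L) [⋀^Fin i]→ₗ[ℂ] K) → Prop
  | 0, _ => True
  | _ + 1, c => dd (muK L) c = 0

variable {L}

/-- multiplication by a function -/
noncomputable def sc {i : ℕ} (u : K) (c : Module.Dual ℂ (H0 L) [⋀^Fin i]→ₗ[ℂ] K) :
    Module.Dual ℂ (H0 L) [⋀^Fin i]→ₗ[ℂ] K := (LinearMap.mulLeft ℂ u).compAlternatingMap c

theorem sc_apply {i : ℕ} (u : K) (c : Module.Dual ℂ (H0 L) [⋀^Fin i]→ₗ[ℂ] K)
    (φ : Fin i → Module.Dual ℂ (H0 L)) : sc u c φ = u * c φ := rfl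

theorem dd_sc {i : ℕ} (u : K) (c : Module.Dual ℂ (H0 L) [⋀^Fin (i + 1)]→ₗ[ℂ] K) :
    dd (muK L) (sc u c) = sc u (dd (muK L) c) := by
  apply dd_comp
  intro v x
  simp only [muK_apply, LinearMap.mulLeft_apply]
  ring

theorem muK_comp {i : ℕ} (w : H0 L) (c : Module.Dual ℂ (H0 L) [⋀^Fin i]→ₗ[ℂ] K) :
    (muK L w).compAlternatingMap c = sc w.1 c := rfl

theorem sc_sc {i : ℕ} (u u' : K) (c : Module.Dual ℂ (H0 L) [⋀^Fin i]→ₗ[ℂ] K) :
    sc u (sc u' c) = sc (u * u') c := by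
  ext φ
  simp only [sc_apply, mul_assoc]

theorem sc_one {i : ℕ} (c : Module.Dual ℂ (H0 L) [⋀^Fin i]→ₗ[ℂ] K) : sc (1 : K) c = c := by
  ext φ
  simp only [sc_apply, one_mul]

theorem sc_sub {i : ℕ} (u : K) (c c' : Module.Dual ℂ (H0 L) [⋀^Fin i]→ₗ[ℂ] K) :
    sc u (c - c') = sc u c - sc u c' := by
  ext φ
  simp only [sc_apply, AlternatingMap.sub_apply, mul_sub]

theorem dd_loc {i : ℕ} {c : Module.Dual ℂ (H0 L) [⋀^Fin i]→ₗ[ℂ] K} (hc : Cyc L c) {w : H0 L}
    (hw : w.1 ≠ 0) : dd (muK L) (sc w.1⁻¹ (wed w c)) = c := by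
  rw [dd_sc]
  cases i with
  | zero => rw [dd_wed_zero, muK_comp, sc_sc, inv_mul_cancel₀ hw, sc_one]
  | succ i =>
    have h0 : dd (muK L) c = 0 := hc
    have h1 : wed w (0 : Module.Dual ℂ (H0 L) [⋀^Fin i]→ₗ[ℂ] K) = 0 := by
      ext φ
      rw [wed_apply]
      simp
    rw [dd_wed, h0, h1, sub_zero, muK_comp, sc_sc, inv_mul_cancel₀ hw, sc_one]

theorem wed_val {i : ℕ} {c : Module.Dual ℂ (H0 L) [⋀^Fin i]→ₗ[ℂ] K} (w : H0 L) (v : Point K)
    {γ : ℤᵐ⁰} (hc : ∀ φ, v.val (c φ) ≤ γ) (φ : Fin (i + 1) → Module.Dual ℂ (H0 L)) :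
    v.val (wed w c φ) ≤ γ := by
  rw [wed_apply]
  refine Valuation.map_sum_le _ fun j _ => ?_
  have h1 : (-1 : ℤ) ^ (j : ℕ) • φ j w • c (j.removeNth φ) =
      ((-1 : ℂ) ^ (j : ℕ) * φ j w) • c (j.removeNth φ) := by
    rw [mul_smul, ← Int.cast_smul_eq_zsmul ℂ]
    push_cast
    rfl
  rw [h1, Algebra.smul_def, map_mul]
  exact (mul_le_of_le_one_left' (v.const_le _)).trans (hc _)

theorem dd_val {i : ℕ} {c : Module.Dual ℂ (H0 L) [⋀^Fin (i + 1)]→ₗ[ℂ] K} (v : Point K) {n : ℕ}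
    (hc : ∀ φ, v.val (c φ) ≤ v.val (L.frame v : K) ^ n) (φ : Fin i → Module.Dual ℂ (H0 L)) :
    v.val (dd (muK L) c φ) ≤ v.val (L.frame v : K) ^ (n + 1) := by
  rw [dd_apply]
  refine Valuation.map_sum_le _ fun k _ => ?_
  rw [muK_apply, map_mul, pow_succ, mul_comm]
  exact mul_le_mul' (hc _) ((Module.finBasis ℂ (H0 L) k).2 v)

/-- forms whose values are repartitions with values in `M` -/
def SA (M : LineBundle K) (m : ℕ) : Submodule ℂ (Module.Dual ℂ (H0 L) [⋀^Fin m]→ₗ[ℂ] repartitions K) where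
  carrier := {f | ∀ φ v, (f φ).1 v ∈ M.stalk v}
  add_mem' := fun ha hb φ v => lstalk_add (ha φ v) (hb φ v)
  zero_mem' := fun φ v => lstalk_zero
  smul_mem' := fun c a ha φ v => lstalk_smul (ha φ v) c

/-- forms whose values are constant repartitions -/
def SB (m : ℕ) : Submodule ℂ (Module.Dual ℂ (H0 L) [⋀^Fin m]→ₗ[ℂ] repartitions K) where
  carrier := {f | ∀ φ, ∃ s, ∀ v, (f φ).1 v = s}
  add_mem' := by
    intro a b ha hb φ
    obtain ⟨s, hs⟩ := ha φ
    obtain ⟨t, ht⟩ := hb φ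
    exact ⟨s + t, fun v => by rw [← hs v, ← ht v]; rfl⟩
  zero_mem' := fun φ => ⟨0, fun v => rfl⟩
  smul_mem' := by
    intro c a ha φ
    obtain ⟨s, hs⟩ := ha φ
    exact ⟨c • s, fun v => by rw [← hs v]; rfl⟩

/-- exact forms -/
noncomputable def SD (hK : IsCurve K) (m : ℕ) :
    Submodule ℂ (Module.Dual ℂ (H0 L) [⋀^Fin m]→ₗ[ℂ] repartitions K) where
  carrier := {f | ∃ g, dd (muR hK L) g = f}
  add_mem' := by
    rintro _ _ ⟨a, rfl⟩ ⟨b, rfl⟩
    exact ⟨a + b, dd_add _ _ _⟩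
  zero_mem' := ⟨0, by simpa using dd_smul (muR hK L) (0 : ℂ) (0 : Module.Dual ℂ (H0 L) [⋀^Fin (m + 1)]→ₗ[ℂ] repartitions K)⟩
  smul_mem' := by
    rintro c _ ⟨a, rfl⟩
    exact ⟨c • a, dd_smul _ _ _⟩

theorem decomp (hK : IsCurve K) (M : LineBundle K) (m : ℕ)
    (hα : ∀ α : H0 L [⋀^Fin m]→ₗ[ℂ] Module.Dual ℂ (repartitions K), (∀ v, α v ∈ Om1 M) →
      (∀ (v : Fin (m + 1) → H0 L) r, ∑ l : Fin (m + 1), (-1 : ℂ) ^ (l : ℕ) *
        α (l.removeNth v) (smulR hK (v l).1 r) = 0) → α = 0) :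
    SA (L := L) M m ⊔ SB m ⊔ SD hK m = ⊤ := by
  by_contra hne
  have hlt : SA (L := L) M m ⊔ SB m ⊔ SD hK m < ⊤ := lt_top_iff_ne_top.2 hne
  obtain ⟨θ, hθ, hle⟩ := exists_theta m _ hlt
  apply hθ
  apply toA_eq_zero
  apply hα
  · intro v
    refine ⟨?_, ?_⟩
    · rintro r ⟨s, hs⟩
      rw [toA_apply]
      refine hle _ (Submodule.mem_sup_left (Submodule.mem_sup_right fun φ => ?_))
      exact ⟨dt v φ • s, fun w => by rw [← hs w]; rfl⟩
    · intro r hr
      rw [toA_apply]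
      refine hle _ (Submodule.mem_sup_left (Submodule.mem_sup_left fun φ w => ?_))
      exact lstalk_smul (hr w) (dt v φ)
  · intro v r
    exact toA_cocycle (muR hK L) θ (fun g => hle _ (Submodule.mem_sup_right ⟨g, rfl⟩)) v r

theorem reduction (hK : IsCurve K) (hgg : GG L) {i j : ℕ}
    (hα : ∀ α : H0 L [⋀^Fin (i + 2)]→ₗ[ℂ] Module.Dual ℂ (repartitions K), (∀ v, α v ∈ Om1 (npow L j)) →
      (∀ (v : Fin (i + 3) → H0 L) r, ∑ l : Fin (i + 3), (-1 : ℂ) ^ (l : ℕ) *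
        α (l.removeNth v) (smulR hK (v l).1 r) = 0) → α = 0)
    (c : Module.Dual ℂ (H0 L) [⋀^Fin i]→ₗ[ℂ] K) (hc : Cyc L c)
    (hc' : ∀ φ, c φ ∈ H0 (npow L (j + 2))) :
    ∃ e : Module.Dual ℂ (H0 L) [⋀^Fin (i + 1)]→ₗ[ℂ] K, (∀ φ, e φ ∈ H0 (npow L (j + 1))) ∧
      dd (muK L) e = c := by
  classical
  obtain ⟨v₀⟩ := point_nonempty hK
  have hgg' : ∀ v : Point K, ∃ w : H0 L, v.val w.1 = v.val (L.frame v : K) := fun v => by
    obtain ⟨w, hw, h⟩ := hgg v
    exact ⟨⟨w, hw⟩, h⟩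
  choose g hg using hgg'
  set η := g v₀ with hη
  have hne : ∀ {v : Point K} {w : H0 L}, v.val w.1 = v.val (L.frame v : K) → w.1 ≠ 0 := by
    intro v w h h0
    rw [h0, map_zero] at h
    exact v.val_ne_zero (L.frame v).ne_zero h.symm
  have hη0 : η.1 ≠ 0 := hne (hg v₀)
  -- local generators
  set w : Point K → H0 L := fun v => if v.val η.1 = v.val (L.frame v : K) then η else g v with hw
  have hwgen : ∀ v : Point K, v.val (w v).1 = v.val (L.frame v : K) := by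
    intro v
    by_cases h : v.val η.1 = v.val (L.frame v : K)
    · rw [hw]; simp only [if_pos h]; exact h
    · rw [hw]; simp only [if_neg h]; exact hg v
  have hw0 : ∀ v, (w v).1 ≠ 0 := fun v => hne (hwgen v)
  have hwfin : {v | w v ≠ η}.Finite := by
    refine ((finite_ord hK η.1).union L.finite).subset fun v hv => ?_
    by_contra hcon
    simp only [Set.mem_union, Set.mem_ofPred_eq, not_or, not_not] at hcon
    apply hv
    have h : v.val η.1 = v.val (L.frame v : K) := by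
      rw [hcon.2, v.val_eq_one_iff hη0]
      exact hcon.1
    rw [hw]
    simp only [if_pos h]
  -- local primitives
  set ev : Point K → Module.Dual ℂ (H0 L) [⋀^Fin (i + 1)]→ₗ[ℂ] K :=
    fun v => sc (w v).1⁻¹ (wed (w v) c) with hev
  set eη : Module.Dual ℂ (H0 L) [⋀^Fin (i + 1)]→ₗ[ℂ] K := sc η.1⁻¹ (wed η c) with heη
  have hdev : ∀ v, dd (muK L) (ev v) = c := fun v => dd_loc hc (hw0 v)
  have hdeη : dd (muK L) eη = c := dd_loc hc hη0
  have hevval : ∀ (v : Point K) φ, v.val (ev v φ) ≤ v.val (L.frame v : K) ^ (j + 1) := by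
    intro v φ
    have h1 : v.val (wed (w v) c φ) ≤ v.val (L.frame v : K) ^ (j + 2) :=
      wed_val (w v) v (fun φ => (mem_H0_npow L _ _).1 (hc' φ) v) φ
    have h2 : ev v φ = (w v).1⁻¹ * wed (w v) c φ := rfl
    have h3 := frame_pos L v
    rw [h2, map_mul, map_inv₀, hwgen, inv_mul_le_iff₀ h3, ← pow_succ']
    exact h1
  set fv : Point K → Module.Dual ℂ (H0 L) [⋀^Fin (i + 2)]→ₗ[ℂ] K :=
    fun v => if w v = η then 0 else sc η.1⁻¹ (wed η (ev v)) with hfv
  have hdz : ∀ n, dd (muK L) (0 : Module.Dual ℂ (H0 L) [⋀^Fin (n + 1)]→ₗ[ℂ] K) = 0 := by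
    intro n
    simpa using dd_smul (muK L) (0 : ℂ) (0 : Module.Dual ℂ (H0 L) [⋀^Fin (n + 1)]→ₗ[ℂ] K)
  have hdfv : ∀ v, dd (muK L) (fv v) = ev v - eη := by
    intro v
    by_cases h : w v = η
    · rw [hfv]
      simp only [if_pos h]
      rw [hdz, hev, heη]
      simp only [h, sub_self]
    · rw [hfv]
      simp only [if_neg h]
      rw [dd_sc, dd_wed, hdev, muK_comp, sc_sub, sc_sc, inv_mul_cancel₀ hη0, sc_one]
  -- the adelic form
  have hfin : ∀ φ, (fun v => fv v φ) ∈ repartitions K := by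
    intro φ
    refine hwfin.subset fun v hv => ?_
    intro h
    apply hv
    change v.val (fv v φ) ≤ 1
    rw [hfv]
    simp only [if_pos h]
    simp
  set F : Module.Dual ℂ (H0 L) [⋀^Fin (i + 2)]→ₗ[ℂ] repartitions K :=
    (AlternatingMap.pi fv).codRestrict (repartitions K) hfin with hF
  have hD : F ∈ SA (L := L) (npow L j) (i + 2) ⊔ SB (i + 2) ⊔ SD hK (i + 2) := by
    rw [decomp hK (npow L j) (i + 2) hα]
    exact Submodule.mem_top
  obtain ⟨y, hy, z, ⟨q, hq⟩, hyz⟩ := Submodule.mem_sup.1 hD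
  obtain ⟨a, ha, b, hb, hab⟩ := Submodule.mem_sup.1 hy
  set bK : Module.Dual ℂ (H0 L) [⋀^Fin (i + 2)]→ₗ[ℂ] K := (evP v₀).compAlternatingMap b with hbK
  have hcomp : ∀ v, fv v = (evP v).compAlternatingMap a + bK +
      dd (muK L) ((evP v).compAlternatingMap q) := by
    intro v
    have h1 : dd (muK L) ((evP v).compAlternatingMap q) =
        (evP v).compAlternatingMap (dd (muR hK L) q) := dd_comp _ _ _ (fun x r => rfl) q
    rw [h1, hq]
    ext φ
    have h2 : F φ = a φ + b φ + z φ := by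
      rw [← hyz, ← hab]
      rfl
    have h3 : fv v φ = (F φ).1 v := rfl
    rw [h3, h2]
    have h4 : (b φ).1 v = (b φ).1 v₀ := by
      obtain ⟨s, hs⟩ := hb φ
      rw [hs, hs]
    change (a φ).1 v + (b φ).1 v + (z φ).1 v = (a φ).1 v + (b φ).1 v₀ + (z φ).1 v
    rw [h4]
  have hmuK : ∀ (x y : H0 L) (t : K), muK L x (muK L y t) = muK L y (muK L x t) := by
    intro x y t
    simp only [muK_apply]
    ring
  have hkey : ∀ v, eη + dd (muK L) bK = ev v - dd (muK L) ((evP v).compAlternatingMap a) := by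
    intro v
    have h1 := hdfv v
    rw [hcomp v, dd_add, dd_add, dd_dd _ hmuK, add_zero] at h1
    rw [sub_eq_iff_eq_add.1 h1.symm]
    abel
  refine ⟨eη + dd (muK L) bK, ?_, ?_⟩
  · intro φ
    rw [mem_H0_npow]
    intro v
    rw [hkey v, AlternatingMap.sub_apply]
    refine (Valuation.map_sub _ _ _).trans (max_le (hevval v φ) ?_)
    apply dd_val
    intro ψ
    exact (mem_npow L j v _).1 (ha ψ v)
  · rw [dd_add, dd_dd _ hmuK, add_zero, hdeη]

end main

end Run7.h821
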