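import Pool.Agent.Run7.h821.Lgp

/-!
# The trisecant lemma
-/

open scoped WithZero IntermediateField
open WithZero
open Pool.Agent.Helper395.CS hiding genus map_mul map_inv
open Pool.Agent.Helper395.BC
open Pool.Agent.R858.QD (LiesOver existsUnique_image)

set_option linter.unusedSectionVars false
set_option linter.unusedVariables false
set_option linter.style.haveILetI false

namespace Run7.h821

variable {K : Type} [Field K] [Algebra ℂ K]

theorem isCurve_inter (hK : IsCurve K) {G : IntermediateField ℂ K} {t : K} (ht : Transcendental ℂ t)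
    (htG : t ∈ G) : IsCurve G := by
  have hle : (ℂ⟮t⟯ : IntermediateField ℂ K) ≤ G := IntermediateField.adjoin_simple_le_iff.2 htG
  have hfd := hK.finiteDimensional ht
  have hF := isCurve_adjoin hK ht
  letI : Algebra ℂ⟮t⟯ G := (IntermediateField.inclusion hle).toAlgebra
  haveI : IsScalarTower ℂ ℂ⟮t⟯ G := IsScalarTower.of_algebraMap_eq fun c => rfl
  let φ : G →ₗ[ℂ⟮t⟯] K :=
    { toFun := fun x => (x : K)
      map_add' := fun x y => rfl
      map_smul' := fun c x => by
        rw [Algebra.smul_def, Algebra.smul_def]
        rfl }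
  haveI : FiniteDimensional ℂ⟮t⟯ G := FiniteDimensional.of_injective φ Subtype.val_injective
  exact isCurve_up hF

/-- if the functions in `G` do not generate the function field, almost every point has a companion -/
theorem companion (hK : IsCurve K) {G : IntermediateField ℂ K} (hG : G ≠ ⊤) {t : K}
    (ht : Transcendental ℂ t) (htG : t ∈ G) :
    {y : Point K | ¬ ∃ z, z ≠ y ∧ ∀ h ∈ G, z.val h = y.val h}.Finite := by
  classical
  have hGc := isCurve_inter hK ht htG
  haveI : FiniteDimensional G K := Pool.Agent.R858.QD.finiteDim hGc hK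
  have hn : 2 ≤ Module.finrank G K := by
    have h1 : 0 < Module.finrank G K := Module.finrank_pos
    have h2 : Module.finrank G K ≠ 1 := by
      intro h
      exact hG (IntermediateField.finrank_eq_one_iff_eq_top.1 h)
    omega
  have himg := fun v : Point K => (existsUnique_image hGc hK G.val v).exists
  choose img himg using himg
  have hfib : ∀ q : Point G, {v : Point K | img v = q}.Finite := by
    intro q
    obtain ⟨T, hT, -⟩ := Pool.Agent.R858.Nm.exists_fib (K := K) q
    refine T.finite_toSet.subset fun v hv => ?_
    rw [Finset.mem_coe, hT]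
    have := himg v
    rw [show img v = q from hv] at this
    exact this
  set Bad : Set (Point K) := {v | v.val t ≤ 1 ∧ ∃ c : ℂ, v.val (t - algebraMap ℂ K c) ≤ exp (-2)} ∪
    {v | ¬ v.val t ≤ 1} with hBad
  have hBadfin : Bad.Finite := (Pool.Agent.N147.BN.finite_ramified hK ht).union (finite_not_reg hK t)
  have hBad' : {y : Point K | img y ∈ img '' Bad}.Finite := by
    have h1 : {y : Point K | img y ∈ img '' Bad} = ⋃ q ∈ img '' Bad, {v | img v = q} := by
      ext y
      simp only [Set.mem_ofPred_eq, Set.mem_image, Set.mem_iUnion, exists_prop]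
      constructor
      · rintro ⟨x, hx, hxy⟩
        exact ⟨_, ⟨x, hx, rfl⟩, hxy.symm⟩
      · rintro ⟨q, ⟨x, hx, rfl⟩, hxy⟩
        exact ⟨x, hx, hxy.symm⟩
    rw [h1]
    exact (hBadfin.image img).biUnion fun q _ => hfib q
  refine hBad'.subset fun y hy => ?_
  by_contra hcon
  apply hy
  have hgood : ∀ v, img v = img y → v ∉ Bad := by
    intro v hv hvB
    exact hcon ⟨v, hvB, hv⟩
  -- residue
  have hyt : y.val t ≤ 1 := by
    by_contra h
    exact hgood y rfl (Or.inr h)
  obtain ⟨c, hc⟩ := exists_res' hK y hyt
  set u : G := ⟨t - algebraMap ℂ K c, sub_mem htG (algebraMap_mem G c)⟩ with hu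
  have hqu : (img y).val u < 1 := (LiesOver.lt_iff (himg y) u).1 hc
  have hone : ∀ v, img v = img y → v.val (t - algebraMap ℂ K c) = exp (-1) := by
    intro v hv
    have h1 : v.val (t - algebraMap ℂ K c) < 1 := by
      have h2 := (LiesOver.lt_iff (himg v) u).2 (by rw [hv]; exact hqu)
      exact h2
    apply Pool.Agent.N147.BN.eq_of_lt_one h1
    intro h3
    apply hgood v hv
    refine Or.inl ⟨?_, c, h3⟩
    have h4 : t = (t - algebraMap ℂ K c) + algebraMap ℂ K c := by ring
    rw [h4]
    exact Valuation.map_add_le _ h1.le (v.const_le c)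
  -- equality of valuations
  have hval : ∀ v, img v = img y → ∀ (h : K) (hh : h ∈ G), v.val h = (img y).val ⟨h, hh⟩ := by
    intro v hv h hh
    have hsurj : Function.Surjective (v.val.comap (algebraMap G K)) := by
      intro x
      rcases eq_or_ne x 0 with rfl | hx
      · exact ⟨0, map_zero _⟩
      · refine ⟨u ^ (-log x), ?_⟩
        change v.val ((u ^ (-log x) : G) : K) = x
        have h1 : ((u ^ (-log x) : G) : K) = (t - algebraMap ℂ K c) ^ (-log x) := by
          rfl
        rw [h1, map_zpow₀, hone v hv, ← exp_zsmul]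
        simp [exp_log hx]
    have h2 : v.val.comap (algebraMap G K) = (img y).val := by
      apply eq_of_valuationSubring_eq hsurj (img y).surj
      ext g
      rw [Valuation.mem_valuationSubring_iff, Valuation.mem_valuationSubring_iff]
      have := himg v g
      rw [hv] at this
      exact this
    exact congrArg (fun w : Valuation G ℤᵐ⁰ => w ⟨h, hh⟩) h2
  -- the number of points
  obtain ⟨T, hT, -⟩ := Pool.Agent.R858.Nm.exists_fib (K := K) (img y)
  have hT' : ∀ v, v ∈ T ↔ img v = img y := by
    intro v
    rw [hT]
    constructor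
    · intro h
      exact Pool.Agent.R858.QD.LiesOver.unique (himg v) h
    · intro h
      have := himg v
      rw [h] at this
      exact this
  have h0 : t - algebraMap ℂ K c ≠ 0 := by
    intro h
    have := hone y rfl
    rw [h, map_zero] at this
    exact exp_ne_zero this.symm
  have hnorm := Pool.Agent.R858.Nm.norm_ord hGc (img y) h0 T hT
  have h1 : Algebra.norm G (t - algebraMap ℂ K c) = u ^ Module.finrank G K := Algebra.norm_algebraMap u
  have h2 : ∀ v ∈ T, v.ord (t - algebraMap ℂ K c) = 1 := by
    intro v hv
    rw [Point.ord, hone v ((hT' v).1 hv), log_exp]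
    norm_num
  have h3 : (img y).ord u = 1 := by
    have h4 := hval y rfl (t - algebraMap ℂ K c) u.2
    rw [hone y rfl] at h4
    rw [Point.ord]
    change -log ((img y).val u) = 1
    rw [← show exp (-1) = (img y).val u from h4, log_exp]
    norm_num
  rw [h1, Point.ord_pow, h3, Finset.sum_congr rfl h2] at hnorm
  simp only [mul_one, Finset.sum_const, nsmul_eq_mul] at hnorm
  have hcard : T.card = Module.finrank G K := by exact_mod_cast hnorm.symm
  obtain ⟨z, hz, hzy⟩ := Finset.exists_mem_ne (s := T) (by omega) y
  refine ⟨z, hzy, fun h hh => ?_⟩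
  rw [hval z ((hT' z).1 hz) h hh, hval y rfl h hh]

end Run7.h821
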