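import Pool.Agent.Run7.h821.Tri

/-!
# Birational maps and generic projections
-/

open scoped WithZero IntermediateField
open WithZero
open Pool.Agent.Helper395.CS hiding genus map_mul map_inv
open Pool.Agent.Helper395.BC
open Pool.Agent.R858.QD (LiesOver existsUnique_image)

set_option linter.unusedSectionVars false
set_option linter.unusedVariables false
set_option linter.style.haveILetI false

namespace Run7.h821

variable {K : Type} [Field K] [Algebra ℂ K]

/-- the functions with the same finite value at two points -/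
def CR (y v : Point K) : Subalgebra ℂ K where
  carrier := {h | ∃ c : ℂ, y.val (h - algebraMap ℂ K c) < 1 ∧ v.val (h - algebraMap ℂ K c) < 1}
  mul_mem' := by
    rintro a b ⟨c, h1, h2⟩ ⟨d, h3, h4⟩
    have key : ∀ u : Point K, u.val (a - algebraMap ℂ K c) < 1 → u.val (b - algebraMap ℂ K d) < 1 →
        u.val (a * b - algebraMap ℂ K (c * d)) < 1 := by
      intro u hu hu'
      have h5 : a * b - algebraMap ℂ K (c * d) = (a - algebraMap ℂ K c) * b +
          algebraMap ℂ K c * (b - algebraMap ℂ K d) := by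
        rw [map_mul]; ring
      have h6 : u.val b ≤ 1 := by
        have h7 : b = (b - algebraMap ℂ K d) + algebraMap ℂ K d := by ring
        rw [h7]
        exact Valuation.map_add_le _ hu'.le (u.const_le d)
      rw [h5]
      refine Valuation.map_add_lt _ ?_ ?_
      · rw [map_mul]
        exact (mul_le_of_le_one_right' h6).trans_lt hu
      · rw [map_mul]
        exact (mul_le_of_le_one_left' (u.const_le c)).trans_lt hu'
    exact ⟨c * d, key y h1 h3, key v h2 h4⟩
  add_mem' := by
    rintro a b ⟨c, h1, h2⟩ ⟨d, h3, h4⟩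
    have h5 : a + b - algebraMap ℂ K (c + d) = (a - algebraMap ℂ K c) + (b - algebraMap ℂ K d) := by
      rw [map_add]; ring
    refine ⟨c + d, ?_, ?_⟩
    · rw [h5]
      exact Valuation.map_add_lt _ h1 h3
    · rw [h5]
      exact Valuation.map_add_lt _ h2 h4
  algebraMap_mem' := fun c => ⟨c, by rw [sub_self]; simp, by rw [sub_self]; simp⟩

theorem CR.div {y v : Point K} {a b : K} (ha : a ∈ CR y v) (hb : b ∈ CR y v) (hy : y.val b = 1) :
    a / b ∈ CR y v := by
  obtain ⟨d, h3, h4⟩ := hb
  have hd : d ≠ 0 := by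
    rintro rfl
    rw [map_zero, sub_zero, hy] at h3
    exact lt_irrefl _ h3
  have hv : v.val b = 1 := by
    apply val_eq_of_congr v.val h4
    exact v.const d hd
  have hinv : b⁻¹ ∈ CR y v := by
    have key : ∀ u : Point K, u.val b = 1 → u.val (b - algebraMap ℂ K d) < 1 →
        u.val (b⁻¹ - algebraMap ℂ K d⁻¹) < 1 := by
      intro u hu hu'
      have hb0 : b ≠ 0 := by
        rintro rfl
        rw [map_zero] at hu
        exact zero_ne_one hu
      have hd0 : algebraMap ℂ K d ≠ 0 := (map_ne_zero _).2 hd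
      have h5 : b⁻¹ - algebraMap ℂ K d⁻¹ = -((b - algebraMap ℂ K d) * (b⁻¹ * algebraMap ℂ K d⁻¹)) := by
        rw [map_inv₀]
        field_simp
        ring
      rw [h5, Valuation.map_neg, map_mul, map_mul, map_inv₀ u.val, hu, inv_one, one_mul]
      exact (mul_le_of_le_one_right' (u.const_le _)).trans_lt hu'
    exact ⟨d⁻¹, key y hy h3, key v hv h4⟩
  rw [div_eq_mul_inv]
  exact mul_mem ha hinv

/-- if the ratios of sections generate the function field, almost every point can be subtracted -/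
theorem gg_general (hK : IsCurve K) (hg : genus K ≠ 0) {N : LineBundle K} (hN : GG N) {s₁ : K}
    (hs₁ : s₁ ∈ H0 N) (hs₁0 : s₁ ≠ 0) {s₀ : K} (hs₀ : s₀ ∈ H0 N) (ht : Transcendental ℂ (s₀ / s₁))
    (hadj : IntermediateField.adjoin ℂ {h : K | h * s₁ ∈ H0 N} = ⊤) :
    {y | ¬ GG (lsub N y)}.Finite := by
  classical
  -- a very ample line bundle
  obtain ⟨D, hD⟩ := exists_large hK (2 * (genus K : ℤ) + 1)
  have hDgg := gg_of_degree hK hg D (by omega)
  have hDsep : ∀ y, GG (lsub D y) := fun y => gg_of_degree hK hg _ (by rw [lsub_degree]; omega)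
  have hfd := (lHasChi hK hg D).1
  obtain ⟨p⟩ := point_nonempty hK
  obtain ⟨s, hs, hsp⟩ := hDgg p
  have hs0 := ne_of_gen hsp
  -- generators of the sections of `D` as fractions
  set b := Module.finBasis ℂ (H0 D) with hb
  have hfrac : ∀ i, ∃ P ∈ Algebra.adjoin ℂ {h : K | h * s₁ ∈ H0 N},
      ∃ Q ∈ Algebra.adjoin ℂ {h : K | h * s₁ ∈ H0 N}, Q ≠ 0 ∧ (b i).1 / s = P / Q := by
    intro i
    have h1 : (b i).1 / s ∈ IntermediateField.adjoin ℂ {h : K | h * s₁ ∈ H0 N} := by
      rw [hadj]; trivial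
    rw [IntermediateField.mem_adjoin_iff_div] at h1
    obtain ⟨r, hr, q, hq, hrq⟩ := h1
    by_cases hq0 : q = 0
    · refine ⟨0, zero_mem _, 1, one_mem _, one_ne_zero, ?_⟩
      rw [hrq, hq0, div_zero, zero_div]
    · exact ⟨r, hr, q, hq, hq0, hrq⟩
  choose P hP Q hQ hQ0 hPQ using hfrac
  -- the exceptional set
  have hfin1 := Pool.Agent.N147.BN.finite_zeros hK N hs₁0
  have hfin2 := Pool.Agent.N147.BN.finite_zeros hK D hs0
  have hfin3 : (⋃ i, {v : Point K | v.ord (Q i) ≠ 0}).Finite := Set.finite_iUnion fun i => finite_ord hK (Q i)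
  have hfin4 := Pool.Agent.N147.BN.finite_ramified hK ht
  refine (((hfin1.union hfin2).union hfin3).union hfin4).subset fun y hy => ?_
  by_contra hcon
  rw [Set.mem_union, Set.mem_union, Set.mem_union, not_or, not_or, not_or] at hcon
  obtain ⟨⟨⟨hy1, hy2⟩, hy3⟩, hy4⟩ := hcon
  have hys₁ : y.val s₁ = y.val (N.frame y : K) := by
    by_contra h
    exact hy1 (lt_of_le_of_ne (hs₁ y) h)
  have hys : y.val s = y.val (D.frame y : K) := by
    by_contra h
    exact hy2 (lt_of_le_of_ne (hs y) h)
  have hyQ : ∀ i, y.val (Q i) = 1 := by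
    intro i
    rw [y.val_eq_one_iff (hQ0 i)]
    by_contra h
    exact hy3 (Set.mem_iUnion.2 ⟨i, h⟩)
  have hpos : ∀ v : Point K, 0 < v.val s₁ := fun v => zero_lt_iff.2 (v.val_ne_zero hs₁0)
  apply hy
  intro v
  by_contra hv
  push Not at hv
  by_cases hvy : v = y
  · -- a section which vanishes simply at `y`
    subst hvy
    have h1 : v.val (s₀ / s₁) ≤ 1 := by
      rw [map_div₀, hys₁]
      exact div_le_one_of_le₀ (hs₀ v) zero_le
    obtain ⟨c, hc⟩ := exists_res' hK v h1
    have h2 : v.val (s₀ / s₁ - algebraMap ℂ K c) = exp (-1) := by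
      apply Pool.Agent.N147.BN.eq_of_lt_one hc
      intro h3
      exact hy4 ⟨h1, c, h3⟩
    have hfac : s₀ - algebraMap ℂ K c * s₁ = (s₀ / s₁ - algebraMap ℂ K c) * s₁ := by
      rw [sub_mul, div_mul_cancel₀ _ hs₁0]
    have h3 : v.val (s₀ - algebraMap ℂ K c * s₁) = v.val (N.frame v : K) * exp (-1) := by
      rw [hfac, map_mul, h2, hys₁, mul_comm]
    have h4 : s₀ - algebraMap ℂ K c * s₁ ∈ H0 (lsub N v) := by
      rw [Pool.Agent.N147.BN.mem_H0_lsub]
      refine ⟨sub_mem hs₀ ?_, ?_⟩
      · rw [← Algebra.smul_def]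
        exact Submodule.smul_mem _ _ hs₁
      · rw [h3]
        exact mul_lt_of_lt_one_right (frame_pos N v) exp_lt_one
    apply hv _ h4
    rw [h3, frame_lsub_self]
  · -- separation
    have hv' : ∀ f ∈ H0 N, y.val f < y.val (N.frame y : K) → v.val f < v.val (N.frame v : K) := by
      intro f hf hfy
      refine lt_of_le_of_ne (hf v) fun h => ?_
      apply hv f ((Pool.Agent.N147.BN.mem_H0_lsub N y f).2 ⟨hf, hfy⟩)
      rw [frame_lsub_ne N hvy, h]
    have hsub : ∀ f ∈ H0 N, ∃ c : ℂ, y.val (f / s₁ - algebraMap ℂ K c) < 1 ∧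
        y.val (f - algebraMap ℂ K c * s₁) < y.val (N.frame y : K) ∧ f - algebraMap ℂ K c * s₁ ∈ H0 N := by
      intro f hf
      have h1 : y.val (f / s₁) ≤ 1 := by
        rw [map_div₀, hys₁]
        exact div_le_one_of_le₀ (hf y) zero_le
      obtain ⟨c, hc⟩ := exists_res' hK y h1
      have hfac : f - algebraMap ℂ K c * s₁ = (f / s₁ - algebraMap ℂ K c) * s₁ := by
        rw [sub_mul, div_mul_cancel₀ _ hs₁0]
      refine ⟨c, hc, ?_, ?_⟩
      · rw [hfac, map_mul, hys₁]
        exact mul_lt_of_lt_one_left (frame_pos N y) hc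
      · refine sub_mem hf ?_
        rw [← Algebra.smul_def]
        exact Submodule.smul_mem _ _ hs₁
    have hvs₁ : v.val s₁ = v.val (N.frame v : K) := by
      by_contra h
      have hlt : v.val s₁ < v.val (N.frame v : K) := lt_of_le_of_ne (hs₁ v) h
      obtain ⟨f, hf, hfv⟩ := hN v
      obtain ⟨c, hc, hc1, hc2⟩ := hsub f hf
      have h1 := hv' _ hc2 hc1
      have h2 : v.val f < v.val (N.frame v : K) := by
        have h3 : f = (f - algebraMap ℂ K c * s₁) + algebraMap ℂ K c * s₁ := by ring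
        rw [h3]
        refine Valuation.map_add_lt _ h1 ?_
        rw [map_mul]
        exact (mul_le_of_le_one_left' (v.const_le c)).trans_lt hlt
      exact h2.ne hfv
    have hA : Algebra.adjoin ℂ {h : K | h * s₁ ∈ H0 N} ≤ CR y v := by
      rw [Algebra.adjoin_le_iff]
      intro h hh
      have hh' : h * s₁ ∈ H0 N := hh
      obtain ⟨c, hc, hc1, hc2⟩ := hsub _ hh'
      rw [mul_div_cancel_right₀ _ hs₁0] at hc
      refine ⟨c, hc, ?_⟩
      have h1 := hv' _ hc2 hc1
      rw [← sub_mul, map_mul, hvs₁] at h1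
      exact (mul_lt_iff_lt_one_left (frame_pos N v)).1 h1
    have hθ : ∀ i, (b i).1 / s ∈ CR y v := by
      intro i
      rw [hPQ i]
      exact CR.div (hA (hP i)) (hA (hQ i)) (hyQ i)
    have hall : ∀ f ∈ H0 D, f / s ∈ CR y v := by
      intro f hf
      have h1 : f = ∑ i, b.repr ⟨f, hf⟩ i • (b i).1 := by
        have h2 := congrArg (H0 D).subtype (b.sum_repr ⟨f, hf⟩)
        rw [_root_.map_sum] at h2
        simp only [map_smul] at h2
        exact h2.symm
      rw [h1, Finset.sum_div]
      refine Subalgebra.sum_mem _ fun i _ => ?_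
      rw [smul_div_assoc]
      exact Subalgebra.smul_mem _ (hθ i) _
    have hvle : ∀ f ∈ H0 D, v.val f ≤ v.val s := by
      intro f hf
      obtain ⟨c, -, hc⟩ := hall f hf
      have h1 : v.val (f / s) ≤ 1 := by
        have h2 : f / s = (f / s - algebraMap ℂ K c) + algebraMap ℂ K c := by ring
        rw [h2]
        exact Valuation.map_add_le _ hc.le (v.const_le c)
      rw [map_div₀, div_le_one₀ (zero_lt_iff.2 (v.val_ne_zero hs0))] at h1
      exact h1
    have hvs : v.val s = v.val (D.frame v : K) := by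
      obtain ⟨f, hf, hfv⟩ := hDgg v
      exact le_antisymm (hs v) (hfv ▸ hvle f hf)
    obtain ⟨f, hf, hfv⟩ := hDsep y v
    rw [Pool.Agent.N147.BN.mem_H0_lsub] at hf
    rw [frame_lsub_ne D hvy] at hfv
    obtain ⟨c, hc1, hc2⟩ := hall f hf.1
    have h1 : y.val (f / s) < 1 := by
      rw [map_div₀, hys, div_lt_one₀ (frame_pos D y)]
      exact hf.2
    have h2 : c = 0 := by
      by_contra h
      have h3 := Valuation.map_sub_lt y.val h1 hc1
      rw [sub_sub_cancel, y.const c h] at h3
      exact lt_irrefl _ h3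
    rw [h2, map_zero, sub_zero, map_div₀, hfv, hvs, div_self (frame_pos D v).ne'] at hc2
    exact lt_irrefl _ hc2

theorem uncountable_points (hK : IsCurve K) : Uncountable (Point K) := by
  obtain ⟨t, ht⟩ := exists_transc hK
  have h : ∀ a : ℂ, ∃ v : Point K, v.val (t - algebraMap ℂ K a) < 1 := fun a => exists_point hK ht a
  choose f hf using h
  have hinj : Function.Injective f := by
    intro a b hab
    have h1 := hf b
    rw [← hab] at h1
    exact point_injective (hf a) h1
  have hC : Uncountable ℂ := ⟨fun h => not_countable_complex (Set.countable_univ_iff.2 h)⟩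
  exact hinj.uncountable

/-- two sections have a combination which vanishes at a given point -/
theorem exists_comb (hK : IsCurve K) {M : LineBundle K} (hgg : GG M) (x : Point K) {f g : K}
    (hf : f ∈ H0 M) (hg' : g ∈ H0 M) : ∃ a b : ℂ, (a, b) ≠ 0 ∧
      x.val (a • f + b • g) < x.val (M.frame x : K) := by
  by_cases h : x.val g = x.val (M.frame x : K)
  · have hg0 := ne_of_gen h
    obtain ⟨c, hc⟩ := exists_res hK x hg0 (by rw [h]; exact hf x : x.val f ≤ x.val g)
    refine ⟨1, -c, fun h => one_ne_zero (congrArg Prod.fst h), ?_⟩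
    rw [one_smul, neg_smul, ← sub_eq_add_neg, ← h]
    exact hc
  · refine ⟨0, 1, fun h => one_ne_zero (congrArg Prod.snd h), ?_⟩
    rw [zero_smul, zero_add, one_smul]
    exact lt_of_le_of_ne (hg' x) h

/-- **The trisecant lemma**: the projection from almost every point of a birationally embedded
curve is birational, if the curve spans a space of dimension at least three. -/
theorem trisecant (hK : IsCurve K) (hg : genus K ≠ 0) {M : LineBundle K}
    (h4 : 4 ≤ Module.finrank ℂ (H0 M)) (hM : GP 2 M) : {x | ¬ GP 2 (lsub M x)}.Finite := by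
  classical
  have hgg : GG M := hM.1
  have hbir : {y | ¬ GG (lsub M y)}.Finite := hM.2
  by_contra hinf
  have hinf1 : {x | ¬ GP 2 (lsub M x)}.Infinite := hinf
  have hinf2 : ({x | ¬ GP 2 (lsub M x)} \ {y | ¬ GG (lsub M y)}).Infinite := hinf1.sdiff hbir
  -- for these points the sections which vanish there do not generate the function field
  have hdata : ∀ x ∈ {x | ¬ GP 2 (lsub M x)} \ {y | ¬ GG (lsub M y)},
      {y : Point K | ¬ ∃ z, z ≠ y ∧ ∀ f ∈ H0 (lsub M x), ∀ s ∈ H0 (lsub M x), s ≠ 0 →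
        z.val (f / s) = y.val (f / s)}.Finite := by
    intro x hx
    have hxgg : GG (lsub M x) := by
      by_contra h
      exact hx.2 h
    have hxn : ¬ {y | ¬ GG (lsub (lsub M x) y)}.Finite := fun h => hx.1 ⟨hxgg, h⟩
    have hfr := finrank_lsub hK hg hgg x
    obtain ⟨p⟩ := point_nonempty hK
    have hfr2 := finrank_lsub hK hg hxgg p
    -- two sections
    have hne : H0 (lsub (lsub M x) p) ≠ ⊥ := by
      intro h
      rw [h, finrank_bot] at hfr2
      omega
    obtain ⟨s₀, hs₀, hs₀0⟩ := Submodule.exists_mem_ne_zero_of_ne_bot hne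
    rw [Pool.Agent.N147.BN.mem_H0_lsub] at hs₀
    obtain ⟨s₁, hs₁, hs₁p⟩ := hxgg p
    have hs₁0 := ne_of_gen hs₁p
    have ht : Transcendental ℂ (s₀ / s₁) := by
      apply transc_of_lt (v := p) (div_ne_zero hs₀0 hs₁0)
      rw [map_div₀, hs₁p, div_lt_one₀ (frame_pos _ p)]
      exact hs₀.2
    set G := IntermediateField.adjoin ℂ {h : K | h * s₁ ∈ H0 (lsub M x)} with hG
    have hmemG : ∀ f ∈ H0 (lsub M x), f / s₁ ∈ G := by
      intro f hf
      apply IntermediateField.subset_adjoin
      change f / s₁ * s₁ ∈ H0 (lsub M x)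
      rw [div_mul_cancel₀ _ hs₁0]
      exact hf
    have hGtop : G ≠ ⊤ := by
      intro h
      exact hxn (gg_general hK hg hxgg hs₁ hs₁0 hs₀.1 ht h)
    refine (companion hK hGtop ht (hmemG s₀ hs₀.1)).subset fun y hy => ?_
    intro hcon
    apply hy
    obtain ⟨z, hzy, hz⟩ := hcon
    refine ⟨z, hzy, fun f hf s hs hs0 => ?_⟩
    have h1 : f / s = (f / s₁) / (s / s₁) := by
      field_simp
    rw [h1]
    exact hz _ (div_mem (hmemG f hf) (hmemG s hs))
  -- a sequence of such points
  let xs := hinf2.natEmbedding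
  have hxs : ∀ k, (xs k : Point K) ∈ {x | ¬ GP 2 (lsub M x)} \ {y | ¬ GG (lsub M y)} := fun k => (xs k).2
  have hxinj : Function.Injective fun k => (xs k : Point K) := Subtype.val_injective.comp xs.injective
  -- a point `y`
  set Bs : ℕ → Set (Point K) := fun k => {y : Point K | ¬ ∃ z, z ≠ y ∧ ∀ f ∈ H0 (lsub M (xs k)),
      ∀ s ∈ H0 (lsub M (xs k)), s ≠ 0 → z.val (f / s) = y.val (f / s)} with hBs
  have hcount : ((⋃ k, Bs k) ∪ (Set.range fun k => (xs k : Point K)) ∪
      {y | ¬ GG (lsub M y)}).Countable := by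
    refine ((Set.countable_iUnion fun k => ?_).union (Set.countable_range _)).union hbir.countable
    exact (hdata _ (hxs k)).countable
  have hunc := uncountable_points hK
  obtain ⟨y, hy⟩ : ∃ y, y ∉ ((⋃ k, Bs k) ∪ (Set.range fun k => (xs k : Point K)) ∪
      {y | ¬ GG (lsub M y)}) := by
    by_contra h
    simp only [not_exists, not_not] at h
    have h1 := Set.eq_univ_of_forall h
    rw [h1] at hcount
    exact hunc.1 (Set.countable_univ_iff.1 hcount)
  rw [Set.mem_union, Set.mem_union, not_or, not_or] at hy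
  obtain ⟨⟨hy1, hy2⟩, hy3⟩ := hy
  have hygg : GG (lsub M y) := by
    by_contra h
    exact hy3 h
  have hyx : ∀ k, (xs k : Point K) ≠ y := fun k h => hy2 ⟨k, h⟩
  have hz : ∀ k, ∃ z, z ≠ y ∧ ∀ f ∈ H0 (lsub M (xs k)), ∀ s ∈ H0 (lsub M (xs k)), s ≠ 0 →
      z.val (f / s) = y.val (f / s) := by
    intro k
    by_contra h
    exact hy1 (Set.mem_iUnion.2 ⟨k, h⟩)
  choose z hzy hz using hz
  have hxgg : ∀ k, GG (lsub M (xs k)) := by
    intro k
    by_contra h
    exact (hxs k).2 h
  -- orders of vanishing at `y` and `z k`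
  have htrans : ∀ k, ∀ f ∈ H0 (lsub M (xs k)), ∀ γ : ℤᵐ⁰, y.val f ≤ y.val (M.frame y : K) * γ →
      (z k).val f ≤ (z k).val (M.frame (z k) : K) * γ := by
    intro k f hf γ hγ
    obtain ⟨s, hs, hsgen⟩ := exists_gen hK hg (hxgg k) {y, z k}
    have hsy : y.val s = y.val (M.frame y : K) := by
      rw [hsgen y (by simp), frame_lsub_ne M (hyx k).symm]
    have hsz := hsgen (z k) (by simp)
    have hs0 := ne_of_gen hsz
    have h1 := hz k f hf s hs hs0
    rw [map_div₀, map_div₀, hsy, div_eq_iff (zero_lt_iff.2 ((z k).val_ne_zero hs0)).ne'] at h1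
    have h2 : y.val f / y.val (M.frame y : K) ≤ γ := by
      rw [div_le_iff₀ (frame_pos M y), mul_comm]
      exact hγ
    rw [h1, mul_comm ((z k).val (M.frame (z k) : K))]
    refine mul_le_mul' h2 ?_
    have h3 := hs (z k)
    rcases eq_or_ne (z k) (xs k) with h | h
    · exact (((Pool.Agent.N147.BN.mem_H0_lsub M (xs k) s).1 hs).1 (z k))
    · exact (((Pool.Agent.N147.BN.mem_H0_lsub M (xs k) s).1 hs).1 (z k))
  -- the points `z k` have finite multiplicity
  have hfibre : ∀ u : Point K, {k | z k = u}.Finite := by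
    intro u
    by_cases huy : u = y
    · refine Set.finite_empty.subset fun k hk => ?_
      exact hzy k (hk.trans huy)
    obtain ⟨f, hf, hfu⟩ := hygg u
    have hfu' : u.val f = u.val (M.frame u : K) := by rw [hfu, frame_lsub_ne M huy]
    have h5 := finrank_lsub hK hg hgg y
    have h6 := finrank_lsub hK hg hygg u
    have hne : H0 (lsub (lsub M y) u) ≠ ⊥ := by
      intro h
      rw [h, finrank_bot] at h6
      omega
    obtain ⟨f₀, hf₀, hf₀0⟩ := Submodule.exists_mem_ne_zero_of_ne_bot hne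
    rw [Pool.Agent.N147.BN.mem_H0_lsub] at hf₀
    obtain ⟨hf₀y, hf₀u⟩ := hf₀
    rw [frame_lsub_ne M huy] at hf₀u
    rw [Pool.Agent.N147.BN.mem_H0_lsub] at hf hf₀y
    have hfin := Pool.Agent.N147.BN.finite_zeros hK M hf₀0
    refine (hfin.preimage (f := fun k => (xs k : Point K)) hxinj.injOn).subset fun k hk => ?_
    change (xs k : Point K).val f₀ < (xs k : Point K).val (M.frame (xs k) : K)
    obtain ⟨a, b, hab, hx⟩ := exists_comb hK hgg (xs k) hf.1 hf₀y.1
    have h7 : a • f + b • f₀ ∈ H0 (lsub M (xs k)) := by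
      rw [Pool.Agent.N147.BN.mem_H0_lsub]
      exact ⟨add_mem (Submodule.smul_mem _ a hf.1) (Submodule.smul_mem _ b hf₀y.1), hx⟩
    have h8 : y.val (a • f + b • f₀) ≤ y.val (M.frame y : K) * exp (-1) := by
      rw [← lt_iff_le_exp (frame_pos M y).ne']
      refine Valuation.map_add_lt _ ?_ ?_
      · rw [Algebra.smul_def, map_mul]
        exact (mul_le_of_le_one_left' (y.const_le _)).trans_lt hf.2
      · rw [Algebra.smul_def, map_mul]
        exact (mul_le_of_le_one_left' (y.const_le _)).trans_lt hf₀y.2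
    have h9 := htrans k _ h7 _ h8
    rw [← lt_iff_le_exp (frame_pos M _).ne', show z k = u from hk] at h9
    have ha : a = 0 := by
      by_contra ha
      have h10 : u.val (a • f) < u.val (M.frame u : K) := by
        have h11 : a • f = (a • f + b • f₀) - b • f₀ := by abel
        rw [h11]
        refine (Valuation.map_sub _ _ _).trans_lt (max_lt h9 ?_)
        rw [Algebra.smul_def, map_mul]
        exact (mul_le_of_le_one_left' (u.const_le _)).trans_lt hf₀u
      rw [Algebra.smul_def, map_mul, u.const a ha, one_mul, hfu'] at h10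
      exact lt_irrefl _ h10
    have hb : b ≠ 0 := by
      rintro rfl
      exact hab (by rw [ha]; rfl)
    rw [ha, zero_smul, zero_add, Algebra.smul_def, map_mul, (xs k : Point K).const b hb, one_mul] at hx
    exact hx
  -- two sections which vanish doubly at `y`
  have h5 := finrank_lsub hK hg hgg y
  have h6 := finrank_lsub hK hg hygg y
  have hfd : FiniteDimensional ℂ (H0 (lsub (lsub M y) y)) := (lHasChi hK hg _).1
  have hr : 2 ≤ Module.finrank ℂ (H0 (lsub (lsub M y) y)) := by omega
  have hdouble : ∀ f ∈ H0 (lsub (lsub M y) y), f ∈ H0 M ∧ y.val f ≤ y.val (M.frame y : K) * exp (-2) := by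
    intro f hf
    rw [Pool.Agent.N147.BN.mem_H0_lsub, Pool.Agent.N147.BN.mem_H0_lsub] at hf
    refine ⟨hf.1.1, ?_⟩
    have h7 := hf.2
    rw [frame_lsub_self] at h7
    rw [lt_iff_le_exp (mul_ne_zero (frame_pos M y).ne' exp_ne_zero), mul_assoc, ← exp_add] at h7
    exact h7
  have hne : H0 (lsub (lsub M y) y) ≠ ⊥ := by
    intro h
    rw [h, finrank_bot] at hr
    omega
  obtain ⟨f₂, hf₂, hf₂0⟩ := Submodule.exists_mem_ne_zero_of_ne_bot hne
  obtain ⟨f₁, hf₁, hind⟩ : ∃ f₁ ∈ H0 (lsub (lsub M y) y), f₁ ∉ Submodule.span ℂ {f₂} := by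
    by_contra h
    push Not at h
    have h7 : H0 (lsub (lsub M y) y) ≤ Submodule.span ℂ {f₂} := h
    have h8 := Submodule.finrank_mono h7
    have h9 := finrank_span_singleton (K := ℂ) hf₂0
    omega
  have hf₁0 : f₁ ≠ 0 := by
    rintro rfl
    exact hind (zero_mem _)
  have htr : Transcendental ℂ (f₁ / f₂) := by
    by_contra hcon
    obtain ⟨c, hc⟩ := exists_const hcon
    apply hind
    rw [Submodule.mem_span_singleton]
    exact ⟨c, by rw [Algebra.smul_def, ← hc, div_mul_cancel₀ _ hf₂0]⟩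
  have hram := Pool.Agent.N147.BN.finite_ramified hK htr
  have hz2 := Pool.Agent.N147.BN.finite_zeros hK M hf₂0
  have hbad : ({k | (xs k : Point K).val f₂ < (xs k : Point K).val (M.frame (xs k) : K)} ∪
      {k | z k ∈ {v : Point K | v.val f₂ < v.val (M.frame v : K)} ∪
        {v : Point K | v.val (f₁ / f₂) ≤ 1 ∧ ∃ c : ℂ, v.val (f₁ / f₂ - algebraMap ℂ K c) ≤ exp (-2)}}).Finite := by
    refine (hz2.preimage (f := fun k => (xs k : Point K)) hxinj.injOn).union ?_
    have h7 := (hz2.union hram).biUnion fun u _ => hfibre u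
    refine h7.subset fun k hk => ?_
    exact Set.mem_biUnion (show z k ∈ _ from hk) rfl
  obtain ⟨k, hk⟩ := hbad.infinite_compl.nonempty
  rw [Set.mem_compl_iff, Set.mem_union, not_or] at hk
  obtain ⟨hk1, hk2⟩ := hk
  rw [Set.mem_ofPred_eq, Set.mem_union, not_or] at hk2
  obtain ⟨hk2, hk3⟩ := hk2
  obtain ⟨hf₁M, hf₁y⟩ := hdouble f₁ hf₁
  obtain ⟨hf₂M, hf₂y⟩ := hdouble f₂ hf₂
  obtain ⟨a, b, hab, hx⟩ := exists_comb hK hgg (xs k) hf₁M hf₂M
  have hmem : a • f₁ + b • f₂ ∈ H0 (lsub M (xs k)) := by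
    rw [Pool.Agent.N147.BN.mem_H0_lsub]
    exact ⟨add_mem (Submodule.smul_mem _ a hf₁M) (Submodule.smul_mem _ b hf₂M), hx⟩
  have hyv : y.val (a • f₁ + b • f₂) ≤ y.val (M.frame y : K) * exp (-2) := by
    refine Valuation.map_add_le _ ?_ ?_
    · rw [Algebra.smul_def, map_mul]
      exact (mul_le_of_le_one_left' (y.const_le _)).trans hf₁y
    · rw [Algebra.smul_def, map_mul]
      exact (mul_le_of_le_one_left' (y.const_le _)).trans hf₂y
  have hzv := htrans k _ hmem _ hyv
  have hzf : (z k).val f₂ = (z k).val (M.frame (z k) : K) := by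
    by_contra h
    exact hk2 (lt_of_le_of_ne (hf₂M _) h)
  have ha : a ≠ 0 := by
    rintro rfl
    have hb : b ≠ 0 := by
      rintro rfl
      exact hab rfl
    rw [zero_smul, zero_add, Algebra.smul_def, map_mul, (xs k : Point K).const b hb, one_mul] at hx
    exact hk1 hx
  apply hk3
  refine ⟨?_, -(b / a), ?_⟩
  · rw [map_div₀, hzf]
    exact div_le_one_of_le₀ (hf₁M _) zero_le
  · have hfac : f₁ / f₂ - algebraMap ℂ K (-(b / a)) = algebraMap ℂ K a⁻¹ * ((a • f₁ + b • f₂) / f₂) := by
      have ha' : algebraMap ℂ K a ≠ 0 := (map_ne_zero _).2 ha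
      rw [Algebra.smul_def, Algebra.smul_def, map_neg, map_div₀, map_inv₀]
      field_simp
      ring
    rw [hfac, map_mul, (z k).const _ (inv_ne_zero ha), one_mul, map_div₀, hzf,
      div_le_iff₀ (frame_pos M _), mul_comm]
    exact hzv

end Run7.h821
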